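import Mathlib

/-!
# MP_216314_pr, stream AS: definitions

`sw y = 1 / cosh (π y)`, the orthonormal polynomials `PP k`, the weights `wg γ`, the symbol `Qb β`,
moment functionals `Mo W p v = ∫ p(y) e^{i v y} W(y) dy`, three term recursions `pol al be ga`,
truncated multiplication matrices `TA μ P n g`, the class `OPS μ P`, condition `DB M f`.
-/

open MeasureTheory Complex
open scoped BigOperators

namespace PAS

noncomputable section

/-- the reference density `sech (π y)` (a probability density on `ℝ`) -/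
def sw (y : ℝ) : ℝ := 1 / Real.cosh (Real.pi * y)

/-- polynomials given by a three term recursion -/
def pol (al be ga : ℕ → ℂ) : ℕ → Polynomial ℂ
  | 0 => 1
  | 1 => Polynomial.C (al 0) * Polynomial.X + Polynomial.C (be 0)
  | (k+2) => (Polynomial.C (al (k+1)) * Polynomial.X + Polynomial.C (be (k+1))) * pol al be ga (k+1)
      - Polynomial.C (ga (k+1)) * pol al be ga k

/-- the orthonormal polynomials of `sw` as real functions -/
def PP : ℕ → ℝ → ℝ
  | 0, _ => 1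
  | 1, y => 2 * y
  | (k+2), y => (2 * y * PP (k+1) y - ((k:ℝ)+1) * PP k y) / ((k:ℝ)+2)

/-- recursion coefficients of `PP` -/
def alP (k : ℕ) : ℂ := 2 / ((k:ℂ)+1)
def gaP (k : ℕ) : ℂ := (k:ℂ) / ((k:ℂ)+1)
/-- `PP` as complex polynomials -/
def polP (k : ℕ) : Polynomial ℂ := pol alP (fun _ => 0) gaP k

/-- continuous and exponentially decaying -/
def EDec (W : ℝ → ℂ) : Prop :=
  Continuous W ∧ ∃ C c : ℝ, 0 < c ∧ ∀ y, ‖W y‖ ≤ C * Real.exp (-c * |y|)

/-- moments twisted by a character -/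
def Mo (W : ℝ → ℂ) (p : Polynomial ℂ) (v : ℝ) : ℂ :=
  ∫ y : ℝ, p.eval (y:ℂ) * cexp (I * v * y) * W y

/-- the explicit weights `1/(cosh (π y) + cos γ)` -/
def wg (γ : ℝ) (y : ℝ) : ℝ := 1 / (Real.cosh (Real.pi * y) + Real.cos γ)

/-- the symbol of the weight `wg γ` relative to `sw`, `cosh(π y)/(cosh(π y)+cos γ)` -/
def qg (γ : ℝ) (y : ℝ) : ℝ := Real.cosh (Real.pi * y) / (Real.cosh (Real.pi * y) + Real.cos γ)

/-- recursion coefficient of the monic orthogonal polynomials of `wg γ`, `ν = γ/π` -/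
def bsq (ν : ℝ) (k : ℕ) : ℝ := (k:ℝ)^2 * ((k:ℝ)^2 - ν^2) / (4 * (k:ℝ)^2 - 1)

/-- monic orthogonal polynomials of `wg γ` -/
def polW (ν : ℝ) (k : ℕ) : Polynomial ℂ := pol (fun _ => 1) (fun _ => 0) (fun k => (bsq ν k : ℂ)) k

/-- the symbol `Q_β` -/
def Qb (β : ℝ) (y : ℝ) : ℂ :=
  2 * Complex.cosh (Real.pi * y) * Complex.cosh (Real.pi * y / 2 - I * β)
    / Complex.cosh (3 * Real.pi * y / 2 - I * β)

/-- truncated multiplication matrix -/
def TA (μ : Measure ℝ) (P : ℕ → ℝ → ℝ) (n : ℕ) (g : ℝ → ℂ) : Matrix (Fin n) (Fin n) ℂ :=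
  Matrix.of fun m k => ∫ y, g y * ((P m y * P k y : ℝ) : ℂ) ∂μ

/-- the probability measure `sech (π y) dy` -/
def mw : Measure ℝ := (volume : Measure ℝ).withDensity (fun y => ENNReal.ofReal (sw y))

/-- orthonormal functions with a Christoffel-Darboux formula and the bound on `I_n` -/
structure OPS (μ : Measure ℝ) (P : ℕ → ℝ → ℝ) : Prop where
  cont : ∀ k, Continuous (P k)
  int : ∀ m k, Integrable (fun y => P m y * P k y) μ
  orth : ∀ m k, ∫ y, P m y * P k y ∂μ = if m = k then 1 else 0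
  cd : ∀ (n : ℕ) (x y : ℝ), (x - y) * ∑ m ∈ Finset.range (n+1), P m x * P m y
        = ((n:ℝ)+1)/2 * (P (n+1) x * P n y - P n x * P (n+1) y)
  iN : ∀ n : ℕ, ∫ y, P n y ^ 2 / (1 + y^2) ∂μ ≤ 4 / ((n:ℝ)+1)

/-- condition (D) -/
def DB (M : ℝ) (f : ℝ → ℂ) : Prop :=
  ∀ x y : ℝ, ‖f x - f y‖^2 * ((1 + x^2) * (1 + y^2)) ≤ M * (x - y)^2

/-- remainder of the projection of `g P_m` on the span of `P_0,…,P_{n-1}` -/
def rem (μ : Measure ℝ) (P : ℕ → ℝ → ℝ) (n : ℕ) (g : ℝ → ℂ) (m : Fin n) (y : ℝ) : ℂ :=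
  g y * (P m y : ℂ) - ∑ l : Fin n, TA μ P n g m l * (P l y : ℂ)

/-- the Hilbert-Schmidt quantity -/
def HS (μ : Measure ℝ) (P : ℕ → ℝ → ℝ) (n : ℕ) (g : ℝ → ℂ) : ℝ :=
  ∑ m : Fin n, ∫ y, ‖rem μ P n g m y‖^2 ∂μ

end

end PAS
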