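import Pool.Agent.Lib.MP_216314_pr.AS.ADef

/-!
Basic facts on `pol`, `polP`, `PP`.

`pol_deg`, `pol_coeff`: two step induction on `k`; degree `≤ k`, coefficient of `X^k` is `∏_{j<k} al j`
(`Polynomial.coeff_mul_X`, `Polynomial.coeff_C_mul`, coefficients above the degree vanish:
`Polynomial.coeff_eq_zero_of_natDegree_lt`).
`polP_lead`: `∏_{j<k} 2/(j+1) = 2^k/k!` (`Finset.prod_range_succ`, `Nat.factorial_succ`, `push_cast`, `field_simp`).
`polP_eval`: two step induction (strong induction), unfold `PP`, `pol`, `Polynomial.eval`, casts.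
`PP_cont`, `PP_rec`: induction/unfolding. `sw_pos`, `sw_cont`, `sw_le`: `cosh y ≥ exp|y|/2` (`Real.cosh_eq`, cases on the sign),
`sw_le2`: `cosh t ≥ 1 + t²/2` (`Real.one_add_sq_div_two_le_cosh`? if absent: `Real.cosh_sq`-type or
`cosh t = 1 + 2 sinh²(t/2)`, `|sinh s| ≥ |s|`, `Real.self_le_sinh_iff`), and `π² /2 ≥ 1`.
-/

open MeasureTheory Complex

namespace PAS

theorem pol_rec (al be ga : ℕ → ℂ) (k : ℕ) : pol al be ga (k+2)
    = (Polynomial.C (al (k+1)) * Polynomial.X + Polynomial.C (be (k+1))) * pol al be ga (k+1)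
      - Polynomial.C (ga (k+1)) * pol al be ga k := rfl

theorem pol_deg (al be ga : ℕ → ℂ) (k : ℕ) : (pol al be ga k).natDegree ≤ k := by
  induction k using Nat.strong_induction_on with
  | _ k ih =>
    match k, ih with
    | 0, _ =>
      show (1 : Polynomial ℂ).natDegree ≤ 0
      rw [Polynomial.natDegree_one]
    | 1, _ =>
      show (Polynomial.C (al 0) * Polynomial.X + Polynomial.C (be 0)).natDegree ≤ 1
      exact Polynomial.natDegree_linear_le
    | k + 2, ih =>
      rw [pol_rec]
      have h1 := ih (k + 1) (by omega)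
      have h0 := ih k (by omega)
      have h2 : (Polynomial.C (al (k+1)) * Polynomial.X + Polynomial.C (be (k+1))).natDegree ≤ 1 :=
        Polynomial.natDegree_linear_le
      refine (Polynomial.natDegree_sub_le _ _).trans (max_le ?_ ?_)
      · refine Polynomial.natDegree_mul_le.trans ?_
        omega
      · refine (Polynomial.natDegree_C_mul_le _ _).trans ?_
        omega

theorem pol_coeff (al be ga : ℕ → ℂ) (k : ℕ) :
    (pol al be ga k).coeff k = ∏ j ∈ Finset.range k, al j := by
  induction k using Nat.strong_induction_on with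
  | _ k ih =>
    match k, ih with
    | 0, _ =>
      show (1 : Polynomial ℂ).coeff 0 = _
      simp
    | 1, _ =>
      show (Polynomial.C (al 0) * Polynomial.X + Polynomial.C (be 0)).coeff 1 = _
      simp [Polynomial.coeff_C]
    | k + 2, ih =>
      have h1 := ih (k + 1) (by omega)
      have d1 : (pol al be ga (k+1)).coeff (k + 2) = 0 :=
        Polynomial.coeff_eq_zero_of_natDegree_lt
          (lt_of_le_of_lt (pol_deg al be ga (k+1)) (by omega))
      have d0 : (pol al be ga k).coeff (k + 2) = 0 :=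
        Polynomial.coeff_eq_zero_of_natDegree_lt
          (lt_of_le_of_lt (pol_deg al be ga k) (by omega))
      rw [pol_rec, Polynomial.coeff_sub, add_mul, Polynomial.coeff_add, mul_assoc,
        Polynomial.coeff_C_mul, Polynomial.coeff_C_mul, Polynomial.coeff_C_mul,
        Polynomial.coeff_X_mul, d1, d0, h1, Finset.prod_range_succ _ (k + 1)]
      ring

theorem polP_lead (k : ℕ) : (∏ j ∈ Finset.range k, alP j) = 2^k / (k.factorial : ℂ) := by
  induction k with
  | zero => simp
  | succ k ih =>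
    rw [Finset.prod_range_succ, ih, Nat.factorial_succ]
    unfold alP
    have h1 : ((k.factorial : ℕ) : ℂ) ≠ 0 := by exact_mod_cast k.factorial_ne_zero
    have h2 : (k : ℂ) + 1 ≠ 0 := by exact_mod_cast k.succ_ne_zero
    push_cast
    field_simp
    ring

theorem PP_rec (k : ℕ) (y : ℝ) :
    ((k:ℝ)+2) * PP (k+2) y = 2 * y * PP (k+1) y - ((k:ℝ)+1) * PP k y := by
  have h : PP (k+2) y = (2 * y * PP (k+1) y - ((k:ℝ)+1) * PP k y) / ((k:ℝ)+2) := rfl
  have h2 : (k:ℝ) + 2 ≠ 0 := by positivity
  rw [h, mul_div_cancel₀ _ h2]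

theorem PP_cont (k : ℕ) : Continuous (PP k) := by
  induction k using Nat.strong_induction_on with
  | _ k ih =>
    match k, ih with
    | 0, _ => exact (continuous_const : Continuous fun _ : ℝ => (1 : ℝ))
    | 1, _ => exact (continuous_const.mul continuous_id : Continuous fun y : ℝ => 2 * y)
    | k + 2, ih =>
      have h1 := ih (k + 1) (by omega)
      have h0 := ih k (by omega)
      exact (((continuous_const.mul continuous_id).mul h1).sub (continuous_const.mul h0)).div_const _

theorem polP_eval (k : ℕ) (y : ℝ) : (polP k).eval (y:ℂ) = ((PP k y : ℝ) : ℂ) := by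
  induction k using Nat.strong_induction_on with
  | _ k ih =>
    match k, ih with
    | 0, _ =>
      show (1 : Polynomial ℂ).eval (y:ℂ) = (((1 : ℝ)) : ℂ)
      simp
    | 1, _ =>
      show (Polynomial.C (alP 0) * Polynomial.X + Polynomial.C (0 : ℂ)).eval (y:ℂ) = ((2 * y : ℝ) : ℂ)
      unfold alP
      simp
    | k + 2, ih =>
      have h1 := ih (k + 1) (by omega)
      have h0 := ih k (by omega)
      have e : polP (k+2) = (Polynomial.C (alP (k+1)) * Polynomial.X + Polynomial.C 0) * polP (k+1)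
        - Polynomial.C (gaP (k+1)) * polP k := rfl
      have e2 : PP (k+2) y = (2 * y * PP (k+1) y - ((k:ℝ)+1) * PP k y) / ((k:ℝ)+2) := rfl
      have h2 : (k:ℂ) + 2 ≠ 0 := by exact_mod_cast (k + 1).succ_ne_zero
      have h3 : (k:ℂ) + 1 + 1 ≠ 0 := by
        have : (k:ℂ) + 1 + 1 = (k:ℂ) + 2 := by ring
        rw [this]
        exact h2
      rw [e, e2, Polynomial.eval_sub, Polynomial.eval_mul, Polynomial.eval_add, Polynomial.eval_mul,
        Polynomial.eval_mul, Polynomial.eval_C, Polynomial.eval_C, Polynomial.eval_C,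
        Polynomial.eval_X, h1, h0]
      unfold alP gaP
      push_cast
      field_simp
      ring

theorem sw_pos (y : ℝ) : 0 < sw y := by
  unfold sw
  exact one_div_pos.2 (Real.cosh_pos _)

theorem sw_cont : Continuous sw := by
  unfold sw
  exact continuous_const.div (Real.continuous_cosh.comp (continuous_const.mul continuous_id))
    (fun y => (Real.cosh_pos _).ne')

theorem sw_le (y : ℝ) : sw y ≤ 2 * Real.exp (-Real.pi * |y|) := by
  unfold sw
  have hp : 0 < Real.pi := Real.pi_pos
  have h1 : Real.exp (Real.pi * |y|) / 2 ≤ Real.cosh (Real.pi * y) := by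
    have h2 : |Real.pi * y| = Real.pi * |y| := by rw [abs_mul, abs_of_pos hp]
    rw [← Real.cosh_abs, h2, Real.cosh_eq]
    have h3 := Real.exp_pos (-(Real.pi * |y|))
    linarith
  have h4 : 0 < Real.exp (Real.pi * |y|) / 2 := by positivity
  calc 1 / Real.cosh (Real.pi * y) ≤ 1 / (Real.exp (Real.pi * |y|) / 2) :=
        one_div_le_one_div_of_le h4 h1
    _ = 2 * Real.exp (-Real.pi * |y|) := by
        have h5 : -Real.pi * |y| = -(Real.pi * |y|) := by ring
        rw [h5, Real.exp_neg, one_div_div, div_eq_mul_inv]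

theorem sw_le_one (y : ℝ) : sw y ≤ 1 := by
  unfold sw
  rw [div_le_one (Real.cosh_pos _)]
  exact Real.one_le_cosh _

theorem sw_le2 (y : ℝ) : sw y ≤ 1 / (1 + y^2) := by
  unfold sw
  have h1 : 1 + y ^ 2 ≤ Real.cosh (Real.pi * y) := by
    obtain ⟨x, hx⟩ : ∃ x : ℝ, x = Real.pi * y / 2 := ⟨_, rfl⟩
    have h2 : Real.pi * y = 2 * x := by rw [hx]; ring
    have h3 : x ^ 2 ≤ Real.sinh x ^ 2 := by
      have h4 : |x| ≤ Real.sinh |x| := Real.self_le_sinh_iff.2 (abs_nonneg x)
      rw [← Real.abs_sinh] at h4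
      exact sq_le_sq.2 h4
    rw [h2, Real.cosh_two_mul, Real.cosh_sq]
    have h5 : y ^ 2 ≤ 2 * x ^ 2 := by
      rw [hx]
      have h6 := Real.pi_gt_three
      have h7 : 2 * (Real.pi * y / 2) ^ 2 = y ^ 2 * (Real.pi ^ 2 / 2) := by ring
      rw [h7]
      have h8 : 1 ≤ Real.pi ^ 2 / 2 := by nlinarith
      exact le_mul_of_one_le_right (sq_nonneg y) h8
    linarith
  exact one_div_le_one_div_of_le (by positivity) h1

theorem edec_sw : EDec (fun y => ((sw y : ℝ) : ℂ)) := by
  refine ⟨Complex.continuous_ofReal.comp sw_cont, 2, Real.pi, Real.pi_pos, fun y => ?_⟩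
  rw [Complex.norm_real, Real.norm_eq_abs, abs_of_pos (sw_pos y)]
  exact sw_le y

end PAS
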