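import Pool.Agent.Lib.MP_216314_pr.AS.DDB
import Pool.Agent.Lib.MP_216314_pr.AS.GPol

/-!
D2. The real symbols `f_γ = log (cosh πy/(cosh πy + cos γ))`, `0 < γ < π`.

PROOF. `c = cosh (π y) ≥ 1`, `k = cos γ`, `|k| < 1`, so `c + k ≥ c (1 - |k|) > 0` and `qg γ y ∈ [1/(1+|k|), 1/(1-|k|)]`: bounded log.
`|log q| `: `q = 1 - k/(c+k)`, `|q - 1| = |k|/(c+k) ≤ sw y/(1-|k|)`; `|log q| ≤ |q-1| / min(1,q)`:
from `1 - 1/q ≤ log q ≤ q - 1` (`Real.one_sub_inv_le_log_of_pos`, `Real.log_le_sub_one_of_pos`), `1/q ≤ 1+|k| ≤ 2`: `|log q| ≤ 2 |q-1|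
≤ 2 sw y/(1-|k|)`. So `|log q|² ≤ (2/(1-|k|))² sw y² ≤ C2/(1+y²)` (`sw_le2`, `sw_le_one`).
Derivative: `log c - log (c+k)` has derivative `π sinh(πy) (1/c - 1/(c+k)) = π sinh(π y) k/(c (c+k))`, norm
`≤ π |k|/(c+k) ≤ π sw y/(1-|k|) ≤ C1/(1+y²)` (`|sinh| ≤ cosh`). Then `db_of` for the complex cast (`HasDerivAt.ofReal_comp`).
-/

open MeasureTheory Complex

namespace PAS

private theorem DFg_k {γ : ℝ} (h0 : 0 < γ) (h1 : γ < Real.pi) : |Real.cos γ| < 1 := by
  have h2 := Real.sin_pos_of_pos_of_lt_pi h0 h1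
  have h3 := Real.sin_sq_add_cos_sq γ
  have h4 : 0 < Real.sin γ ^ 2 := by positivity
  exact abs_lt.2 ⟨by nlinarith, by nlinarith⟩

private theorem DFg_den {γ : ℝ} (y : ℝ) :
    Real.cosh (Real.pi * y) * (1 - |Real.cos γ|) ≤ Real.cosh (Real.pi * y) + Real.cos γ := by
  have h2 := Real.one_le_cosh (Real.pi * y)
  have h3 := abs_nonneg (Real.cos γ)
  have h4 := neg_abs_le (Real.cos γ)
  nlinarith

private theorem DFg_den_pos {γ : ℝ} (h0 : 0 < γ) (h1 : γ < Real.pi) (y : ℝ) :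
    0 < Real.cosh (Real.pi * y) + Real.cos γ :=
  lt_of_lt_of_le (mul_pos (Real.cosh_pos _) (sub_pos.2 (DFg_k h0 h1))) (DFg_den y)

theorem qg_pos {γ : ℝ} (h0 : 0 < γ) (h1 : γ < Real.pi) (y : ℝ) : 0 < qg γ y := by
  unfold qg
  exact div_pos (Real.cosh_pos _) (DFg_den_pos h0 h1 y)

/-- `1 / (c + k) ≤ sw y / (1 - |k|)` -/
private theorem DFg_inv {γ : ℝ} (h0 : 0 < γ) (h1 : γ < Real.pi) (y : ℝ) :
    1 / (Real.cosh (Real.pi * y) + Real.cos γ) ≤ sw y / (1 - |Real.cos γ|) := by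
  have hk : 0 < 1 - |Real.cos γ| := sub_pos.2 (DFg_k h0 h1)
  unfold sw
  rw [div_div]
  exact one_div_le_one_div_of_le (mul_pos (Real.cosh_pos _) hk) (DFg_den y)

private theorem DFg_log {γ : ℝ} (h0 : 0 < γ) (h1 : γ < Real.pi) (y : ℝ) :
    |Real.log (qg γ y)| ≤ sw y / (1 - |Real.cos γ|) := by
  have hk : 0 < 1 - |Real.cos γ| := sub_pos.2 (DFg_k h0 h1)
  have hc := Real.cosh_pos (Real.pi * y)
  have hd := DFg_den_pos h0 h1 y
  have hq := qg_pos h0 h1 y
  have hs : 0 < sw y := sw_pos y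
  have hinv := DFg_inv h0 h1 y
  have hab := abs_nonneg (Real.cos γ)
  have h2 := Real.log_le_sub_one_of_pos hq
  have h3 := Real.one_sub_inv_le_log_of_pos hq
  have h4 : qg γ y - 1 = -Real.cos γ * (1 / (Real.cosh (Real.pi * y) + Real.cos γ)) := by
    unfold qg
    field_simp
    ring
  have h5 : 1 - (qg γ y)⁻¹ = -Real.cos γ * sw y := by
    unfold qg sw
    field_simp
    ring
  have h6 : 0 < 1 / (Real.cosh (Real.pi * y) + Real.cos γ) := by positivity
  have hle : sw y ≤ sw y / (1 - |Real.cos γ|) := by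
    rw [le_div_iff₀ hk]
    nlinarith
  have hk1 : |Real.cos γ| ≤ 1 := (DFg_k h0 h1).le
  rw [abs_le]
  constructor
  · rw [h5] at h3
    have h7 : -Real.cos γ * sw y ≥ -sw y := by
      have := neg_abs_le (-Real.cos γ)
      rw [abs_neg] at this
      nlinarith
    linarith
  · rw [h4] at h2
    have h8 : -Real.cos γ * (1 / (Real.cosh (Real.pi * y) + Real.cos γ)) ≤
        1 / (Real.cosh (Real.pi * y) + Real.cos γ) := by
      have := neg_abs_le (Real.cos γ)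
      nlinarith
    linarith

theorem fg_cont {γ : ℝ} (h0 : 0 < γ) (h1 : γ < Real.pi) : Continuous (fun y => Real.log (qg γ y)) := by
  refine Continuous.log ?_ fun y => (qg_pos h0 h1 y).ne'
  unfold qg
  refine Continuous.div ?_ ?_ fun y => (DFg_den_pos h0 h1 y).ne'
  · exact Real.continuous_cosh.comp (continuous_const.mul continuous_id)
  · exact (Real.continuous_cosh.comp (continuous_const.mul continuous_id)).add continuous_const

theorem fg_bdd {γ : ℝ} (h0 : 0 < γ) (h1 : γ < Real.pi) : ∃ F : ℝ, ∀ y, |Real.log (qg γ y)| ≤ F := by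
  have hk : 0 < 1 - |Real.cos γ| := sub_pos.2 (DFg_k h0 h1)
  refine ⟨1 / (1 - |Real.cos γ|), fun y => (DFg_log h0 h1 y).trans ?_⟩
  exact (div_le_div_iff_of_pos_right hk).2 (sw_le_one y)

private theorem DFg_deriv {γ : ℝ} (h0 : 0 < γ) (h1 : γ < Real.pi) (y : ℝ) :
    HasDerivAt (fun y => Real.log (qg γ y)) (Real.pi * Real.sinh (Real.pi * y) * Real.cos γ /
      (Real.cosh (Real.pi * y) * (Real.cosh (Real.pi * y) + Real.cos γ))) y := by
  have hc := Real.cosh_pos (Real.pi * y)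
  have hd := DFg_den_pos h0 h1 y
  have h2 : HasDerivAt (fun y : ℝ => Real.pi * y) Real.pi y := by
    simpa using (hasDerivAt_id y).const_mul Real.pi
  have h3 : HasDerivAt (fun y : ℝ => Real.cosh (Real.pi * y))
      (Real.sinh (Real.pi * y) * Real.pi) y := h2.cosh
  have h4 := h3.add_const (Real.cos γ)
  have h5 := h3.div h4 hd.ne'
  have h6 := h5.log (qg_pos h0 h1 y).ne'
  refine h6.congr_deriv ?_
  simp only [Pi.div_apply]
  field_simp
  ring

private theorem DFg_sinh (x : ℝ) : |Real.sinh x| ≤ Real.cosh x := by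
  have h1 := Real.cosh_add_sinh x
  have h2 := Real.cosh_sub_sinh x
  have h3 := Real.exp_pos x
  have h4 := Real.exp_pos (-x)
  exact abs_le.2 ⟨by linarith, by linarith⟩

theorem fg_DB {γ : ℝ} (h0 : 0 < γ) (h1 : γ < Real.pi) :
    ∃ M, 0 < M ∧ DB M (fun y => ((Real.log (qg γ y) : ℝ) : ℂ)) := by
  have hk : 0 < 1 - |Real.cos γ| := sub_pos.2 (DFg_k h0 h1)
  refine db_of (fun t => (DFg_deriv h0 h1 t).ofReal_comp) (C1 := Real.pi / (1 - |Real.cos γ|))
    (C2 := (1 / (1 - |Real.cos γ|)) ^ 2) (fun t => ?_) (fun y => ?_)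
  · have hc := Real.cosh_pos (Real.pi * t)
    have hd := DFg_den_pos h0 h1 t
    have hs := DFg_sinh (Real.pi * t)
    have hp := Real.pi_pos
    rw [Complex.norm_real, Real.norm_eq_abs, abs_div, abs_mul, abs_mul, abs_of_pos hp,
      abs_of_pos (mul_pos hc hd)]
    have h2 : Real.pi * |Real.sinh (Real.pi * t)| * |Real.cos γ| /
        (Real.cosh (Real.pi * t) * (Real.cosh (Real.pi * t) + Real.cos γ)) ≤
        Real.pi * (1 / (Real.cosh (Real.pi * t) + Real.cos γ)) := by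
      rw [mul_one_div, div_le_div_iff₀ (mul_pos hc hd) hd]
      have h3 : |Real.sinh (Real.pi * t)| * |Real.cos γ| ≤ Real.cosh (Real.pi * t) * 1 :=
        mul_le_mul hs (DFg_k h0 h1).le (abs_nonneg _) hc.le
      have h4 : Real.pi * (Real.cosh (Real.pi * t) + Real.cos γ) *
          (|Real.sinh (Real.pi * t)| * |Real.cos γ|) ≤
          Real.pi * (Real.cosh (Real.pi * t) + Real.cos γ) * (Real.cosh (Real.pi * t) * 1) :=
        mul_le_mul_of_nonneg_left h3 (mul_pos hp hd).le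
      linarith
    refine h2.trans ?_
    refine (mul_le_mul_of_nonneg_left (DFg_inv h0 h1 t) hp.le).trans ?_
    have h5 : Real.pi * (sw t / (1 - |Real.cos γ|)) = Real.pi / (1 - |Real.cos γ|) * sw t := by
      ring
    have h6 : Real.pi / (1 - |Real.cos γ|) / (1 + t ^ 2) =
        Real.pi / (1 - |Real.cos γ|) * (1 / (1 + t ^ 2)) := by ring
    rw [h5, h6]
    exact mul_le_mul_of_nonneg_left (sw_le2 t) (div_pos hp hk).le
  · rw [Complex.norm_real, Real.norm_eq_abs]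
    have h2 := DFg_log h0 h1 y
    have h3 := sw_pos y
    have h4 : |Real.log (qg γ y)| ^ 2 ≤ (sw y / (1 - |Real.cos γ|)) ^ 2 :=
      pow_le_pow_left₀ (abs_nonneg _) h2 2
    have h5 : (sw y / (1 - |Real.cos γ|)) ^ 2 = (1 / (1 - |Real.cos γ|)) ^ 2 * sw y ^ 2 := by ring
    have h6 : (1 / (1 - |Real.cos γ|)) ^ 2 / (1 + y ^ 2) =
        (1 / (1 - |Real.cos γ|)) ^ 2 * (1 / (1 + y ^ 2)) := by ring
    have h7 : sw y ^ 2 ≤ 1 / (1 + y ^ 2) := by
      have h8 := sw_le_one y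
      have h9 := sw_le2 y
      nlinarith
    rw [h6]
    rw [h5] at h4
    exact h4.trans (mul_le_mul_of_nonneg_left h7 (sq_nonneg _))

end PAS
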