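import Pool.Agent.Lib.MP_216314_pr.AS.DQa
import Pool.Agent.Lib.MP_216314_pr.AS.DFg

/-!
D5. `Re Log Q_β = (f_{γ1}+f_{γ2}+f_{γ3} - f_{2β})/2`, `γ1 = 2β/3`, `γ2 = (2π+2β)/3`, `γ3 = (2π-2β)/3`.

PROOF. `Re log Q = log ‖Q‖ = (1/2) log ‖Q‖²` and `Qb_normSq`. Factorisation: `4c³-3c+cos 2β = 4 (c+cos γ1)(c+cos γ2)(c+cos γ3)`:
put `θ = 2β/3`, `cos γ2 = cos(2π/3 + θ)`, `cos γ3 = cos(2π/3 - θ)`: `= -(1/2) cos θ ∓ (√3/2) sin θ`, `cos 2β = cos 3θ = 4cos³θ-3cos θ`; expand, use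
`sin²θ = 1-cos²θ`, `√3² = 3`. Then `‖Q‖² = c²(c+k)/∏(c+cos γ_j)` and
`f_{γ1}+f_{γ2}+f_{γ3} - f_{2β} = log (c³/∏(c+cos γ_j)) - log (c/(c+k)) = log ‖Q‖²` (`Real.log_div`, `Real.log_mul`, all factors positive:
`c ≥ 1`, `cos γ > -1`).
-/

open MeasureTheory Complex

namespace PAS

private theorem DFac_cos_gt {γ : ℝ} (h0 : 0 < γ) (h1 : γ < Real.pi) : -1 < Real.cos γ := by
  rw [← Real.cos_pi]
  exact Real.cos_lt_cos_of_nonneg_of_le_pi h0.le le_rfl h1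

private theorem DFac_poly (c θ : ℝ) :
    4 * c ^ 3 - 3 * c + Real.cos (3 * θ) =
      4 * ((c + Real.cos θ) * (c + Real.cos (2 * Real.pi / 3 + θ)) *
        (c + Real.cos (2 * Real.pi / 3 - θ))) := by
  have hc : Real.cos (2 * Real.pi / 3) = -1 / 2 := by
    have h1 : 2 * Real.pi / 3 = Real.pi - Real.pi / 3 := by ring
    rw [h1, Real.cos_pi_sub, Real.cos_pi_div_three]
    norm_num
  have hs : Real.sin (2 * Real.pi / 3) ^ 2 = 3 / 4 := by
    rw [Real.sin_sq, hc]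
    norm_num
  have h2 : Real.sin θ ^ 2 = 1 - Real.cos θ ^ 2 := Real.sin_sq θ
  rw [Real.cos_add, Real.cos_sub, Real.cos_three_mul, hc]
  obtain ⟨a, ha⟩ : ∃ a : ℝ, a = Real.cos θ := ⟨_, rfl⟩
  obtain ⟨s, hs'⟩ : ∃ s : ℝ, s = Real.sin θ := ⟨_, rfl⟩
  obtain ⟨t, ht⟩ : ∃ t : ℝ, t = Real.sin (2 * Real.pi / 3) := ⟨_, rfl⟩
  rw [← ht] at hs ⊢
  rw [← ha, ← hs'] at h2
  rw [← ha, ← hs']
  linear_combination (4 * (c + a) * s ^ 2) * hs + 3 * (c + a) * h2

private theorem DFac_log {γ : ℝ} (y : ℝ) (h : 0 < Real.cosh (Real.pi * y) + Real.cos γ) :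
    Real.log (qg γ y) = Real.log (Real.cosh (Real.pi * y)) -
      Real.log (Real.cosh (Real.pi * y) + Real.cos γ) := by
  unfold qg
  rw [Real.log_div (Real.cosh_pos _).ne' h.ne']

theorem lq_fac {β : ℝ} (h0 : 0 < β) (h : β < Real.pi / 2) (y : ℝ) :
    (Complex.log (Qb β y)).re = (1/2) * (Real.log (qg (2*β/3) y) + Real.log (qg ((2*Real.pi + 2*β)/3) y)
      + Real.log (qg ((2*Real.pi - 2*β)/3) y) - Real.log (qg (2*β) y)) := by
  have hβ : |β| < Real.pi / 2 := by rw [abs_of_pos h0]; exact h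
  have hpi := Real.pi_pos
  have hc1 : 1 ≤ Real.cosh (Real.pi * y) := Real.one_le_cosh _
  have e2 : (2*Real.pi + 2*β)/3 = 2 * Real.pi / 3 + 2*β/3 := by ring
  have e3 : (2*Real.pi - 2*β)/3 = 2 * Real.pi / 3 - 2*β/3 := by ring
  have p1 := DFac_cos_gt (γ := 2*β/3) (by linarith) (by linarith)
  have p2 := DFac_cos_gt (γ := (2*Real.pi + 2*β)/3) (by linarith) (by linarith)
  have p3 := DFac_cos_gt (γ := (2*Real.pi - 2*β)/3) (by linarith) (by linarith)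
  have p4 := DFac_cos_gt (γ := 2*β) (by linarith) (by linarith)
  rw [DFac_log y (by linarith), DFac_log y (by linarith), DFac_log y (by linarith),
    DFac_log y (by linarith)]
  have hN := Qb_normSq hβ y
  have hpoly := DFac_poly (Real.cosh (Real.pi * y)) (2*β/3)
  have e4 : 3 * (2*β/3) = 2 * β := by ring
  rw [e4, ← e2, ← e3] at hpoly
  rw [hpoly] at hN
  rw [Complex.log_re]
  have hl : Real.log (‖Qb β y‖ ^ 2) = 2 * Real.log ‖Qb β y‖ := by
    rw [Real.log_pow]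
    norm_num
  obtain ⟨c, hc⟩ : ∃ c : ℝ, c = Real.cosh (Real.pi * y) := ⟨_, rfl⟩
  rw [← hc] at hN hc1 ⊢
  have q0 : 0 < c := by linarith
  have q1 : 0 < c + Real.cos (2*β/3) := by linarith
  have q2 : 0 < c + Real.cos ((2*Real.pi + 2*β)/3) := by linarith
  have q3 : 0 < c + Real.cos ((2*Real.pi - 2*β)/3) := by linarith
  have q4 : 0 < c + Real.cos (2*β) := by linarith
  rw [hN, Real.log_div (by positivity) (by positivity), Real.log_mul (by positivity) q4.ne',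
    Real.log_mul (by norm_num) (by positivity), Real.log_mul (by norm_num) (by positivity),
    Real.log_mul (by positivity) q3.ne', Real.log_mul q1.ne' q2.ne', Real.log_pow] at hl
  push_cast at hl
  linarith

end PAS
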