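import Pool.Agent.Lib.MP_216314_pr.AS.ADef

/-!
D1. Criterion for condition (D).

PROOF. Let `M = max (π² C1²/4) (2 C2) + 1 > 0` (`C1 ≥ 0`, `C2 ≥ 0` from the bounds at `0`). Fix `x y`.
Case `x*y < -1`: `‖f x - f y‖² ≤ 2‖f x‖² + 2‖f y‖² ≤ 2C2 (1/(1+x²) + 1/(1+y²))`, times `(1+x²)(1+y²)`: `≤ 2 C2 (2+x²+y²) ≤ 2 C2 (x-y)²`
because `(x-y)² = x²+y²-2xy > x²+y²+2`.
Case `-1 ≤ x*y`: `‖f x - f y‖ ≤ C1 |arctan x - arctan y|`: w.l.o.g. `x ≤ y` (`norm_sub_rev`), apply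
`image_norm_le_of_norm_deriv_right_le_deriv_boundary`(with `f t - f x` and boundary `C1 (arctan t - arctan x)`, derivative `C1/(1+t²)`) or
write `f y - f x = ∫ f'` ... any method (e.g. `Convex.norm_image_sub_le...` is not enough). With `A = arctan x`, `B = arctan y`
(`Real.cos_arctan`, `Real.sin_arctan`): `cos (A-B) = (1+xy)/(sqrt(1+x²) sqrt(1+y²)) ≥ 0`, `sin(A-B) = (x-y)/(sqrt(1+x²) sqrt(1+y²))`, and
`A - B ∈ (-π, π)` (`Real.arctan_lt_pi_div_two`, `Real.neg_pi_div_two_lt_arctan`), so `|A-B| ≤ π/2`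
(otherwise `cos (A-B) < 0`: `Real.cos_neg_of_pi_div_two_lt_of_lt`), and Jordan `Real.mul_le_sin : 0 ≤ x → x ≤ π/2 → 2/π * x ≤ sin x` gives
`|A-B| ≤ (π/2) |sin(A-B)|`. So `‖f x - f y‖² (1+x²)(1+y²) ≤ C1² (π²/4) (x-y)²`.
-/

open MeasureTheory Complex

namespace PAS

private theorem DDB_arctan {f f' : ℝ → ℂ} (hd : ∀ t, HasDerivAt f (f' t) t) {C1 : ℝ}
    (h1 : ∀ t, ‖f' t‖ ≤ C1 / (1 + t^2)) {x y : ℝ} (hxy : x ≤ y) :
    ‖f y - f x‖ ≤ C1 * (Real.arctan y - Real.arctan x) := by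
  have hcont : Continuous f := continuous_iff_continuousAt.2 fun t => (hd t).continuousAt
  have hB : ∀ t : ℝ, HasDerivAt (fun s => C1 * (Real.arctan s - Real.arctan x))
      (C1 / (1 + t ^ 2)) t := by
    intro t
    have h3 := ((Real.hasDerivAt_arctan t).sub_const (Real.arctan x)).const_mul C1
    have e : C1 * (1 / (1 + t ^ 2)) = C1 / (1 + t ^ 2) := by ring
    rwa [e] at h3
  have h4 := image_norm_le_of_norm_deriv_right_le_deriv_boundary (f := fun t => f t - f x)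
    (f' := f') (a := x) (b := y) (hcont.sub continuous_const).continuousOn
    (fun t _ => ((hd t).sub_const (f x)).hasDerivWithinAt)
    (B := fun s => C1 * (Real.arctan s - Real.arctan x)) (B' := fun t => C1 / (1 + t ^ 2))
    (by simp) hB (fun t _ => h1 t) (Set.right_mem_Icc.2 hxy)
  exact h4

private theorem DDB_cos {x y : ℝ} :
    Real.cos (Real.arctan y - Real.arctan x) * (Real.sqrt (1 + x ^ 2) * Real.sqrt (1 + y ^ 2)) =
      1 + x * y := by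
  have hx : Real.sqrt (1 + x ^ 2) ≠ 0 := by positivity
  have hy : Real.sqrt (1 + y ^ 2) ≠ 0 := by positivity
  rw [Real.cos_sub, Real.cos_arctan, Real.cos_arctan, Real.sin_arctan, Real.sin_arctan]
  field_simp

private theorem DDB_sin {x y : ℝ} :
    Real.sin (Real.arctan y - Real.arctan x) * (Real.sqrt (1 + x ^ 2) * Real.sqrt (1 + y ^ 2)) =
      y - x := by
  have hx : Real.sqrt (1 + x ^ 2) ≠ 0 := by positivity
  have hy : Real.sqrt (1 + y ^ 2) ≠ 0 := by positivity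
  rw [Real.sin_sub, Real.cos_arctan, Real.cos_arctan, Real.sin_arctan, Real.sin_arctan]
  field_simp

private theorem DDB_ord {f f' : ℝ → ℂ} (hd : ∀ t, HasDerivAt f (f' t) t) {C1 : ℝ}
    (hC1 : 0 ≤ C1) (h1 : ∀ t, ‖f' t‖ ≤ C1 / (1 + t^2)) {x y : ℝ} (hxy : x ≤ y)
    (hc : -1 ≤ x * y) :
    ‖f y - f x‖ ^ 2 * ((1 + x ^ 2) * (1 + y ^ 2)) ≤ Real.pi ^ 2 * C1 ^ 2 / 4 * (y - x) ^ 2 := by
  have h2 := DDB_arctan hd h1 hxy
  have h3 := DDB_cos (x := x) (y := y)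
  have h4 := DDB_sin (x := x) (y := y)
  have hx : 0 < Real.sqrt (1 + x ^ 2) := by positivity
  have hy : 0 < Real.sqrt (1 + y ^ 2) := by positivity
  have hx2 : Real.sqrt (1 + x ^ 2) ^ 2 = 1 + x ^ 2 := Real.sq_sqrt (by positivity)
  have hy2 : Real.sqrt (1 + y ^ 2) ^ 2 = 1 + y ^ 2 := Real.sq_sqrt (by positivity)
  have hD0 : 0 ≤ Real.arctan y - Real.arctan x := sub_nonneg.2 (Real.arctan_strictMono.monotone hxy)
  have hDpi : Real.arctan y - Real.arctan x < Real.pi := by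
    have e1 := Real.arctan_lt_pi_div_two y
    have e2 := Real.neg_pi_div_two_lt_arctan x
    linarith
  set D : ℝ := Real.arctan y - Real.arctan x with hD
  set u : ℝ := Real.sqrt (1 + x ^ 2) * Real.sqrt (1 + y ^ 2) with hu
  have hu0 : 0 < u := mul_pos hx hy
  have hu2 : u ^ 2 = (1 + x ^ 2) * (1 + y ^ 2) := by
    rw [hu, mul_pow, hx2, hy2]
  have hpi := Real.pi_pos
  have hDhalf : D ≤ Real.pi / 2 := by
    by_contra hcon
    push Not at hcon
    have h5 := Real.cos_neg_of_pi_div_two_lt_of_lt hcon (by linarith)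
    have h6 : Real.cos D * u < 0 := mul_neg_of_neg_of_pos h5 hu0
    linarith
  have h7 := Real.mul_le_sin hD0 hDhalf
  have h8 : D * u ≤ Real.pi / 2 * (y - x) := by
    have e1 : D = Real.pi / 2 * (2 / Real.pi * D) := by field_simp
    calc D * u = Real.pi / 2 * (2 / Real.pi * D) * u := by rw [← e1]
      _ ≤ Real.pi / 2 * Real.sin D * u :=
          mul_le_mul_of_nonneg_right (mul_le_mul_of_nonneg_left h7 (by positivity)) hu0.le
      _ = Real.pi / 2 * (Real.sin D * u) := by ring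
      _ = Real.pi / 2 * (y - x) := by rw [h4]
  have h9 : ‖f y - f x‖ * u ≤ C1 * (Real.pi / 2 * (y - x)) := by
    calc ‖f y - f x‖ * u ≤ C1 * D * u := mul_le_mul_of_nonneg_right h2 hu0.le
      _ = C1 * (D * u) := by ring
      _ ≤ _ := mul_le_mul_of_nonneg_left h8 hC1
  have h10 : 0 ≤ ‖f y - f x‖ * u := by positivity
  have h11 := pow_le_pow_left₀ h10 h9 2
  rw [← hu2]
  calc ‖f y - f x‖ ^ 2 * u ^ 2 = (‖f y - f x‖ * u) ^ 2 := by ring
    _ ≤ (C1 * (Real.pi / 2 * (y - x))) ^ 2 := h11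
    _ = _ := by ring

theorem db_of {f f' : ℝ → ℂ} (hd : ∀ t, HasDerivAt f (f' t) t) {C1 C2 : ℝ}
    (h1 : ∀ t, ‖f' t‖ ≤ C1 / (1 + t^2)) (h2 : ∀ y, ‖f y‖^2 ≤ C2 / (1 + y^2)) : ∃ M, 0 < M ∧ DB M f := by
  have hC1 : 0 ≤ C1 := by
    have h := h1 0
    have h' := (norm_nonneg (f' 0)).trans h
    simpa using h'
  have hC2 : 0 ≤ C2 := by
    have h := h2 0
    have h' := (sq_nonneg ‖f 0‖).trans h
    simpa using h'
  have hA : 0 ≤ Real.pi ^ 2 * C1 ^ 2 / 4 := by positivity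
  refine ⟨Real.pi ^ 2 * C1 ^ 2 / 4 + 2 * C2 + 1, by positivity, fun x y => ?_⟩
  have hxy2 : 0 ≤ (x - y) ^ 2 := sq_nonneg _
  rcases lt_or_ge (x * y) (-1) with hc | hc
  · have hx : 0 < 1 + x ^ 2 := by positivity
    have hy : 0 < 1 + y ^ 2 := by positivity
    have e1 : ‖f x‖ ^ 2 * (1 + x ^ 2) ≤ C2 := by
      have := h2 x
      rwa [le_div_iff₀ hx] at this
    have e2 : ‖f y‖ ^ 2 * (1 + y ^ 2) ≤ C2 := by
      have := h2 y
      rwa [le_div_iff₀ hy] at this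
    have e3 : ‖f x - f y‖ ^ 2 ≤ 2 * ‖f x‖ ^ 2 + 2 * ‖f y‖ ^ 2 := by
      have h3 := norm_sub_le (f x) (f y)
      have h4 := norm_nonneg (f x - f y)
      nlinarith [sq_nonneg (‖f x‖ - ‖f y‖)]
    calc ‖f x - f y‖ ^ 2 * ((1 + x ^ 2) * (1 + y ^ 2))
        ≤ (2 * ‖f x‖ ^ 2 + 2 * ‖f y‖ ^ 2) * ((1 + x ^ 2) * (1 + y ^ 2)) :=
          mul_le_mul_of_nonneg_right e3 (by positivity)
      _ = 2 * (‖f x‖ ^ 2 * (1 + x ^ 2)) * (1 + y ^ 2) +
          2 * (‖f y‖ ^ 2 * (1 + y ^ 2)) * (1 + x ^ 2) := by ring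
      _ ≤ 2 * C2 * (1 + y ^ 2) + 2 * C2 * (1 + x ^ 2) := by
          apply add_le_add
          · exact mul_le_mul_of_nonneg_right (by linarith) hy.le
          · exact mul_le_mul_of_nonneg_right (by linarith) hx.le
      _ = 2 * C2 * (x ^ 2 + y ^ 2 + 2) := by ring
      _ ≤ 2 * C2 * (x - y) ^ 2 := mul_le_mul_of_nonneg_left (by nlinarith) (by positivity)
      _ ≤ (Real.pi ^ 2 * C1 ^ 2 / 4 + 2 * C2 + 1) * (x - y) ^ 2 :=
          mul_le_mul_of_nonneg_right (by linarith) hxy2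
  · rcases le_total x y with h | h
    · have h3 := DDB_ord hd hC1 h1 h hc
      rw [norm_sub_rev]
      have e : (x - y) ^ 2 = (y - x) ^ 2 := by ring
      rw [e] at hxy2 ⊢
      refine h3.trans (mul_le_mul_of_nonneg_right (by linarith) hxy2)
    · have h3 := DDB_ord hd hC1 h1 h (by rwa [mul_comm])
      rw [mul_comm (1 + x ^ 2)]
      exact h3.trans (mul_le_mul_of_nonneg_right (by linarith) hxy2)

end PAS
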