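import Pool.Agent.Lib.MP_216314_pr.AS.DQb
import Pool.Agent.Lib.MP_216314_pr.AS.DDB

/-!
D4. The symbol `f = Log Q_β`, `0 < β < π/2`.

PROOF. `f.im = arg Q`, `|arg Q| ≤ β` (`Qb_arg`, `Complex.log_im`); `f.re = log ‖Q‖` (`Complex.log_re`), bounded since
`cos β ≤ ‖Q‖ ≤ 1 + 1/cos β`. `Q.re > 0` so `Q ∈ slitPlane`, `f` has derivative `Q'/Q` (`HasDerivAt.clog_real`/`HasDerivAt.clog`), norm
`≤ (2π/cos²β) sw y/cos β ≤ C1/(1+y²)` (`sw_le2`). `‖f‖`: bound `‖f‖ ≤ (1/δ) ‖Q - 1‖` where `δ > 0`: the segment `[1,Q]` lies in the convex set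
`{z | δ ≤ z.re}`, with `δ = cos² β`: `Re Q ≥ ‖Q‖ cos β ≥ cos²β` (`|arg Q| ≤ β`, `Re Q = ‖Q‖ cos (arg Q)`: `Complex.norm_mul_cos_arg`), on it
`‖1/z‖ ≤ 1/δ`: `Convex.norm_image_sub_le_of_norm_hasDerivWithin_le` (`HasDerivAt Complex.log z⁻¹`, `log 1 = 0`). So
`‖f‖² ≤ (sw y)²/cos⁶β ≤ C2/(1+y²)`. Then `db_of`.
-/

open MeasureTheory Complex

namespace PAS

private theorem DLog_abs {β : ℝ} (h0 : 0 < β) (h : β < Real.pi / 2) : |β| < Real.pi / 2 := by
  rw [abs_of_pos h0]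
  exact h

private theorem DLog_cos {β : ℝ} (h0 : 0 < β) (h : β < Real.pi / 2) : 0 < Real.cos β :=
  Real.cos_pos_of_mem_Ioo ⟨by linarith, h⟩

private theorem DLog_pos {β : ℝ} (h0 : 0 < β) (h : β < Real.pi / 2) (y : ℝ) : 0 < ‖Qb β y‖ :=
  lt_of_lt_of_le (DLog_cos h0 h) (Qb_norm_ge (DLog_abs h0 h) y)

private theorem DLog_re {β : ℝ} (h0 : 0 < β) (h : β < Real.pi / 2) (y : ℝ) :
    Real.cos β ^ 2 ≤ (Qb β y).re := by
  have h1 := Complex.norm_mul_cos_arg (Qb β y)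
  have h2 := Qb_norm_ge (DLog_abs h0 h) y
  have h3 := Qb_arg h0.le h y
  have h4 : Real.cos β ≤ Real.cos (Qb β y).arg := by
    rw [← Real.cos_abs (Qb β y).arg]
    exact Real.cos_le_cos_of_nonneg_of_le_pi (abs_nonneg _) (by linarith [Real.pi_pos]) h3
  have h5 := DLog_cos h0 h
  rw [← h1, pow_two]
  exact mul_le_mul h2 h4 h5.le (by linarith)

private theorem DLog_log {δ : ℝ} (hδ : 0 < δ) (hδ1 : δ ≤ 1) (z : ℂ) (hz : δ ≤ z.re) :
    ‖Complex.log z‖ ≤ 1 / δ * ‖z - 1‖ := by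
  have hconv : Convex ℝ {w : ℂ | δ ≤ w.re} := convex_halfSpace_re_ge δ
  have h1 : ∀ w ∈ {w : ℂ | δ ≤ w.re}, HasDerivWithinAt Complex.log w⁻¹ {w : ℂ | δ ≤ w.re} w := by
    intro w hw
    have hw' : δ ≤ w.re := hw
    exact (Complex.hasDerivAt_log (Complex.mem_slitPlane_iff.2
      (Or.inl (by linarith)))).hasDerivWithinAt
  have h2 : ∀ w ∈ {w : ℂ | δ ≤ w.re}, ‖w⁻¹‖ ≤ 1 / δ := by
    intro w hw
    have hw' : δ ≤ w.re := hw
    have h3 : δ ≤ ‖w‖ := hw'.trans (Complex.re_le_norm w)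
    rw [norm_inv, ← one_div]
    exact one_div_le_one_div_of_le hδ h3
  have h3 := hconv.norm_image_sub_le_of_norm_hasDerivWithin_le (f := Complex.log)
    (f' := fun w => w⁻¹) (C := 1 / δ) (x := 1) (y := z) h1 h2
    (show δ ≤ (1 : ℂ).re by rw [Complex.one_re]; exact hδ1) hz
  rwa [Complex.log_one, sub_zero] at h3

theorem lq_exp {β : ℝ} (h0 : 0 < β) (h : β < Real.pi / 2) (y : ℝ) : cexp (Complex.log (Qb β y)) = Qb β y := by
  exact Complex.exp_log (norm_pos_iff.1 (DLog_pos h0 h y))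

theorem lq_meas {β : ℝ} (h0 : 0 < β) (h : β < Real.pi / 2) : Measurable (fun y => Complex.log (Qb β y)) := by
  exact Complex.measurable_log.comp (Qb_cont (DLog_abs h0 h)).measurable

theorem lq_im {β : ℝ} (h0 : 0 < β) (h : β < Real.pi / 2) (y : ℝ) : |(Complex.log (Qb β y)).im| ≤ β := by
  rw [Complex.log_im]
  exact Qb_arg h0.le h y

theorem lq_re {β : ℝ} (h0 : 0 < β) (h : β < Real.pi / 2) : ∃ F : ℝ, ∀ y, |(Complex.log (Qb β y)).re| ≤ F := by
  refine ⟨|Real.log (1 + 1 / Real.cos β)| + |Real.log (Real.cos β)|, fun y => ?_⟩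
  have hc := DLog_cos h0 h
  have h1 := Qb_norm_ge (DLog_abs h0 h) y
  have h2 := Qb_bdd (DLog_abs h0 h) y
  have h3 := Real.log_le_log hc h1
  have h4 := Real.log_le_log (DLog_pos h0 h y) h2
  have h5 := le_abs_self (Real.log (1 + 1 / Real.cos β))
  have h6 := neg_abs_le (Real.log (Real.cos β))
  have h7 := abs_nonneg (Real.log (1 + 1 / Real.cos β))
  have h8 := abs_nonneg (Real.log (Real.cos β))
  rw [Complex.log_re, abs_le]
  constructor <;> linarith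

theorem lq_DB {β : ℝ} (h0 : 0 < β) (h : β < Real.pi / 2) :
    ∃ M, 0 < M ∧ DB M (fun y => Complex.log (Qb β y)) := by
  have hc := DLog_cos h0 h
  have hc1 := Real.cos_le_one β
  obtain ⟨Q', hQ'⟩ := Qb_deriv (DLog_abs h0 h)
  have hpi := Real.pi_pos
  refine db_of (f := fun y => Complex.log (Qb β y)) (f' := fun y => Q' y / Qb β y)
    (C1 := 2 * Real.pi / Real.cos β ^ 2 / Real.cos β)
    (C2 := (1 / Real.cos β ^ 2 * (1 / Real.cos β)) ^ 2) ?_ ?_ ?_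
  · intro t
    refine HasDerivAt.clog_real (hQ' t).1 ?_
    exact Complex.mem_slitPlane_iff.2 (Or.inl (Qb_re_pos (DLog_abs h0 h) t))
  · intro t
    have h1 := (hQ' t).2
    have h2 := Qb_norm_ge (DLog_abs h0 h) t
    have h3 := sw_le2 t
    have h4 : (0 : ℝ) ≤ 2 * Real.pi / Real.cos β ^ 2 := by positivity
    have h5 : (0 : ℝ) < 1 + t ^ 2 := by positivity
    rw [norm_div]
    calc ‖Q' t‖ / ‖Qb β t‖ ≤ (2 * Real.pi / Real.cos β ^ 2 * (1 / (1 + t ^ 2))) / Real.cos β :=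
          div_le_div₀ (by positivity) (h1.trans (mul_le_mul_of_nonneg_left h3 h4)) hc h2
      _ = 2 * Real.pi / Real.cos β ^ 2 / Real.cos β / (1 + t ^ 2) := by ring
  · intro y
    have h1 := DLog_log (δ := Real.cos β ^ 2) (by positivity) (by nlinarith) (Qb β y)
      (DLog_re h0 h y)
    have h2 := Qb_sub_one (DLog_abs h0 h) y
    have h3 := sw_le2 y
    have h4 := sw_le_one y
    have h5 := sw_pos y
    have h6 : ‖Complex.log (Qb β y)‖ ≤ 1 / Real.cos β ^ 2 * (1 / Real.cos β) * sw y := by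
      refine h1.trans ?_
      have h7 : (0 : ℝ) ≤ 1 / Real.cos β ^ 2 := by positivity
      calc 1 / Real.cos β ^ 2 * ‖Qb β y - 1‖ ≤ 1 / Real.cos β ^ 2 * (sw y / Real.cos β) :=
            mul_le_mul_of_nonneg_left h2 h7
        _ = 1 / Real.cos β ^ 2 * (1 / Real.cos β) * sw y := by ring
    have h8 : ‖Complex.log (Qb β y)‖ ^ 2 ≤
        (1 / Real.cos β ^ 2 * (1 / Real.cos β) * sw y) ^ 2 :=
      pow_le_pow_left₀ (norm_nonneg _) h6 2
    refine h8.trans ?_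
    rw [mul_pow, div_eq_mul_one_div ((1 / Real.cos β ^ 2 * (1 / Real.cos β)) ^ 2) (1 + y ^ 2)]
    refine mul_le_mul_of_nonneg_left ?_ (by positivity)
    nlinarith

end PAS
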