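import Pool.Agent.Lib.MP_216314_pr.AS.BInt

/-!
B5. Coercivity of `TA` and the exponential of a symbol.

PROOF. `ta_coer`: `∑_i conj(v_i) (TA v)_i = ∫ g |∑_k v_k P_k|²`: expand, `integral_finset_sum`, `integral_const_mul`, `ta_int`;
pointwise `∑_i∑_k conj(v_i) v_k P_i P_k = (normSq (∑ v_k P_k) : ℂ)` (`Complex.normSq_eq_conj_mul_self`, `Finset.sum_mul_sum`, `P` real).
Real part: `∫ (g y).re * normSq(..) ≥ c0 ∫ normSq(∑ v_k P_k) = c0 ∑ ‖v_k‖²` (orthonormality; this is the same computation with `g = 1`).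
`exp_DB`: for complex `a, b` with real parts `≤ F` in absolute value: `‖exp a - exp b‖ ≤ exp F * ‖a - b‖`
(`Convex.norm_image_sub_le_of_norm_deriv_le` on the convex set `{z | z.re ≤ F}`, derivative `exp`, `‖exp z‖ = exp (z.re) ≤ exp F`);
apply with `a = t f(x)`, `b = t f(y)`, `0 ≤ t ≤ 1` (`|t f.re| ≤ F`), square and multiply by `(1+x²)(1+y²)`.
`exp_re`: `Re exp(t f) = exp(t Re f) cos(t Im f) ≥ exp(-F) cos β` (`Complex.exp_re`, `Real.cos_le_cos_of_nonneg_of_le_pi` with `|t Im f| ≤ β`,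
`Real.cos_abs`).
-/

open MeasureTheory Complex

namespace PAS

variable {μ : Measure ℝ} {P : ℕ → ℝ → ℝ}

private theorem BCoer_re {f : ℝ → ℂ} {F : ℝ} (hF : ∀ x, |(f x).re| ≤ F) {t : ℝ}
    (ht : t ∈ Set.Icc (0:ℝ) 1) (x : ℝ) : |((t : ℂ) * f x).re| ≤ F := by
  rw [Complex.re_ofReal_mul, abs_mul, abs_of_nonneg ht.1]
  exact (mul_le_of_le_one_left (abs_nonneg _) ht.2).trans (hF x)

private theorem BCoer_pt (g : ℝ → ℂ) (n : ℕ) (v : Fin n → ℂ) (y : ℝ) :
    ∑ i : Fin n, ∑ k : Fin n, star (v i) * v k * (g y * ((P i y * P k y : ℝ) : ℂ))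
      = g y * (Complex.normSq (∑ k : Fin n, v k * (P k y : ℂ)) : ℂ) := by
  rw [Complex.normSq_eq_conj_mul_self, map_sum, Finset.sum_mul_sum, Finset.mul_sum]
  refine Finset.sum_congr rfl fun i _ => ?_
  rw [Finset.mul_sum]
  refine Finset.sum_congr rfl fun k _ => ?_
  rw [map_mul, Complex.conj_ofReal, Complex.ofReal_mul]
  change (starRingEnd ℂ) (v i) * v k * _ = _
  ring

private theorem BCoer_int (hP : OPS μ P) {g : ℝ → ℂ} (hg : Measurable g) {G : ℝ}
    (hG : ∀ x, ‖g x‖ ≤ G) (n : ℕ) (v : Fin n → ℂ) :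
    Integrable (fun y => g y * (Complex.normSq (∑ k : Fin n, v k * (P k y : ℂ)) : ℂ)) μ := by
  refine (integrable_finset_sum Finset.univ fun (i : Fin n) _ =>
    integrable_finset_sum Finset.univ fun (k : Fin n) _ =>
      (ta_int hP hg hG (i : ℕ) (k : ℕ)).const_mul (star (v i) * v k)).congr ?_
  exact Filter.Eventually.of_forall fun y => BCoer_pt g n v y

private theorem BCoer_val (hP : OPS μ P) {g : ℝ → ℂ} (hg : Measurable g) {G : ℝ}
    (hG : ∀ x, ‖g x‖ ≤ G) (n : ℕ) (v : Fin n → ℂ) :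
    (∑ i, star (v i) * ((TA μ P n g).mulVec v) i)
      = ∫ y, g y * (Complex.normSq (∑ k : Fin n, v k * (P k y : ℂ)) : ℂ) ∂μ := by
  have h1 : ∫ y, g y * (Complex.normSq (∑ k : Fin n, v k * (P k y : ℂ)) : ℂ) ∂μ
      = ∫ y, ∑ i : Fin n, ∑ k : Fin n,
          star (v i) * v k * (g y * ((P i y * P k y : ℝ) : ℂ)) ∂μ :=
    integral_congr_ae (Filter.Eventually.of_forall fun y => (BCoer_pt g n v y).symm)
  rw [h1, integral_finset_sum _ fun (i : Fin n) _ =>
    integrable_finset_sum Finset.univ fun (k : Fin n) _ =>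
      (ta_int hP hg hG (i : ℕ) (k : ℕ)).const_mul (star (v i) * v k)]
  refine Finset.sum_congr rfl fun i _ => ?_
  rw [integral_finset_sum _ fun (k : Fin n) _ =>
      (ta_int hP hg hG (i : ℕ) (k : ℕ)).const_mul (star (v i) * v k)]
  simp only [Matrix.mulVec, dotProduct, Finset.mul_sum]
  refine Finset.sum_congr rfl fun k _ => ?_
  rw [integral_const_mul]
  simp only [TA, Matrix.of_apply]
  ring

theorem ta_coer (hP : OPS μ P) {g : ℝ → ℂ} (hg : Measurable g) {G : ℝ} (hG : ∀ x, ‖g x‖ ≤ G)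
    {c0 : ℝ} (hc : ∀ x, c0 ≤ (g x).re) (n : ℕ) (v : Fin n → ℂ) :
    c0 * ∑ i, ‖v i‖^2 ≤ (∑ i, star (v i) * ((TA μ P n g).mulVec v) i).re := by
  have h1 := BCoer_val hP hg hG n v
  have hint := BCoer_int hP hg hG n v
  have hone : ∀ x : ℝ, ‖(fun _ : ℝ => (1:ℂ)) x‖ ≤ 1 := fun x => by simp
  have h2 := BCoer_val hP (g := fun _ => (1:ℂ)) measurable_const hone n v
  have hint2 := BCoer_int hP (g := fun _ => (1:ℂ)) measurable_const hone n v
  have hTA : TA μ P n (fun _ => (1:ℂ)) = 1 := by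
    ext i k
    simp only [TA, Matrix.of_apply, one_mul]
    rw [integral_complex_ofReal, hP.orth, Matrix.one_apply]
    by_cases hik : i = k
    · rw [if_pos hik, if_pos (by rw [hik])]; simp
    · rw [if_neg hik, if_neg (fun hh => hik (Fin.ext hh))]; simp
  rw [hTA, Matrix.one_mulVec] at h2
  have h3 : ∫ y, Complex.normSq (∑ k : Fin n, v k * (P k y : ℂ)) ∂μ = ∑ i, ‖v i‖^2 := by
    have h4 : ((∫ y, Complex.normSq (∑ k : Fin n, v k * (P k y : ℂ)) ∂μ : ℝ) : ℂ)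
        = ((∑ i, ‖v i‖^2 : ℝ) : ℂ) := by
      rw [← integral_complex_ofReal, Complex.ofReal_sum]
      have h5 : ∀ i : Fin n, star (v i) * v i = ((‖v i‖^2 : ℝ) : ℂ) := by
        intro i
        have := Complex.normSq_eq_conj_mul_self (z := v i)
        rw [← Complex.normSq_eq_norm_sq, this]
        rfl
      rw [← Finset.sum_congr rfl fun i _ => h5 i, h2]
      simp only [one_mul]
    exact_mod_cast h4
  have hint3 : Integrable (fun y => Complex.normSq (∑ k : Fin n, v k * (P k y : ℂ))) μ := by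
    have := hint2.re
    refine this.congr (Filter.Eventually.of_forall fun y => ?_)
    simp
  have hint4 : Integrable (fun y => (g y).re *
      Complex.normSq (∑ k : Fin n, v k * (P k y : ℂ))) μ := by
    have := hint.re
    refine this.congr (Filter.Eventually.of_forall fun y => ?_)
    simp
  have h6 : (∫ y, g y * (Complex.normSq (∑ k : Fin n, v k * (P k y : ℂ)) : ℂ) ∂μ).re
      = ∫ y, (g y).re * Complex.normSq (∑ k : Fin n, v k * (P k y : ℂ)) ∂μ := by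
    have h7 : ∫ y, (g y * (Complex.normSq (∑ k : Fin n, v k * (P k y : ℂ)) : ℂ)).re ∂μ
        = (∫ y, g y * (Complex.normSq (∑ k : Fin n, v k * (P k y : ℂ)) : ℂ) ∂μ).re :=
      Complex.reCLM.integral_comp_comm hint
    rw [← h7]
    refine integral_congr_ae (Filter.Eventually.of_forall fun y => ?_)
    simp
  rw [h1, h6, ← h3, ← integral_const_mul]
  exact integral_mono (hint3.const_mul c0) hint4 fun y =>
    mul_le_mul_of_nonneg_right (hc y) (Complex.normSq_nonneg _)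

theorem exp_norm {f : ℝ → ℂ} {F : ℝ} (hF : ∀ x, |(f x).re| ≤ F) {t : ℝ} (ht : t ∈ Set.Icc (0:ℝ) 1) (x : ℝ) :
    ‖cexp (t * f x)‖ ≤ Real.exp F := by
  rw [Complex.norm_exp]
  refine Real.exp_le_exp.mpr ?_
  exact (le_abs_self _).trans (BCoer_re hF ht x)

theorem exp_DB {f : ℝ → ℂ} {M F : ℝ} (hD : DB M f) (hF : ∀ x, |(f x).re| ≤ F) {t : ℝ}
    (ht : t ∈ Set.Icc (0:ℝ) 1) : DB (M * Real.exp F ^ 2) (fun x => cexp (t * f x)) := by
  intro x y
  have hlip : ‖cexp (t * f x) - cexp (t * f y)‖ ≤ Real.exp F * ‖(t : ℂ) * f x - t * f y‖ := by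
    refine Convex.norm_image_sub_le_of_norm_deriv_le (f := cexp) (s := {z : ℂ | z.re ≤ F})
      (fun z _ => Complex.differentiableAt_exp) (fun z hz => ?_) (convex_halfSpace_re_le F)
      ((le_abs_self _).trans (BCoer_re hF ht y)) ((le_abs_self _).trans (BCoer_re hF ht x))
    rw [Complex.deriv_exp, Complex.norm_exp]
    exact Real.exp_le_exp.mpr hz
  have h2 : ‖(t : ℂ) * f x - t * f y‖ ≤ ‖f x - f y‖ := by
    rw [← mul_sub, norm_mul, Complex.norm_real, Real.norm_eq_abs, abs_of_nonneg ht.1]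
    exact mul_le_of_le_one_left (norm_nonneg _) ht.2
  have h3 : ‖cexp (t * f x) - cexp (t * f y)‖ ≤ Real.exp F * ‖f x - f y‖ :=
    hlip.trans (mul_le_mul_of_nonneg_left h2 (Real.exp_pos _).le)
  have h4 : ‖cexp (t * f x) - cexp (t * f y)‖^2 ≤ (Real.exp F * ‖f x - f y‖)^2 :=
    pow_le_pow_left₀ (norm_nonneg _) h3 2
  have h5 : 0 ≤ (1 + x^2) * (1 + y^2) := by positivity
  calc ‖cexp (t * f x) - cexp (t * f y)‖^2 * ((1 + x^2) * (1 + y^2))
      ≤ (Real.exp F * ‖f x - f y‖)^2 * ((1 + x^2) * (1 + y^2)) :=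
        mul_le_mul_of_nonneg_right h4 h5
    _ = Real.exp F ^ 2 * (‖f x - f y‖^2 * ((1 + x^2) * (1 + y^2))) := by ring
    _ ≤ Real.exp F ^ 2 * (M * (x - y)^2) :=
        mul_le_mul_of_nonneg_left (hD x y) (by positivity)
    _ = M * Real.exp F ^ 2 * (x - y)^2 := by ring

theorem exp_re {f : ℝ → ℂ} {F β : ℝ} (hF : ∀ x, |(f x).re| ≤ F) (hβ : ∀ x, |(f x).im| ≤ β)
    (hβ2 : β < Real.pi / 2) {t : ℝ} (ht : t ∈ Set.Icc (0:ℝ) 1) (x : ℝ) :
    Real.exp (-F) * Real.cos β ≤ (cexp (t * f x)).re := by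
  have hβ0 : 0 ≤ β := (abs_nonneg _).trans (hβ x)
  have hcβ : 0 < Real.cos β := Real.cos_pos_of_mem_Ioo ⟨by linarith, hβ2⟩
  rw [Complex.exp_re]
  have h1 : -F ≤ ((t : ℂ) * f x).re := (abs_le.mp (BCoer_re hF ht x)).1
  have h2 : |((t : ℂ) * f x).im| ≤ β := by
    rw [Complex.im_ofReal_mul, abs_mul, abs_of_nonneg ht.1]
    exact (mul_le_of_le_one_left (abs_nonneg _) ht.2).trans (hβ x)
  have h3 : Real.cos β ≤ Real.cos ((t : ℂ) * f x).im := by
    rw [← Real.cos_abs ((t : ℂ) * f x).im]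
    exact Real.cos_le_cos_of_nonneg_of_le_pi (abs_nonneg _)
      (by linarith [Real.pi_pos]) h2
  exact mul_le_mul (Real.exp_le_exp.mpr h1) h3 hcβ.le (Real.exp_pos _).le

end PAS
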