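import Pool.Agent.Lib.MP_216314_pr.AS.ADef

/-!
Integrability in the abstract setting: `g` bounded measurable, `P_m P_k` integrable.

PROOF. `Integrable.bdd_mul` (or `.mono'` with `‖g P_m P_k‖ ≤ G |P_m P_k|`), `Integrable.ofReal`; measurability from `hP.cont` and `hg`.
`rem_int`: `rem` is a finite combination; `‖rem m‖²`: expand? Easier: `rem m y * conj (rem k y)` is a finite sum of terms
`(bounded measurable) * P_a P_b`; or `‖rem‖² ≤ (n+1) (G² P_m² + ∑ ‖TA m l‖² P_l²)` (Cauchy-Schwarz, `Finset.inner_mul_le_norm..`,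
`sq_sum_le_card_mul_sum_sq`) and `.mono'`.
`sq_int`: `|P_m|²` is `P_m P_m`. `norm_mul_int`: `‖rem g m‖ ‖rem f k‖ ≤ (‖·‖² + ‖·‖²)/2`.
-/

open MeasureTheory Complex

namespace PAS

variable {μ : Measure ℝ} {P : ℕ → ℝ → ℝ}

private theorem BInt_memP (hP : OPS μ P) (k : ℕ) : MemLp (fun y => (P k y : ℂ)) 2 μ := by
  have hm : AEStronglyMeasurable (fun y => (P k y : ℂ)) μ :=
    (Complex.continuous_ofReal.comp (hP.cont k)).aestronglyMeasurable
  refine (memLp_two_iff_integrable_sq_norm hm).mpr ?_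
  refine (hP.int k k).congr (Filter.Eventually.of_forall fun y => ?_)
  simp only [Complex.norm_real, Real.norm_eq_abs, sq_abs]
  ring

private theorem BInt_memRem (hP : OPS μ P) {g : ℝ → ℂ} (hg : Measurable g) {G : ℝ}
    (hG : ∀ x, ‖g x‖ ≤ G) (n : ℕ) (m : Fin n) : MemLp (fun y => rem μ P n g m y) 2 μ := by
  unfold rem
  refine MemLp.sub ?_ ?_
  · refine MemLp.of_le_mul (c := G) (BInt_memP hP m) ?_ ?_
    · exact (hg.mul (Complex.measurable_ofReal.comp
        (hP.cont m).measurable)).aestronglyMeasurable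
    · refine Filter.Eventually.of_forall fun y => ?_
      rw [norm_mul]
      exact mul_le_mul_of_nonneg_right (hG y) (norm_nonneg _)
  · exact memLp_finset_sum _ fun l _ => (BInt_memP hP l).const_mul _

theorem ta_int (hP : OPS μ P) {g : ℝ → ℂ} (hg : Measurable g) {G : ℝ} (hG : ∀ x, ‖g x‖ ≤ G) (m k : ℕ) :
    Integrable (fun y => g y * ((P m y * P k y : ℝ) : ℂ)) μ := by
  have h := (hP.int m k).norm.const_mul G
  refine h.mono' ?_ ?_
  · exact (hg.mul (Complex.measurable_ofReal.comp
      ((hP.cont m).measurable.mul (hP.cont k).measurable))).aestronglyMeasurable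
  · refine Filter.Eventually.of_forall fun y => ?_
    rw [norm_mul, Complex.norm_real]
    exact mul_le_mul_of_nonneg_right (hG y) (norm_nonneg _)

theorem ta_int_real (hP : OPS μ P) {g : ℝ → ℝ} (hg : Measurable g) {G : ℝ} (hG : ∀ x, |g x| ≤ G) (m k : ℕ) :
    Integrable (fun y => g y * (P m y * P k y)) μ := by
  have h := (hP.int m k).norm.const_mul G
  refine h.mono' ?_ ?_
  · exact (hg.mul ((hP.cont m).measurable.mul (hP.cont k).measurable)).aestronglyMeasurable
  · refine Filter.Eventually.of_forall fun y => ?_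
    rw [norm_mul]
    exact mul_le_mul_of_nonneg_right (hG y) (norm_nonneg _)

theorem rem_meas (hP : OPS μ P) {g : ℝ → ℂ} (hg : Measurable g) (n : ℕ) (m : Fin n) :
    Measurable (fun y => rem μ P n g m y) := by
  unfold rem
  refine (hg.mul (Complex.measurable_ofReal.comp (hP.cont m).measurable)).sub ?_
  exact Finset.measurable_fun_sum _ fun l _ =>
    (Complex.measurable_ofReal.comp (hP.cont l).measurable).const_mul _

theorem rem_sq_int (hP : OPS μ P) {g : ℝ → ℂ} (hg : Measurable g) {G : ℝ} (hG : ∀ x, ‖g x‖ ≤ G)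
    (n : ℕ) (m : Fin n) : Integrable (fun y => ‖rem μ P n g m y‖^2) μ := by
  have h := BInt_memRem hP hg hG n m
  exact (memLp_two_iff_integrable_sq_norm h.1).mp h

theorem rem_mul_int (hP : OPS μ P) {g f : ℝ → ℂ} (hg : Measurable g) (hf : Measurable f) {G : ℝ}
    (hG : ∀ x, ‖g x‖ ≤ G) (hF : ∀ x, ‖f x‖ ≤ G) (n : ℕ) (m k : Fin n) :
    Integrable (fun y => rem μ P n g m y * rem μ P n f k y) μ := by
  exact MemLp.integrable_mul (BInt_memRem hP hg hG n m) (BInt_memRem hP hf hF n k)

end PAS
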