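import Pool.Agent.Lib.MP_216314_pr.AS.BJac
import Pool.Agent.Lib.MP_216314_pr.AS.BInt

/-!
B7, derivative. `d(t) = det T(e^{tf}) exp(-t Tr T(f))`, `d' = d τ`.

PROOF. `ta_deriv`: `hasDerivAt_integral_of_dominated_loc_of_deriv_le` on the ball `Metric.ball t 1`; with `‖f‖ ≤ G`, for
`|s| ≤ |t|+1`: `‖exp(s f)‖ ≤ exp((|t|+1) G)`, derivative in `s` of `exp (s f) P_mP_k` is `f exp(s f) P_m P_k`, dominated by
`G exp((|t|+1)G) |P_mP_k|` integrable.
`d_deriv`: `jacobi` with `A s = TA (exp (s f))`, `A' = TA (exp(t f) * f)`; `adjugate = det • A⁻¹` when `det ≠ 0`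
(`Matrix.adjugate_eq_det_smul_inv`? or `Matrix.inv_def`, `Ring.inverse_eq_inv'`), and
`d/dt exp(-t tr) = -tr exp(-t tr)`. Then
`d' = det * trace(A⁻¹ A') e - tr det e = d * (trace (A⁻¹ A') - trace (T f)) = d * trace (A⁻¹ (A' - A T f))` (`A⁻¹ A = 1`).
-/

open MeasureTheory Complex

namespace PAS

variable {μ : Measure ℝ} {P : ℕ → ℝ → ℝ}

theorem ta_deriv (hP : OPS μ P) {f : ℝ → ℂ} (hf : Measurable f) {G : ℝ} (hG : ∀ x, ‖f x‖ ≤ G)
    (n : ℕ) (m k : Fin n) (t : ℝ) :
    HasDerivAt (fun s : ℝ => TA μ P n (fun y => cexp (s * f y)) m k)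
      (TA μ P n (fun y => cexp (t * f y) * f y) m k) t := by
  have hG0 : 0 ≤ G := (norm_nonneg _).trans (hG 0)
  have hme : ∀ s : ℝ, Measurable fun y => cexp (s * f y) := fun s =>
    Complex.measurable_exp.comp (hf.const_mul _)
  have hmp : Measurable fun y => ((P m y * P k y : ℝ) : ℂ) :=
    Complex.measurable_ofReal.comp ((hP.cont m).measurable.mul (hP.cont k).measurable)
  have hexp : ∀ (s : ℝ) (y : ℝ), ‖cexp (s * f y)‖ ≤ Real.exp (|s| * G) := by
    intro s y
    refine (Complex.norm_exp_le_exp_norm _).trans (Real.exp_le_exp.2 ?_)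
    rw [norm_mul, Complex.norm_real, Real.norm_eq_abs]
    exact mul_le_mul_of_nonneg_left (hG y) (abs_nonneg s)
  have key := hasDerivAt_integral_of_dominated_loc_of_deriv_le (μ := μ) (x₀ := t)
    (F := fun (s : ℝ) y => cexp (s * f y) * ((P m y * P k y : ℝ) : ℂ))
    (F' := fun (s : ℝ) y => cexp (s * f y) * f y * ((P m y * P k y : ℝ) : ℂ))
    (bound := fun y => Real.exp ((|t| + 1) * G) * G * |P m y * P k y|)
    (s := Metric.ball t 1) (Metric.ball_mem_nhds t one_pos)
    (Filter.Eventually.of_forall fun s => ((hme s).mul hmp).aestronglyMeasurable)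
    (ta_int hP (hme t) (hexp t) m k)
    (((hme t).mul hf).mul hmp).aestronglyMeasurable
    (Filter.Eventually.of_forall fun y s hs => ?_)
    ((hP.int m k).abs.const_mul _)
    (Filter.Eventually.of_forall fun y s _ => ?_)
  · exact key.2
  · rw [norm_mul, norm_mul, Complex.norm_real, Real.norm_eq_abs]
    have h1 : |s| ≤ |t| + 1 := by
      rw [Metric.mem_ball, Real.dist_eq] at hs
      have h2 : |s| ≤ |s - t| + |t| := by
        have h3 := abs_add_le (s - t) t
        rwa [sub_add_cancel] at h3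
      linarith
    refine mul_le_mul_of_nonneg_right (mul_le_mul ((hexp s y).trans (Real.exp_le_exp.2
      (mul_le_mul_of_nonneg_right h1 hG0))) (hG y) (norm_nonneg _) (Real.exp_nonneg _)) (abs_nonneg _)
  · have h1 : HasDerivAt (fun s : ℝ => (s : ℂ) * f y) (f y) s := by
      have h2 := (Complex.ofRealCLM.hasDerivAt (x := s)).mul_const (f y)
      simpa using h2
    exact (h1.cexp).mul_const _

theorem d_deriv (hP : OPS μ P) {f : ℝ → ℂ} (hf : Measurable f) {G : ℝ} (hG : ∀ x, ‖f x‖ ≤ G)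
    (n : ℕ) (t : ℝ) (hdet : (TA μ P n (fun y => cexp (t * f y))).det ≠ 0) :
    HasDerivAt (fun s : ℝ => (TA μ P n (fun y => cexp (s * f y))).det * cexp (-s * (TA μ P n f).trace))
      ((TA μ P n (fun y => cexp (t * f y))).det * cexp (-t * (TA μ P n f).trace)
        * ((TA μ P n (fun y => cexp (t * f y)))⁻¹ * (TA μ P n (fun y => cexp (t * f y) * f y)
            - TA μ P n (fun y => cexp (t * f y)) * TA μ P n f)).trace) t := by
  have h1 := jacobi (fun s : ℝ => TA μ P n (fun y => cexp (s * f y)))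
    (TA μ P n (fun y => cexp (t * f y) * f y)) t (fun i j => ta_deriv hP hf hG n i j t)
  have h2 : HasDerivAt (fun s : ℝ => cexp (-s * (TA μ P n f).trace))
      (cexp (-t * (TA μ P n f).trace) * (-1 * (TA μ P n f).trace)) t := by
    have h3 : HasDerivAt (fun s : ℝ => (s : ℂ)) 1 t := by
      have h := Complex.ofRealCLM.hasDerivAt (x := t)
      rw [Complex.ofRealCLM_apply, Complex.ofReal_one] at h
      exact h
    exact (h3.neg.mul_const _).cexp
  have h4 := h1.mul h2
  refine h4.congr_deriv ?_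
  obtain ⟨T, hT⟩ : ∃ T, T = TA μ P n (fun y => cexp (t * f y)) := ⟨_, rfl⟩
  obtain ⟨T', hT'⟩ : ∃ T', T' = TA μ P n (fun y => cexp (t * f y) * f y) := ⟨_, rfl⟩
  obtain ⟨F, hF⟩ : ∃ F, F = TA μ P n f := ⟨_, rfl⟩
  obtain ⟨E, hE⟩ : ∃ E, E = cexp (-t * (TA μ P n f).trace) := ⟨_, rfl⟩
  show ((TA μ P n (fun y => cexp (t * f y))).adjugate *
      TA μ P n (fun y => cexp (t * f y) * f y)).trace * cexp (-t * (TA μ P n f).trace) +
    (TA μ P n (fun y => cexp (t * f y))).det *
      (cexp (-t * (TA μ P n f).trace) * (-1 * (TA μ P n f).trace)) = _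
  rw [← hE, ← hT, ← hT', ← hF]
  rw [← hT] at hdet
  have hu : IsUnit T.det := isUnit_iff_ne_zero.2 hdet
  have h5 : T.adjugate = T.det • T⁻¹ := by
    rw [Matrix.inv_def, smul_smul, Ring.inverse_eq_inv', mul_inv_cancel₀ hdet, one_smul]
  have h6 : T⁻¹ * (T * F) = F := by
    rw [← Matrix.mul_assoc, Matrix.nonsing_inv_mul T hu, Matrix.one_mul]
  rw [h5, Matrix.mul_sub, h6, Matrix.trace_sub, Matrix.smul_mul, Matrix.trace_smul, smul_eq_mul]
  ring

end PAS
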