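import Pool.Agent.Lib.MP_216314_pr.AS.ADef

/-!
Two-sided Gronwall for a scalar equation `d' = d τ`, `‖τ‖ ≤ K` on `[0,1]`.

PROOF. `N t = ‖d t‖² = normSq (d t)` has derivative `2 Re (conj (d t) * d'(t)) = 2 N t Re (τ t)` on `[0,1]`
(`HasDerivAt` of `re`, `im` parts: `Complex.reCLM`, `Complex.imCLM`, `normSq = re² + im²`). So
`t ↦ N t * exp(2 K t)` has derivative `2 N e (Re τ + K) ≥ 0` and `t ↦ N t exp(-2Kt)` has derivative `≤ 0`:
`monotoneOn_of_deriv_nonneg`, `antitoneOn_of_deriv_nonpos` on `Icc 0 1` (`convex_Icc`, `interior_Icc`). Compare `0` and `1`, take square roots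
(`abs_le_of_sq_le`-type, `Real.exp` squares: `exp (2K) = exp K ^2`).
-/

open Complex

namespace PAS

private theorem BGron_ns (d τ : ℝ → ℂ) (t : ℝ) (hd : HasDerivAt d (d t * τ t) t) :
    HasDerivAt (fun t => ‖d t‖ ^ 2) (2 * (‖d t‖ ^ 2 * (τ t).re)) t := by
  have h1 := hd.norm_sq
  have h2 : Inner.inner ℝ (d t) (d t * τ t) = ‖d t‖ ^ 2 * (τ t).re := by
    rw [Complex.inner, ← Complex.normSq_eq_norm_sq, Complex.normSq_apply]
    simp only [Complex.mul_re, Complex.mul_im, Complex.conj_re, Complex.conj_im]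
    ring
  rw [h2] at h1
  exact h1

theorem gron (d τ : ℝ → ℂ) {K : ℝ} (hd : ∀ t ∈ Set.Icc (0:ℝ) 1, HasDerivAt d (d t * τ t) t)
    (hK : ∀ t ∈ Set.Icc (0:ℝ) 1, ‖τ t‖ ≤ K) :
    Real.exp (-K) * ‖d 0‖ ≤ ‖d 1‖ ∧ ‖d 1‖ ≤ Real.exp K * ‖d 0‖ := by
  have key : ∀ c : ℝ, ∀ t ∈ Set.Icc (0:ℝ) 1, HasDerivAt (fun t => ‖d t‖ ^ 2 * Real.exp (c * t))
      (2 * (‖d t‖ ^ 2 * (τ t).re) * Real.exp (c * t) +
        ‖d t‖ ^ 2 * (Real.exp (c * t) * (c * 1))) t := by
    intro c t ht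
    exact (BGron_ns d τ t (hd t ht)).mul (((hasDerivAt_id t).const_mul c).exp)
  have hre : ∀ t ∈ Set.Icc (0:ℝ) 1, |(τ t).re| ≤ K := fun t ht =>
    (Complex.abs_re_le_norm _).trans (hK t ht)
  have hmono : MonotoneOn (fun t => ‖d t‖ ^ 2 * Real.exp ((2 * K) * t)) (Set.Icc (0:ℝ) 1) := by
    apply monotoneOn_of_deriv_nonneg (convex_Icc 0 1)
    · intro t ht
      exact (key (2 * K) t ht).continuousAt.continuousWithinAt
    · intro t ht
      exact (key (2 * K) t (interior_subset ht)).differentiableAt.differentiableWithinAt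
    · intro t ht
      have ht' := interior_subset ht
      rw [(key (2 * K) t ht').deriv]
      have h1 := neg_le_of_abs_le (hre t ht')
      have h2 : 2 * (‖d t‖ ^ 2 * (τ t).re) * Real.exp (2 * K * t) +
          ‖d t‖ ^ 2 * (Real.exp (2 * K * t) * (2 * K * 1)) =
          2 * (‖d t‖ ^ 2 * Real.exp (2 * K * t)) * ((τ t).re + K) := by ring
      rw [h2]
      have h3 : 0 ≤ (τ t).re + K := by linarith
      positivity
  have hanti : AntitoneOn (fun t => ‖d t‖ ^ 2 * Real.exp ((-(2 * K)) * t)) (Set.Icc (0:ℝ) 1) := by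
    apply antitoneOn_of_deriv_nonpos (convex_Icc 0 1)
    · intro t ht
      exact (key (-(2 * K)) t ht).continuousAt.continuousWithinAt
    · intro t ht
      exact (key (-(2 * K)) t (interior_subset ht)).differentiableAt.differentiableWithinAt
    · intro t ht
      have ht' := interior_subset ht
      rw [(key (-(2 * K)) t ht').deriv]
      have h1 := le_of_abs_le (hre t ht')
      have h2 : 2 * (‖d t‖ ^ 2 * (τ t).re) * Real.exp (-(2 * K) * t) +
          ‖d t‖ ^ 2 * (Real.exp (-(2 * K) * t) * (-(2 * K) * 1)) =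
          -(2 * (‖d t‖ ^ 2 * Real.exp (-(2 * K) * t)) * (K - (τ t).re)) := by ring
      rw [h2]
      have h3 : 0 ≤ K - (τ t).re := by linarith
      have h4 : 0 ≤ 2 * (‖d t‖ ^ 2 * Real.exp (-(2 * K) * t)) * (K - (τ t).re) := by positivity
      linarith
  have h0 : (0:ℝ) ∈ Set.Icc (0:ℝ) 1 := by simp
  have h1 : (1:ℝ) ∈ Set.Icc (0:ℝ) 1 := by simp
  have hm := hmono h0 h1 zero_le_one
  have ha := hanti h0 h1 zero_le_one
  simp only [mul_zero, Real.exp_zero, mul_one] at hm ha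
  have hK2 : Real.exp (2 * K) = Real.exp K ^ 2 := by
    rw [← Real.exp_nat_mul]
    norm_num
  have hKn : Real.exp (-(2 * K)) = Real.exp (-K) ^ 2 := by
    rw [← Real.exp_nat_mul]
    congr 1
    push_cast
    ring
  rw [hK2] at hm
  rw [hKn] at ha
  have hKK : Real.exp (-K) * Real.exp K = 1 := by
    rw [← Real.exp_add]
    simp
  constructor
  · have h2 : ‖d 0‖ ≤ ‖d 1‖ * Real.exp K := by
      apply le_of_sq_le_sq
      · rw [mul_pow]
        exact hm
      · positivity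
    calc Real.exp (-K) * ‖d 0‖ ≤ Real.exp (-K) * (‖d 1‖ * Real.exp K) :=
          mul_le_mul_of_nonneg_left h2 (Real.exp_pos _).le
      _ = ‖d 1‖ * (Real.exp (-K) * Real.exp K) := by ring
      _ = ‖d 1‖ := by rw [hKK, mul_one]
  · have h2 : ‖d 1‖ * Real.exp (-K) ≤ ‖d 0‖ := by
      apply le_of_sq_le_sq
      · rw [mul_pow]
        exact ha
      · positivity
    calc ‖d 1‖ = ‖d 1‖ * (Real.exp (-K) * Real.exp K) := by rw [hKK, mul_one]
      _ = Real.exp K * (‖d 1‖ * Real.exp (-K)) := by ring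
      _ ≤ Real.exp K * ‖d 0‖ := mul_le_mul_of_nonneg_left h2 (Real.exp_pos _).le

end PAS
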