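import Pool.Agent.Lib.MP_216314_pr.AS.BHSb

/-!
B4. Under condition (D) with constant `M`: `HS_n(g) ≤ 8 M` for all `n`.

PROOF. `n = 0`: `HS = 0` (empty sum), `M ≥ 0` (take `x = 0`, `y = 1` in `DB`: `0 ≤ ‖·‖²·2 ≤ M`).
`n = k+1`: by (D) and `hP.cd k`, pointwise, with `D = P (k+1) x P k y - P k x P (k+1) y`:
`‖g x - g y‖² K² (1+x²)(1+y²) ≤ M ((x-y) K)² = M ((k+1)/2)² D² ≤ M (k+1)²/2 (P (k+1) x ² P k y ² + P k x ² P (k+1) y ²)`
(`(a-b)² ≤ 2a²+2b²`). Divide by `(1+x²)(1+y²) > 0`, integrate (`integral_mono` with `hsb_int` and the product integrability of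
`P_m²/(1+x²)` - dominated by `P_m²`), `integral_prod_mul`: `∬ ≤ M (k+1)²/2 * 2 I_{k+1} I_k = M (k+1)² I_{k+1} I_k`
`≤ M (k+1)² (4/(k+2)) (4/(k+1)) ≤ 16 M`, and `HS ≤ 8M` by `hs_b`.
-/

open MeasureTheory Complex

namespace PAS

variable {μ : Measure ℝ} {P : ℕ → ℝ → ℝ}

theorem DB_nonneg {M : ℝ} {f : ℝ → ℂ} (h : DB M f) : 0 ≤ M := by
  have h1 := h 0 1
  have h2 : 0 ≤ ‖f 0 - f 1‖ ^ 2 * ((1 + (0 : ℝ) ^ 2) * (1 + 1 ^ 2)) := by positivity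
  have h3 : M * (0 - 1) ^ 2 = M := by ring
  rw [h3] at h1
  exact h2.trans h1

/-- the integrand `P_m² / (1 + y²)` -/
private noncomputable def BHSc_u (P : ℕ → ℝ → ℝ) (m : ℕ) (y : ℝ) : ℝ := P m y ^ 2 / (1 + y ^ 2)

private theorem BHSc_nonneg (P : ℕ → ℝ → ℝ) (m : ℕ) (y : ℝ) : 0 ≤ BHSc_u P m y := by
  unfold BHSc_u
  positivity

private theorem BHSc_int (hP : OPS μ P) (m : ℕ) : Integrable (BHSc_u P m) μ := by
  have hc : Continuous (BHSc_u P m) := by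
    unfold BHSc_u
    refine ((hP.cont m).pow 2).div (by fun_prop) (fun y => ?_)
    have : 0 < 1 + y ^ 2 := by positivity
    exact this.ne'
  refine (hP.int m m).mono' hc.aestronglyMeasurable (Filter.Eventually.of_forall fun y => ?_)
  rw [Real.norm_of_nonneg (BHSc_nonneg P m y)]
  unfold BHSc_u
  rw [← pow_two]
  refine div_le_self (by positivity) ?_
  have : 0 ≤ y ^ 2 := by positivity
  linarith

private theorem BHSc_pt (hP : OPS μ P) {g : ℝ → ℂ} {M : ℝ} (hD : DB M g) (k : ℕ) (x y : ℝ) :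
    ‖g x - g y‖ ^ 2 * (∑ m ∈ Finset.range (k + 1), P m x * P m y) ^ 2 ≤
      M * ((k : ℝ) + 1) ^ 2 / 2 * (BHSc_u P (k + 1) x * BHSc_u P k y +
        BHSc_u P k x * BHSc_u P (k + 1) y) := by
  have hM := DB_nonneg hD
  have h1 := hP.cd k x y
  have h2 := hD x y
  generalize (∑ m ∈ Finset.range (k + 1), P m x * P m y) = K at h1 ⊢
  generalize ‖g x - g y‖ ^ 2 = N at h2 ⊢
  unfold BHSc_u
  generalize P (k + 1) x = a at h1 ⊢
  generalize P k y = b at h1 ⊢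
  generalize P k x = c at h1 ⊢
  generalize P (k + 1) y = e at h1 ⊢
  have hx : 0 < 1 + x ^ 2 := by positivity
  have hy : 0 < 1 + y ^ 2 := by positivity
  have h3 : N * K ^ 2 * ((1 + x ^ 2) * (1 + y ^ 2)) ≤ M * ((x - y) * K) ^ 2 := by
    have h4 := mul_le_mul_of_nonneg_right h2 (sq_nonneg K)
    calc N * K ^ 2 * ((1 + x ^ 2) * (1 + y ^ 2)) = N * ((1 + x ^ 2) * (1 + y ^ 2)) * K ^ 2 := by ring
      _ ≤ M * (x - y) ^ 2 * K ^ 2 := h4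
      _ = M * ((x - y) * K) ^ 2 := by ring
  rw [h1] at h3
  have h5 : (((k : ℝ) + 1) / 2 * (a * b - c * e)) ^ 2 ≤
      ((k : ℝ) + 1) ^ 2 / 2 * (a ^ 2 * b ^ 2 + c ^ 2 * e ^ 2) := by
    have h6 : (a * b - c * e) ^ 2 ≤ 2 * (a ^ 2 * b ^ 2 + c ^ 2 * e ^ 2) := by
      nlinarith [sq_nonneg (a * b + c * e)]
    have h7 : 0 ≤ (((k : ℝ) + 1) / 2) ^ 2 := by positivity
    have h8 := mul_le_mul_of_nonneg_left h6 h7
    calc (((k : ℝ) + 1) / 2 * (a * b - c * e)) ^ 2 = (((k : ℝ) + 1) / 2) ^ 2 * (a * b - c * e) ^ 2 := by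
          ring
      _ ≤ (((k : ℝ) + 1) / 2) ^ 2 * (2 * (a ^ 2 * b ^ 2 + c ^ 2 * e ^ 2)) := h8
      _ = _ := by ring
  have h9 := h3.trans (mul_le_mul_of_nonneg_left h5 hM)
  rw [← le_div_iff₀ (mul_pos hx hy)] at h9
  refine h9.trans (le_of_eq ?_)
  field_simp

theorem hs_c [IsProbabilityMeasure μ] (hP : OPS μ P) {g : ℝ → ℂ} (hg : Measurable g) {G : ℝ}
    (hG : ∀ x, ‖g x‖ ≤ G) {M : ℝ} (hD : DB M g) (n : ℕ) : HS μ P n g ≤ 8 * M := by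
  have hM := DB_nonneg hD
  rcases n with _ | k
  · have h0 : HS μ P 0 g = 0 := by
      unfold HS
      rw [Finset.univ_eq_empty, Finset.sum_empty]
    rw [h0]
    linarith
  · rw [hs_b hP hg hG (k + 1)]
    have hu1 := BHSc_int hP (k + 1)
    have hu0 := BHSc_int hP k
    have i1 : Integrable (fun z : ℝ × ℝ => BHSc_u P (k + 1) z.1 * BHSc_u P k z.2) (μ.prod μ) :=
      hu1.mul_prod hu0
    have i2 : Integrable (fun z : ℝ × ℝ => BHSc_u P k z.1 * BHSc_u P (k + 1) z.2) (μ.prod μ) :=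
      hu0.mul_prod hu1
    have h1 : ∫ z : ℝ × ℝ, ‖g z.1 - g z.2‖ ^ 2 *
        (∑ m ∈ Finset.range (k + 1), P m z.1 * P m z.2) ^ 2 ∂(μ.prod μ) ≤
        ∫ z : ℝ × ℝ, M * ((k : ℝ) + 1) ^ 2 / 2 * (BHSc_u P (k + 1) z.1 * BHSc_u P k z.2 +
          BHSc_u P k z.1 * BHSc_u P (k + 1) z.2) ∂(μ.prod μ) :=
      integral_mono (hsb_int hP hg hG (k + 1)) ((i1.add i2).const_mul _)
        (fun z => BHSc_pt hP hD k z.1 z.2)
    have h2 : ∫ z : ℝ × ℝ, M * ((k : ℝ) + 1) ^ 2 / 2 * (BHSc_u P (k + 1) z.1 * BHSc_u P k z.2 +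
          BHSc_u P k z.1 * BHSc_u P (k + 1) z.2) ∂(μ.prod μ) =
        M * ((k : ℝ) + 1) ^ 2 / 2 * ((∫ y, BHSc_u P (k + 1) y ∂μ) * (∫ y, BHSc_u P k y ∂μ) +
          (∫ y, BHSc_u P k y ∂μ) * (∫ y, BHSc_u P (k + 1) y ∂μ)) := by
      rw [integral_const_mul, integral_add i1 i2, integral_prod_mul, integral_prod_mul]
    rw [h2] at h1
    have h3 : ∫ y, BHSc_u P (k + 1) y ∂μ ≤ 4 / ((k : ℝ) + 2) := by
      have := hP.iN (k + 1)
      push_cast at this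
      have e : (k : ℝ) + 1 + 1 = k + 2 := by ring
      rw [e] at this
      exact this
    have h4 : ∫ y, BHSc_u P k y ∂μ ≤ 4 / ((k : ℝ) + 1) := hP.iN k
    have h5 : 0 ≤ ∫ y, BHSc_u P k y ∂μ := integral_nonneg fun y => BHSc_nonneg P k y
    have hk1 : (0 : ℝ) < (k : ℝ) + 1 := by positivity
    have hk2 : (0 : ℝ) < (k : ℝ) + 2 := by positivity
    have h6 : (∫ y, BHSc_u P (k + 1) y ∂μ) * (∫ y, BHSc_u P k y ∂μ) ≤
        4 / ((k : ℝ) + 2) * (4 / ((k : ℝ) + 1)) := mul_le_mul h3 h4 h5 (by positivity)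
    have h7 : 4 / ((k : ℝ) + 2) * (4 / ((k : ℝ) + 1)) ≤ 16 / ((k : ℝ) + 1) ^ 2 := by
      rw [div_mul_div_comm, div_le_div_iff₀ (by positivity) (by positivity)]
      nlinarith
    have h8 : M * ((k : ℝ) + 1) ^ 2 / 2 * ((∫ y, BHSc_u P (k + 1) y ∂μ) * (∫ y, BHSc_u P k y ∂μ) +
          (∫ y, BHSc_u P k y ∂μ) * (∫ y, BHSc_u P (k + 1) y ∂μ)) ≤ 16 * M := by
      have h9 : 0 ≤ M * ((k : ℝ) + 1) ^ 2 := by positivity
      have h10 := mul_le_mul_of_nonneg_left (h6.trans h7) h9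
      have h11 : M * ((k : ℝ) + 1) ^ 2 * (16 / ((k : ℝ) + 1) ^ 2) = 16 * M := by
        field_simp
      rw [h11] at h10
      linarith
    linarith

end PAS
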