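import Pool.Agent.Lib.MP_216314_pr.AS.BTau
import Pool.Agent.Lib.MP_216314_pr.AS.BDer
import Pool.Agent.Lib.MP_216314_pr.AS.BHSc
import Pool.Agent.Lib.MP_216314_pr.AS.BCoer
import Pool.Agent.Lib.MP_216314_pr.AS.BGron

/-!
Theorem B. For `f` measurable, `|Re f| ≤ F`, `|Im f| ≤ β < π/2`, condition (D) with `M > 0`: with
`K = 8 M e^{2F}/cos β`: `e^{-K} ≤ ‖det T_n(e^f)‖ exp(-Re Tr T_n f) ≤ e^K`.

PROOF. `g_t = exp(t f)`, `0 ≤ t ≤ 1`. `‖f‖ ≤ G := F + β`(`Complex.norm_le_abs_re_add_abs_im`), `‖g_t‖ ≤ exp F` (`exp_norm`), take the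
common bound `max`. `c0 = exp(-F) cos β > 0` (`β ≥ 0` from `hβ 0`; `Real.cos_pos_of_mem_Ioo`). `ta_coer` with `exp_re` gives coercivity
of `TA g_t`, so `det ≠ 0` (`coer_det`). `HS g_t ≤ 8 M e^{2F}` (`hs_c`, `exp_DB`), `HS f ≤ 8M` (`hs_c`). `tau_bound` with
`a = sqrt(8 M) e^F`, `b = sqrt (8M)`: `‖τ‖ ≤ (1/c0) 8 M e^F = K`. `d_deriv` + `gron` for `d t = det(TA g_t) exp(-t tr)`;
`d 0 = det (TA 1) = det 1 = 1` (`TA 1 = 1` by `hP.orth`, exp(0)=1), `‖d 1‖ = ‖det TA (exp f)‖ * exp(-Re tr)` (`Complex.norm_exp`).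
-/

open MeasureTheory Complex

namespace PAS

variable {μ : Measure ℝ} {P : ℕ → ℝ → ℝ}

theorem bmain_ta_one (hP : OPS μ P) (n : ℕ) :
    TA μ P n (fun _ => (1:ℂ)) = 1 := by
  ext m k
  have h1 : TA μ P n (fun _ => (1:ℂ)) m k = ((if (m:ℕ) = (k:ℕ) then (1:ℝ) else 0 : ℝ) : ℂ) := by
    rw [← hP.orth, ← integral_complex_ofReal]
    unfold TA
    rw [Matrix.of_apply]
    simp only [one_mul]
  rw [h1, Matrix.one_apply]
  by_cases h : m = k
  · subst h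
    simp
  · have h2 : ¬ ((m:ℕ) = (k:ℕ)) := fun h3 => h (Fin.ext h3)
    simp [h, h2]

theorem bmain_tau [IsProbabilityMeasure μ] (hP : OPS μ P) {f : ℝ → ℂ} (hf : Measurable f) {M F β : ℝ}
    (hM : 0 < M) (hD : DB M f) (hF : ∀ x, |(f x).re| ≤ F) (hβ : ∀ x, |(f x).im| ≤ β) (hβ2 : β < Real.pi / 2)
    (n : ℕ) (t : ℝ) (ht : t ∈ Set.Icc (0:ℝ) 1) :
    (TA μ P n (fun y => cexp (t * f y))).det ≠ 0 ∧
    ‖((TA μ P n (fun y => cexp (t * f y)))⁻¹ * (TA μ P n (fun y => cexp (t * f y) * f y)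
            - TA μ P n (fun y => cexp (t * f y)) * TA μ P n f)).trace‖
      ≤ 8 * M * Real.exp F ^ 2 / Real.cos β := by
  have hβ0 : 0 ≤ β := le_trans (abs_nonneg _) (hβ 0)
  have hcos : 0 < Real.cos β := by
    apply Real.cos_pos_of_mem_Ioo
    constructor
    · have := Real.pi_pos
      linarith
    · exact hβ2
  have hc0 : 0 < Real.exp (-F) * Real.cos β := mul_pos (Real.exp_pos _) hcos
  have hfG : ∀ x, ‖f x‖ ≤ F + β := by
    intro x
    have h1 := Complex.norm_le_abs_re_add_abs_im (f x)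
    have h2 := hF x
    have h3 := hβ x
    linarith
  have hgm : Measurable (fun y => cexp ((t:ℂ) * f y)) := (measurable_const.mul hf).cexp
  have hgG : ∀ x, ‖cexp ((t:ℂ) * f x)‖ ≤ Real.exp F := fun x => exp_norm hF ht x
  have hcoer := ta_coer hP hgm hgG (fun x => exp_re hF hβ hβ2 ht x) n
  refine ⟨coer_det _ hc0 hcoer, ?_⟩
  have hHg : HS μ P n (fun y => cexp ((t:ℂ) * f y)) ≤ 8 * (M * Real.exp F ^ 2) :=
    hs_c hP hgm hgG (exp_DB hD hF ht) n
  have hHf : HS μ P n f ≤ 8 * M := hs_c hP hf hfG hD n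
  have h8M : (0:ℝ) < 8 * M := by linarith
  have hsq : Real.sqrt (8 * M) ^ 2 = 8 * M := Real.sq_sqrt h8M.le
  have hs0 : 0 < Real.sqrt (8 * M) := Real.sqrt_pos.mpr h8M
  have ha : 0 < Real.sqrt (8 * M) * Real.exp F := mul_pos hs0 (Real.exp_pos _)
  have h1 := tau_bound hP hgm hf (G := max (Real.exp F) (F + β))
    (fun x => le_trans (hgG x) (le_max_left _ _)) (fun x => le_trans (hfG x) (le_max_right _ _)) n hc0 ha hs0
    hcoer (by rw [mul_pow, hsq]; linarith) (by rw [hsq]; exact hHf)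
  refine le_trans h1 (le_of_eq ?_)
  rw [Real.exp_neg]
  have he : Real.exp F ≠ 0 := (Real.exp_pos F).ne'
  have hcn : Real.cos β ≠ 0 := hcos.ne'
  field_simp
  nlinarith [hsq]

theorem abs_main [IsProbabilityMeasure μ] (hP : OPS μ P) {f : ℝ → ℂ} (hf : Measurable f) {M F β : ℝ}
    (hM : 0 < M) (hD : DB M f) (hF : ∀ x, |(f x).re| ≤ F) (hβ : ∀ x, |(f x).im| ≤ β) (hβ2 : β < Real.pi / 2)
    (n : ℕ) :
    Real.exp (-(8 * M * Real.exp F ^ 2 / Real.cos β))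
        ≤ ‖(TA μ P n (fun y => cexp (f y))).det‖ * Real.exp (-(TA μ P n f).trace.re) ∧
      ‖(TA μ P n (fun y => cexp (f y))).det‖ * Real.exp (-(TA μ P n f).trace.re)
        ≤ Real.exp (8 * M * Real.exp F ^ 2 / Real.cos β) := by
  have hfG : ∀ x, ‖f x‖ ≤ F + β := by
    intro x
    have h1 := Complex.norm_le_abs_re_add_abs_im (f x)
    have h2 := hF x
    have h3 := hβ x
    linarith
  have hg := gron (fun s : ℝ => (TA μ P n (fun y => cexp (s * f y))).det * cexp (-s * (TA μ P n f).trace))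
    (fun t : ℝ => ((TA μ P n (fun y => cexp (t * f y)))⁻¹ * (TA μ P n (fun y => cexp (t * f y) * f y)
            - TA μ P n (fun y => cexp (t * f y)) * TA μ P n f)).trace)
    (K := 8 * M * Real.exp F ^ 2 / Real.cos β)
    (fun t ht => d_deriv hP hf hfG n t (bmain_tau hP hf hM hD hF hβ hβ2 n t ht).1)
    (fun t ht => (bmain_tau hP hf hM hD hF hβ hβ2 n t ht).2)
  have h0 : (TA μ P n (fun y => cexp (((0:ℝ):ℂ) * f y))).det * cexp (-((0:ℝ):ℂ) * (TA μ P n f).trace) = 1 := by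
    have h1 : (fun y => cexp (((0:ℝ):ℂ) * f y)) = fun _ => (1:ℂ) := by
      funext y
      simp
    rw [h1, bmain_ta_one hP n]
    simp
  have h1 : (fun y => cexp (((1:ℝ):ℂ) * f y)) = fun y => cexp (f y) := by
    funext y
    simp
  have h2 : ‖cexp (-((1:ℝ):ℂ) * (TA μ P n f).trace)‖ = Real.exp (-(TA μ P n f).trace.re) := by
    rw [Complex.norm_exp]
    simp
  simp only [h0, h1, norm_mul, h2, norm_one, mul_one] at hg
  exact hg

end PAS
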