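import Pool.Agent.Lib.MP_216314_pr.AS.ADef

/-!
H5. Asymptotics of `∏_{k<n} e_k`, `e_k = (2ν/sin πν) ∏_{1≤j≤k} (j²-ν²)/(j²-1/4)`, `0 < ν < 1`:
`|log ∏_{k<n} e_k - (ν²-1/4) log n| ≤ C` for `n ≥ 1`.

PROOF. (1) `e_k → 1`: `Real.tendsto_euler_sin_prod x : π x ∏_{j<n} (1 - x²/(j+1)²) → sin (π x)`, for `x = ν` and `x = 1/2` (`sin(π/2) = 1`);
`(j²-ν²)/(j²-1/4) = (1-ν²/j²)/(1-(1/4)/j²)`, quotient of limits `(sin(πν)/(πν))/(1/(π/2)) = sin(πν)/(2ν)`.
All factors are positive (`0 < ν < 1`, `j ≥ 1`), so `e_k > 0`.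
(2) `c = ν² - 1/4`, for `k ≥ 1` `a_k = log e_k - c log((k+1)/k)`, `a_k → 0`. For `k ≥ 2`:
`a_k - a_{k-1} = log((k²-ν²)/(k²-1/4)) - c log(1 - 1/k²)` (`log((k+1)/k) - log(k/(k-1)) = log((k²-1)/k²)`). With `x = 1/k² ≤ 1/4`:
`log(1-ν²x) - log(1-x/4) - c log(1-x)`, and `|log(1-s) + s| ≤ s²` for `0 ≤ s ≤ 1/2`... (`Real.abs_log_sub_add_sum_range_le` or
`Real.one_sub_inv_le_log_of_pos`: `-s/(1-s) ≤ log(1-s) ≤ -s`, and `s/(1-s) - s = s²/(1-s) ≤ 2 s²` for `s ≤ 1/2`), the linear terms cancel: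
`-ν²x + x/4 + c x = 0`. Hence `|a_k - a_{k-1}| ≤ 6 x² ≤ 6/k⁴ ≤ 6/k³`. (use `s ≤ x ≤ 1/4`.)
(3) `|a_k| ≤ ∑_{j>k} 6/j³ ≤ 12/k²`: to avoid infinite sums, show that `a_k + 6/k²`... : `6/k² - 6/(k+1)² ≥ 6/(k+1)³`, (since
`1/k² - 1/(k+1)² = (2k+1)/(k²(k+1)²) ≥ 1/(k+1)³`), so `a_k - 6/k²` is monotone increasing and `a_k + 6/k²` is decreasing, both tend to `0`, so
`|a_k| ≤ 6/k²` for `k ≥ 1` (`Monotone.ge_of_tendsto`, `Antitone.le_of_tendsto`).
(4) `log ∏_{k<n} e_k = log e_0 + ∑_{1≤k<n} (a_k + c (log (k+1) - log k)) = log e_0 + ∑ a_k + c log n`, `∑_{1≤k<n} 6/k² ≤ 12`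
(`1/k² ≤ 2(1/k - 1/(k+1))`, telescoping). So `C = |log e_0| + 12`.
-/

namespace PAS

open Filter Topology

/-- the factors -/
noncomputable def HProdF (ν : ℝ) (j : ℕ) : ℝ := (((j:ℝ)+1)^2 - ν^2) / (((j:ℝ)+1)^2 - 1/4)

/-- the numbers `e_k` -/
noncomputable def HProdE (ν : ℝ) (k : ℕ) : ℝ :=
  2 * ν / Real.sin (Real.pi * ν) * ∏ j ∈ Finset.range k, HProdF ν j

lemma HProd_den (j : ℕ) : 0 < ((j:ℝ)+1)^2 - 1/4 := by
  have : (0:ℝ) ≤ j := Nat.cast_nonneg j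
  nlinarith

lemma HProd_num {ν : ℝ} (h0 : 0 < ν) (h1 : ν < 1) (j : ℕ) : 0 < ((j:ℝ)+1)^2 - ν^2 := by
  have : (0:ℝ) ≤ j := Nat.cast_nonneg j
  nlinarith

lemma HProdF_pos {ν : ℝ} (h0 : 0 < ν) (h1 : ν < 1) (j : ℕ) : 0 < HProdF ν j :=
  div_pos (HProd_num h0 h1 j) (HProd_den j)

lemma HProd_sin {ν : ℝ} (h0 : 0 < ν) (h1 : ν < 1) : 0 < Real.sin (Real.pi * ν) := by
  apply Real.sin_pos_of_pos_of_lt_pi
  · exact mul_pos Real.pi_pos h0
  · have := Real.pi_pos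
    nlinarith

lemma HProdE_pos {ν : ℝ} (h0 : 0 < ν) (h1 : ν < 1) (k : ℕ) : 0 < HProdE ν k := by
  unfold HProdE
  refine mul_pos (div_pos (by linarith) (HProd_sin h0 h1)) ?_
  exact Finset.prod_pos fun j _ => HProdF_pos h0 h1 j

lemma HProd_euler (x : ℝ) (hx : 0 < x) :
    Tendsto (fun n : ℕ => ∏ j ∈ Finset.range n, (1 - x^2/((j:ℝ)+1)^2)) atTop
      (𝓝 (Real.sin (Real.pi * x) / (Real.pi * x))) := by
  have h := Real.tendsto_euler_sin_prod x
  have hne : Real.pi * x ≠ 0 := (mul_pos Real.pi_pos hx).ne'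
  have h2 := h.div_const (Real.pi * x)
  refine h2.congr fun n => ?_
  field_simp

lemma HProdE_tendsto {ν : ℝ} (h0 : 0 < ν) (h1 : ν < 1) : Tendsto (HProdE ν) atTop (𝓝 1) := by
  have e1 := HProd_euler ν h0
  have e2 := HProd_euler (1/2) (by norm_num)
  have hs : Real.sin (Real.pi * (1/2)) = 1 := by
    rw [show Real.pi * (1/2) = Real.pi / 2 by ring, Real.sin_pi_div_two]
  rw [hs] at e2
  have hpi := Real.pi_pos
  have hsn := HProd_sin h0 h1
  have hne : (1:ℝ) / (Real.pi * (1/2)) ≠ 0 := by positivity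
  have e3 := (e1.div e2 hne).const_mul (2 * ν / Real.sin (Real.pi * ν))
  have hlim : 2 * ν / Real.sin (Real.pi * ν)
      * (Real.sin (Real.pi * ν) / (Real.pi * ν) / (1 / (Real.pi * (1/2)))) = 1 := by
    have hsn' := hsn.ne'
    set σ := Real.sin (Real.pi * ν)
    field_simp
  rw [hlim] at e3
  refine e3.congr fun n => ?_
  simp only [Pi.div_apply]
  unfold HProdE
  congr 1
  rw [← Finset.prod_div_distrib]
  refine Finset.prod_congr rfl fun j _ => ?_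
  unfold HProdF
  have h3 : ((j:ℝ)+1)^2 ≠ 0 := by positivity
  have h4 := (HProd_den j).ne'
  have h5 : (1:ℝ) - (1/2)^2/((j:ℝ)+1)^2 = (((j:ℝ)+1)^2 - 1/4) / ((j:ℝ)+1)^2 := by
    field_simp
    ring
  have h6 : (1:ℝ) - ν^2/((j:ℝ)+1)^2 = (((j:ℝ)+1)^2 - ν^2) / ((j:ℝ)+1)^2 := by
    field_simp
  rw [h5, h6]
  field_simp

/-- `log (1-s)` between `-s-2s²` and `-s` -/
lemma HProd_log {s : ℝ} (hs0 : 0 ≤ s) (hs : s ≤ 1/2) :
    -s - 2 * s^2 ≤ Real.log (1 - s) ∧ Real.log (1 - s) ≤ -s := by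
  have hp : 0 < 1 - s := by linarith
  constructor
  · have h := Real.one_sub_inv_le_log_of_pos hp
    refine le_trans ?_ h
    have : 1 - (1 - s)⁻¹ = - s / (1 - s) := by
      field_simp
      ring
    rw [this, le_div_iff₀ hp]
    nlinarith [mul_nonneg hs0 hs0, mul_nonneg (mul_nonneg hs0 hs0) hs0]
  · have h := Real.log_le_sub_one_of_pos hp
    linarith

lemma HProd_step {ν : ℝ} (h0 : 0 < ν) (h1 : ν < 1) (k : ℕ) (hk : 1 ≤ k) :
    |Real.log (HProdF ν k)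
      - (ν^2 - 1/4) * (Real.log ((k:ℝ)+2) - 2 * Real.log ((k:ℝ)+1) + Real.log k)|
      ≤ 6 / ((k:ℝ)+1)^3 := by
  have hk1 : (1:ℝ) ≤ k := by exact_mod_cast hk
  set K : ℝ := (k:ℝ)+1 with hK
  have hK2 : 2 ≤ K := by linarith
  have hKp : 0 < K := by linarith
  set x : ℝ := 1 / K^2 with hx
  have hx0 : 0 < x := by positivity
  have hx4 : x ≤ 1/4 := by
    rw [hx, div_le_div_iff₀ (by positivity) (by norm_num)]
    nlinarith
  have hn2 : ν^2 < 1 := by nlinarith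
  have hn0 : 0 < ν^2 := by positivity
  have hF : Real.log (HProdF ν k) = Real.log (1 - ν^2*x) - Real.log (1 - x/4) := by
    have h3 : 0 < 1 - ν^2*x := by nlinarith
    have h4 : 0 < 1 - x/4 := by linarith
    rw [← Real.log_div h3.ne' h4.ne']
    congr 1
    unfold HProdF
    rw [← hK]
    have hKne : K ≠ 0 := hKp.ne'
    have h5 : 1 - ν^2*x = (K^2 - ν^2) / K^2 := by
      rw [hx]
      field_simp
    have h6 : 1 - x/4 = (K^2 - 1/4) / K^2 := by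
      rw [hx]
      field_simp
    rw [h5, h6]
    have h7 : K^2 - 1/4 ≠ 0 := by nlinarith
    field_simp
  have hL : Real.log ((k:ℝ)+2) - 2 * Real.log ((k:ℝ)+1) + Real.log k = Real.log (1 - x) := by
    have hk0 : (0:ℝ) < k := by linarith
    have h5 : 1 - x = ((k:ℝ)+2) * k / (K * K) := by
      rw [hx, hK]
      have : ((k:ℝ)+1) ≠ 0 := by positivity
      field_simp
      ring
    rw [h5, Real.log_div (by positivity) (by positivity), Real.log_mul (by positivity) (by positivity),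
      Real.log_mul hKp.ne' hKp.ne']
    rw [hK]
    ring
  rw [hF, hL]
  have a1 := HProd_log (s := ν^2*x) (by positivity) (by nlinarith)
  have a2 := HProd_log (s := x/4) (by positivity) (by linarith)
  have a3 := HProd_log (s := x) hx0.le (by linarith)
  have hxx : 3 * x^2 ≤ 6 / K^3 := by
    rw [hx, div_pow, one_pow, mul_one_div, div_le_div_iff₀ (by positivity) (by positivity)]
    have : K^3 ≤ (K^2)^2 := by
      have : (K^2)^2 = K^3 * K := by ring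
      rw [this]
      nlinarith [pow_pos hKp 3]
    nlinarith [pow_pos hKp 3]
  have b1 : ν^2*x ≤ x := by nlinarith
  have b2 : (ν^2*x)^2 ≤ x^2 := by
    apply pow_le_pow_left₀ (by positivity) b1
  set l1 := Real.log (1 - ν^2*x)
  set l2 := Real.log (1 - x/4)
  set l3 := Real.log (1 - x)
  refine le_trans ?_ hxx
  rw [abs_le]
  -- write l3 = -x - d3
  obtain ⟨d3, hd3⟩ : ∃ d, l3 = -x - d := ⟨-x - l3, by ring⟩
  have d3a : 0 ≤ d3 := by linarith [a3.2]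
  have d3b : d3 ≤ 2 * x^2 := by linarith [a3.1]
  rw [hd3]
  have c1 : (ν^2 - 1/4) * d3 ≤ 3/4 * (2*x^2) := by
    have : (ν^2 - 1/4) * d3 ≤ 3/4 * d3 := by nlinarith
    linarith
  have c2 : -(1/4) * (2*x^2) ≤ (ν^2 - 1/4) * d3 := by
    have : -(1/4) * d3 ≤ (ν^2 - 1/4) * d3 := by nlinarith
    linarith
  have e2 : 2 * (x/4)^2 = x^2/8 := by ring
  constructor
  · have := a1.1
    have := a2.2
    nlinarith [sq_nonneg x]
  · have := a1.2
    have := a2.1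
    nlinarith [sq_nonneg x]

/-- the corrected logarithms, index shifted by one -/
noncomputable def HProdA (ν : ℝ) (k : ℕ) : ℝ :=
  Real.log (HProdE ν k) - (ν^2 - 1/4) * (Real.log ((k:ℝ)+1) - Real.log k)

lemma HProdA_step {ν : ℝ} (h0 : 0 < ν) (h1 : ν < 1) (k : ℕ) (hk : 1 ≤ k) :
    |HProdA ν (k+1) - HProdA ν k| ≤ 6 / ((k:ℝ)+1)^3 := by
  have h := HProd_step h0 h1 k hk
  have hE : Real.log (HProdE ν (k+1)) = Real.log (HProdE ν k) + Real.log (HProdF ν k) := by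
    rw [← Real.log_mul (HProdE_pos h0 h1 k).ne' (HProdF_pos h0 h1 k).ne']
    congr 1
    unfold HProdE
    rw [Finset.prod_range_succ]
    ring
  have : HProdA ν (k+1) - HProdA ν k = Real.log (HProdF ν k)
      - (ν^2 - 1/4) * (Real.log ((k:ℝ)+2) - 2 * Real.log ((k:ℝ)+1) + Real.log k) := by
    unfold HProdA
    rw [hE]
    push_cast
    rw [show (k:ℝ) + 1 + 1 = k + 2 by ring]
    ring
  rw [this]
  exact h

lemma HProd_tel (k : ℝ) (hk : 0 < k) : 6 / (k+1)^3 ≤ 6 / k^2 - 6 / (k+1)^2 := by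
  rw [div_sub_div _ _ (by positivity) (by positivity), div_le_div_iff₀ (by positivity) (by positivity)]
  have : 6 * (k^2 * (k+1)^2) ≤ 6 * ((2*k+1) * (k+1)^3) := by
    have h1 : k^2 ≤ (2*k+1)*(k+1) := by nlinarith
    have h2 : (0:ℝ) ≤ (k+1)^2 := by positivity
    nlinarith [mul_le_mul_of_nonneg_right h1 h2]
  calc 6 * (k^2 * (k+1)^2) ≤ 6 * ((2*k+1) * (k+1)^3) := this
    _ = (6 * (k+1)^2 - k^2 * 6) * (k+1)^3 := by ring

lemma HProdA_tendsto {ν : ℝ} (h0 : 0 < ν) (h1 : ν < 1) :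
    Tendsto (fun k : ℕ => HProdA ν (k+1)) atTop (𝓝 0) := by
  have e1 : Tendsto (fun k : ℕ => Real.log (HProdE ν (k+1))) atTop (𝓝 0) := by
    have h := (Real.continuousAt_log (one_ne_zero)).tendsto.comp
      ((HProdE_tendsto h0 h1).comp (tendsto_add_atTop_nat 1))
    rw [Real.log_one] at h
    exact h
  have e2 : Tendsto (fun k : ℕ => Real.log (((k+1:ℕ):ℝ)+1) - Real.log ((k+1:ℕ):ℝ)) atTop (𝓝 0) := by
    have h3 : Tendsto (fun k : ℕ => (1:ℝ) + 1 / ((k:ℝ)+1)) atTop (𝓝 (1+0)) :=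
      tendsto_const_nhds.add tendsto_one_div_add_atTop_nhds_zero_nat
    rw [add_zero] at h3
    have h := (Real.continuousAt_log (one_ne_zero)).tendsto.comp h3
    rw [Real.log_one] at h
    refine h.congr fun k => ?_
    simp only [Function.comp]
    rw [← Real.log_div (by positivity) (by positivity)]
    congr 1
    push_cast
    field_simp
  have e3 := e1.sub (e2.const_mul (ν^2 - 1/4))
  simp only [mul_zero, sub_zero] at e3
  exact e3

lemma HProd_sq_tendsto : Tendsto (fun k : ℕ => (6:ℝ) / ((k:ℝ)+1)^2) atTop (𝓝 0) := by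
  have h := (tendsto_one_div_add_atTop_nhds_zero_nat (𝕜 := ℝ))
  have h2 := (h.mul h).const_mul (6:ℝ)
  simp only [mul_zero] at h2
  refine h2.congr fun k => ?_
  field_simp

lemma HProdA_bound {ν : ℝ} (h0 : 0 < ν) (h1 : ν < 1) (k : ℕ) :
    |HProdA ν (k+1)| ≤ 6 / ((k:ℝ)+1)^2 := by
  have hm : Monotone (fun k : ℕ => HProdA ν (k+1) - 6 / ((k:ℝ)+1)^2) := by
    apply monotone_nat_of_le_succ
    intro n
    have h := (abs_le.1 (HProdA_step h0 h1 (n+1) (by omega))).1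
    have h2 := HProd_tel ((n:ℝ)+1) (by positivity)
    push_cast at h ⊢
    linarith
  have ha : Antitone (fun k : ℕ => HProdA ν (k+1) + 6 / ((k:ℝ)+1)^2) := by
    apply antitone_nat_of_succ_le
    intro n
    have h := (abs_le.1 (HProdA_step h0 h1 (n+1) (by omega))).2
    have h2 := HProd_tel ((n:ℝ)+1) (by positivity)
    push_cast at h ⊢
    linarith
  have t1 := (HProdA_tendsto h0 h1).sub HProd_sq_tendsto
  have t2 := (HProdA_tendsto h0 h1).add HProd_sq_tendsto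
  rw [sub_zero] at t1
  rw [add_zero] at t2
  have u1 := hm.ge_of_tendsto t1 k
  have u2 := ha.le_of_tendsto t2 k
  have u1' : HProdA ν (k+1) - 6 / ((k:ℝ)+1)^2 ≤ 0 := u1
  have u2' : 0 ≤ HProdA ν (k+1) + 6 / ((k:ℝ)+1)^2 := u2
  rw [abs_le]
  constructor <;> linarith

lemma HProd_sum {ν : ℝ} (h0 : 0 < ν) (h1 : ν < 1) (n : ℕ) :
    |∑ k ∈ Finset.range (n+1), Real.log (HProdE ν k) - (ν^2 - 1/4) * Real.log ((n:ℝ)+1)
      - Real.log (HProdE ν 0)| ≤ 12 * (1 - 1/((n:ℝ)+1)) := by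
  induction n with
  | zero => simp
  | succ n ih =>
    rw [Finset.sum_range_succ]
    have hA := HProdA_bound h0 h1 n
    have hE : Real.log (HProdE ν (n+1)) = HProdA ν (n+1)
        + (ν^2 - 1/4) * (Real.log ((n:ℝ)+1+1) - Real.log ((n:ℝ)+1)) := by
      unfold HProdA
      push_cast
      ring
    rw [hE]
    push_cast
    have h6 : 6 / ((n:ℝ)+1)^2 ≤ 12 * (1/((n:ℝ)+1) - 1/((n:ℝ)+1+1)) := by
      rw [div_sub_div _ _ (by positivity) (by positivity), ← mul_div_assoc,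
        div_le_div_iff₀ (by positivity) (by positivity)]
      have : (0:ℝ) ≤ n := Nat.cast_nonneg n
      nlinarith [mul_nonneg this this]
    set S := ∑ k ∈ Finset.range (n+1), Real.log (HProdE ν k)
    have key : S + (HProdA ν (n+1) + (ν^2 - 1/4) * (Real.log ((n:ℝ)+1+1) - Real.log ((n:ℝ)+1)))
        - (ν^2 - 1/4) * Real.log ((n:ℝ)+1+1) - Real.log (HProdE ν 0)
        = (S - (ν^2 - 1/4) * Real.log ((n:ℝ)+1) - Real.log (HProdE ν 0)) + HProdA ν (n+1) := by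
      ring
    rw [key]
    refine (abs_add_le _ _).trans ?_
    linarith

theorem hprod {ν : ℝ} (h0 : 0 < ν) (h1 : ν < 1) :
    (∀ k : ℕ, 0 < 2 * ν / Real.sin (Real.pi * ν) * ∏ j ∈ Finset.range k, (((j:ℝ)+1)^2 - ν^2) / (((j:ℝ)+1)^2 - 1/4)) ∧
    ∃ C : ℝ, ∀ n : ℕ, 1 ≤ n →
      |Real.log (∏ k ∈ Finset.range n, (2 * ν / Real.sin (Real.pi * ν)
          * ∏ j ∈ Finset.range k, (((j:ℝ)+1)^2 - ν^2) / (((j:ℝ)+1)^2 - 1/4)))
        - (ν^2 - 1/4) * Real.log n| ≤ C := by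
  refine ⟨fun k => HProdE_pos h0 h1 k, |Real.log (HProdE ν 0)| + 12, ?_⟩
  intro n hn
  obtain ⟨m, rfl⟩ : ∃ m, n = m + 1 := ⟨n - 1, by omega⟩
  have h := HProd_sum h0 h1 m
  have hlog : Real.log (∏ k ∈ Finset.range (m+1), (2 * ν / Real.sin (Real.pi * ν)
          * ∏ j ∈ Finset.range k, (((j:ℝ)+1)^2 - ν^2) / (((j:ℝ)+1)^2 - 1/4)))
      = ∑ k ∈ Finset.range (m+1), Real.log (HProdE ν k) := by
    rw [Real.log_prod]
    · rfl
    · intro k _
      exact (HProdE_pos h0 h1 k).ne'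
  rw [hlog]
  push_cast
  have h2 : 12 * (1 - 1/((m:ℝ)+1)) ≤ 12 := by
    have : 0 ≤ 1/((m:ℝ)+1) := by positivity
    linarith
  set T := ∑ k ∈ Finset.range (m+1), Real.log (HProdE ν k) - (ν^2 - 1/4) * Real.log ((m:ℝ)+1)
  have : T = (T - Real.log (HProdE ν 0)) + Real.log (HProdE ν 0) := by ring
  rw [this]
  refine (abs_add_le _ _).trans ?_
  linarith

end PAS
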