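import Pool.Agent.Lib.MP_216314_pr.AS.HDet
import Pool.Agent.Lib.MP_216314_pr.AS.HProd
import Pool.Agent.Lib.MP_216314_pr.AS.BMain
import Pool.Agent.Lib.MP_216314_pr.AS.DFg

/-!
H6. `|Tr T_n(f_γ) - ((γ/π)² - 1/4) log n| ≤ C`, `n ≥ 1`, `f_γ = log q_γ`.

PROOF. `abs_main` for `f y = (log (qg γ y) : ℂ)` with `β = 0` (`cos 0 = 1`), `F` from `fg_bdd`, `M` from `fg_DB`, `exp (f y) = qg γ y` (`qg_pos`),
`hdet`: `e^{-K} ≤ (∏ e_k) exp(-Re Tr) ≤ e^K`; take logs, `|log ∏ e_k - Re Tr| ≤ K`; with `hprod` (`ν = γ/π`).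
-/

open MeasureTheory Complex

namespace PAS

theorem htr {γ : ℝ} (h0 : 0 < γ) (h1 : γ < Real.pi) : ∃ C : ℝ, ∀ n : ℕ, 1 ≤ n →
    |(TA mw PP n (fun y => ((Real.log (qg γ y) : ℝ) : ℂ))).trace.re
      - ((γ / Real.pi)^2 - 1/4) * Real.log n| ≤ C := by
  obtain ⟨F, hF⟩ := fg_bdd h0 h1
  obtain ⟨M, hM, hD⟩ := fg_DB h0 h1
  have hν0 : 0 < γ / Real.pi := div_pos h0 Real.pi_pos
  have hν1 : γ / Real.pi < 1 := (div_lt_one Real.pi_pos).2 h1
  obtain ⟨hpos, C, hC⟩ := hprod hν0 hν1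
  refine ⟨8 * M * Real.exp F ^ 2 / Real.cos 0 + C, fun n hn => ?_⟩
  have hmeas : Measurable (fun y => ((Real.log (qg γ y) : ℝ) : ℂ)) :=
    (Complex.continuous_ofReal.comp (fg_cont h0 h1)).measurable
  have hmain := abs_main ops_mw hmeas hM hD (F := F) (β := 0)
    (fun x => by rw [Complex.ofReal_re]; exact hF x)
    (fun x => by rw [Complex.ofReal_im, abs_zero]) (by positivity) n
  have hexp : (fun y => cexp ((fun y => ((Real.log (qg γ y) : ℝ) : ℂ)) y)) = fun y => ((qg γ y : ℝ) : ℂ) := by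
    funext y
    beta_reduce
    rw [← Complex.ofReal_exp, Real.exp_log (qg_pos h0 h1 y)]
  rw [hexp, hdet h0 h1 n] at hmain
  have hep : 0 < ∏ k ∈ Finset.range n, ek (γ / Real.pi) k :=
    Finset.prod_pos fun k _ => hpos k
  rw [Complex.norm_real, Real.norm_eq_abs, abs_of_pos hep] at hmain
  set K := 8 * M * Real.exp F ^ 2 / Real.cos 0 with hK
  set T := (TA mw PP n (fun y => ((Real.log (qg γ y) : ℝ) : ℂ))).trace.re with hT
  have hlog : Real.log ((∏ k ∈ Finset.range n, ek (γ / Real.pi) k) * Real.exp (-T)) =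
      Real.log (∏ k ∈ Finset.range n, ek (γ / Real.pi) k) - T := by
    rw [Real.log_mul hep.ne' (Real.exp_pos _).ne', Real.log_exp]
    ring
  have hl := Real.log_le_log (Real.exp_pos _) hmain.1
  rw [Real.log_exp, hlog] at hl
  have hu := Real.log_le_log (mul_pos hep (Real.exp_pos _)) hmain.2
  rw [Real.log_exp, hlog] at hu
  have hc := hC n hn
  change |Real.log (∏ k ∈ Finset.range n, ek (γ / Real.pi) k) - _| ≤ C at hc
  rw [abs_le] at hc ⊢
  constructor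
  · linarith [hc.1, hc.2]
  · linarith [hc.1, hc.2]

end PAS
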