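import Pool.Agent.Lib.MP_216314_pr.AS.EDet
import Pool.Agent.Lib.MP_216314_pr.AS.HTr
import Pool.Agent.Lib.MP_216314_pr.AS.DLog
import Pool.Agent.Lib.MP_216314_pr.AS.DFac

/-!
Theorem AS and the ratio.

PROOF. `β = 3a/4`. `abs_main` for `f = log Q_β` (`lq_*`): `|log ‖det T_n Q_β‖ - Re Tr T_n f| ≤ K`. By `lq_fac` and linearity of `g ↦ Tr T_n(g)`
(`Re Tr T_n f = Tr T_n (Re f)` because the `P_m P_k` are real): `Re Tr T_n f = (1/2)(∑_j Tr T_n f_{γ_j} - Tr T_n f_{2β})`, then `htr` four times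
(`γ1 = 2β/3`, `γ2 = (2π+2β)/3`, `γ3 = (2π-2β)/3`, `2β` are all in `(0,π)`), the coefficient of `log n` is `7/36 - (4/3)(β/π)² = 7/36 - 3a²/(4π²)`. Exponentiate:
`n^e = exp(e log n)` (`Real.rpow_def_of_pos`). `edet`, `4β/3 = a`.
`as_ratio`: quotient of `as_main` for `a` and `π/3`; `e(π/3) = 1/9`; `e(a) - 1/9 = -(3/4)(a²/π² - 1/9)`.
-/

open MeasureTheory Complex

namespace PAS

theorem asmain_tr_real (g : ℝ → ℝ) (n : ℕ) : (TA mw PP n (fun y => ((g y : ℝ) : ℂ))).trace.re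
    = ∑ m : Fin n, ∫ y, g y * (PP m y * PP m y) ∂mw := by
  rw [Matrix.trace, Complex.re_sum]
  refine Finset.sum_congr rfl (fun m _ => ?_)
  simp only [Matrix.diag_apply, TA, Matrix.of_apply]
  have e : ∀ y : ℝ, ((g y : ℝ) : ℂ) * ((PP m y * PP m y : ℝ) : ℂ) = ((g y * (PP m y * PP m y) : ℝ) : ℂ) := by
    intro y; push_cast; ring
  simp only [e]
  rw [integral_complex_ofReal, Complex.ofReal_re]

theorem asmain_int {g : ℝ → ℝ} (hg : Measurable g) {F : ℝ} (hF : ∀ y, |g y| ≤ F) (m : ℕ) :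
    Integrable (fun y => g y * (PP m y * PP m y)) mw := by
  have h := ops_mw.int m m
  exact h.bdd_mul (c := F) hg.aestronglyMeasurable (Filter.Eventually.of_forall (fun y => by rw [Real.norm_eq_abs]; exact hF y))

theorem asmain_tr_cplx {f : ℝ → ℂ} (hf : Measurable f) {F : ℝ} (hF : ∀ y, ‖f y‖ ≤ F) (n : ℕ) :
    (TA mw PP n f).trace.re = ∑ m : Fin n, ∫ y, (f y).re * (PP m y * PP m y) ∂mw := by
  rw [Matrix.trace, Complex.re_sum]
  refine Finset.sum_congr rfl (fun m _ => ?_)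
  simp only [Matrix.diag_apply, TA, Matrix.of_apply]
  have h : Integrable (fun y => ((PP m y * PP m y : ℝ) : ℂ)) mw := (ops_mw.int m m).ofReal
  have h2 : Integrable (fun y => f y * ((PP m y * PP m y : ℝ) : ℂ)) mw :=
    h.bdd_mul (c := F) hf.aestronglyMeasurable (Filter.Eventually.of_forall hF)
  have h3 := integral_re h2
  simp only [RCLike.re_to_complex] at h3
  rw [← h3]
  refine integral_congr_ae (Filter.Eventually.of_forall (fun y => ?_))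
  simp only [Complex.re_mul_ofReal]

theorem asmain_lin {g1 g2 g3 g4 : ℝ → ℝ} (i1 : Integrable g1 mw) (i2 : Integrable g2 mw) (i3 : Integrable g3 mw)
    (i4 : Integrable g4 mw) : ∫ y, (g1 y + g2 y + g3 y - g4 y) ∂mw
      = ∫ y, g1 y ∂mw + ∫ y, g2 y ∂mw + ∫ y, g3 y ∂mw - ∫ y, g4 y ∂mw := by
  have i12 : Integrable (fun y => g1 y + g2 y) mw := i1.add i2
  have i123 : Integrable (fun y => g1 y + g2 y + g3 y) mw := i12.add i3
  rw [integral_sub i123 i4, integral_add i12 i3, integral_add i1 i2]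

theorem asmain_trace {β : ℝ} (h0 : 0 < β) (h : β < Real.pi / 2) (n : ℕ) :
    (TA mw PP n (fun y => Complex.log (Qb β y))).trace.re
      = (1/2) * ((TA mw PP n (fun y => ((Real.log (qg (2*β/3) y) : ℝ) : ℂ))).trace.re
        + (TA mw PP n (fun y => ((Real.log (qg ((2*Real.pi + 2*β)/3) y) : ℝ) : ℂ))).trace.re
        + (TA mw PP n (fun y => ((Real.log (qg ((2*Real.pi - 2*β)/3) y) : ℝ) : ℂ))).trace.re
        - (TA mw PP n (fun y => ((Real.log (qg (2*β) y) : ℝ) : ℂ))).trace.re) := by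
  have hpi := Real.pi_pos
  obtain ⟨F, hF⟩ := lq_re h0 h
  have hn : ∀ y, ‖Complex.log (Qb β y)‖ ≤ F + β := by
    intro y
    exact (Complex.norm_le_abs_re_add_abs_im _).trans (add_le_add (hF y) (lq_im h0 h y))
  rw [asmain_tr_cplx (lq_meas h0 h) hn, asmain_tr_real, asmain_tr_real, asmain_tr_real, asmain_tr_real]
  rw [← Finset.sum_add_distrib, ← Finset.sum_add_distrib, ← Finset.sum_sub_distrib, Finset.mul_sum]
  refine Finset.sum_congr rfl (fun m _ => ?_)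
  have a1 : 0 < 2*β/3 := by positivity
  have b1 : 2*β/3 < Real.pi := by linarith
  have a2 : 0 < (2*Real.pi + 2*β)/3 := by positivity
  have b2 : (2*Real.pi + 2*β)/3 < Real.pi := by linarith
  have a3 : 0 < (2*Real.pi - 2*β)/3 := by linarith
  have b3 : (2*Real.pi - 2*β)/3 < Real.pi := by linarith
  have a4 : 0 < 2*β := by positivity
  have b4 : 2*β < Real.pi := by linarith
  obtain ⟨F1, hF1⟩ := fg_bdd a1 b1
  obtain ⟨F2, hF2⟩ := fg_bdd a2 b2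
  obtain ⟨F3, hF3⟩ := fg_bdd a3 b3
  obtain ⟨F4, hF4⟩ := fg_bdd a4 b4
  have i1 := asmain_int (fg_cont a1 b1).measurable hF1 m
  have i2 := asmain_int (fg_cont a2 b2).measurable hF2 m
  have i3 := asmain_int (fg_cont a3 b3).measurable hF3 m
  have i4 := asmain_int (fg_cont a4 b4).measurable hF4 m
  rw [← asmain_lin i1 i2 i3 i4, ← integral_const_mul]
  refine integral_congr_ae (Filter.Eventually.of_forall (fun y => ?_))
  simp only [lq_fac h0 h]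
  ring

theorem asmain_pow {e K L D : ℝ} (x : ℝ) (hx : 0 < x) (hD : |L - e * Real.log x| ≤ K) (K2 : ℝ)
    (h1 : Real.exp (-K2) ≤ D * Real.exp (-L)) (h2 : D * Real.exp (-L) ≤ Real.exp K2) :
    Real.exp (-(K + K2)) * x ^ e ≤ D ∧ D ≤ Real.exp (K + K2) * x ^ e := by
  rw [Real.rpow_def_of_pos hx]
  have hD' := abs_le.mp hD
  have e1 : D = (D * Real.exp (-L)) * Real.exp L := by
    rw [mul_assoc, ← Real.exp_add]; simp
  constructor
  · rw [e1, ← Real.exp_add]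
    calc Real.exp (-(K + K2) + Real.log x * e) ≤ Real.exp (-K2 + L) := by
          apply Real.exp_le_exp.mpr; nlinarith [hD'.1, hD'.2]
      _ = Real.exp (-K2) * Real.exp L := Real.exp_add _ _
      _ ≤ _ := mul_le_mul_of_nonneg_right h1 (Real.exp_pos _).le
  · rw [e1, ← Real.exp_add]
    calc (D * Real.exp (-L)) * Real.exp L ≤ Real.exp K2 * Real.exp L := mul_le_mul_of_nonneg_right h2 (Real.exp_pos _).le
      _ = Real.exp (K2 + L) := (Real.exp_add _ _).symm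
      _ ≤ _ := by apply Real.exp_le_exp.mpr; nlinarith [hD'.1, hD'.2]

theorem as_main {a : ℝ} (h0 : 0 < a) (h1 : a < 2 * Real.pi / 3) : ∃ c C : ℝ, 0 < c ∧ 0 < C ∧
    ∀ n : ℕ, 1 ≤ n →
      c * (n:ℝ) ^ (7/36 - 3 * a^2 / (4 * Real.pi^2))
          ≤ (4 / (3 * Real.sqrt 3)) ^ (n^2) * ‖(1 + cexp (I * a) • BM n).det‖ ∧
      (4 / (3 * Real.sqrt 3)) ^ (n^2) * ‖(1 + cexp (I * a) • BM n).det‖
          ≤ C * (n:ℝ) ^ (7/36 - 3 * a^2 / (4 * Real.pi^2)) := by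
  have hpi := Real.pi_pos
  obtain ⟨β, hβ⟩ : ∃ β : ℝ, β = 3 * a / 4 := ⟨_, rfl⟩
  have hb0 : 0 < β := by rw [hβ]; positivity
  have hb1 : β < Real.pi / 2 := by rw [hβ]; linarith
  have a1 : 0 < 2*β/3 := by positivity
  have b1 : 2*β/3 < Real.pi := by linarith
  have a2 : 0 < (2*Real.pi + 2*β)/3 := by positivity
  have b2 : (2*Real.pi + 2*β)/3 < Real.pi := by linarith
  have a3 : 0 < (2*Real.pi - 2*β)/3 := by linarith
  have b3 : (2*Real.pi - 2*β)/3 < Real.pi := by linarith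
  have a4 : 0 < 2*β := by positivity
  have b4 : 2*β < Real.pi := by linarith
  obtain ⟨C1, hC1⟩ := htr a1 b1
  obtain ⟨C2, hC2⟩ := htr a2 b2
  obtain ⟨C3, hC3⟩ := htr a3 b3
  obtain ⟨C4, hC4⟩ := htr a4 b4
  obtain ⟨F, hF⟩ := lq_re hb0 hb1
  obtain ⟨M, hM, hDB⟩ := lq_DB hb0 hb1
  obtain ⟨K2, hK2⟩ : ∃ K2 : ℝ, K2 = 8 * M * Real.exp F ^ 2 / Real.cos β := ⟨_, rfl⟩
  refine ⟨Real.exp (-((C1 + C2 + C3 + C4)/2 + K2)), Real.exp ((C1 + C2 + C3 + C4)/2 + K2), Real.exp_pos _, Real.exp_pos _, ?_⟩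
  intro n hn
  have hmain := abs_main ops_mw (lq_meas hb0 hb1) hM hDB hF (lq_im hb0 hb1) hb1 n
  rw [← hK2] at hmain
  have hQ : (fun y => cexp (Complex.log (Qb β y))) = Qb β := by
    funext y; exact lq_exp hb0 hb1 y
  rw [hQ] at hmain
  have hw : cexp (4 * I * β / 3) = cexp (I * a) := by
    rw [hβ]; push_cast; ring_nf
  have hed := edet hb0 hb1 n
  rw [hw] at hed
  rw [hed] at hmain
  have hx : (0:ℝ) < n := by exact_mod_cast hn
  have t := asmain_trace hb0 hb1 n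
  have c1 := abs_le.mp (hC1 n hn)
  have c2 := abs_le.mp (hC2 n hn)
  have c3 := abs_le.mp (hC3 n hn)
  have c4 := abs_le.mp (hC4 n hn)
  have hexp : 7/36 - 3 * a^2 / (4 * Real.pi^2) = (1/2) * (((2*β/3)/Real.pi)^2 - 1/4 + ((((2*Real.pi + 2*β)/3)/Real.pi)^2 - 1/4)
      + ((((2*Real.pi - 2*β)/3)/Real.pi)^2 - 1/4) - ((2*β/Real.pi)^2 - 1/4)) := by
    rw [hβ]; field_simp; ring
  refine asmain_pow (n:ℝ) hx ?_ K2 hmain.1 hmain.2
  rw [t, hexp, abs_le]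
  constructor
  · nlinarith [c1.1, c1.2, c2.1, c2.2, c3.1, c3.2, c4.1, c4.2]
  · nlinarith [c1.1, c1.2, c2.1, c2.2, c3.1, c3.2, c4.1, c4.2]

theorem as_ratio {a : ℝ} (h0 : 0 < a) (h1 : a < 2 * Real.pi / 3) : ∃ c C : ℝ, 0 < c ∧ 0 < C ∧
    ∀ n : ℕ, 1 ≤ n →
      c * (n:ℝ) ^ (-(3/4) * (a^2 / Real.pi^2 - 1/9))
          ≤ ‖(1 + cexp (I * a) • BM n).det‖ / ‖(1 + cexp (I * ((Real.pi / 3 : ℝ) : ℂ)) • BM n).det‖ ∧
      ‖(1 + cexp (I * a) • BM n).det‖ / ‖(1 + cexp (I * ((Real.pi / 3 : ℝ) : ℂ)) • BM n).det‖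
          ≤ C * (n:ℝ) ^ (-(3/4) * (a^2 / Real.pi^2 - 1/9)) := by
  have hpi := Real.pi_pos
  obtain ⟨c1, C1, hc1, hC1, H1⟩ := as_main h0 h1
  obtain ⟨c2, C2, hc2, hC2, H2⟩ := as_main (a := Real.pi / 3) (by positivity) (by linarith)
  refine ⟨c1 / C2, C1 / c2, div_pos hc1 hC2, div_pos hC1 hc2, ?_⟩
  intro n hn
  have hx : (0:ℝ) < n := by exact_mod_cast hn
  obtain ⟨p1, p2⟩ := H1 n hn
  obtain ⟨q1, q2⟩ := H2 n hn
  have h3 : 0 < Real.sqrt 3 := Real.sqrt_pos.mpr (by norm_num)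
  have hk : 0 < (4 / (3 * Real.sqrt 3)) ^ (n^2) := by positivity
  have e2 : 7/36 - 3 * (Real.pi/3)^2 / (4 * Real.pi^2) = 1/9 := by field_simp; norm_num
  rw [e2] at q1 q2
  have hy : 0 < (n:ℝ) ^ ((1:ℝ)/9) := Real.rpow_pos_of_pos hx _
  have he : (n:ℝ) ^ (-(3/4) * (a^2 / Real.pi^2 - 1/9)) = (n:ℝ) ^ (7/36 - 3 * a^2 / (4 * Real.pi^2)) / (n:ℝ) ^ ((1:ℝ)/9) := by
    rw [← Real.rpow_sub hx]
    congr 1
    field_simp
    ring
  have hz : 0 < (n:ℝ) ^ (7/36 - 3 * a^2 / (4 * Real.pi^2)) := Real.rpow_pos_of_pos hx _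
  rw [he]
  generalize (n:ℝ) ^ (7/36 - 3 * a^2 / (4 * Real.pi^2)) = z at *
  generalize (n:ℝ) ^ ((1:ℝ)/9) = y at *
  generalize (4 / (3 * Real.sqrt 3)) ^ (n^2) = κ at *
  generalize ‖(1 + cexp (I * a) • BM n).det‖ = A at *
  generalize ‖(1 + cexp (I * ((Real.pi / 3 : ℝ) : ℂ)) • BM n).det‖ = B at *
  have hB : 0 < B := by
    have : 0 < κ * B := lt_of_lt_of_le (mul_pos hc2 hy) q1
    exact (pos_iff_pos_of_mul_pos this).mp hk
  have hAB : A / B = (κ * A) / (κ * B) := by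
    rw [mul_div_mul_left _ _ hk.ne']
  have hκB : 0 < κ * B := mul_pos hk hB
  rw [hAB]
  constructor
  · rw [div_mul_div_comm, div_le_div_iff₀ (mul_pos hC2 hy) hκB]
    calc c1 * z * (κ * B) ≤ (κ * A) * (κ * B) := mul_le_mul_of_nonneg_right p1 hκB.le
      _ ≤ (κ * A) * (C2 * y) := mul_le_mul_of_nonneg_left q2 ((mul_pos hc1 hz).le.trans p1)
  · rw [div_mul_div_comm, div_le_div_iff₀ hκB (mul_pos hc2 hy)]
    calc κ * A * (c2 * y) ≤ (C1 * z) * (c2 * y) := mul_le_mul_of_nonneg_right p2 (mul_pos hc2 hy).le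
      _ ≤ (C1 * z) * (κ * B) := mul_le_mul_of_nonneg_left q1 (mul_pos hC1 hz).le
end PAS
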