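import Pool.Agent.Lib.MP_216314_pr.AS.BInt

/-!
B3, first half. `HS = ∑_m ∫ ‖g‖² P_m² - ∑_{m,l} ‖g_{ml}‖²`.

PROOF. For each `m`: `‖gP_m - ∑_l t_l P_l‖² = ‖g‖²P_m² - 2 Re ∑_l conj(t_l) g P_m P_l + ∑_{l,l'} Re(t_l conj(t_l')) P_l P_l'` with
`t_l = TA m l` (`Complex.normSq_sub`, `Complex.normSq_eq_norm_sq`, `Complex.mul_conj`), integrate termwise
(`integral_sub`, `integral_finset_sum`, `integral_const_mul`, `ta_int`, `ta_int_real`, `hP.orth`):
`∫‖g‖²P_m² - 2 ∑_l ‖t_l‖² + ∑_l ‖t_l‖²`.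
`g P_m P_l` integrates to `TA m l` by definition; real parts: `integral_re` / `Complex.reCLM.integral_comp_comm`.
It may be convenient to work with complex integrals of `rem * conj rem` and take the real part at the end.
-/

open MeasureTheory Complex

namespace PAS

variable {μ : Measure ℝ} {P : ℕ → ℝ → ℝ}

theorem BHSa_point (n : ℕ) (g : ℝ → ℂ) (m : Fin n) (y : ℝ) :
    ‖rem μ P n g m y‖^2 = ‖g y‖^2 * (P m y * P m y) +
      (∑ l : Fin n, ∑ l' : Fin n, (TA μ P n g m l * (starRingEnd ℂ) (TA μ P n g m l')).re *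
        (P l y * P l' y)) -
      2 * ∑ l : Fin n, ((starRingEnd ℂ) (TA μ P n g m l) * (g y * ((P m y * P l y : ℝ) : ℂ))).re := by
  have h1 : ‖rem μ P n g m y‖^2 = Complex.normSq (g y * (P m y : ℂ) -
      ∑ l : Fin n, TA μ P n g m l * (P l y : ℂ)) := by
    rw [Complex.normSq_eq_norm_sq]
    rfl
  rw [h1, Complex.normSq_sub]
  have hA : Complex.normSq (g y * (P m y : ℂ)) = ‖g y‖^2 * (P m y * P m y) := by
    rw [Complex.normSq_mul, Complex.normSq_ofReal, Complex.normSq_eq_norm_sq]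
  have hB : Complex.normSq (∑ l : Fin n, TA μ P n g m l * (P l y : ℂ)) =
      ∑ l : Fin n, ∑ l' : Fin n, (TA μ P n g m l * (starRingEnd ℂ) (TA μ P n g m l')).re *
        (P l y * P l' y) := by
    have h2 : Complex.normSq (∑ l : Fin n, TA μ P n g m l * (P l y : ℂ)) =
        ((∑ l : Fin n, TA μ P n g m l * (P l y : ℂ)) *
          (starRingEnd ℂ) (∑ l : Fin n, TA μ P n g m l * (P l y : ℂ))).re := by
      rw [Complex.mul_conj, Complex.ofReal_re]
    rw [h2, map_sum, Finset.sum_mul_sum, Complex.re_sum]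
    refine Finset.sum_congr rfl fun l _ => ?_
    rw [Complex.re_sum]
    refine Finset.sum_congr rfl fun l' _ => ?_
    have h3 : TA μ P n g m l * (P l y : ℂ) * (starRingEnd ℂ) (TA μ P n g m l' * (P l' y : ℂ)) =
        (TA μ P n g m l * (starRingEnd ℂ) (TA μ P n g m l')) * ((P l y * P l' y : ℝ) : ℂ) := by
      rw [map_mul, Complex.conj_ofReal, Complex.ofReal_mul]
      ring
    rw [h3, Complex.re_mul_ofReal]
  have hC : (g y * (P m y : ℂ) * (starRingEnd ℂ) (∑ l : Fin n, TA μ P n g m l * (P l y : ℂ))).re =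
      ∑ l : Fin n, ((starRingEnd ℂ) (TA μ P n g m l) * (g y * ((P m y * P l y : ℝ) : ℂ))).re := by
    rw [map_sum, Finset.mul_sum, Complex.re_sum]
    refine Finset.sum_congr rfl fun l _ => ?_
    congr 1
    rw [map_mul, Complex.conj_ofReal, Complex.ofReal_mul]
    ring
  rw [hA, hB, hC]

theorem BHSa_one (hP : OPS μ P) {g : ℝ → ℂ} (hg : Measurable g) {G : ℝ} (hG : ∀ x, ‖g x‖ ≤ G)
    (n : ℕ) (m : Fin n) :
    ∫ y, ‖rem μ P n g m y‖^2 ∂μ = ∫ y, ‖g y‖^2 * (P m y * P m y) ∂μ -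
      ∑ l : Fin n, ‖TA μ P n g m l‖^2 := by
  have hGn : ∀ x, |‖g x‖^2| ≤ G^2 := by
    intro x
    rw [abs_of_nonneg (by positivity)]
    exact pow_le_pow_left₀ (norm_nonneg _) (hG x) 2
  have iA : Integrable (fun y => ‖g y‖^2 * (P m y * P m y)) μ :=
    ta_int_real hP (hg.norm.pow_const 2) hGn m m
  have iB : ∀ l l' : Fin n, Integrable (fun y =>
      (TA μ P n g m l * (starRingEnd ℂ) (TA μ P n g m l')).re * (P l y * P l' y)) μ :=
    fun l l' => (hP.int l l').const_mul _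
  have iB1 : ∀ l : Fin n, Integrable (fun y => ∑ l' : Fin n,
      (TA μ P n g m l * (starRingEnd ℂ) (TA μ P n g m l')).re * (P l y * P l' y)) μ :=
    fun l => integrable_finsetSum _ fun l' _ => iB l l'
  have iB2 : Integrable (fun y => ∑ l : Fin n, ∑ l' : Fin n,
      (TA μ P n g m l * (starRingEnd ℂ) (TA μ P n g m l')).re * (P l y * P l' y)) μ :=
    integrable_finsetSum _ fun l _ => iB1 l
  have iC0 : ∀ l : Fin n, Integrable (fun y => (starRingEnd ℂ) (TA μ P n g m l) *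
      (g y * ((P m y * P l y : ℝ) : ℂ))) μ := fun l => (ta_int hP hg hG m l).const_mul _
  have iC : ∀ l : Fin n, Integrable (fun y => ((starRingEnd ℂ) (TA μ P n g m l) *
      (g y * ((P m y * P l y : ℝ) : ℂ))).re) μ := fun l => Complex.reCLM.integrable_comp (iC0 l)
  have iC1 : Integrable (fun y => ∑ l : Fin n, ((starRingEnd ℂ) (TA μ P n g m l) *
      (g y * ((P m y * P l y : ℝ) : ℂ))).re) μ := integrable_finsetSum _ fun l _ => iC l
  have hpt : (fun y => ‖rem μ P n g m y‖^2) = fun y => (‖g y‖^2 * (P m y * P m y) +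
      (∑ l : Fin n, ∑ l' : Fin n, (TA μ P n g m l * (starRingEnd ℂ) (TA μ P n g m l')).re *
        (P l y * P l' y))) -
      2 * ∑ l : Fin n, ((starRingEnd ℂ) (TA μ P n g m l) * (g y * ((P m y * P l y : ℝ) : ℂ))).re :=
    funext fun y => BHSa_point n g m y
  have iAB : Integrable (fun y => ‖g y‖^2 * (P m y * P m y) +
      (∑ l : Fin n, ∑ l' : Fin n, (TA μ P n g m l * (starRingEnd ℂ) (TA μ P n g m l')).re *
        (P l y * P l' y))) μ := iA.add iB2
  rw [hpt, integral_sub iAB (iC1.const_mul 2), integral_add iA iB2, integral_const_mul,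
    integral_finsetSum _ (fun l _ => iB1 l), integral_finsetSum _ (fun l _ => iC l)]
  have hB : ∀ l : Fin n, ∫ y, ∑ l' : Fin n,
      (TA μ P n g m l * (starRingEnd ℂ) (TA μ P n g m l')).re * (P l y * P l' y) ∂μ =
      ‖TA μ P n g m l‖^2 := by
    intro l
    rw [integral_finsetSum _ (fun l' _ => iB l l')]
    rw [Finset.sum_eq_single l]
    · rw [integral_const_mul, hP.orth, if_pos rfl, mul_one, Complex.mul_conj, Complex.ofReal_re,
        Complex.normSq_eq_norm_sq]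
    · intro l' _ hl'
      rw [integral_const_mul, hP.orth, if_neg, mul_zero]
      intro h
      exact hl' (Fin.ext h.symm)
    · intro h
      exact absurd (Finset.mem_univ l) h
  have hC : ∀ l : Fin n, ∫ y, ((starRingEnd ℂ) (TA μ P n g m l) *
      (g y * ((P m y * P l y : ℝ) : ℂ))).re ∂μ = ‖TA μ P n g m l‖^2 := by
    intro l
    have h1 := Complex.reCLM.integral_comp_comm (iC0 l)
    have h2 : ∫ y, ((starRingEnd ℂ) (TA μ P n g m l) * (g y * ((P m y * P l y : ℝ) : ℂ))).re ∂μ =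
        (∫ y, (starRingEnd ℂ) (TA μ P n g m l) * (g y * ((P m y * P l y : ℝ) : ℂ)) ∂μ).re := h1
    rw [h2, integral_const_mul]
    have h3 : ∫ y, g y * ((P m y * P l y : ℝ) : ℂ) ∂μ = TA μ P n g m l := rfl
    rw [h3, mul_comm, Complex.mul_conj, Complex.ofReal_re, Complex.normSq_eq_norm_sq]
  rw [Finset.sum_congr rfl (fun l _ => hB l), Finset.sum_congr rfl (fun l _ => hC l)]
  ring

theorem hs_a (hP : OPS μ P) {g : ℝ → ℂ} (hg : Measurable g) {G : ℝ} (hG : ∀ x, ‖g x‖ ≤ G) (n : ℕ) :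
    HS μ P n g = ∑ m : Fin n, ∫ y, ‖g y‖^2 * (P m y * P m y) ∂μ
      - ∑ m : Fin n, ∑ l : Fin n, ‖TA μ P n g m l‖^2 := by
  unfold HS
  rw [← Finset.sum_sub_distrib]
  exact Finset.sum_congr rfl fun m _ => BHSa_one hP hg hG n m

end PAS
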