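import Pool.Agent.Lib.MP_216314_pr.AS.BHSa

/-!
B3, second half. `HS = (1/2) ∬ ‖g x - g y‖² K(x,y)² dμ dμ`, `K(x,y) = ∑_{m<n} P_m(x) P_m(y)`.

PROOF. `K² = ∑_m ∑_l (P_m(x)P_l(x)) (P_m(y)P_l(y))`, `‖g x - g y‖² = ‖g x‖² + ‖g y‖² - 2 Re (g x conj (g y))`.
Every term is a product of a function of `x` and a function of `y`: `MeasureTheory.integral_prod_mul` (and
`Integrable.mul_prod` for integrability):
`∬ ‖g x‖² K² = ∑_{m,l} ∫‖g‖²P_mP_l * ∫P_mP_l = ∑_m ∫ ‖g‖² P_m²`, the same for `‖g y‖²`, and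
`∬ g(x) conj(g(y)) K² = ∑_{m,l} TA m l * conj (TA m l) = ∑ ‖TA m l‖²` (`integral_conj`). Combine with `hs_a`.
`hsb_int`: the integrand is integrable on `μ.prod μ` (needed later for monotonicity).
`K` is written with `Finset.range n`; `Finset.sum_range` converts to `Fin n`.
-/

open MeasureTheory Complex

namespace PAS

variable {μ : Measure ℝ} {P : ℕ → ℝ → ℝ}

/-- one term of the expansion of the integrand -/
private noncomputable def BHSbT (P : ℕ → ℝ → ℝ) (g : ℝ → ℂ) (m l : ℕ) (z : ℝ × ℝ) : ℝ :=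
  (‖g z.1‖^2 * (P m z.1 * P l z.1)) * (P m z.2 * P l z.2)
    + (P m z.1 * P l z.1) * (‖g z.2‖^2 * (P m z.2 * P l z.2))
    - 2 * ((g z.1 * ((P m z.1 * P l z.1 : ℝ) : ℂ)) *
        (starRingEnd ℂ) (g z.2 * ((P m z.2 * P l z.2 : ℝ) : ℂ))).re

private theorem BHSb_pt (g : ℝ → ℂ) (n : ℕ) (z : ℝ × ℝ) :
    ‖g z.1 - g z.2‖^2 * (∑ m ∈ Finset.range n, P m z.1 * P m z.2)^2
      = ∑ m : Fin n, ∑ l : Fin n, BHSbT P g m l z := by
  rw [Finset.sum_range, sq (∑ m : Fin n, P m z.1 * P m z.2), Finset.sum_mul_sum, Finset.mul_sum]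
  refine Finset.sum_congr rfl fun m _ => ?_
  rw [Finset.mul_sum]
  refine Finset.sum_congr rfl fun l _ => ?_
  unfold BHSbT
  rw [Complex.sq_norm, Complex.sq_norm, Complex.sq_norm, Complex.normSq_apply,
    Complex.normSq_apply, Complex.normSq_apply]
  simp only [Complex.sub_re, Complex.sub_im, Complex.mul_re, Complex.mul_im, map_mul,
    Complex.conj_re, Complex.conj_im, Complex.ofReal_re, Complex.ofReal_im]
  ring

private theorem BHSb_aint (hP : OPS μ P) {g : ℝ → ℂ} (hg : Measurable g) {G : ℝ}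
    (hG : ∀ x, ‖g x‖ ≤ G) (m l : ℕ) :
    Integrable (fun y => ‖g y‖^2 * (P m y * P l y)) μ := by
  refine ta_int_real hP (hg.norm.pow_const 2) (G := G^2) (fun x => ?_) m l
  rw [abs_of_nonneg (sq_nonneg _)]
  exact pow_le_pow_left₀ (norm_nonneg _) (hG x) 2

private theorem BHSb_cint [IsProbabilityMeasure μ] (hP : OPS μ P) {g : ℝ → ℂ} (hg : Measurable g)
    {G : ℝ} (hG : ∀ x, ‖g x‖ ≤ G) (m l : ℕ) :
    Integrable (fun z : ℝ × ℝ => (g z.1 * ((P m z.1 * P l z.1 : ℝ) : ℂ)) *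
        (starRingEnd ℂ) (g z.2 * ((P m z.2 * P l z.2 : ℝ) : ℂ))) (μ.prod μ) := by
  have h1 := ta_int hP hg hG m l
  have h2 : Integrable (fun y => (starRingEnd ℂ) (g y * ((P m y * P l y : ℝ) : ℂ))) μ :=
    (Complex.conjCLE.toContinuousLinearMap.integrable_comp h1)
  exact h1.mul_prod h2

private theorem BHSb_tint [IsProbabilityMeasure μ] (hP : OPS μ P) {g : ℝ → ℂ} (hg : Measurable g)
    {G : ℝ} (hG : ∀ x, ‖g x‖ ≤ G) (m l : ℕ) :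
    Integrable (fun z : ℝ × ℝ => BHSbT P g m l z) (μ.prod μ) := by
  unfold BHSbT
  have h1 := (BHSb_aint hP hg hG m l).mul_prod (hP.int m l)
  have h2 := (hP.int m l).mul_prod (BHSb_aint hP hg hG m l)
  have h3 := ((BHSb_cint hP hg hG m l).re).const_mul 2
  exact (h1.add h2).sub h3

private theorem BHSb_tval [IsProbabilityMeasure μ] (hP : OPS μ P) {g : ℝ → ℂ} (hg : Measurable g)
    {G : ℝ} (hG : ∀ x, ‖g x‖ ≤ G) (m l : ℕ) :
    ∫ z : ℝ × ℝ, BHSbT P g m l z ∂(μ.prod μ)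
      = (if m = l then 2 * ∫ y, ‖g y‖^2 * (P m y * P l y) ∂μ else 0)
        - 2 * ‖∫ y, g y * ((P m y * P l y : ℝ) : ℂ) ∂μ‖^2 := by
  have h1 := (BHSb_aint hP hg hG m l).mul_prod (hP.int m l)
  have h2 := (hP.int m l).mul_prod (BHSb_aint hP hg hG m l)
  have h3 := ((BHSb_cint hP hg hG m l).re).const_mul 2
  have e1 : ∫ z : ℝ × ℝ, (‖g z.1‖^2 * (P m z.1 * P l z.1)) * (P m z.2 * P l z.2) ∂(μ.prod μ)
      = (∫ y, ‖g y‖^2 * (P m y * P l y) ∂μ) * ∫ y, P m y * P l y ∂μ :=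
    integral_prod_mul (fun y => ‖g y‖^2 * (P m y * P l y)) (fun y => P m y * P l y)
  have e2 : ∫ z : ℝ × ℝ, (P m z.1 * P l z.1) * (‖g z.2‖^2 * (P m z.2 * P l z.2)) ∂(μ.prod μ)
      = (∫ y, P m y * P l y ∂μ) * ∫ y, ‖g y‖^2 * (P m y * P l y) ∂μ :=
    integral_prod_mul (fun y => P m y * P l y) (fun y => ‖g y‖^2 * (P m y * P l y))
  have e3 : ∫ z : ℝ × ℝ, ((g z.1 * ((P m z.1 * P l z.1 : ℝ) : ℂ)) *
        (starRingEnd ℂ) (g z.2 * ((P m z.2 * P l z.2 : ℝ) : ℂ))).re ∂(μ.prod μ)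
      = ‖∫ y, g y * ((P m y * P l y : ℝ) : ℂ) ∂μ‖^2 := by
    have e4 : ∫ z : ℝ × ℝ, ((g z.1 * ((P m z.1 * P l z.1 : ℝ) : ℂ)) *
        (starRingEnd ℂ) (g z.2 * ((P m z.2 * P l z.2 : ℝ) : ℂ))).re ∂(μ.prod μ)
        = (∫ z : ℝ × ℝ, ((g z.1 * ((P m z.1 * P l z.1 : ℝ) : ℂ)) *
        (starRingEnd ℂ) (g z.2 * ((P m z.2 * P l z.2 : ℝ) : ℂ))) ∂(μ.prod μ)).re :=
      Complex.reCLM.integral_comp_comm (BHSb_cint hP hg hG m l)
    rw [e4]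
    have e5 : ∫ z : ℝ × ℝ, ((g z.1 * ((P m z.1 * P l z.1 : ℝ) : ℂ)) *
        (starRingEnd ℂ) (g z.2 * ((P m z.2 * P l z.2 : ℝ) : ℂ))) ∂(μ.prod μ)
        = (∫ y, g y * ((P m y * P l y : ℝ) : ℂ) ∂μ) *
          ∫ y, (starRingEnd ℂ) (g y * ((P m y * P l y : ℝ) : ℂ)) ∂μ :=
      integral_prod_mul (fun y => g y * ((P m y * P l y : ℝ) : ℂ))
        (fun y => (starRingEnd ℂ) (g y * ((P m y * P l y : ℝ) : ℂ)))
    rw [e5, integral_conj, Complex.mul_conj, Complex.ofReal_re, Complex.normSq_eq_norm_sq]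
  unfold BHSbT
  have e6 : ∫ z : ℝ × ℝ, ((‖g z.1‖^2 * (P m z.1 * P l z.1)) * (P m z.2 * P l z.2)
    + (P m z.1 * P l z.1) * (‖g z.2‖^2 * (P m z.2 * P l z.2))
    - 2 * ((g z.1 * ((P m z.1 * P l z.1 : ℝ) : ℂ)) *
        (starRingEnd ℂ) (g z.2 * ((P m z.2 * P l z.2 : ℝ) : ℂ))).re) ∂(μ.prod μ)
      = ∫ z : ℝ × ℝ, ((‖g z.1‖^2 * (P m z.1 * P l z.1)) * (P m z.2 * P l z.2)
    + (P m z.1 * P l z.1) * (‖g z.2‖^2 * (P m z.2 * P l z.2))) ∂(μ.prod μ)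
        - ∫ z : ℝ × ℝ, 2 * ((g z.1 * ((P m z.1 * P l z.1 : ℝ) : ℂ)) *
        (starRingEnd ℂ) (g z.2 * ((P m z.2 * P l z.2 : ℝ) : ℂ))).re ∂(μ.prod μ) :=
    integral_sub (h1.add h2) h3
  have e7 : ∫ z : ℝ × ℝ, ((‖g z.1‖^2 * (P m z.1 * P l z.1)) * (P m z.2 * P l z.2)
    + (P m z.1 * P l z.1) * (‖g z.2‖^2 * (P m z.2 * P l z.2))) ∂(μ.prod μ)
      = ∫ z : ℝ × ℝ, ((‖g z.1‖^2 * (P m z.1 * P l z.1)) * (P m z.2 * P l z.2)) ∂(μ.prod μ)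
    + ∫ z : ℝ × ℝ, (P m z.1 * P l z.1) * (‖g z.2‖^2 * (P m z.2 * P l z.2)) ∂(μ.prod μ) :=
    integral_add h1 h2
  rw [e6, e7, integral_const_mul, e1, e2, e3, hP.orth]
  by_cases hml : m = l
  · rw [if_pos hml, if_pos hml]; ring
  · rw [if_neg hml, if_neg hml]; ring

theorem hsb_int [IsProbabilityMeasure μ] (hP : OPS μ P) {g : ℝ → ℂ} (hg : Measurable g) {G : ℝ}
    (hG : ∀ x, ‖g x‖ ≤ G) (n : ℕ) :
    Integrable (fun z : ℝ × ℝ => ‖g z.1 - g z.2‖^2 * (∑ m ∈ Finset.range n, P m z.1 * P m z.2)^2) (μ.prod μ) := by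
  refine (integrable_finset_sum Finset.univ fun (m : Fin n) _ =>
    integrable_finset_sum Finset.univ fun (l : Fin n) _ =>
      BHSb_tint hP hg hG (m : ℕ) (l : ℕ)).congr ?_
  exact Filter.Eventually.of_forall fun z => (BHSb_pt g n z).symm

theorem hs_b [IsProbabilityMeasure μ] (hP : OPS μ P) {g : ℝ → ℂ} (hg : Measurable g) {G : ℝ}
    (hG : ∀ x, ‖g x‖ ≤ G) (n : ℕ) :
    HS μ P n g = (1/2) * ∫ z : ℝ × ℝ, ‖g z.1 - g z.2‖^2
        * (∑ m ∈ Finset.range n, P m z.1 * P m z.2)^2 ∂(μ.prod μ) := by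
  have h1 : ∫ z : ℝ × ℝ, ‖g z.1 - g z.2‖^2
        * (∑ m ∈ Finset.range n, P m z.1 * P m z.2)^2 ∂(μ.prod μ)
      = ∫ z : ℝ × ℝ, ∑ m : Fin n, ∑ l : Fin n, BHSbT P g m l z ∂(μ.prod μ) :=
    integral_congr_ae (Filter.Eventually.of_forall fun z => BHSb_pt g n z)
  rw [h1, integral_finset_sum _ fun (m : Fin n) _ =>
    integrable_finset_sum Finset.univ fun (l : Fin n) _ =>
      BHSb_tint hP hg hG (m : ℕ) (l : ℕ)]
  have h2 : ∀ m : Fin n, ∫ z : ℝ × ℝ, ∑ l : Fin n, BHSbT P g m l z ∂(μ.prod μ)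
      = 2 * ∫ y, ‖g y‖^2 * (P m y * P m y) ∂μ - 2 * ∑ l : Fin n, ‖TA μ P n g m l‖^2 := by
    intro m
    rw [integral_finset_sum _ fun (l : Fin n) _ => BHSb_tint hP hg hG (m : ℕ) (l : ℕ)]
    have h3 : ∀ l : Fin n, ∫ z : ℝ × ℝ, BHSbT P g m l z ∂(μ.prod μ)
        = (if m = l then 2 * ∫ y, ‖g y‖^2 * (P m y * P l y) ∂μ else 0)
          - 2 * ‖TA μ P n g m l‖^2 := by
      intro l
      rw [BHSb_tval hP hg hG]
      have h4 : TA μ P n g m l = ∫ y, g y * ((P m y * P l y : ℝ) : ℂ) ∂μ := rfl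
      rw [← h4]
      by_cases hml : m = l
      · rw [if_pos hml, if_pos (by rw [hml])]
      · rw [if_neg hml, if_neg (fun hh => hml (Fin.ext hh))]
    rw [Finset.sum_congr rfl fun l _ => h3 l, Finset.sum_sub_distrib, Finset.sum_ite_eq,
      if_pos (Finset.mem_univ _), Finset.mul_sum]
  rw [Finset.sum_congr rfl fun m _ => h2 m, Finset.sum_sub_distrib, ← Finset.mul_sum,
    ← Finset.mul_sum, hs_a hP hg hG n]
  ring

end PAS
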