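import Pool.Agent.Lib.MP_216314_pr.AS.ADef

/-!
B2. Jacobi's formula for a real parameter.

PROOF. `Matrix.det_apply'`: `det A = ∑ σ, sign σ * ∏ i, A (σ i) i`. Derivative: `HasDerivAt.sum`/`HasDerivAt.fun_sum`,
`HasDerivAt.finset_prod` (`HasDerivAt.fun_finset_prod`): `∑ σ, sign σ * ∑ i, (∏ j ∈ univ.erase i, A (σ j) j) * A' (σ i) i`.
Swap the sums: for fixed `i`, `∑ σ sign σ (∏_{j≠i} A (σ j) j) A' (σ i) i = det (A.updateCol i (fun r => A' r i))`
(`Matrix.det_apply'`, split off the factor `j = i` with `Finset.prod_erase_mul`/`Finset.mul_prod_erase`, `Matrix.updateCol_apply`)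
`= (A.cramer (fun r => A' r i)) i` (`Matrix.cramer_apply`) `= (A.adjugate *ᵥ (fun r => A' r i)) i`
(`Matrix.cramer_eq_adjugate_mulVec`) `= (A.adjugate * A') i i`. Sum over `i` = trace.
-/

open MeasureTheory Complex

namespace PAS

theorem jacobi {n : ℕ} (A : ℝ → Matrix (Fin n) (Fin n) ℂ) (A' : Matrix (Fin n) (Fin n) ℂ) (t : ℝ)
    (h : ∀ i j, HasDerivAt (fun s => A s i j) (A' i j) t) :
    HasDerivAt (fun s => (A s).det) (((A t).adjugate * A').trace) t := by
  have h1 : (fun s => (A s).det) = fun s => ∑ σ : Equiv.Perm (Fin n),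
      ((Equiv.Perm.sign σ : ℤ) : ℂ) * ∏ i, A s (σ i) i := by
    funext s
    exact Matrix.det_apply' _
  have h2 : HasDerivAt (fun s => ∑ σ : Equiv.Perm (Fin n),
      ((Equiv.Perm.sign σ : ℤ) : ℂ) * ∏ i, A s (σ i) i)
      (∑ σ : Equiv.Perm (Fin n), ((Equiv.Perm.sign σ : ℤ) : ℂ) *
        ∑ i, (∏ j ∈ Finset.univ.erase i, A t (σ j) j) • A' (σ i) i) t := by
    refine HasDerivAt.fun_sum fun σ _ => ?_
    refine HasDerivAt.const_mul _ ?_
    exact HasDerivAt.fun_finsetProd fun i _ => h (σ i) i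
  have h3 : ((A t).adjugate * A').trace = ∑ σ : Equiv.Perm (Fin n),
      ((Equiv.Perm.sign σ : ℤ) : ℂ) *
        ∑ i, (∏ j ∈ Finset.univ.erase i, A t (σ j) j) • A' (σ i) i := by
    simp only [Finset.mul_sum]
    rw [Finset.sum_comm]
    unfold Matrix.trace
    refine Finset.sum_congr rfl fun i _ => ?_
    have e1 : ((A t).adjugate * A').diag i = ((A t).updateCol i (fun r => A' r i)).det := by
      rw [← Matrix.cramer_apply, Matrix.cramer_eq_adjugate_mulVec]
      rfl
    rw [e1, Matrix.det_apply']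
    refine Finset.sum_congr rfl fun σ _ => ?_
    rw [← Finset.prod_erase_mul _ _ (Finset.mem_univ i), Matrix.updateCol_self, smul_eq_mul]
    have e2 : ∏ j ∈ Finset.univ.erase i, (A t).updateCol i (fun r => A' r i) (σ j) j =
        ∏ j ∈ Finset.univ.erase i, A t (σ j) j := by
      refine Finset.prod_congr rfl fun j hj => ?_
      rw [Matrix.updateCol_ne (Finset.ne_of_mem_erase hj)]
    rw [e2]
  rw [h1, h3]
  exact h2

end PAS
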