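import Pool.Agent.Lib.MP_216314_pr.AS.ADef

/-!
B1. Coercive matrices.

PROOF. `coer_det`: if `det A = 0` there is `v ≠ 0` with `A v = 0` (`Matrix.exists_mulVec_eq_zero_iff`), then
`c0 ∑ ‖v_i‖² ≤ 0`, so all `v_i = 0`.
`coer_inv`: let `u = A⁻¹ *ᵥ a`, `A *ᵥ u = a` (`Matrix.mul_nonsing_inv`, `Matrix.mulVec_mulVec`). Then
`c0 ∑‖u‖² ≤ Re ∑ conj(u_i) a_i ≤ ∑ ‖u_i‖‖a_i‖ ≤ sqrt(∑‖u‖²) sqrt(∑‖a‖²)` (`Finset.sum_mul_sq_le_sq_mul_sq` or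
`Real.inner_le_nnorm...`, `Finset.sum_le_sqrt..`), so `c0 sqrt(∑‖u‖²) ≤ sqrt(∑‖a‖²)`. Finally
`∑_k ∑_m A⁻¹ k m a_m c_k = ∑_k u_k c_k`, norm `≤ sqrt(∑‖u‖²) sqrt(∑‖c‖²)`.
-/

open MeasureTheory Complex

namespace PAS

theorem coer_det {n : ℕ} (A : Matrix (Fin n) (Fin n) ℂ) {c0 : ℝ} (hc : 0 < c0)
    (h : ∀ v : Fin n → ℂ, c0 * ∑ i, ‖v i‖^2 ≤ (∑ i, star (v i) * (A.mulVec v) i).re) : A.det ≠ 0 := by
  intro hdet
  obtain ⟨v, hv0, hv⟩ := Matrix.exists_mulVec_eq_zero_iff.mpr hdet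
  apply hv0
  have h1 := h v
  rw [hv] at h1
  simp only [Pi.zero_apply, mul_zero, Finset.sum_const_zero, Complex.zero_re] at h1
  have h2 : ∑ i, ‖v i‖^2 ≤ 0 := by
    by_contra hcon
    push Not at hcon
    nlinarith [mul_pos hc hcon]
  have h3 : ∑ i, ‖v i‖^2 = 0 := le_antisymm h2 (Finset.sum_nonneg fun i _ => sq_nonneg _)
  rw [Finset.sum_eq_zero_iff_of_nonneg (fun i _ => sq_nonneg _)] at h3
  funext i
  have := h3 i (Finset.mem_univ i)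
  simpa using this

theorem coer_inv {n : ℕ} (A : Matrix (Fin n) (Fin n) ℂ) {c0 : ℝ} (hc : 0 < c0)
    (h : ∀ v : Fin n → ℂ, c0 * ∑ i, ‖v i‖^2 ≤ (∑ i, star (v i) * (A.mulVec v) i).re)
    (a c : Fin n → ℂ) :
    ‖∑ k, ∑ m, A⁻¹ k m * (a m * c k)‖
      ≤ (1/c0) * (Real.sqrt (∑ i, ‖a i‖^2) * Real.sqrt (∑ i, ‖c i‖^2)) := by
  have hdet := coer_det A hc h
  have hAu : A.mulVec (A⁻¹.mulVec a) = a := by
    rw [Matrix.mulVec_mulVec, Matrix.mul_nonsing_inv _ (isUnit_iff_ne_zero.mpr hdet),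
      Matrix.one_mulVec]
  have h1 := h (A⁻¹.mulVec a)
  rw [hAu] at h1
  have h4 : ∑ k, ∑ m, A⁻¹ k m * (a m * c k) = ∑ k, (A⁻¹.mulVec a) k * c k := by
    refine Finset.sum_congr rfl fun k _ => ?_
    simp only [Matrix.mulVec, dotProduct, Finset.sum_mul]
    exact Finset.sum_congr rfl fun m _ => by ring
  rw [h4]
  generalize A⁻¹.mulVec a = u at h1 ⊢
  have cs : ∀ p q : Fin n → ℂ, ∑ i, ‖p i‖ * ‖q i‖ ≤
      Real.sqrt (∑ i, ‖p i‖^2) * Real.sqrt (∑ i, ‖q i‖^2) :=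
    fun p q => Real.sum_mul_le_sqrt_mul_sqrt _ _ _
  have hU : Real.sqrt (∑ i, ‖u i‖^2) ^ 2 = ∑ i, ‖u i‖^2 :=
    Real.sq_sqrt (Finset.sum_nonneg fun i _ => sq_nonneg _)
  have h2 : (∑ i, star (u i) * a i).re ≤
      Real.sqrt (∑ i, ‖u i‖^2) * Real.sqrt (∑ i, ‖a i‖^2) := by
    refine (Complex.re_le_norm _).trans ((norm_sum_le _ _).trans ?_)
    refine le_trans (le_of_eq ?_) (cs u a)
    exact Finset.sum_congr rfl fun i _ => by rw [norm_mul, norm_star]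
  rw [← hU] at h1
  have hU0 : 0 ≤ Real.sqrt (∑ i, ‖u i‖^2) := Real.sqrt_nonneg _
  have hA0 : 0 ≤ Real.sqrt (∑ i, ‖a i‖^2) := Real.sqrt_nonneg _
  have hC0 : 0 ≤ Real.sqrt (∑ i, ‖c i‖^2) := Real.sqrt_nonneg _
  have h5 : ‖∑ k, u k * c k‖ ≤ Real.sqrt (∑ i, ‖u i‖^2) * Real.sqrt (∑ i, ‖c i‖^2) := by
    refine (norm_sum_le _ _).trans (le_trans (le_of_eq ?_) (cs u c))
    exact Finset.sum_congr rfl fun i _ => norm_mul _ _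
  generalize Real.sqrt (∑ i, ‖u i‖^2) = U at *
  generalize Real.sqrt (∑ i, ‖a i‖^2) = V at *
  generalize Real.sqrt (∑ i, ‖c i‖^2) = W at *
  have h3 : c0 * U ≤ V := by
    rcases hU0.eq_or_lt with hz | hp
    · rw [← hz, mul_zero]; exact hA0
    · have : U * (c0 * U) ≤ U * V := by nlinarith
      exact le_of_mul_le_mul_left this hp
  have h6 : U ≤ 1 / c0 * V := by
    rw [one_div, inv_mul_eq_div, le_div_iff₀ hc]
    linarith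
  calc ‖∑ k, u k * c k‖ ≤ U * W := h5
    _ ≤ (1 / c0 * V) * W := mul_le_mul_of_nonneg_right h6 hC0
    _ = 1 / c0 * (V * W) := by ring

end PAS
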