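import Pool.Agent.Lib.MP_216314_pr.AS.BLin
import Pool.Agent.Lib.MP_216314_pr.AS.BInt

/-!
B6. The trace of `A⁻¹ (T(gf) - T(g)T(f))`.

PROOF. `rem_orth`: `∫ rem g m * rem f k = T(gf) m k - (T(g)T(f)) m k`: expand
`(gP_m - ∑_l g_{ml}P_l)(fP_k - ∑_l f_{kl} P_l)`; note `TA` is symmetric (`TA m k = TA k m`), so
`∫ gP_m ∑_l f_{kl}P_l = ∑ g_{ml}f_{lk}`, `∫ (∑ g_{ml}P_l) f P_k = ∑ g_{ml} f_{lk}`, `∫∑∑ g_{ml} f_{kl'} P_lP_l' = ∑ g_{ml}f_{lk}` (orthonormal).
Total `T(gf) m k - ∑_l g_{ml} f_{lk}`.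
`tau_bound`: `trace (A⁻¹ * R) = ∑_k ∑_m A⁻¹ k m R m k = ∫ ∑_k ∑_m A⁻¹ k m * (rem g m y * rem f k y) dμ` (`integral_finset_sum`,
`integral_const_mul`, `rem_mul_int`), so by `coer_inv` pointwise and `norm_integral_le_integral_norm`:
`≤ (1/c0) ∫ sqrt(∑‖rem g‖²) sqrt(∑‖rem f‖²)`, and Cauchy-Schwarz for integrals in the elementary form: for `s > 0`
`sqrt u sqrt v ≤ (s u + v/s)/2`, so `∫ ≤ (s HS g + HS f/s)/2`. With `HS g ≤ a²`, `HS f ≤ b²`, `a, b > 0` choose `s = b/a`: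
`≤ ab`. That is how the statement is formulated (`a`, `b` positive, bounds as hypotheses).
-/

open MeasureTheory Complex

namespace PAS

variable {μ : Measure ℝ} {P : ℕ → ℝ → ℝ}

private theorem BTau_symm {f : ℝ → ℂ} (n : ℕ) (m k : Fin n) : TA μ P n f m k = TA μ P n f k m := by
  show (∫ y, f y * ((P m y * P k y : ℝ) : ℂ) ∂μ) = ∫ y, f y * ((P k y * P m y : ℝ) : ℂ) ∂μ
  refine integral_congr_ae (Filter.Eventually.of_forall fun y => ?_)
  show f y * ((P m y * P k y : ℝ) : ℂ) = f y * ((P k y * P m y : ℝ) : ℂ)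
  rw [mul_comm (P m y) (P k y)]

private theorem BTau_expand (hP : OPS μ P) {g f : ℝ → ℂ} (hg : Measurable g) (hf : Measurable f) {G : ℝ}
    (hG : ∀ x, ‖g x‖ ≤ G) (hF : ∀ x, ‖f x‖ ≤ G) (n : ℕ) (m k : Fin n) (ga fa : Fin n → ℂ) :
    ∫ y, (g y * (P m y : ℂ) - ∑ l : Fin n, ga l * (P l y : ℂ)) * (f y * (P k y : ℂ) - ∑ l : Fin n, fa l * (P l y : ℂ)) ∂μ
      = (∫ y, (g y * f y) * ((P m y * P k y : ℝ) : ℂ) ∂μ) -
        ∑ l : Fin n, ga l * (∫ y, f y * ((P k y * P l y : ℝ) : ℂ) ∂μ) -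
        ∑ l : Fin n, fa l * (∫ y, g y * ((P m y * P l y : ℝ) : ℂ) ∂μ) +
        ∑ l : Fin n, ga l * fa l := by
  have hG0 : 0 ≤ G := (norm_nonneg _).trans (hG 0)
  have hgf : ∀ x, ‖g x * f x‖ ≤ G * G := fun x => by
    rw [norm_mul]
    exact mul_le_mul (hG x) (hF x) (norm_nonneg _) hG0
  have i1 : Integrable (fun y => (g y * f y) * ((P m y * P k y : ℝ) : ℂ)) μ := ta_int hP (hg.mul hf) hgf m k
  have i2 : ∀ l : Fin n, Integrable (fun y => f y * ((P k y * P l y : ℝ) : ℂ)) μ := fun l => ta_int hP hf hF k l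
  have i3 : ∀ l : Fin n, Integrable (fun y => g y * ((P m y * P l y : ℝ) : ℂ)) μ := fun l => ta_int hP hg hG m l
  have i4 : ∀ l l' : Fin n, Integrable (fun y => ((P l y * P l' y : ℝ) : ℂ)) μ := fun l l' => (hP.int l l').ofReal
  have e1 : ∀ y, (g y * (P m y : ℂ) - ∑ l : Fin n, ga l * (P l y : ℂ)) * (f y * (P k y : ℂ) - ∑ l : Fin n, fa l * (P l y : ℂ)) =
      (g y * f y) * ((P m y * P k y : ℝ) : ℂ) -
      ∑ l : Fin n, ga l * (f y * ((P k y * P l y : ℝ) : ℂ)) -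
      ∑ l : Fin n, fa l * (g y * ((P m y * P l y : ℝ) : ℂ)) +
      ∑ l : Fin n, ∑ l' : Fin n, (ga l * fa l') * ((P l y * P l' y : ℝ) : ℂ) := by
    intro y
    have a1 : ∑ l : Fin n, ga l * (f y * ((P k y * P l y : ℝ) : ℂ)) =
        (f y * (P k y : ℂ)) * ∑ l : Fin n, ga l * (P l y : ℂ) := by
      rw [Finset.mul_sum]
      refine Finset.sum_congr rfl fun l _ => ?_
      push_cast
      ring
    have a2 : ∑ l : Fin n, fa l * (g y * ((P m y * P l y : ℝ) : ℂ)) =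
        (g y * (P m y : ℂ)) * ∑ l : Fin n, fa l * (P l y : ℂ) := by
      rw [Finset.mul_sum]
      refine Finset.sum_congr rfl fun l _ => ?_
      push_cast
      ring
    have a3 : ∑ l : Fin n, ∑ l' : Fin n, (ga l * fa l') * ((P l y * P l' y : ℝ) : ℂ) =
        (∑ l : Fin n, ga l * (P l y : ℂ)) * ∑ l : Fin n, fa l * (P l y : ℂ) := by
      rw [Finset.sum_mul_sum]
      refine Finset.sum_congr rfl fun l _ => Finset.sum_congr rfl fun l' _ => ?_
      push_cast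
      ring
    rw [a1, a2, a3]
    push_cast
    ring
  have j2 : Integrable (fun y => ∑ l : Fin n, ga l * (f y * ((P k y * P l y : ℝ) : ℂ))) μ :=
    integrable_finsetSum _ fun l _ => (i2 l).const_mul _
  have j3 : Integrable (fun y => ∑ l : Fin n, fa l * (g y * ((P m y * P l y : ℝ) : ℂ))) μ :=
    integrable_finsetSum _ fun l _ => (i3 l).const_mul _
  have j5 : ∀ l : Fin n, Integrable (fun y => ∑ l' : Fin n, (ga l * fa l') * ((P l y * P l' y : ℝ) : ℂ)) μ :=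
    fun l => integrable_finsetSum _ fun l' _ => (i4 l l').const_mul _
  have j4 : Integrable (fun y => ∑ l : Fin n, ∑ l' : Fin n, (ga l * fa l') * ((P l y * P l' y : ℝ) : ℂ)) μ :=
    integrable_finsetSum _ fun l _ => j5 l
  have k1 : Integrable (fun y => (g y * f y) * ((P m y * P k y : ℝ) : ℂ) -
      ∑ l : Fin n, ga l * (f y * ((P k y * P l y : ℝ) : ℂ))) μ := i1.sub j2
  have k2 : Integrable (fun y => (g y * f y) * ((P m y * P k y : ℝ) : ℂ) -
      ∑ l : Fin n, ga l * (f y * ((P k y * P l y : ℝ) : ℂ)) -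
      ∑ l : Fin n, fa l * (g y * ((P m y * P l y : ℝ) : ℂ))) μ := k1.sub j3
  rw [integral_congr_ae (Filter.Eventually.of_forall e1), integral_add k2 j4,
    integral_sub k1 j3, integral_sub i1 j2,
    integral_finsetSum _ (fun l _ => (i2 l).const_mul _), integral_finsetSum _ (fun l _ => (i3 l).const_mul _),
    integral_finsetSum _ (fun l _ => j5 l)]
  have b2 : ∀ l : Fin n, ∫ y, ga l * (f y * ((P k y * P l y : ℝ) : ℂ)) ∂μ =
      ga l * (∫ y, f y * ((P k y * P l y : ℝ) : ℂ) ∂μ) := fun l => integral_const_mul _ _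
  have b3 : ∀ l : Fin n, ∫ y, fa l * (g y * ((P m y * P l y : ℝ) : ℂ)) ∂μ =
      fa l * (∫ y, g y * ((P m y * P l y : ℝ) : ℂ) ∂μ) := fun l => integral_const_mul _ _
  have b0 : ∀ l l' : Fin n, ∫ y, ((P l y * P l' y : ℝ) : ℂ) ∂μ = ((if (l : ℕ) = (l' : ℕ) then (1 : ℝ) else 0 : ℝ) : ℂ) := by
    intro l l'
    rw [← hP.orth]
    exact integral_complex_ofReal
  have b4 : ∀ l : Fin n, ∫ y, ∑ l' : Fin n, (ga l * fa l') * ((P l y * P l' y : ℝ) : ℂ) ∂μ = ga l * fa l := by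
    intro l
    rw [integral_finsetSum _ (fun l' _ => (i4 l l').const_mul _), Finset.sum_eq_single_of_mem l (Finset.mem_univ l)]
    · rw [integral_const_mul, b0, if_pos rfl]
      simp
    · intro l' _ hne
      rw [integral_const_mul, b0, if_neg]
      · simp
      · intro h
        exact hne (Fin.ext h).symm
  rw [Finset.sum_congr rfl (fun l _ => b2 l), Finset.sum_congr rfl (fun l _ => b3 l), Finset.sum_congr rfl (fun l _ => b4 l)]

theorem rem_orth (hP : OPS μ P) {g f : ℝ → ℂ} (hg : Measurable g) (hf : Measurable f) {G : ℝ}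
    (hG : ∀ x, ‖g x‖ ≤ G) (hF : ∀ x, ‖f x‖ ≤ G) (n : ℕ) (m k : Fin n) :
    ∫ y, rem μ P n g m y * rem μ P n f k y ∂μ
      = TA μ P n (fun y => g y * f y) m k - (TA μ P n g * TA μ P n f) m k := by
  have h1 := BTau_expand hP hg hf hG hF n m k (fun l => TA μ P n g m l) (fun l => TA μ P n f k l)
  have b5 : (TA μ P n g * TA μ P n f) m k = ∑ l : Fin n, TA μ P n g m l * TA μ P n f k l := by
    rw [Matrix.mul_apply]
    refine Finset.sum_congr rfl fun l _ => ?_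
    rw [BTau_symm n l k]
  have b6 : ∑ l : Fin n, TA μ P n f k l * (∫ y, g y * ((P m y * P l y : ℝ) : ℂ) ∂μ) =
      ∑ l : Fin n, TA μ P n g m l * TA μ P n f k l := by
    refine Finset.sum_congr rfl fun l _ => ?_
    rw [mul_comm]
    rfl
  have b7 : ∑ l : Fin n, TA μ P n g m l * (∫ y, f y * ((P k y * P l y : ℝ) : ℂ) ∂μ) =
      ∑ l : Fin n, TA μ P n g m l * TA μ P n f k l := rfl
  have b8 : ∫ y, (g y * f y) * ((P m y * P k y : ℝ) : ℂ) ∂μ = TA μ P n (fun y => g y * f y) m k := rfl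
  rw [b5]
  refine h1.trans ?_
  rw [b8]
  have b9 : ∀ x u v w : ℂ, u = w → v = w → x - u - v + w = x - w := by
    intro x u v w h2 h3
    rw [h2, h3]
    ring
  exact b9 _ _ _ _ b7 b6

theorem tau_bound (hP : OPS μ P) {g f : ℝ → ℂ} (hg : Measurable g) (hf : Measurable f) {G : ℝ}
    (hG : ∀ x, ‖g x‖ ≤ G) (hF : ∀ x, ‖f x‖ ≤ G) (n : ℕ) {c0 a b : ℝ} (hc : 0 < c0) (ha : 0 < a) (hb : 0 < b)
    (h : ∀ v : Fin n → ℂ, c0 * ∑ i, ‖v i‖^2 ≤ (∑ i, star (v i) * ((TA μ P n g).mulVec v) i).re)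
    (hga : HS μ P n g ≤ a^2) (hfb : HS μ P n f ≤ b^2) :
    ‖((TA μ P n g)⁻¹ * (TA μ P n (fun y => g y * f y) - TA μ P n g * TA μ P n f)).trace‖ ≤ (1/c0) * (a*b) := by
  have i1 : ∀ m k : Fin n, Integrable (fun y => rem μ P n g m y * rem μ P n f k y) μ :=
    fun m k => rem_mul_int hP hg hf hG hF n m k
  have iu : ∀ m : Fin n, Integrable (fun y => ‖rem μ P n g m y‖^2) μ := fun m => rem_sq_int hP hg hG n m
  have iv : ∀ m : Fin n, Integrable (fun y => ‖rem μ P n f m y‖^2) μ := fun m => rem_sq_int hP hf hF n m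
  obtain ⟨Ai, hAi⟩ : ∃ Ai : Fin n → Fin n → ℂ, ∀ k m, (TA μ P n g)⁻¹ k m = Ai k m := ⟨fun k m => (TA μ P n g)⁻¹ k m, fun _ _ => rfl⟩
  have e1 : ((TA μ P n g)⁻¹ * (TA μ P n (fun y => g y * f y) - TA μ P n g * TA μ P n f)).trace =
      ∫ y, ∑ k : Fin n, ∑ m : Fin n, Ai k m * (rem μ P n g m y * rem μ P n f k y) ∂μ := by
    have j1 : ∀ k : Fin n, Integrable (fun y => ∑ m : Fin n, Ai k m * (rem μ P n g m y * rem μ P n f k y)) μ :=
      fun k => integrable_finsetSum _ fun m _ => (i1 m k).const_mul _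
    rw [integral_finsetSum _ (fun k _ => j1 k)]
    unfold Matrix.trace
    refine Finset.sum_congr rfl fun k _ => ?_
    rw [integral_finsetSum _ (fun m _ => (i1 m k).const_mul _), Matrix.diag_apply, Matrix.mul_apply]
    refine Finset.sum_congr rfl fun m _ => ?_
    rw [integral_const_mul, rem_orth hP hg hf hG hF n m k, Matrix.sub_apply, hAi]
  rw [e1]
  set s : ℝ := b / a with hs
  have hs0 : 0 < s := div_pos hb ha
  have iU : Integrable (fun y => ∑ m : Fin n, ‖rem μ P n g m y‖^2) μ := integrable_finsetSum _ fun m _ => iu m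
  have iV : Integrable (fun y => ∑ m : Fin n, ‖rem μ P n f m y‖^2) μ := integrable_finsetSum _ fun m _ => iv m
  have hb1 : ∀ y, ‖∑ k : Fin n, ∑ m : Fin n, Ai k m * (rem μ P n g m y * rem μ P n f k y)‖ ≤
      (1/c0) * ((1/2) * (s * (∑ m : Fin n, ‖rem μ P n g m y‖^2) + s⁻¹ * ∑ m : Fin n, ‖rem μ P n f m y‖^2)) := by
    intro y
    have h9 := coer_inv (TA μ P n g) hc h (fun m => rem μ P n g m y) (fun m => rem μ P n f m y)
    simp only [hAi] at h9
    refine h9.trans ?_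
    refine mul_le_mul_of_nonneg_left ?_ (by positivity)
    set u : ℝ := ∑ m : Fin n, ‖rem μ P n g m y‖^2 with hu
    set v : ℝ := ∑ m : Fin n, ‖rem μ P n f m y‖^2 with hv
    have hu0 : 0 ≤ u := Finset.sum_nonneg fun m _ => sq_nonneg _
    have hv0 : 0 ≤ v := Finset.sum_nonneg fun m _ => sq_nonneg _
    have h1 : Real.sqrt u * Real.sqrt v = Real.sqrt (s * u) * Real.sqrt (s⁻¹ * v) := by
      rw [← Real.sqrt_mul hu0, ← Real.sqrt_mul (mul_nonneg hs0.le hu0)]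
      have h2 : s * u * (s⁻¹ * v) = u * v := by
        field_simp
      rw [h2]
    rw [h1]
    have h3 := Real.sq_sqrt (mul_nonneg hs0.le hu0)
    have h4 := Real.sq_sqrt (mul_nonneg (inv_nonneg.2 hs0.le) hv0)
    nlinarith [sq_nonneg (Real.sqrt (s * u) - Real.sqrt (s⁻¹ * v))]
  have k1 : Integrable (fun y => s * (∑ m : Fin n, ‖rem μ P n g m y‖^2)) μ := iU.const_mul s
  have k2 : Integrable (fun y => s⁻¹ * (∑ m : Fin n, ‖rem μ P n f m y‖^2)) μ := iV.const_mul s⁻¹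
  have k3 : Integrable (fun y => s * (∑ m : Fin n, ‖rem μ P n g m y‖^2) + s⁻¹ * (∑ m : Fin n, ‖rem μ P n f m y‖^2)) μ := k1.add k2
  have k4 : Integrable (fun y => (1/c0) * ((1/2) * (s * (∑ m : Fin n, ‖rem μ P n g m y‖^2) + s⁻¹ * ∑ m : Fin n, ‖rem μ P n f m y‖^2))) μ :=
    (k3.const_mul (1/2)).const_mul (1/c0)
  refine (norm_integral_le_of_norm_le k4 (Filter.Eventually.of_forall hb1)).trans ?_
  have e2 : ∫ y, (1/c0) * ((1/2) * (s * (∑ m : Fin n, ‖rem μ P n g m y‖^2) + s⁻¹ * ∑ m : Fin n, ‖rem μ P n f m y‖^2)) ∂μ =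
      (1/c0) * ((1/2) * (s * HS μ P n g + s⁻¹ * HS μ P n f)) := by
    rw [integral_const_mul, integral_const_mul, integral_add k1 k2, integral_const_mul,
      integral_const_mul, integral_finsetSum _ (fun m _ => iu m), integral_finsetSum _ (fun m _ => iv m)]
    rfl
  rw [e2]
  refine mul_le_mul_of_nonneg_left ?_ (by positivity)
  have h5 : s * HS μ P n g ≤ s * a^2 := mul_le_mul_of_nonneg_left hga hs0.le
  have h6 : s⁻¹ * HS μ P n f ≤ s⁻¹ * b^2 := mul_le_mul_of_nonneg_left hfb (inv_nonneg.2 hs0.le)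
  have h7 : s * a^2 = a * b := by
    rw [hs]
    field_simp
  have h8 : s⁻¹ * b^2 = a * b := by
    rw [hs]
    field_simp
  linarith

end PAS
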