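import Pool.Agent.Lib.MP_216314_pr.AS.ADef

/-!
D3, algebraic facts on `Q_β`, `0 < β < π/2` (stated for `|β| < π/2` where possible).

PROOF. For real `x, s`: `cosh (x - I s) = cosh x cos s - I sinh x sin s`, `normSq = cosh²x cos²s + sinh²x sin²s = (cosh 2x + cos 2s)/2`
(`cosh 2x = 2cosh²x - 1 = 1 + 2 sinh² x`). With `c = cosh(π y)`, `k = cos 2β`: `|cosh(πy/2 - iβ)|² = (c+k)/2`,
`|cosh(3πy/2 - iβ)|² = (cosh(3πy) + k)/2 = (4c³-3c+k)/2` (`Real.cosh_three_mul`) which is `> 0` (`c ≥ 1`, `k > -1`,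
`4c³-3c-1 = (c-1)(2c+1)² ≥ 0`). So `Qb_normSq`. `Qb_norm_ge`: `cos²β = (1+k)/2`, `8c²(c+k) ≥ (1+k)(4c³-3c+k)`:
`LHS - RHS = 4c³(1-k) + 8kc² + 3c(1+k) - k - k²`; for `k ≥ 0` use `c ≥ 1` (`8kc² ≥ 8k ≥ k + k²`), for `k < 0`: `4c³(1-k) + 8kc² ≥ 4c²(1+k) ≥ 0` and `-k(1+k) ≥ 0`.
`Qb_re`: multiply numerator and denominator by the conjugate: `cosh(πy/2 - iβ) cosh(3πy/2 + iβ) = (cosh 2πy + cosh(πy + 2iβ))/2`, real part
`(cosh 2πy + cosh πy cos 2β)/2`, imaginary part `sinh πy sin 2β/2`. So `Q = c (cosh 2πy + c k + i sinh πy sin 2β)/N`, `N = |cosh(3πy/2 - iβ)|² > 0`.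
Real part positive: `cosh 2πy = 2c²-1 ≥ c²`... (`2c²-1+ck > 2c²-1-c = (2c+1)(c-1) ≥ 0`). `|Im Q| cos β ≤ Re Q sin β` (for `0 ≤ β`):
`|sinh πy| 2 sin β cos²β ≤ sin β (cosh 2πy + c cos 2β)`, i.e. `2cos²β |sinh πy| ≤ cosh 2πy - c + 2cos²β c`, true since `|sinh| ≤ cosh` and `2c²-1 ≥ c`.
`Qb_arg`: `|arg Q| ≤ β`: `Q.re > 0` so `arg Q = arcsin (Q.im/‖Q‖)` / or `Complex.abs_arg_le...`; one way: `arg Q ∈ (-π/2, π/2)`
(`Complex.abs_arg_lt_pi_div_two_iff`), `tan (arg Q) = Q.im/Q.re` (`Complex.tan_arg`), `|tan (arg Q)| ≤ tan β`, `Real.strictMonoOn_tan`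
(`tan |arg| = |tan arg|`).
-/

open MeasureTheory Complex

namespace PAS

private theorem DQa_ch (x s : ℝ) : Complex.cosh ((x : ℂ) - I * s) =
    ((Real.cosh x * Real.cos s : ℝ) : ℂ) - ((Real.sinh x * Real.sin s : ℝ) : ℂ) * I := by
  rw [Complex.cosh_sub, mul_comm I (s : ℂ), Complex.cosh_mul_I, Complex.sinh_mul_I]
  push_cast
  ring

private theorem DQa_sq (x s : ℝ) : Complex.normSq (Complex.cosh ((x : ℂ) - I * s)) =
    (Real.cosh (2 * x) + Real.cos (2 * s)) / 2 := by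
  rw [DQa_ch, Complex.normSq_apply]
  simp only [Complex.sub_re, Complex.sub_im, Complex.ofReal_re, Complex.ofReal_im, Complex.mul_re, Complex.mul_im,
    Complex.I_re, Complex.I_im]
  have h1 : Real.cosh (2 * x) = 2 * Real.cosh x ^ 2 - 1 := by
    rw [Real.cosh_two_mul, Real.sinh_sq]; ring
  have h2 : Real.cos (2 * s) = 2 * Real.cos s ^ 2 - 1 := Real.cos_two_mul s
  have h3 : Real.sinh x ^ 2 = Real.cosh x ^ 2 - 1 := Real.sinh_sq x
  have h4 : Real.sin s ^ 2 = 1 - Real.cos s ^ 2 := Real.sin_sq s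
  rw [h1, h2]
  have h5 : (Real.cosh x * Real.cos s - (Real.sinh x * Real.sin s * 0 - 0 * 1)) *
      (Real.cosh x * Real.cos s - (Real.sinh x * Real.sin s * 0 - 0 * 1)) +
      (0 - (Real.sinh x * Real.sin s * 1 + 0 * 0)) * (0 - (Real.sinh x * Real.sin s * 1 + 0 * 0)) =
      Real.cosh x ^ 2 * Real.cos s ^ 2 + Real.sinh x ^ 2 * Real.sin s ^ 2 := by ring
  rw [h5, h3, h4]
  ring

private theorem DQa_cos {β : ℝ} (h : |β| < Real.pi / 2) : 0 < Real.cos β :=
  Real.cos_pos_of_mem_Ioo ⟨by linarith [(abs_lt.1 h).1], (abs_lt.1 h).2⟩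

private theorem DQa_D (β y : ℝ) : Complex.normSq (Complex.cosh (3 * Real.pi * y / 2 - I * β)) =
    (4 * Real.cosh (Real.pi * y) ^ 3 - 3 * Real.cosh (Real.pi * y) + Real.cos (2 * β)) / 2 := by
  have e : (3 * (Real.pi : ℂ) * y / 2 - I * β) = ((3 * Real.pi * y / 2 : ℝ) : ℂ) - I * β := by push_cast; ring
  rw [e, DQa_sq]
  have e2 : 2 * (3 * Real.pi * y / 2) = 3 * (Real.pi * y) := by ring
  rw [e2, Real.cosh_three_mul]

private theorem DQa_N (β y : ℝ) : Complex.normSq (Complex.cosh (Real.pi * y / 2 - I * β)) =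
    (Real.cosh (Real.pi * y) + Real.cos (2 * β)) / 2 := by
  have e : ((Real.pi : ℂ) * y / 2 - I * β) = ((Real.pi * y / 2 : ℝ) : ℂ) - I * β := by push_cast; ring
  rw [e, DQa_sq]
  have e2 : 2 * (Real.pi * y / 2) = Real.pi * y := by ring
  rw [e2]

private theorem DQa_eq (β y : ℝ) (hne : Complex.cosh (3 * Real.pi * y / 2 - I * β) ≠ 0) :
    Qb β y = ((2 * Real.cosh (Real.pi * y) * ((2 * Real.cosh (Real.pi * y) ^ 2 - 1 - Real.cosh (Real.pi * y)) / 2 +
        Real.cosh (Real.pi * y) * Real.cos β ^ 2) /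
        Complex.normSq (Complex.cosh (3 * Real.pi * y / 2 - I * β)) : ℝ) : ℂ) +
      ((2 * Real.cosh (Real.pi * y) * (Real.sin β * Real.cos β * Real.sinh (Real.pi * y)) /
        Complex.normSq (Complex.cosh (3 * Real.pi * y / 2 - I * β)) : ℝ) : ℂ) * I := by
  unfold Qb
  have e1 : ((Real.pi : ℂ) * y / 2 - I * β) = ((Real.pi * y / 2 : ℝ) : ℂ) - I * β := by push_cast; ring
  have e3 : (3 * (Real.pi : ℂ) * y / 2 - I * β) = ((3 * Real.pi * y / 2 : ℝ) : ℂ) - I * β := by push_cast; ring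
  have e0 : Complex.cosh ((Real.pi : ℂ) * y) = ((Real.cosh (Real.pi * y) : ℝ) : ℂ) := by push_cast; ring
  rw [e3] at hne ⊢
  rw [e1, e0]
  set Z := Complex.cosh (((3 * Real.pi * y / 2 : ℝ) : ℂ) - I * β) with hZ
  have hD : (Complex.normSq Z : ℂ) ≠ 0 := by
    have : Complex.normSq Z ≠ 0 := fun h => hne (Complex.normSq_eq_zero.1 h)
    exact_mod_cast this
  have hconj : Z * (starRingEnd ℂ) Z = (Complex.normSq Z : ℂ) := Complex.mul_conj Z
  have hZc : (starRingEnd ℂ) Z = ((Real.cosh (3 * Real.pi * y / 2) * Real.cos β : ℝ) : ℂ) +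
      ((Real.sinh (3 * Real.pi * y / 2) * Real.sin β : ℝ) : ℂ) * I := by
    rw [hZ, DQa_ch, map_sub, map_mul, Complex.conj_ofReal, Complex.conj_ofReal, Complex.conj_I]
    ring
  rw [div_eq_iff hne]
  apply mul_right_cancel₀ hD
  have hprod : Complex.cosh (((Real.pi * y / 2 : ℝ) : ℂ) - I * β) * (starRingEnd ℂ) Z =
      (((2 * Real.cosh (Real.pi * y) ^ 2 - 1 - Real.cosh (Real.pi * y)) / 2 +
        Real.cosh (Real.pi * y) * Real.cos β ^ 2 : ℝ) : ℂ) +
      ((Real.sin β * Real.cos β * Real.sinh (Real.pi * y) : ℝ) : ℂ) * I := by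
    rw [hZc, DQa_ch]
    set a := Real.pi * y / 2 with ha
    have f1 : Real.pi * y = 2 * a := by rw [ha]; ring
    have f3 : 3 * Real.pi * y / 2 = 3 * a := by rw [ha]; ring
    rw [f1, f3, Real.cosh_three_mul, Real.sinh_three_mul, Real.sinh_two_mul]
    have g1 : Real.cosh (2 * a) = 2 * Real.cosh a ^ 2 - 1 := by
      rw [Real.cosh_two_mul, Real.sinh_sq]; ring
    rw [g1]
    have g2 : Real.sinh a ^ 2 = Real.cosh a ^ 2 - 1 := Real.sinh_sq a
    have g3 : Real.sin β ^ 2 = 1 - Real.cos β ^ 2 := Real.sin_sq β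
    apply Complex.ext
    · simp only [Complex.add_re, Complex.mul_re, Complex.ofReal_re, Complex.ofReal_im, Complex.I_re, Complex.I_im,
        Complex.sub_re, Complex.sub_im, Complex.add_im, Complex.mul_im]
      have t : Real.sinh a * Real.sin β * ((4 * Real.sinh a ^ 3 + 3 * Real.sinh a) * Real.sin β) =
        (4 * (Real.sinh a ^ 2) ^ 2 + 3 * Real.sinh a ^ 2) * Real.sin β ^ 2 := by ring
      rw [g2, g3] at t
      linear_combination t
    · simp only [Complex.add_re, Complex.mul_re, Complex.ofReal_re, Complex.ofReal_im, Complex.I_re, Complex.I_im,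
        Complex.sub_re, Complex.sub_im, Complex.add_im, Complex.mul_im]
      linear_combination (4 * Real.sinh a * Real.cosh a * Real.sin β * Real.cos β) * g2
  calc 2 * ((Real.cosh (Real.pi * y) : ℝ) : ℂ) * Complex.cosh (((Real.pi * y / 2 : ℝ) : ℂ) - I * β) * (Complex.normSq Z : ℂ)
      = 2 * ((Real.cosh (Real.pi * y) : ℝ) : ℂ) *
        (Complex.cosh (((Real.pi * y / 2 : ℝ) : ℂ) - I * β) * (starRingEnd ℂ) Z) * Z := by
        rw [← hconj]; ring
    _ = _ := by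
        rw [hprod]
        push_cast
        field_simp

theorem Qden_pos {β : ℝ} (h : |β| < Real.pi / 2) (y : ℝ) :
    0 < 4 * Real.cosh (Real.pi * y) ^ 3 - 3 * Real.cosh (Real.pi * y) + Real.cos (2 * β) := by
  have hc := Real.one_le_cosh (Real.pi * y)
  set c := Real.cosh (Real.pi * y)
  have hk : Real.cos (2 * β) = 2 * Real.cos β ^ 2 - 1 := Real.cos_two_mul β
  have hcos := DQa_cos h
  rw [hk]
  have h1 : 0 ≤ (c - 1) * (2 * c + 1) ^ 2 := mul_nonneg (by linarith) (sq_nonneg _)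
  have h2 : 0 < Real.cos β ^ 2 := by positivity
  nlinarith

theorem Qden_ne {β : ℝ} (h : |β| < Real.pi / 2) (y : ℝ) :
    Complex.cosh (3 * Real.pi * y / 2 - I * β) ≠ 0 := by
  intro h0
  have h1 := DQa_D β y
  rw [h0, Complex.normSq_zero] at h1
  have h2 := Qden_pos h y
  linarith

theorem Qb_normSq {β : ℝ} (h : |β| < Real.pi / 2) (y : ℝ) :
    ‖Qb β y‖^2 = 4 * Real.cosh (Real.pi * y) ^ 2 * (Real.cosh (Real.pi * y) + Real.cos (2 * β))
      / (4 * Real.cosh (Real.pi * y) ^ 3 - 3 * Real.cosh (Real.pi * y) + Real.cos (2 * β)) := by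
  have h2 := Qden_pos h y
  have h3 : ‖Complex.cosh ((Real.pi : ℂ) * y)‖ ^ 2 = Real.cosh (Real.pi * y) ^ 2 := by
    have e0 : Complex.cosh ((Real.pi : ℂ) * y) = ((Real.cosh (Real.pi * y) : ℝ) : ℂ) := by push_cast; ring
    rw [e0, Complex.norm_real, Real.norm_eq_abs, sq_abs]
  unfold Qb
  have e2 : ‖(2 : ℂ)‖ = 2 := by norm_num
  rw [norm_div, norm_mul, norm_mul, div_pow, mul_pow, mul_pow, h3, e2,
    ← Complex.normSq_eq_norm_sq (Complex.cosh (Real.pi * y / 2 - I * β)),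
    ← Complex.normSq_eq_norm_sq (Complex.cosh (3 * Real.pi * y / 2 - I * β)), DQa_D, DQa_N]
  field_simp
  ring

theorem Qb_norm_ge {β : ℝ} (h : |β| < Real.pi / 2) (y : ℝ) : Real.cos β ≤ ‖Qb β y‖ := by
  have hD := Qden_pos h y
  have hQ := Qb_normSq h y
  have hc := Real.one_le_cosh (Real.pi * y)
  set c := Real.cosh (Real.pi * y)
  have hk : Real.cos (2 * β) = 2 * Real.cos β ^ 2 - 1 := Real.cos_two_mul β
  have hcos := DQa_cos h
  have hcos1 : Real.cos β ≤ 1 := Real.cos_le_one β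
  rw [hk] at hQ hD
  set K := Real.cos β
  have hK2 : 0 < K ^ 2 := by positivity
  have hK21 : K ^ 2 ≤ 1 := by nlinarith
  have key : K ^ 2 ≤ ‖Qb β y‖ ^ 2 := by
    rw [hQ, le_div_iff₀ hD]
    set T := K ^ 2
    have h1 : 0 ≤ (c - 1) := by linarith
    have h2 : 0 ≤ 1 - T := by linarith
    have h3 : T * (4 * c ^ 3 - 3 * c + (2 * T - 1)) ≤ 4 * c ^ 2 * (c + (2 * T - 1)) := by
      have h4 : 4 * c ^ 2 * (c + (2 * T - 1)) - T * (4 * c ^ 3 - 3 * c + (2 * T - 1)) =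
        4 * c ^ 2 * (c - 1) * (1 - T) + T * (4 * c ^ 2 + 3 * c + 1 - 2 * T) := by ring
      have h5 : 0 ≤ 4 * c ^ 2 * (c - 1) * (1 - T) := by positivity
      have h6 : 0 ≤ 4 * c ^ 2 + 3 * c + 1 - 2 * T := by nlinarith
      have h7 := mul_nonneg hK2.le h6
      linarith
    exact h3
  exact (abs_le_of_sq_le_sq' key (norm_nonneg _)).2

theorem Qb_re_pos {β : ℝ} (h : |β| < Real.pi / 2) (y : ℝ) : 0 < (Qb β y).re := by
  have hne := Qden_ne h y
  have hD : 0 < Complex.normSq (Complex.cosh (3 * Real.pi * y / 2 - I * β)) := Complex.normSq_pos.2 hne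
  rw [DQa_eq β y hne]
  simp only [Complex.add_re, Complex.mul_re, Complex.ofReal_re, Complex.ofReal_im, Complex.I_re, Complex.I_im,
    mul_zero, zero_mul, sub_zero, add_zero]
  have hc := Real.one_le_cosh (Real.pi * y)
  set c := Real.cosh (Real.pi * y)
  have hcos := DQa_cos h
  apply div_pos _ hD
  have h1 : 0 ≤ 2 * c ^ 2 - 1 - c := by nlinarith
  have h2 : 0 < c * Real.cos β ^ 2 := by positivity
  have h3 : 0 < (2 * c ^ 2 - 1 - c) / 2 + c * Real.cos β ^ 2 := by linarith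
  positivity

theorem Qb_arg {β : ℝ} (h0 : 0 ≤ β) (h : β < Real.pi / 2) (y : ℝ) : |(Qb β y).arg| ≤ β := by
  have hab : |β| < Real.pi / 2 := by rw [abs_of_nonneg h0]; exact h
  have hre := Qb_re_pos hab y
  have hne := Qden_ne hab y
  have hD : 0 < Complex.normSq (Complex.cosh (3 * Real.pi * y / 2 - I * β)) := Complex.normSq_pos.2 hne
  have hQ := DQa_eq β y hne
  have hcos := DQa_cos hab
  have hsin : 0 ≤ Real.sin β := Real.sin_nonneg_of_nonneg_of_le_pi h0 (by linarith [Real.pi_pos])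
  have hc := Real.one_le_cosh (Real.pi * y)
  have hs : Real.sinh (Real.pi * y) ^ 2 = Real.cosh (Real.pi * y) ^ 2 - 1 := Real.sinh_sq _
  have hR : (Qb β y).re = 2 * Real.cosh (Real.pi * y) * ((2 * Real.cosh (Real.pi * y) ^ 2 - 1 - Real.cosh (Real.pi * y)) / 2 +
        Real.cosh (Real.pi * y) * Real.cos β ^ 2) /
        Complex.normSq (Complex.cosh (3 * Real.pi * y / 2 - I * β)) := by
    rw [hQ]
    simp only [Complex.add_re, Complex.mul_re, Complex.ofReal_re, Complex.ofReal_im, Complex.I_re, Complex.I_im,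
      mul_zero, zero_mul, sub_zero, add_zero]
  have hI : (Qb β y).im = 2 * Real.cosh (Real.pi * y) * (Real.sin β * Real.cos β * Real.sinh (Real.pi * y)) /
        Complex.normSq (Complex.cosh (3 * Real.pi * y / 2 - I * β)) := by
    rw [hQ]
    simp only [Complex.add_im, Complex.mul_im, Complex.ofReal_re, Complex.ofReal_im, Complex.I_re, Complex.I_im,
      mul_zero, mul_one, zero_add, add_zero]
  set c := Real.cosh (Real.pi * y)
  set s := Real.sinh (Real.pi * y)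
  set D := Complex.normSq (Complex.cosh (3 * Real.pi * y / 2 - I * β))
  set K := Real.cos β
  set S := Real.sin β
  have habs : |s| ≤ c := by
    apply abs_le_of_sq_le_sq _ (by linarith)
    linarith
  have h1 : 0 ≤ 2 * c ^ 2 - 1 - c := by nlinarith
  have hJ : |(Qb β y).im| * K ≤ (Qb β y).re * S := by
    rw [hR, hI, abs_div, abs_of_pos hD, abs_mul, abs_mul, abs_mul, abs_mul, abs_of_nonneg hsin, abs_of_pos hcos,
      abs_of_nonneg (show (0:ℝ) ≤ c by linarith), abs_of_nonneg (show (0:ℝ) ≤ 2 by norm_num)]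
    rw [div_mul_eq_mul_div, div_mul_eq_mul_div]
    apply div_le_div_of_nonneg_right _ hD.le
    have h2 : K ^ 2 * |s| ≤ (2 * c ^ 2 - 1 - c) / 2 + c * K ^ 2 := by
      have := mul_le_mul_of_nonneg_left habs (sq_nonneg K)
      linarith
    have h3 := mul_le_mul_of_nonneg_left h2 (show 0 ≤ 2 * c * S by positivity)
    linarith
  have hsq : (Qb β y).im ^ 2 * K ^ 2 ≤ (Qb β y).re ^ 2 * S ^ 2 := by
    have := pow_le_pow_left₀ (by positivity) hJ 2
    rw [mul_pow, mul_pow, sq_abs] at this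
    exact this
  have hSK : S ^ 2 + K ^ 2 = 1 := Real.sin_sq_add_cos_sq β
  have hn : ‖Qb β y‖ ^ 2 = (Qb β y).re ^ 2 + (Qb β y).im ^ 2 := by
    rw [← Complex.normSq_eq_norm_sq, Complex.normSq_apply]; ring
  have hnpos : 0 < ‖Qb β y‖ := norm_pos_iff.2 (fun h => by rw [h] at hre; simp at hre)
  have hle : |(Qb β y).im / ‖Qb β y‖| ≤ S := by
    rw [abs_div, abs_of_pos hnpos, div_le_iff₀ hnpos]
    apply abs_le_of_sq_le_sq _ (by positivity)
    rw [mul_pow, hn]
    have hK2 : K ^ 2 = 1 - S ^ 2 := by linarith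
    rw [hK2] at hsq
    linarith
  rw [Complex.arg_of_re_nonneg hre.le]
  rw [abs_le] at hle ⊢
  have hpi := Real.pi_pos
  constructor
  · have := Real.arcsin_le_arcsin hle.1
    rwa [Real.arcsin_neg, Real.arcsin_sin (by linarith) (by linarith)] at this
  · have := Real.arcsin_le_arcsin hle.2
    rwa [Real.arcsin_sin (by linarith) (by linarith)] at this

end PAS
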