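import Pool.Agent.Lib.MP_216314_pr.AS.DQa
import Pool.Agent.Lib.MP_216314_pr.AS.GPol

/-!
D3, `Q_β = 1 + h`, `h = cosh(πy/2 + iβ)/cosh(3πy/2 - iβ)`.

PROOF. `2 cosh(πy) cosh(πy/2 - iβ) = cosh(3πy/2 - iβ) + cosh(πy/2 + iβ)` (`Complex.cosh_add`, `Complex.cosh_sub` with `u = πy`, `v = πy/2 - iβ`).
Norms (real `x`, `s`): `cosh(x + i s) = cosh x cos s + i sinh x sin s`, so `cos s cosh x ≤ ‖cosh (x ± i s)‖ ≤ cosh x`, `‖sinh(x ± i s)‖ ≤ cosh x`.
`cosh u/cosh 3u ≤ 1/cosh 2u` for all real `u`: `cosh 3u = cosh u (2 cosh 2u - 1) ≥ cosh u cosh 2u` (`u = πy/2`). So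
`‖h‖ ≤ cosh(πy/2)/(cos β cosh(3πy/2)) ≤ sw y/cos β`, and
`h' = [(π/2) sinh(πy/2+iβ) cosh(3πy/2-iβ) - (3π/2) cosh(πy/2+iβ) sinh(3πy/2-iβ)]/cosh²(3πy/2-iβ)`, numerator norm `≤ 2π cosh(πy/2)cosh(3πy/2)`, denominator
`≥ cos²β cosh²(3πy/2)`: `‖h'‖ ≤ (2π/cos²β) sw y`.
`Qb_cont`, `Qb_bdd` follow.
-/

open MeasureTheory Complex

namespace PAS

private theorem DQb_cosh_re (z : ℂ) :
    (Complex.cosh z).re = Real.cosh z.re * Real.cos z.im := by
  have h1 : Complex.cosh z = (1 / 2 : ℝ) * (Complex.exp z + Complex.exp (-z)) := by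
    rw [Complex.cosh]
    push_cast
    ring
  rw [h1, Complex.re_ofReal_mul, Complex.add_re, Complex.exp_re, Complex.exp_re, Complex.neg_re,
    Complex.neg_im, Real.cos_neg, Real.cosh_eq]
  ring

private theorem DQb_cosh_le (z : ℂ) : ‖Complex.cosh z‖ ≤ Real.cosh z.re := by
  have h1 : Complex.cosh z = (1 / 2 : ℝ) * (Complex.exp z + Complex.exp (-z)) := by
    rw [Complex.cosh]
    push_cast
    ring
  have h2 := norm_add_le (Complex.exp z) (Complex.exp (-z))
  rw [Complex.norm_exp, Complex.norm_exp, Complex.neg_re] at h2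
  rw [h1, norm_mul, Complex.norm_real, Real.norm_eq_abs, abs_of_pos (by norm_num : (0:ℝ) < 1 / 2),
    Real.cosh_eq]
  linarith

private theorem DQb_sinh_le (z : ℂ) : ‖Complex.sinh z‖ ≤ Real.cosh z.re := by
  have h1 : Complex.sinh z = (1 / 2 : ℝ) * (Complex.exp z - Complex.exp (-z)) := by
    rw [Complex.sinh]
    push_cast
    ring
  have h2 := norm_sub_le (Complex.exp z) (Complex.exp (-z))
  rw [Complex.norm_exp, Complex.norm_exp, Complex.neg_re] at h2
  rw [h1, norm_mul, Complex.norm_real, Real.norm_eq_abs, abs_of_pos (by norm_num : (0:ℝ) < 1 / 2),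
    Real.cosh_eq]
  linarith

private theorem DQb_cosh_ge (z : ℂ) : Real.cosh z.re * Real.cos z.im ≤ ‖Complex.cosh z‖ := by
  rw [← DQb_cosh_re]
  exact Complex.re_le_norm _

private theorem DQb_cos {β : ℝ} (h : |β| < Real.pi / 2) : 0 < Real.cos β :=
  Real.cos_pos_of_mem_Ioo ⟨(abs_lt.1 h).1, (abs_lt.1 h).2⟩

private theorem DQb_re1 (β y : ℝ) : ((Real.pi * y / 2 + I * β : ℂ)).re = Real.pi * y / 2 := by
  have h : (Real.pi * y / 2 + I * β : ℂ) = ((Real.pi * y / 2 : ℝ) : ℂ) + (β : ℝ) * I := by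
    push_cast
    ring
  rw [h, Complex.add_re, Complex.ofReal_re, Complex.re_ofReal_mul, Complex.I_re]
  ring

private theorem DQb_re3 (β y : ℝ) :
    ((3 * Real.pi * y / 2 - I * β : ℂ)).re = 3 * (Real.pi * y / 2) := by
  have h : (3 * Real.pi * y / 2 - I * β : ℂ) =
      ((3 * (Real.pi * y / 2) : ℝ) : ℂ) + ((-β : ℝ) : ℂ) * I := by
    push_cast
    ring
  rw [h, Complex.add_re, Complex.ofReal_re, Complex.re_ofReal_mul, Complex.I_re]
  ring

private theorem DQb_im3 (β y : ℝ) : ((3 * Real.pi * y / 2 - I * β : ℂ)).im = -β := by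
  have h : (3 * Real.pi * y / 2 - I * β : ℂ) =
      ((3 * (Real.pi * y / 2) : ℝ) : ℂ) + ((-β : ℝ) : ℂ) * I := by
    push_cast
    ring
  rw [h, Complex.add_im, Complex.ofReal_im, Complex.im_ofReal_mul, Complex.I_im]
  ring

private theorem DQb_eq {β : ℝ} (h : |β| < Real.pi / 2) (y : ℝ) :
    Qb β y = 1 + Complex.cosh (Real.pi * y / 2 + I * β) /
      Complex.cosh (3 * Real.pi * y / 2 - I * β) := by
  have hne := Qden_ne h y
  have h1 : 2 * Complex.cosh (Real.pi * y) * Complex.cosh (Real.pi * y / 2 - I * β) =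
      Complex.cosh (3 * Real.pi * y / 2 - I * β) + Complex.cosh (Real.pi * y / 2 + I * β) := by
    have h2 : (3 * Real.pi * y / 2 - I * β : ℂ) = Real.pi * y + (Real.pi * y / 2 - I * β) := by
      ring
    have h3 : (Real.pi * y / 2 + I * β : ℂ) = Real.pi * y - (Real.pi * y / 2 - I * β) := by
      ring
    rw [h2, h3, Complex.cosh_add (Real.pi * y : ℂ) (Real.pi * y / 2 - I * β),
      Complex.cosh_sub (Real.pi * y : ℂ) (Real.pi * y / 2 - I * β)]
    ring
  unfold Qb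
  rw [h1, add_div, div_self hne]

/-- `cosh u / cosh 3u ≤ sech 2u`, `u = π y / 2` -/
private theorem DQb_frac (y : ℝ) :
    Real.cosh (Real.pi * y / 2) / Real.cosh (3 * (Real.pi * y / 2)) ≤ sw y := by
  have h1 := Real.cosh_pos (Real.pi * y / 2)
  have h2 := Real.cosh_pos (3 * (Real.pi * y / 2))
  have h3 := Real.cosh_pos (Real.pi * y)
  unfold sw
  rw [div_le_div_iff₀ h2 h3, one_mul]
  have h4 : 3 * (Real.pi * y / 2) = Real.pi * y + Real.pi * y / 2 := by ring
  have h5 : Real.pi * y = 2 * (Real.pi * y / 2) := by ring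
  have h6 : Real.sinh (Real.pi * y) =
      2 * Real.sinh (Real.pi * y / 2) * Real.cosh (Real.pi * y / 2) := by
    rw [h5, Real.sinh_two_mul, ← h5]
  rw [h4, Real.cosh_add, h6]
  have h7 : 0 ≤ Real.sinh (Real.pi * y / 2) ^ 2 * Real.cosh (Real.pi * y / 2) :=
    mul_nonneg (sq_nonneg _) h1.le
  linarith

private theorem DQb_den_ge {β : ℝ} (y : ℝ) :
    Real.cosh (3 * (Real.pi * y / 2)) * Real.cos β ≤
      ‖Complex.cosh (3 * Real.pi * y / 2 - I * β)‖ := by
  have h1 := DQb_cosh_ge (3 * Real.pi * y / 2 - I * β)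
  rw [DQb_re3, DQb_im3, Real.cos_neg] at h1
  exact h1

theorem Qb_sub_one {β : ℝ} (h : |β| < Real.pi / 2) (y : ℝ) : ‖Qb β y - 1‖ ≤ sw y / Real.cos β := by
  have hb := DQb_cos h
  have h3 := Real.cosh_pos (3 * (Real.pi * y / 2))
  rw [DQb_eq h y, add_sub_cancel_left, norm_div]
  have h1 : ‖Complex.cosh (Real.pi * y / 2 + I * β)‖ ≤ Real.cosh (Real.pi * y / 2) := by
    have := DQb_cosh_le (Real.pi * y / 2 + I * β)
    rwa [DQb_re1] at this
  have h2 := DQb_den_ge (β := β) y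
  have h4 : 0 < Real.cosh (3 * (Real.pi * y / 2)) * Real.cos β := mul_pos h3 hb
  calc ‖Complex.cosh (Real.pi * y / 2 + I * β)‖ / ‖Complex.cosh (3 * Real.pi * y / 2 - I * β)‖
      ≤ Real.cosh (Real.pi * y / 2) / (Real.cosh (3 * (Real.pi * y / 2)) * Real.cos β) :=
        div_le_div₀ (Real.cosh_pos _).le h1 h4 h2
    _ = Real.cosh (Real.pi * y / 2) / Real.cosh (3 * (Real.pi * y / 2)) / Real.cos β := by
        rw [div_div]
    _ ≤ sw y / Real.cos β := (div_le_div_iff_of_pos_right hb).2 (DQb_frac y)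

theorem Qb_deriv {β : ℝ} (h : |β| < Real.pi / 2) : ∃ Q' : ℝ → ℂ, ∀ y : ℝ,
    HasDerivAt (Qb β) (Q' y) y ∧ ‖Q' y‖ ≤ 2 * Real.pi / Real.cos β ^ 2 * sw y := by
  have hb := DQb_cos h
  refine ⟨fun y => (Complex.sinh (Real.pi * y / 2 + I * β) * (Real.pi / 2) *
      Complex.cosh (3 * Real.pi * y / 2 - I * β) - Complex.cosh (Real.pi * y / 2 + I * β) *
      (Complex.sinh (3 * Real.pi * y / 2 - I * β) * (3 * Real.pi / 2))) /
      Complex.cosh (3 * Real.pi * y / 2 - I * β) ^ 2, fun y => ⟨?_, ?_⟩⟩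
  · have h1 : HasDerivAt (fun w : ℂ => Real.pi * w / 2 + I * β) (Real.pi / 2) (y : ℂ) := by
      have := (((hasDerivAt_id (y : ℂ)).const_mul (Real.pi : ℂ)).div_const 2).add_const (I * β)
      rw [mul_one] at this
      exact this
    have h3 : HasDerivAt (fun w : ℂ => 3 * Real.pi * w / 2 - I * β) (3 * Real.pi / 2) (y : ℂ) := by
      have := (((hasDerivAt_id (y : ℂ)).const_mul (3 * Real.pi : ℂ)).div_const 2).sub_const (I * β)
      rw [mul_one] at this
      exact this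
    have h4 := ((h1.ccosh.div h3.ccosh (Qden_ne h y)).const_add 1).comp_ofReal
    refine HasDerivAt.congr_deriv (h4.congr_of_eventuallyEq (Filter.Eventually.of_forall ?_)) ?_
    · intro x
      exact DQb_eq h x
    · rfl
  · have h3 := Real.cosh_pos (3 * (Real.pi * y / 2))
    have h1 := Real.cosh_pos (Real.pi * y / 2)
    have hp := Real.pi_pos
    have hc1 : ‖Complex.cosh (Real.pi * y / 2 + I * β)‖ ≤ Real.cosh (Real.pi * y / 2) := by
      have := DQb_cosh_le (Real.pi * y / 2 + I * β)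
      rwa [DQb_re1] at this
    have hs1 : ‖Complex.sinh (Real.pi * y / 2 + I * β)‖ ≤ Real.cosh (Real.pi * y / 2) := by
      have := DQb_sinh_le (Real.pi * y / 2 + I * β)
      rwa [DQb_re1] at this
    have hc3 : ‖Complex.cosh (3 * Real.pi * y / 2 - I * β)‖ ≤
        Real.cosh (3 * (Real.pi * y / 2)) := by
      have := DQb_cosh_le (3 * Real.pi * y / 2 - I * β)
      rwa [DQb_re3] at this
    have hs3 : ‖Complex.sinh (3 * Real.pi * y / 2 - I * β)‖ ≤
        Real.cosh (3 * (Real.pi * y / 2)) := by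
      have := DQb_sinh_le (3 * Real.pi * y / 2 - I * β)
      rwa [DQb_re3] at this
    have hd := DQb_den_ge (β := β) y
    have h4 : 0 < Real.cosh (3 * (Real.pi * y / 2)) * Real.cos β := mul_pos h3 hb
    have hn1 : ‖(Real.pi / 2 : ℂ)‖ = Real.pi / 2 := by
      have : (Real.pi / 2 : ℂ) = ((Real.pi / 2 : ℝ) : ℂ) := by push_cast; ring
      rw [this, Complex.norm_real, Real.norm_eq_abs, abs_of_pos (by positivity)]
    have hn3 : ‖(3 * Real.pi / 2 : ℂ)‖ = 3 * Real.pi / 2 := by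
      have : (3 * Real.pi / 2 : ℂ) = ((3 * Real.pi / 2 : ℝ) : ℂ) := by push_cast; ring
      rw [this, Complex.norm_real, Real.norm_eq_abs, abs_of_pos (by positivity)]
    have hnum : ‖Complex.sinh (Real.pi * y / 2 + I * β) * (Real.pi / 2) *
        Complex.cosh (3 * Real.pi * y / 2 - I * β) - Complex.cosh (Real.pi * y / 2 + I * β) *
        (Complex.sinh (3 * Real.pi * y / 2 - I * β) * (3 * Real.pi / 2))‖ ≤
        2 * Real.pi * (Real.cosh (Real.pi * y / 2) * Real.cosh (3 * (Real.pi * y / 2))) := by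
      refine (norm_sub_le _ _).trans ?_
      rw [norm_mul, norm_mul, norm_mul, norm_mul, hn1, hn3]
      have e1 : ‖Complex.sinh (Real.pi * y / 2 + I * β)‖ *
          ‖Complex.cosh (3 * Real.pi * y / 2 - I * β)‖ ≤
          Real.cosh (Real.pi * y / 2) * Real.cosh (3 * (Real.pi * y / 2)) :=
        mul_le_mul hs1 hc3 (norm_nonneg _) h1.le
      have e2 : ‖Complex.cosh (Real.pi * y / 2 + I * β)‖ *
          ‖Complex.sinh (3 * Real.pi * y / 2 - I * β)‖ ≤
          Real.cosh (Real.pi * y / 2) * Real.cosh (3 * (Real.pi * y / 2)) :=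
        mul_le_mul hc1 hs3 (norm_nonneg _) h1.le
      have e3 := mul_le_mul_of_nonneg_left e1 (by positivity : 0 ≤ Real.pi / 2)
      have e4 := mul_le_mul_of_nonneg_left e2 (by positivity : 0 ≤ 3 * Real.pi / 2)
      linarith
    rw [norm_div, norm_pow]
    have hden : (Real.cosh (3 * (Real.pi * y / 2)) * Real.cos β) ^ 2 ≤
        ‖Complex.cosh (3 * Real.pi * y / 2 - I * β)‖ ^ 2 := pow_le_pow_left₀ h4.le hd 2
    refine (div_le_div₀ (by positivity) hnum (pow_pos h4 2) hden).trans ?_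
    have h5 : 2 * Real.pi * (Real.cosh (Real.pi * y / 2) * Real.cosh (3 * (Real.pi * y / 2))) /
        (Real.cosh (3 * (Real.pi * y / 2)) * Real.cos β) ^ 2 =
        2 * Real.pi / Real.cos β ^ 2 *
          (Real.cosh (Real.pi * y / 2) / Real.cosh (3 * (Real.pi * y / 2))) := by
      field_simp
    rw [h5]
    exact mul_le_mul_of_nonneg_left (DQb_frac y) (by positivity)

theorem Qb_cont {β : ℝ} (h : |β| < Real.pi / 2) : Continuous (Qb β) := by
  obtain ⟨Q', hQ⟩ := Qb_deriv h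
  exact continuous_iff_continuousAt.2 fun y => (hQ y).1.continuousAt

theorem Qb_bdd {β : ℝ} (h : |β| < Real.pi / 2) (y : ℝ) : ‖Qb β y‖ ≤ 1 + 1 / Real.cos β := by
  have hb := DQb_cos h
  have h1 := Qb_sub_one h y
  have h2 : sw y / Real.cos β ≤ 1 / Real.cos β := (div_le_div_iff_of_pos_right hb).2 (sw_le_one y)
  have h3 : ‖Qb β y‖ ≤ ‖(1 : ℂ)‖ + ‖Qb β y - 1‖ := by
    have := norm_add_le (1 : ℂ) (Qb β y - 1)
    rwa [add_sub_cancel] at this
  rw [norm_one] at h3
  linarith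

end PAS
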