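import Pool.Agent.Lib.MP_216314_pr.AS.ADef

/-!
E1. Gram determinants of polynomial families and the Hankel determinant.

PROOF. `p_k = ∑_{i≤k} c_{ki} X^i`, `c_{ki} = (p k).coeff i` (`Polynomial.as_sum_range'`/`Polynomial.as_sum_range_C_mul_X_pow'`, for a family indexed by
`Fin n` write the sum over `Fin n`, coefficients above the degree vanish). Then `L (p_i p_j) = ∑_k ∑_l c_{ik} L(X^{k+l}) c_{jl}`, i.e.
Gram `= C * H * Cᵀ` with `C = Matrix.of fun i k : Fin n => (p i).coeff k` lower triangular with diagonal `a k`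
(`Matrix.det_of_lowerTriangular`, `Matrix.BlockTriangular`; `(p i).coeff k = 0` for `k > i` by `Polynomial.coeff_eq_zero_of_natDegree_lt`), `det C = ∏ a k`,
`Matrix.det_mul`, `Matrix.det_transpose`, `Finset.prod_range`.
-/

open Complex

namespace PAS

theorem EHan_lin (L : Polynomial ℂ →ₗ[ℂ] ℂ) (n : ℕ) (p q : Polynomial ℂ) (hp : p.natDegree < n) (hq : q.natDegree < n) :
    L (p * q) = ∑ k : Fin n, ∑ l : Fin n, p.coeff k * L (Polynomial.X ^ ((k:ℕ) + (l:ℕ))) * q.coeff l := by
  conv_lhs => rw [p.as_sum_range' n hp, q.as_sum_range' n hq, Finset.sum_range, Finset.sum_range,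
    Finset.sum_mul_sum, map_sum]
  refine Finset.sum_congr rfl fun k _ => ?_
  rw [map_sum]
  refine Finset.sum_congr rfl fun l _ => ?_
  rw [Polynomial.monomial_mul_monomial, ← mul_one (p.coeff k * q.coeff l), ← smul_eq_mul (p.coeff k * q.coeff l),
    ← Polynomial.smul_monomial, map_smul, smul_eq_mul, Polynomial.monomial_one_right_eq_X_pow]
  ring

theorem ehan (L : Polynomial ℂ →ₗ[ℂ] ℂ) (p : ℕ → Polynomial ℂ) (a : ℕ → ℂ)
    (hd : ∀ k, (p k).natDegree ≤ k) (hc : ∀ k, (p k).coeff k = a k) (n : ℕ) :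
    (Matrix.of fun i j : Fin n => L (p i * p j)).det
      = (∏ k ∈ Finset.range n, a k)^2 * (Matrix.of fun i j : Fin n => L (Polynomial.X ^ ((i:ℕ) + (j:ℕ)))).det := by
  set C : Matrix (Fin n) (Fin n) ℂ := Matrix.of fun i k => (p i).coeff k with hC
  set H : Matrix (Fin n) (Fin n) ℂ := Matrix.of fun i j : Fin n => L (Polynomial.X ^ ((i:ℕ) + (j:ℕ))) with hH
  have h1 : (Matrix.of fun i j : Fin n => L (p i * p j)) = C * H * C.transpose := by
    ext i j
    rw [Matrix.mul_apply]
    simp only [Matrix.mul_apply, Matrix.transpose_apply, Finset.sum_mul]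
    rw [Matrix.of_apply, EHan_lin L n (p i) (p j) (lt_of_le_of_lt (hd i) i.2) (lt_of_le_of_lt (hd j) j.2),
      Finset.sum_comm]
    rfl
  have h2 : C.det = ∏ k ∈ Finset.range n, a k := by
    rw [Matrix.det_of_lowerTriangular C ?_, Finset.prod_range]
    · exact Finset.prod_congr rfl fun i _ => hc i
    · intro i j hij
      have hij' : i < j := hij
      exact Polynomial.coeff_eq_zero_of_natDegree_lt (lt_of_le_of_lt (hd i) hij')
  rw [h1, Matrix.det_mul, Matrix.det_mul, Matrix.det_transpose, h2]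
  ring

end PAS
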