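import Pool.Agent.Lib.MP_216314_pr.AS.GI

/-!
The measure `mw = sech(π y) dy` is a probability measure and `OPS mw PP` holds.

PROOF. `mw_int`: `MeasureTheory.integral_withDensity_eq_integral_smul` needs an `ℝ≥0`-valued density; use
`integral_withDensity_eq_integral_toReal_smul` (measurable density, a.e. finite), `ENNReal.toReal_ofReal (sw_pos y).le`.
`mw_integrable`: `integrable_withDensity_iff_integrable_smul'` (or the `toReal_smul` form), same simplification.
`mw_prob`: total mass `= ∫⁻ ofReal (sw y) = ofReal (∫ sw) = 1` with `∫ sw = 1` from `gj 0 0` (or `gorth 0 0`).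
`ops_mw`: `cont` = `PP_cont`, `int`: `mo_int edec_sw (polP m * polP k) 0` and `polP_eval`, real part; `orth`: `gorth` (take the
real parts; the integrand is the cast of a real function, `integral_ofReal`), `cd` = `gcd_cd`, `iN` = `gi`.
`TA_mw`: the entries of `TA mw PP n g` as integrals with respect to Lebesgue measure.
-/

open MeasureTheory Complex

namespace PAS

private theorem GOPS_meas : Measurable (fun y : ℝ => ENNReal.ofReal (sw y)) :=
  (ENNReal.continuous_ofReal.comp sw_cont).measurable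

private theorem GOPS_lt : ∀ᵐ y : ℝ ∂volume, ENNReal.ofReal (sw y) < ⊤ :=
  Filter.Eventually.of_forall fun _ => ENNReal.ofReal_lt_top

private theorem GOPS_mul (m k : ℕ) (y : ℝ) :
    (polP m * polP k).eval (y:ℂ) = ((PP m y * PP k y : ℝ) : ℂ) := by
  rw [Polynomial.eval_mul, polP_eval, polP_eval, Complex.ofReal_mul]

private theorem GOPS_e (m k : ℕ) (y : ℝ) :
    (polP m * polP k).eval (y:ℂ) * cexp (I * ((0:ℝ):ℂ) * y) * ((sw y : ℝ) : ℂ) =
      ((sw y * (PP m y * PP k y) : ℝ) : ℂ) := by
  rw [GOPS_mul, Complex.ofReal_zero, mul_zero, zero_mul, Complex.exp_zero, mul_one,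
    ← Complex.ofReal_mul, mul_comm]

private theorem GOPS_i (m k : ℕ) : Integrable (fun y : ℝ => sw y * (PP m y * PP k y)) := by
  have h := (mo_int edec_sw (polP m * polP k) 0).re
  refine h.congr (Filter.Eventually.of_forall fun y => ?_)
  change RCLike.re ((polP m * polP k).eval (y:ℂ) * cexp (I * ((0:ℝ):ℂ) * y) * ((sw y : ℝ) : ℂ)) =
    sw y * (PP m y * PP k y)
  rw [GOPS_e]
  exact Complex.ofReal_re _

private theorem GOPS_o (m k : ℕ) :
    ∫ y : ℝ, sw y * (PP m y * PP k y) = if m = k then 1 else 0 := by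
  have h := gorth m k
  unfold Mo at h
  have e : ∫ y : ℝ, (polP m * polP k).eval (y:ℂ) * cexp (I * ((0:ℝ):ℂ) * y) *
      ((sw y : ℝ) : ℂ) = ((∫ y : ℝ, sw y * (PP m y * PP k y) : ℝ) : ℂ) := by
    rw [← integral_complex_ofReal]
    exact integral_congr_ae (Filter.Eventually.of_forall fun y => GOPS_e m k y)
  rw [e] at h
  apply Complex.ofReal_injective
  rw [h]
  split_ifs
  · rw [Complex.ofReal_one]
  · rw [Complex.ofReal_zero]

theorem mw_int {E : Type*} [NormedAddCommGroup E] [NormedSpace ℝ E] (g : ℝ → E) :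
    ∫ y, g y ∂mw = ∫ y : ℝ, sw y • g y := by
  unfold mw
  rw [integral_withDensity_eq_integral_toReal_smul GOPS_meas GOPS_lt]
  refine integral_congr_ae (Filter.Eventually.of_forall fun y => ?_)
  change (ENNReal.ofReal (sw y)).toReal • g y = sw y • g y
  rw [ENNReal.toReal_ofReal (sw_pos y).le]

theorem mw_integrable {E : Type*} [NormedAddCommGroup E] [NormedSpace ℝ E] (g : ℝ → E) :
    Integrable g mw ↔ Integrable (fun y : ℝ => sw y • g y) := by
  unfold mw
  rw [integrable_withDensity_iff_integrable_smul' GOPS_meas GOPS_lt]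
  refine integrable_congr (Filter.Eventually.of_forall fun y => ?_)
  change (ENNReal.ofReal (sw y)).toReal • g y = sw y • g y
  rw [ENNReal.toReal_ofReal (sw_pos y).le]

instance mw_prob : IsProbabilityMeasure mw := by
  refine ⟨?_⟩
  unfold mw
  rw [withDensity_apply _ MeasurableSet.univ, Measure.restrict_univ]
  have h1 : Integrable (fun y : ℝ => sw y) := by
    refine (GOPS_i 0 0).congr (Filter.Eventually.of_forall fun y => ?_)
    change sw y * (PP 0 y * PP 0 y) = sw y
    rw [PP, mul_one, mul_one]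
  rw [← ofReal_integral_eq_lintegral_ofReal h1
    (Filter.Eventually.of_forall fun y => (sw_pos y).le)]
  have h2 : ∫ y : ℝ, sw y = 1 := by
    have h3 := GOPS_o 0 0
    rw [if_pos rfl] at h3
    rw [← h3]
    refine integral_congr_ae (Filter.Eventually.of_forall fun y => ?_)
    change sw y = sw y * (PP 0 y * PP 0 y)
    rw [PP, mul_one, mul_one]
  rw [h2, ENNReal.ofReal_one]

theorem ops_mw : OPS mw PP := by
  refine ⟨PP_cont, ?_, ?_, gcd_cd, ?_⟩
  · intro m k
    rw [mw_integrable]
    exact GOPS_i m k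
  · intro m k
    rw [mw_int]
    exact GOPS_o m k
  · intro n
    rw [mw_int]
    have h := gi n
    have e : ∫ y : ℝ, sw y • (PP n y ^ 2 / (1 + y ^ 2)) =
        ∫ y : ℝ, PP n y ^ 2 / (1 + y ^ 2) * sw y := by
      refine integral_congr_ae (Filter.Eventually.of_forall fun y => ?_)
      change sw y * (PP n y ^ 2 / (1 + y ^ 2)) = PP n y ^ 2 / (1 + y ^ 2) * sw y
      rw [mul_comm]
    rw [e]
    exact h

theorem TA_mw (n : ℕ) (g : ℝ → ℂ) (m k : Fin n) :
    TA mw PP n g m k = ∫ y : ℝ, (polP m * polP k).eval (y:ℂ) * (g y * ((sw y : ℝ) : ℂ)) := by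
  unfold TA
  rw [Matrix.of_apply, mw_int]
  refine integral_congr_ae (Filter.Eventually.of_forall fun y => ?_)
  change sw y • (g y * ((PP m y * PP k y : ℝ) : ℂ)) =
    (polP m * polP k).eval (y:ℂ) * (g y * ((sw y : ℝ) : ℂ))
  rw [GOPS_mul, Complex.real_smul]
  ring

end PAS
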