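import Pool.Agent.Lib.MP_216314_pr.AS.EGram
import Pool.Agent.Lib.MP_216314_pr.AS.EHan
import Pool.Agent.Lib.MP_216314_pr.AS.GOPS

/-!
E5. `‖det T_n(Q_β)‖ = (4/(3√3))^{n²} ‖det(1 + w B_n)‖`, `w = e^{4iβ/3}`, `B_n = (binom(i+j,i))`.

PROOF. `TA_mw`: entries `= Mo (Q sw) (polP m * polP k) 0` (`mo_zero`). `ehan` for `polP` (`a k = 2^k/k!`; `pol_deg`, `pol_coeff`, `polP_lead`) and for `polE β`
(`a k = ∏_{j<k} alE j = (-(3√3)/2)^k/k!`, prove by induction): `det T_n * (∏ a^E_k)² = det Gram_E * (∏ 2^k/k!)²`, `Gram_E = κ • (1 + w • B_n)`,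
`det = κ^n det(1+wB)` (`Matrix.det_smul`, `Fintype.card_fin`). Norms: `‖κ‖ = 4/(3√3)`, `‖2^k/k!‖/‖a^E_k‖ = (4/(3√3))^k`, squared and multiplied over `k < n`:
`(4/(3√3))^{n(n-1)}`, times `‖κ‖^n`: exponent `n²`. (Induction on `n` or `Finset.prod_pow_eq_pow_sum`, `Finset.sum_range_id_mul_two`.)
-/

open MeasureTheory Complex

namespace PAS

/-- the Pascal matrix -/
noncomputable def BM (n : ℕ) : Matrix (Fin n) (Fin n) ℂ :=
  Matrix.of fun i j => ((((i:ℕ) + (j:ℕ)).choose (i:ℕ) : ℕ) : ℂ)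

theorem edet_pow (r : ℝ) (n : ℕ) : (∏ k ∈ Finset.range n, r^k)^2 * r^n = r^(n^2) := by
  induction n with
  | zero => simp
  | succ n ih =>
    rw [Finset.prod_range_succ]
    have e : (n+1)^2 = n^2 + n + n + 1 := by ring
    have e2 : r^(n^2 + n + n + 1) = r^(n^2) * r^n * r^n * r := by ring
    rw [e, e2, ← ih]
    ring

theorem edet_lead (k : ℕ) : (∏ j ∈ Finset.range k, alE j)
    = (∏ j ∈ Finset.range k, alP j) * (-(3 * (Real.sqrt 3 : ℂ) / 4))^k := by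
  induction k with
  | zero => simp
  | succ k ih =>
    rw [Finset.prod_range_succ, Finset.prod_range_succ, ih, alE, alP, pow_succ]
    ring

theorem edet_gram {β : ℝ} (h0 : 0 < β) (h : β < Real.pi / 2) (n : ℕ) :
    (Matrix.of fun i j : Fin n => MoL _ (edec_Q h0 h) (polE β i * polE β j))
      = (4 / (3 * (Real.sqrt 3 : ℂ)) * cexp (-2 * I * β / 3)) • (1 + cexp (4 * I * β / 3) • BM n) := by
  ext i j
  have e := egram h0 h (i:ℕ) (j:ℕ)
  simp only [Matrix.of_apply, Matrix.smul_apply, Matrix.add_apply, Matrix.one_apply, smul_eq_mul, BM]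
  simp only [Fin.ext_iff]
  exact e

theorem edet_TA {β : ℝ} (h0 : 0 < β) (h : β < Real.pi / 2) (n : ℕ) :
    TA mw PP n (Qb β) = (Matrix.of fun i j : Fin n => MoL _ (edec_Q h0 h) (polP i * polP j)) := by
  ext i j
  rw [TA_mw]
  simp only [Matrix.of_apply]
  exact (mo_zero (polP i * polP j)).symm

theorem edet {β : ℝ} (h0 : 0 < β) (h : β < Real.pi / 2) (n : ℕ) :
    ‖(TA mw PP n (Qb β)).det‖
      = (4 / (3 * Real.sqrt 3)) ^ (n^2) * ‖(1 + cexp (4 * I * β / 3) • BM n).det‖ := by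
  have h3 : 0 < Real.sqrt 3 := Real.sqrt_pos.mpr (by norm_num)
  have hP := ehan (MoL _ (edec_Q h0 h)) polP (fun k => ∏ j ∈ Finset.range k, alP j)
    (fun k => pol_deg _ _ _ k) (fun k => pol_coeff _ _ _ k) n
  have hE := ehan (MoL _ (edec_Q h0 h)) (polE β) (fun k => ∏ j ∈ Finset.range k, alE j)
    (fun k => pol_deg _ _ _ k) (fun k => pol_coeff _ _ _ k) n
  rw [← edet_TA h0 h n] at hP
  rw [edet_gram h0 h n, Matrix.det_smul, Fintype.card_fin] at hE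
  simp only [edet_lead] at hE
  rw [Finset.prod_mul_distrib] at hE
  have hE2 : (4 / (3 * (Real.sqrt 3 : ℂ)) * cexp (-2 * I * β / 3)) ^ n * (1 + cexp (4 * I * β / 3) • BM n).det
      = (∏ x ∈ Finset.range n, (-(3 * (Real.sqrt 3 : ℂ) / 4)) ^ x) ^ 2 * (TA mw PP n (Qb β)).det := by
    rw [hP, hE]; ring
  have hn := congrArg (fun z : ℂ => ‖z‖) hE2
  simp only [norm_mul, norm_pow, norm_prod, norm_neg] at hn
  have e1 : ‖cexp (-2 * I * β / 3)‖ = 1 := by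
    have : (-2 * I * β / 3 : ℂ) = ((-2 * β / 3 : ℝ) : ℂ) * I := by push_cast; ring
    rw [this, Complex.norm_exp_ofReal_mul_I]
  have e2 : ‖(4 / (3 * (Real.sqrt 3 : ℂ)) : ℂ)‖ = 4 / (3 * Real.sqrt 3) := by
    rw [norm_div, norm_mul, Complex.norm_real, Real.norm_of_nonneg h3.le]; simp
  have e3 : ‖(3 * (Real.sqrt 3 : ℂ) / 4 : ℂ)‖ = 3 * Real.sqrt 3 / 4 := by
    rw [norm_div, norm_mul, Complex.norm_real, Real.norm_of_nonneg h3.le]; simp
  rw [e1, e2, e3, mul_one] at hn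
  set r := 3 * Real.sqrt 3 / 4 with hr
  have hrp : 0 < r := by positivity
  have e4 : 4 / (3 * Real.sqrt 3) = r⁻¹ := by rw [hr]; field_simp
  rw [e4] at hn ⊢
  have hp := edet_pow r n
  have h5 : (r^n) ≠ 0 := (pow_pos hrp n).ne'
  rw [inv_pow] at hn ⊢
  rw [← hp]
  have h6 : (∏ k ∈ Finset.range n, r^k) ≠ 0 := Finset.prod_ne_zero_iff.mpr (fun k _ => (pow_pos hrp k).ne')
  field_simp at hn ⊢
  linarith
end PAS
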