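import Pool.Agent.Lib.MP_216314_pr.AS.FSh
import Pool.Agent.Lib.MP_216314_pr.AS.DQb

/-!
E2. The Fourier transform of `sw Q_β`, `0 < β < π/2`:
`∫ e^{ivy} sw Q_β dy = (2/3) e^{-2vβ/(3π)} [ e^{-2iβ/3}/cos(iv/3+π/6) + e^{2iβ/3}/cos(iv/3-π/6) ]`.

PROOF. `sw Q = 2 cosh(πy/2 - iβ)/cosh(3πy/2 - iβ) = (e^{πy/2 - iβ} + e^{-πy/2 + iβ})/cosh(3πy/2 - iβ)`. Substitute `y = (2/3) Y`
(`integral_comp_mul_left`): `∫ G(y) dy = (2/3) ∫ G((2/3)Y) dY`, `3πy/2 - iβ = π(Y + i d)`, `d = -β/π`, `|d| < 1/2`. With `z± = (2iv ± π)/3`,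
`|Re z±| = π/3 < π`: `e^{iv(2/3)Y} e^{±πY/3} = e^{z± Y} = e^{z±(Y+id)} e^{-i z± d}`, `-i z± d = iβ z±/π = -2vβ/(3π) ± iβ/3`. So `fsh` gives
`∫ = (2/3)[ e^{-iβ} e^{-2vβ/(3π) + iβ/3}/cos(z₊/2) + e^{iβ} e^{-2vβ/(3π) - iβ/3}/cos(z₋/2) ]`, `z±/2 = iv/3 ± π/6`, `e^{-iβ+iβ/3} = e^{-2iβ/3}`.
-/

open MeasureTheory Complex

namespace PAS

theorem EG0_sw_nonneg (y : ℝ) : 0 ≤ sw y := by
  unfold sw
  exact div_nonneg zero_le_one (Real.cosh_pos _).le

theorem EG0_sw_cont : Continuous sw := by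
  unfold sw
  exact continuous_const.div (Real.continuous_cosh.comp (continuous_const.mul continuous_id))
    (fun y => (Real.cosh_pos _).ne')

theorem EG0_sw_le (y : ℝ) : sw y ≤ 2 * Real.exp (-Real.pi * |y|) := by
  unfold sw
  rw [div_le_iff₀ (Real.cosh_pos _)]
  have h1 : Real.exp (Real.pi * |y|) / 2 ≤ Real.cosh (Real.pi * y) := by
    rw [← Real.cosh_abs, abs_mul, abs_of_pos Real.pi_pos, Real.cosh_eq]
    have := Real.exp_pos (-(Real.pi * |y|))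
    linarith
  have h2 : 2 * Real.exp (-Real.pi * |y|) * (Real.exp (Real.pi * |y|) / 2) = 1 := by
    rw [show 2 * Real.exp (-Real.pi * |y|) * (Real.exp (Real.pi * |y|) / 2)
      = Real.exp (-Real.pi * |y|) * Real.exp (Real.pi * |y|) by ring, ← Real.exp_add]
    rw [show -Real.pi * |y| + Real.pi * |y| = 0 by ring, Real.exp_zero]
  calc (1:ℝ) = 2 * Real.exp (-Real.pi * |y|) * (Real.exp (Real.pi * |y|) / 2) := h2.symm
    _ ≤ 2 * Real.exp (-Real.pi * |y|) * Real.cosh (Real.pi * y) :=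
      mul_le_mul_of_nonneg_left h1 (by positivity)

theorem edec_Q {β : ℝ} (h0 : 0 < β) (h : β < Real.pi / 2) : EDec (fun y => Qb β y * ((sw y : ℝ) : ℂ)) := by
  have hb : |β| < Real.pi / 2 := by rw [abs_of_pos h0]; exact h
  refine ⟨(Qb_cont hb).mul (Complex.continuous_ofReal.comp EG0_sw_cont),
    (1 + 1 / Real.cos β) * 2, Real.pi, Real.pi_pos, fun y => ?_⟩
  have hc : 0 < Real.cos β := Real.cos_pos_of_mem_Ioo ⟨by linarith, h⟩
  rw [norm_mul, Complex.norm_real, Real.norm_eq_abs, abs_of_nonneg (EG0_sw_nonneg y)]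
  calc ‖Qb β y‖ * sw y ≤ (1 + 1 / Real.cos β) * (2 * Real.exp (-Real.pi * |y|)) :=
        mul_le_mul (Qb_bdd hb y) (EG0_sw_le y) (EG0_sw_nonneg y) (by positivity)
    _ = (1 + 1 / Real.cos β) * 2 * Real.exp (-Real.pi * |y|) := by ring

/-- the integrand after the substitution -/
theorem EG0_pt {β : ℝ} (h0 : 0 < β) (h : β < Real.pi / 2) (v Y : ℝ) :
    (1 : Polynomial ℂ).eval (((2/3 * Y : ℝ)) : ℂ) * cexp (I * v * ((2/3 * Y : ℝ) : ℂ)) *
        (Qb β (2/3 * Y) * ((sw (2/3 * Y) : ℝ) : ℂ))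
      = cexp (-2 * v * β / (3 * Real.pi)) * cexp (-2 * I * β / 3) *
          (cexp (((2 * I * v + Real.pi) / 3) * (Y + ((-β / Real.pi : ℝ) : ℂ) * I)) /
            Complex.cosh (Real.pi * (Y + ((-β / Real.pi : ℝ) : ℂ) * I)))
        + cexp (-2 * v * β / (3 * Real.pi)) * cexp (2 * I * β / 3) *
          (cexp (((2 * I * v - Real.pi) / 3) * (Y + ((-β / Real.pi : ℝ) : ℂ) * I)) /
            Complex.cosh (Real.pi * (Y + ((-β / Real.pi : ℝ) : ℂ) * I))) := by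
  have hb : |β| < Real.pi / 2 := by rw [abs_of_pos h0]; exact h
  have hpi : (Real.pi : ℂ) ≠ 0 := by exact_mod_cast Real.pi_ne_zero
  have hden := Qden_ne hb (2/3 * Y)
  have e1 : Complex.cosh (Real.pi * (Y + ((-β / Real.pi : ℝ) : ℂ) * I))
      = Complex.cosh (3 * Real.pi * ((2/3 * Y : ℝ) : ℂ) / 2 - I * β) := by
    congr 1
    push_cast
    field_simp
    ring
  rw [e1]
  set D : ℂ := Complex.cosh (3 * Real.pi * ((2/3 * Y : ℝ) : ℂ) / 2 - I * β) with hD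
  have hc : (Complex.cosh (Real.pi * ((2/3 * Y : ℝ) : ℂ))) ≠ 0 := by
    have : Complex.cosh (Real.pi * ((2/3 * Y : ℝ) : ℂ)) = ((Real.cosh (Real.pi * (2/3 * Y)) : ℝ) : ℂ) := by
      push_cast; rfl
    rw [this]
    exact_mod_cast (Real.cosh_pos _).ne'
  have hsw : ((sw (2/3 * Y) : ℝ) : ℂ) = 1 / Complex.cosh (Real.pi * ((2/3 * Y : ℝ) : ℂ)) := by
    unfold sw; push_cast; rfl
  have hQ : Qb β (2/3 * Y) * ((sw (2/3 * Y) : ℝ) : ℂ)
      = 2 * Complex.cosh (Real.pi * ((2/3 * Y : ℝ) : ℂ) / 2 - I * β) / D := by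
    rw [hsw, Qb, ← hD]
    generalize Complex.cosh (Real.pi * ((2/3 * Y : ℝ) : ℂ)) = cc at hc ⊢
    generalize Complex.cosh (Real.pi * ((2/3 * Y : ℝ) : ℂ) / 2 - I * β) = dd
    rw [div_mul_div_comm, mul_one, mul_comm D cc, mul_assoc, mul_comm cc dd, ← mul_assoc,
      mul_comm cc D, mul_div_mul_right _ _ hc]
  have hcosh : 2 * Complex.cosh (Real.pi * ((2/3 * Y : ℝ) : ℂ) / 2 - I * β)
      = cexp (Real.pi * ((2/3 * Y : ℝ) : ℂ) / 2 - I * β)
        + cexp (-(Real.pi * ((2/3 * Y : ℝ) : ℂ) / 2 - I * β)) := by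
    rw [Complex.cosh]; ring
  have hp : cexp (I * v * ((2/3 * Y : ℝ) : ℂ)) * cexp (Real.pi * ((2/3 * Y : ℝ) : ℂ) / 2 - I * β)
      = cexp (-2 * v * β / (3 * Real.pi)) * cexp (-2 * I * β / 3) *
          cexp (((2 * I * v + Real.pi) / 3) * (Y + ((-β / Real.pi : ℝ) : ℂ) * I)) := by
    rw [← Complex.exp_add, ← Complex.exp_add, ← Complex.exp_add]
    congr 1
    push_cast
    have hI : I * I = -1 := Complex.I_mul_I
    field_simp
    ring_nf
    rw [Complex.I_sq]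
    ring
  have hm : cexp (I * v * ((2/3 * Y : ℝ) : ℂ)) * cexp (-(Real.pi * ((2/3 * Y : ℝ) : ℂ) / 2 - I * β))
      = cexp (-2 * v * β / (3 * Real.pi)) * cexp (2 * I * β / 3) *
          cexp (((2 * I * v - Real.pi) / 3) * (Y + ((-β / Real.pi : ℝ) : ℂ) * I)) := by
    rw [← Complex.exp_add, ← Complex.exp_add, ← Complex.exp_add]
    congr 1
    push_cast
    field_simp
    ring_nf
    rw [Complex.I_sq]
    ring
  rw [hQ, hcosh, Polynomial.eval_one, one_mul, ← mul_div_assoc, mul_add, hp, hm]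
  ring

theorem eg0 {β : ℝ} (h0 : 0 < β) (h : β < Real.pi / 2) (v : ℝ) :
    Mo (fun y => Qb β y * ((sw y : ℝ) : ℂ)) 1 v
      = 2/3 * cexp (-2 * v * β / (3 * Real.pi)) *
        (cexp (-2 * I * β / 3) / Complex.cos (I * v / 3 + Real.pi / 6)
          + cexp (2 * I * β / 3) / Complex.cos (I * v / 3 - Real.pi / 6)) := by
  have hd : |(-β / Real.pi : ℝ)| < 1/2 := by
    rw [abs_div, abs_neg, abs_of_pos h0, abs_of_pos Real.pi_pos, div_lt_iff₀ Real.pi_pos]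
    linarith
  have hzp : |((2 * I * v + Real.pi) / 3 : ℂ).re| < Real.pi := by
    have : ((2 * I * v + Real.pi) / 3 : ℂ).re = Real.pi / 3 := by
      rw [show ((2 * I * v + Real.pi) / 3 : ℂ) = ((Real.pi / 3 : ℝ) : ℂ) + ((2 * v / 3 : ℝ) : ℂ) * I by
        push_cast; ring]
      simp only [Complex.add_re, Complex.ofReal_re, Complex.mul_re, Complex.I_re, mul_zero,
        Complex.ofReal_im, zero_mul, sub_zero, add_zero]
    rw [this, abs_of_pos (by positivity)]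
    linarith [Real.pi_pos]
  have hzm : |((2 * I * v - Real.pi) / 3 : ℂ).re| < Real.pi := by
    have : ((2 * I * v - Real.pi) / 3 : ℂ).re = -(Real.pi / 3) := by
      rw [show ((2 * I * v - Real.pi) / 3 : ℂ) = ((-(Real.pi / 3) : ℝ) : ℂ) + ((2 * v / 3 : ℝ) : ℂ) * I by
        push_cast; ring]
      simp only [Complex.add_re, Complex.ofReal_re, Complex.mul_re, Complex.I_re, mul_zero,
        Complex.ofReal_im, zero_mul, sub_zero, add_zero]
    rw [this, abs_neg, abs_of_pos (by positivity)]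
    linarith [Real.pi_pos]
  have hfp := fsh hzp hd
  have hfm := fsh hzm hd
  have hip := fsh_int hzp hd
  have him := fsh_int hzm hd
  set g : ℝ → ℂ := fun y : ℝ => (1 : Polynomial ℂ).eval (y : ℂ) * cexp (I * v * y) *
    (Qb β y * ((sw y : ℝ) : ℂ)) with hg
  have hsub : ∫ y : ℝ, g y = (2/3 : ℝ) • ∫ Y : ℝ, g (2/3 * Y) := by
    rw [MeasureTheory.Measure.integral_comp_mul_left g (2/3 : ℝ), smul_smul]
    rw [show (2/3 : ℝ) * |(2/3 : ℝ)⁻¹| = 1 by
      rw [abs_of_pos (by norm_num)]; norm_num, one_smul]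
  have hpt : (fun Y : ℝ => g (2/3 * Y)) = fun Y : ℝ =>
      cexp (-2 * v * β / (3 * Real.pi)) * cexp (-2 * I * β / 3) *
          (cexp (((2 * I * v + Real.pi) / 3) * (Y + ((-β / Real.pi : ℝ) : ℂ) * I)) /
            Complex.cosh (Real.pi * (Y + ((-β / Real.pi : ℝ) : ℂ) * I)))
        + cexp (-2 * v * β / (3 * Real.pi)) * cexp (2 * I * β / 3) *
          (cexp (((2 * I * v - Real.pi) / 3) * (Y + ((-β / Real.pi : ℝ) : ℂ) * I)) /
            Complex.cosh (Real.pi * (Y + ((-β / Real.pi : ℝ) : ℂ) * I))) := by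
    funext Y
    exact EG0_pt h0 h v Y
  unfold Mo
  change ∫ y : ℝ, g y = _
  rw [hsub, hpt, MeasureTheory.integral_add (hip.const_mul _) (him.const_mul _),
    MeasureTheory.integral_const_mul, MeasureTheory.integral_const_mul, hfp, hfm]
  rw [show ((2 * I * v + Real.pi) / 3 : ℂ) / 2 = I * v / 3 + Real.pi / 6 by ring,
    show ((2 * I * v - Real.pi) / 3 : ℂ) / 2 = I * v / 3 - Real.pi / 6 by ring]
  rw [Complex.real_smul]
  push_cast
  ring

end PAS
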