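import Pool.Agent.Lib.MP_216314_pr.AS.ERec

/-!
E4. `∫ polE_i polE_j sw Q_β = (4/(3√3)) e^{-2iβ/3} (δ_ij + w binom(i+j,i))`, `w = e^{4iβ/3}`.

PROOF. General lemma `gram_rec` for a linear functional `L` on `ℂ[X]` with `L (p_k) = δ_{k0} + w` (up to a constant factor `κ`), `p = pol al be gaP` with
`al k = c/(k+1)`, `be k = (s + k + 1/2)/(k+1)`, `c ≠ 0`: `μ i j = L (p_i p_j) = κ (δ_ij + w binom(i+j,i))`.
`(k+1) p_{k+1} = (cX + s + k + 1/2) p_k - k p_{k-1}` for `k ≥ 0` (for `k = 0` no last term). Hence, computing `L((cX+s) p_i p_j)` in two ways: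
`(i+1) μ (i+1) j - (i+1/2) μ i j + i μ (i-1) j = (j+1) μ i (j+1) - (j+1/2) μ i j + j μ i (j-1)`, i.e.
`(j+1) μ i (j+1) = (i+1) μ (i+1) j + (j-i) μ i j + i μ (i-1) j - j μ i (j-1)`.
Induction on `j` (strong, all `i`): the right side of the claim satisfies the same recursion:
`δ`: `i = j+1`: `(j+1) = i δ_{i-1,j}` ✓.; `i = j-1`: `0 = (i+1) - j` ✓; `i = j`: `0 = 0` ✓.
binomials `b(i,j) = binom(i+j,i)`: `(j+1) b(i,j+1) = (i+j+1) b(i,j)`, `(i+1) b(i+1,j) = (i+j+1) b(i,j)`, and `(i+j) i b(i-1,j) = i² b(i,j)`,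
`(i+j) j b(i,j-1) = j² b(i,j)`, so `i b(i-1,j) - j b(i,j-1) = (i-j) b(i,j)` (if `i+j = 0` both sides are 0); sum: `(i+j+1) b = (i+j+1) b + (j-i) b + (i-j) b` ✓.
(`Nat.succ_mul_choose_eq`, `Nat.add_choose`; an easy way: use `Nat.add_choose_mul_factorial_mul_factorial : (i+j).choose i * i! * j! = (i+j)!` and cast to ℂ,
prove the three identities after multiplying by factorials.)
For `egram`: `L = MoL`, `c = -(3√3/2)`, `s = √3 iβ/π`, `κ = (4/(3√3)) e^{-2iβ/3}`, `erec`.
-/

open MeasureTheory Complex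

namespace PAS

theorem egram_bin (i j : ℕ) :
    ((j:ℂ)+1) * ((i+(j+1)).choose i : ℂ) = ((i:ℂ)+j+1) * ((i+j).choose i : ℂ) := by
  have h : (i+j+1).choose i * (j+1) = (i+j).choose i * (i+j+1) := by
    have h1 := Nat.add_one_mul_choose_eq (i+j) j
    have h2 : (i+j+1).choose (j+1) = (i+j+1).choose i := by
      rw [Nat.choose_symm_of_eq_add]; ring
    have h3 : (i+j).choose j = (i+j).choose i := by
      rw [Nat.choose_symm_of_eq_add]; ring
    rw [h2, h3] at h1
    rw [← h1]; ring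
  have h' : ((i+j+1).choose i : ℂ) * ((j:ℂ)+1) = ((i+j).choose i : ℂ) * ((i:ℂ)+j+1) := by exact_mod_cast h
  rw [show i + (j+1) = i+j+1 by ring]
  linear_combination h'

theorem egram_bin2 (i j : ℕ) :
    ((i:ℂ)+1) * ((i+1+j).choose (i+1) : ℂ) = ((i:ℂ)+j+1) * ((i+j).choose i : ℂ) := by
  have h1 := Nat.add_one_mul_choose_eq (i+j) i
  have h' : ((i:ℂ)+j+1) * ((i+j).choose i : ℂ) = ((i+j+1).choose (i+1) : ℂ) * ((i:ℂ)+1) := by exact_mod_cast h1
  rw [show i + 1 + j = i+j+1 by ring]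
  linear_combination -h'

theorem egram_rec3 (L : Polynomial ℂ →ₗ[ℂ] ℂ) (al be : ℕ → ℂ) (c s : ℂ)
    (hal : ∀ k, al k = c / ((k:ℂ)+1)) (hbe : ∀ k, be k = (s + k + 1/2) / ((k:ℂ)+1)) (k : ℕ) (q : Polynomial ℂ) :
    ((k:ℂ)+2) * L (pol al be gaP (k+2) * q) = c * L (Polynomial.X * (pol al be gaP (k+1) * q))
      + (s + (k:ℂ) + 3/2) * L (pol al be gaP (k+1) * q) - ((k:ℂ)+1) * L (pol al be gaP k * q) := by
  have hk : ((k:ℂ)+2) ≠ 0 := by exact_mod_cast (Nat.succ_ne_zero (k+1))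
  have e : pol al be gaP (k+2) * q = al (k+1) • (Polynomial.X * (pol al be gaP (k+1) * q))
      + be (k+1) • (pol al be gaP (k+1) * q) - gaP (k+1) • (pol al be gaP k * q) := by
    rw [pol]
    simp only [Polynomial.smul_eq_C_mul]
    ring
  rw [e, map_sub, map_add, map_smul, map_smul, map_smul, hal, hbe, gaP]
  simp only [smul_eq_mul]
  push_cast
  have e1 : ((k:ℂ)+1+1) = (k:ℂ)+2 := by ring
  rw [e1]
  field_simp
  ring

theorem egram_rec1 (L : Polynomial ℂ →ₗ[ℂ] ℂ) (al be : ℕ → ℂ) (c s : ℂ)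
    (hal : ∀ k, al k = c / ((k:ℂ)+1)) (hbe : ∀ k, be k = (s + k + 1/2) / ((k:ℂ)+1)) (q : Polynomial ℂ) :
    L (pol al be gaP 1 * q) = c * L (Polynomial.X * (pol al be gaP 0 * q))
      + (s + 1/2) * L (pol al be gaP 0 * q) := by
  have e : pol al be gaP 1 * q = al 0 • (Polynomial.X * (pol al be gaP 0 * q))
      + be 0 • (pol al be gaP 0 * q) := by
    rw [pol, pol]
    simp only [Polynomial.smul_eq_C_mul]
    ring
  rw [e, map_add, map_smul, map_smul, hal, hbe]
  simp only [smul_eq_mul]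
  push_cast
  ring
theorem egram_R (L : Polynomial ℂ →ₗ[ℂ] ℂ) (al be : ℕ → ℂ) (c s : ℂ)
    (hal : ∀ k, al k = c / ((k:ℂ)+1)) (hbe : ∀ k, be k = (s + k + 1/2) / ((k:ℂ)+1)) (k : ℕ) (q : Polynomial ℂ) :
    ((k:ℂ)+1) * L (pol al be gaP (k+1) * q) = c * L (Polynomial.X * (pol al be gaP k * q))
      + (s + (k:ℂ) + 1/2) * L (pol al be gaP k * q) - (k:ℂ) * L (pol al be gaP (k-1) * q) := by
  rcases k with _ | k
  · have h := egram_rec1 L al be c s hal hbe q
    simp only [Nat.cast_zero, zero_add, one_mul, zero_mul, sub_zero, add_zero]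
    exact h
  · have h := egram_rec3 L al be c s hal hbe k q
    simp only [Nat.add_sub_cancel]
    push_cast
    linear_combination h

theorem egram_B3 (i j : ℕ) :
    (i:ℂ) * ((i-1+j).choose (i-1) : ℂ) - (j:ℂ) * ((i+(j-1)).choose i : ℂ) = ((i:ℂ)-j) * ((i+j).choose i : ℂ) := by
  rcases i with _ | i
  · rcases j with _ | j
    · simp
    · simp
  · rcases j with _ | j
    · simp
    · have h1 := egram_bin2 i (j+1)
      have h2 := egram_bin (i+1) j
      simp only [Nat.add_sub_cancel]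
      push_cast at h1 h2 ⊢
      have hne : ((i:ℂ)+j+2) ≠ 0 := by exact_mod_cast (Nat.succ_ne_zero (i+j+1))
      have key : ((i:ℂ)+j+2) * (((i:ℂ)+1) * ((i+(j+1)).choose i : ℂ) - ((j:ℂ)+1) * ((i+1+j).choose (i+1) : ℂ))
          = ((i:ℂ)+j+2) * (((i:ℂ)+1-((j:ℂ)+1)) * ((i+1+(j+1)).choose (i+1) : ℂ)) := by
        linear_combination (-((i:ℂ)+1)) * h1 + ((j:ℂ)+1) * h2
      exact mul_left_cancel₀ hne key

theorem egram_delta (i j : ℕ) :
    ((j:ℂ)+1) * (if i = j+1 then 1 else 0) = ((i:ℂ)+1) * (if i+1 = j then 1 else 0)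
      + ((j:ℂ)-i) * (if i = j then 1 else 0) + (i:ℂ) * (if i-1 = j then 1 else 0)
      - (j:ℂ) * (if i = j-1 then 1 else 0) := by
  rcases i with _ | i
  · rcases j with _ | j
    · simp
    · rcases j with _ | j
      · simp
      · simp
  · rcases j with _ | j
    · rcases i with _ | i
      · simp
      · simp
    · simp only [Nat.add_sub_cancel]
      by_cases h1 : i = j + 1
      · have a2 : ¬ (i + 1 + 1 = j + 1) := by omega
        have a3 : ¬ (i + 1 = j + 1) := by omega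
        have a4 : ¬ (i + 1 = j) := by omega
        have a1 : i + 1 = j + 1 + 1 := by omega
        rw [if_pos a1, if_neg a2, if_neg a3, if_pos h1, if_neg a4, h1]; push_cast; ring
      · by_cases h2 : i = j
        · subst h2; simp
        · by_cases h3 : i + 1 = j
          · have a1 : ¬ (i + 1 = j + 1 + 1) := by omega
            have a2 : i + 1 + 1 = j + 1 := by omega
            have a3 : ¬ (i + 1 = j + 1) := by omega
            rw [if_neg a1, if_pos a2, if_neg a3, if_neg h1, if_pos h3, ← h3]; push_cast; ring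
          · have a1 : ¬ (i + 1 = j + 1 + 1) := by omega
            have a2 : ¬ (i + 1 + 1 = j + 1) := by omega
            have a3 : ¬ (i + 1 = j + 1) := by omega
            rw [if_neg a1, if_neg a2, if_neg a3, if_neg h1, if_neg h3]; simp

theorem gram_rec (L : Polynomial ℂ →ₗ[ℂ] ℂ) (al be : ℕ → ℂ) (c s κ w : ℂ) (hc : c ≠ 0)
    (hal : ∀ k, al k = c / ((k:ℂ)+1)) (hbe : ∀ k, be k = (s + k + 1/2) / ((k:ℂ)+1))
    (hL : ∀ k, L (pol al be gaP k) = κ * ((if k = 0 then 1 else 0) + w)) (i j : ℕ) :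
    L (pol al be gaP i * pol al be gaP j) = κ * ((if i = j then 1 else 0) + w * ((i+j).choose i : ℂ)) := by
  induction j using Nat.strong_induction_on generalizing i with
  | _ j ih =>
    rcases j with _ | j
    · have e : pol al be gaP 0 = 1 := rfl
      rw [e, mul_one, hL]
      simp
    · have hj : ((j:ℂ)+1) ≠ 0 := by exact_mod_cast (Nat.succ_ne_zero j)
      have R1 := egram_R L al be c s hal hbe j (pol al be gaP i)
      have R2 := egram_R L al be c s hal hbe i (pol al be gaP j)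
      have e1 : pol al be gaP (j+1) * pol al be gaP i = pol al be gaP i * pol al be gaP (j+1) := mul_comm _ _
      have e2 : pol al be gaP j * pol al be gaP i = pol al be gaP i * pol al be gaP j := mul_comm _ _
      have e3 : pol al be gaP (j-1) * pol al be gaP i = pol al be gaP i * pol al be gaP (j-1) := mul_comm _ _
      rw [e1, e2, e3] at R1
      have i1 := ih j (Nat.lt_succ_self j) i
      have i2 := ih j (Nat.lt_succ_self j) (i+1)
      have i3 := ih j (Nat.lt_succ_self j) (i-1)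
      have i4 := ih (j-1) (by omega) i
      rw [i1, i4] at R1
      rw [i1, i2, i3] at R2
      have d := egram_delta i j
      have b1 := egram_bin i j
      have b2 := egram_bin2 i j
      have b3 := egram_B3 i j
      apply mul_left_cancel₀ hj
      linear_combination R1 - R2 - κ * d - κ * w * b1 + κ * w * b2 + κ * w * b3

theorem egram {β : ℝ} (h0 : 0 < β) (h : β < Real.pi / 2) (i j : ℕ) :
    Mo (fun y => Qb β y * ((sw y : ℝ) : ℂ)) (polE β i * polE β j) 0
      = 4 / (3 * (Real.sqrt 3 : ℂ)) * cexp (-2 * I * β / 3)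
        * ((if i = j then 1 else 0) + cexp (4 * I * β / 3) * ((i+j).choose i : ℂ)) := by
  have hr : (Real.sqrt 3 : ℂ) ≠ 0 := by
    have : Real.sqrt 3 ≠ 0 := (Real.sqrt_pos.mpr (by norm_num)).ne'
    exact_mod_cast this
  have hc : -(3 * (Real.sqrt 3 : ℂ) / 2) ≠ 0 := by
    apply neg_ne_zero.mpr
    exact div_ne_zero (mul_ne_zero three_ne_zero hr) two_ne_zero
  exact gram_rec (MoL _ (edec_Q h0 h)) alE (beE β) (-(3 * (Real.sqrt 3 : ℂ) / 2)) ((Real.sqrt 3 : ℂ) * I * β / Real.pi)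
    (4 / (3 * (Real.sqrt 3 : ℂ)) * cexp (-2 * I * β / 3)) (cexp (4 * I * β / 3)) hc (fun k => rfl) (fun k => rfl)
    (fun k => erec h0 h k) i j
end PAS
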