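import Pool.Agent.Lib.MP_216314_pr.AS.FMo

/-!
F5. Recursion principle. If `F_0(v) = ∫ e^{ivy} W` and the `F_k` satisfy the differential form of the three term
recursion then `Mo W (pol al be ga k) v = F_k(v)` for all `k`, `v`.

PROOF. Prove `∀ k, (∀ v, Mo W (pol k) v = F k v) ∧ (∀ v, Mo W (pol (k+1)) v = F (k+1) v)` by induction on `k`.
`Mo W (X * pol k) v`: `mo_deriv` gives `HasDerivAt (Mo W (pol k)) (I * Mo W (X * pol k) v) v`, and `Mo W (pol k) = F k` as functions
(funext), so by `HasDerivAt.unique` `I * Mo W (X * pol k) v = F' k v`, i.e. `Mo W (X * pol k) v = -I * F' k v`.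
Now `pol 1 = C (al 0) * X + C (be 0)`: write `C (al 0) * X = C (al 0) * (X * pol 0)`, `C (be 0) = C (be 0) * pol 0`
(`pol 0 = 1`), use `mo_add`, `mo_C_mul`. `pol (k+2) = (C a * X + C b) * pol (k+1) - C g * pol k
= C a * (X * pol (k+1)) + C b * pol (k+1) - C g * pol k` (`ring`), use `mo_sub`, `mo_add`, `mo_C_mul`.
-/

open MeasureTheory Complex

namespace PAS

theorem frec {W : ℝ → ℂ} (hW : EDec W) (al be ga : ℕ → ℂ) (F F' : ℕ → ℝ → ℂ)
    (h0 : ∀ v, Mo W 1 v = F 0 v) (hd : ∀ k v, HasDerivAt (F k) (F' k v) v)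
    (h1 : ∀ v, F 1 v = -I * al 0 * F' 0 v + be 0 * F 0 v)
    (hs : ∀ k v, F (k+2) v = -I * al (k+1) * F' (k+1) v + be (k+1) * F (k+1) v - ga (k+1) * F k v) :
    ∀ k v, Mo W (pol al be ga k) v = F k v := by
  have hX : ∀ k, (∀ v, Mo W (pol al be ga k) v = F k v) →
      ∀ v, Mo W (Polynomial.X * pol al be ga k) v = -I * F' k v := by
    intro k hk v
    have h1 := mo_deriv hW (pol al be ga k) v
    have h2 : (fun v : ℝ => Mo W (pol al be ga k) v) = F k := funext hk
    rw [h2] at h1
    have h3 : I * Mo W (Polynomial.X * pol al be ga k) v = F' k v := h1.unique (hd k v)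
    rw [← h3, ← mul_assoc, neg_mul, Complex.I_mul_I, neg_neg, one_mul]
  have main : ∀ k, (∀ v, Mo W (pol al be ga k) v = F k v) ∧ (∀ v, Mo W (pol al be ga (k+1)) v = F (k+1) v) := by
    intro k
    induction k with
    | zero =>
      have h00 : ∀ v, Mo W (pol al be ga 0) v = F 0 v := h0
      refine ⟨h00, fun v => ?_⟩
      have e : pol al be ga (0+1) = Polynomial.C (al 0) * (Polynomial.X * pol al be ga 0) +
          Polynomial.C (be 0) * pol al be ga 0 := by
        show Polynomial.C (al 0) * Polynomial.X + Polynomial.C (be 0) =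
          Polynomial.C (al 0) * (Polynomial.X * 1) + Polynomial.C (be 0) * 1
        ring
      rw [e, mo_add hW, mo_C_mul, mo_C_mul, hX 0 h00, h00]
      have h := h1 v
      show _ = F 1 v
      rw [h]; ring
    | succ k ih =>
      refine ⟨ih.2, fun v => ?_⟩
      have e : pol al be ga (k+1+1) = Polynomial.C (al (k+1)) * (Polynomial.X * pol al be ga (k+1)) +
          Polynomial.C (be (k+1)) * pol al be ga (k+1) - Polynomial.C (ga (k+1)) * pol al be ga k := by
        show (Polynomial.C (al (k+1)) * Polynomial.X + Polynomial.C (be (k+1))) * pol al be ga (k+1)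
          - Polynomial.C (ga (k+1)) * pol al be ga k = _
        ring
      rw [e, mo_sub hW, mo_add hW, mo_C_mul, mo_C_mul, mo_C_mul, hX (k+1) ih.2, ih.2, ih.1]
      have h := hs k v
      show _ = F (k+2) v
      rw [h]; ring
  exact fun k => (main k).1

end PAS
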