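import Pool.Agent.Lib.MP_216314_pr.AS.EG0
import Pool.Agent.Lib.MP_216314_pr.AS.FRec

/-!
E3. The moments of the polynomials `polE β k`: `∫ polE_k sw Q_β = (4/(3√3)) e^{-2iβ/3} (δ_{k0} + e^{4iβ/3})`.

PROOF. `frec` with `F k v = (2/3) e^{-2vβ/(3π)} [ e^{-2iβ/3} (-sin θ)^k/C^(k+1) + e^{2iβ/3} C^k/D^(k+1) ]`, `θ = iv/3`, `C = cos(θ+π/6)`, `D = cos(θ-π/6)`
(for real `v` both are nonzero: zeros of `cos` are real: `cos(iv/3 ± π/6) = cosh(v/3) cos(π/6) ∓ i sinh(v/3) sin(π/6)` has real part `> 0`).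
`h0` is `eg0`. Derivatives with respect to `v`: `dθ/dv = i/3`. Write `F k = (2/3) e(v) [A U_k(θ) + B V_k(θ)]`, `e(v) = e^{-2vβ/(3π)}`, `U_k = (-sin θ)^k/C^(k+1)`, `V_k = C^k/D^(k+1)`.
Recursion to check (`al k = -(3√3/2)/(k+1)`, `be k = (√3 iβ/π + k + 1/2)/(k+1)`, `ga k = k/(k+1)`), multiply by `k+1`:
`(k+1) F_{k+1} = i (3√3/2) F_k' + (√3 iβ/π + k + 1/2) F_k - k F_{k-1}`; since `e'/e = -2β/(3π)`, `i(3√3/2)(-2β/(3π)) = -i√3β/π` cancels, and
`i(3√3/2)(i/3) = -√3/2`: it remains `(k+1) U_{k+1} = -(√3/2) U_k' + (k+1/2) U_k - k U_{k-1}` (`'` = d/dθ) and the same for `V`. These are trigonometric identities: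
with `s = -sin θ`, `κ = cos θ`, `C = (√3/2)κ + s/2`, `sin(θ+π/6) = -(√3/2)s + κ/2`,
`U_k' = -k κ s^(k-1)/C^(k+1) + (k+1) s^k sin(θ+π/6)/C^(k+2)`; multiply by `C^(k+2)/s^(k-1)`:
`(k+1)s² = -(√3/2)(-kκC + (k+1)s(-(√3/2)s+κ/2)) + (k+1/2)sC - kC²` (true, uses `s²+κ² = 1` nowhere? expand: coefficient of `k`: `s²`, constant: `s²`).
For `V`: with `σ = sin θ`, `C = (√3/2)κ - σ/2`, `D = (√3/2)κ + σ/2`, `S₊ = sin(θ+π/6) = (√3/2)σ + κ/2`, `S₋ = sin(θ-π/6) = (√3/2)σ - κ/2`,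
`V_k' = -k C^(k-1) S₊/D^(k+1) + (k+1) C^k S₋/D^(k+2)`, and `(k+1)C² = -(√3/2)(-kS₊D + (k+1) C S₋) + (k+1/2)CD - kD²` (uses `σ²+κ²=1`).
`k = 0` separately (`h1`). At `v = 0`: `θ = 0`, `C = D = √3/2`, `-sin 0 = 0`, so `F k 0 = (2/3)(2/√3)(e^{-2iβ/3} δ_{k0} + e^{2iβ/3})`.
-/

open MeasureTheory Complex

namespace PAS

theorem erec_algU (k : ℕ) (a b r C : ℂ) (hr : r^2 = 3) (hC : C ≠ 0) (hd : C = r/2*a - b/2) :
    ((k:ℂ)+2) * ((-b)^(k+2)/C^(k+3))
      = -(r/2) * ((((k:ℂ)+1) * (-b)^k * (-a)) / C^(k+2) + ((k:ℂ)+2) * (-b)^(k+1) * (r/2*b + a/2) / C^(k+3))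
        + ((k:ℂ)+1+1/2) * ((-b)^(k+1)/C^(k+2)) - ((k:ℂ)+1) * ((-b)^k/C^(k+1)) := by
  have key : ((k:ℂ)+2) * b^2 = -(r/2) * ((((k:ℂ)+1) * (-a)) * C + ((k:ℂ)+2) * (-b) * (r/2*b + a/2))
        + ((k:ℂ)+1+1/2) * ((-b) * C) - ((k:ℂ)+1) * C^2 := by
    rw [hd]
    linear_combination (-((k:ℂ)+2) * b^2 / 4) * hr
  have h3 : C^(k+3) ≠ 0 := pow_ne_zero _ hC
  have e2 : C^(k+3) = C^(k+2) * C := by ring
  have e1 : C^(k+3) = C^(k+1) * C^2 := by ring
  have h2 : C^(k+2) ≠ 0 := pow_ne_zero _ hC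
  have h1 : C^(k+1) ≠ 0 := pow_ne_zero _ hC
  have r2 : ∀ x : ℂ, x / C^(k+2) = x * C / C^(k+3) := by
    intro x; rw [e2]; field_simp
  have r1 : ∀ x : ℂ, x / C^(k+1) = x * C^2 / C^(k+3) := by
    intro x; rw [e1]; field_simp
  rw [r2, r2, r1]
  have : ∀ x y : ℂ, x = y → x / C^(k+3) = y / C^(k+3) := by intro x y h; rw [h]
  have h4 := this _ _ (congrArg (fun z => (-b)^k * z) key)
  calc ((k:ℂ)+2) * ((-b)^(k+2)/C^(k+3)) = ((-b)^k * (((k:ℂ)+2) * b^2)) / C^(k+3) := by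
        rw [pow_add (-b) k 2]; ring
    _ = _ := h4
    _ = _ := by rw [pow_succ (-b) k]; ring

theorem erec_algV (k : ℕ) (a b r C D : ℂ) (hr : r^2 = 3) (hD : D ≠ 0)
    (hc : C = r/2*a - b/2) (hd : D = r/2*a + b/2) :
    ((k:ℂ)+2) * (C^(k+2)/D^(k+3))
      = -(r/2) * ((((k:ℂ)+1) * C^k * (-(r/2*b + a/2))) / D^(k+2) + ((k:ℂ)+2) * C^(k+1) * (r/2*b - a/2) / D^(k+3))
        + ((k:ℂ)+1+1/2) * (C^(k+1)/D^(k+2)) - ((k:ℂ)+1) * (C^k/D^(k+1)) := by
  have key : ((k:ℂ)+2) * C^2 = -(r/2) * ((((k:ℂ)+1) * (-(r/2*b + a/2))) * D + ((k:ℂ)+2) * C * (r/2*b - a/2))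
        + ((k:ℂ)+1+1/2) * (C * D) - ((k:ℂ)+1) * D^2 := by
    rw [hc, hd]
    linear_combination (-(k:ℂ) * b^2 / 4 + r * a * b / 8 - 3 * b^2 / 8) * hr
  have h3 : D^(k+3) ≠ 0 := pow_ne_zero _ hD
  have e2 : D^(k+3) = D^(k+2) * D := by ring
  have e1 : D^(k+3) = D^(k+1) * D^2 := by ring
  have h2 : D^(k+2) ≠ 0 := pow_ne_zero _ hD
  have h1 : D^(k+1) ≠ 0 := pow_ne_zero _ hD
  have r2 : ∀ x : ℂ, x / D^(k+2) = x * D / D^(k+3) := by
    intro x; rw [e2]; field_simp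
  have r1 : ∀ x : ℂ, x / D^(k+1) = x * D^2 / D^(k+3) := by
    intro x; rw [e1]; field_simp
  rw [r2, r2, r1]
  have : ∀ x y : ℂ, x = y → x / D^(k+3) = y / D^(k+3) := by intro x y h; rw [h]
  have h4 := this _ _ (congrArg (fun z => C^k * z) key)
  calc ((k:ℂ)+2) * (C^(k+2)/D^(k+3)) = (C^k * (((k:ℂ)+2) * C^2)) / D^(k+3) := by
        rw [pow_add C k 2]; ring
    _ = _ := h4
    _ = _ := by rw [pow_succ C k]; ring

noncomputable def erecU (k : ℕ) (z : ℂ) : ℂ := (-Complex.sin z)^k / (Complex.cos (z + Real.pi/6))^(k+1)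
noncomputable def erecV (k : ℕ) (z : ℂ) : ℂ := (Complex.cos (z + Real.pi/6))^k / (Complex.cos (z - Real.pi/6))^(k+1)

noncomputable def erecU' : ℕ → ℂ → ℂ
  | 0, z => Complex.sin (z + Real.pi/6) / (Complex.cos (z + Real.pi/6))^2
  | (k+1), z => (((k:ℂ)+1) * (-Complex.sin z)^k * (-Complex.cos z)) / (Complex.cos (z + Real.pi/6))^(k+2)
      + ((k:ℂ)+2) * (-Complex.sin z)^(k+1) * Complex.sin (z + Real.pi/6) / (Complex.cos (z + Real.pi/6))^(k+3)

noncomputable def erecV' : ℕ → ℂ → ℂ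
  | 0, z => Complex.sin (z - Real.pi/6) / (Complex.cos (z - Real.pi/6))^2
  | (k+1), z => (((k:ℂ)+1) * (Complex.cos (z + Real.pi/6))^k * (-Complex.sin (z + Real.pi/6))) / (Complex.cos (z - Real.pi/6))^(k+2)
      + ((k:ℂ)+2) * (Complex.cos (z + Real.pi/6))^(k+1) * Complex.sin (z - Real.pi/6) / (Complex.cos (z - Real.pi/6))^(k+3)

theorem erec_dcp (z c : ℂ) : HasDerivAt (fun z : ℂ => Complex.cos (z + c)) (-Complex.sin (z + c)) z := by
  have h := ((hasDerivAt_id z).add_const c).ccos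
  simpa using h

theorem erec_dcm (z c : ℂ) : HasDerivAt (fun z : ℂ => Complex.cos (z - c)) (-Complex.sin (z - c)) z := by
  have h := ((hasDerivAt_id z).sub_const c).ccos
  simpa using h

theorem erec_dU (k : ℕ) (z : ℂ) (hC : Complex.cos (z + Real.pi/6) ≠ 0) :
    HasDerivAt (erecU k) (erecU' k z) z := by
  have hc := erec_dcp z (Real.pi/6)
  have hs : HasDerivAt (fun z : ℂ => -Complex.sin z) (-Complex.cos z) z := (Complex.hasDerivAt_sin z).neg
  have h := (hs.pow k).div (hc.pow (k+1)) (pow_ne_zero _ hC)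
  have hfun : erecU k = (fun z : ℂ => -Complex.sin z)^k / (fun z : ℂ => Complex.cos (z + Real.pi/6))^(k+1) := by
    funext y
    simp only [erecU, Pi.div_apply, Pi.pow_apply]
  rw [hfun]
  refine h.congr_deriv ?_
  cases k with
  | zero =>
    simp only [erecU', Nat.cast_zero, zero_add, pow_one, pow_zero, zero_mul, Nat.cast_one]
    simp
  | succ k =>
    clear h
    simp only [erecU', Nat.add_sub_cancel, Nat.cast_add, Nat.cast_one, Pi.pow_apply]
    have h1 : (Complex.cos (z + Real.pi/6))^(k+1+1) ≠ 0 := pow_ne_zero _ hC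
    have h2 : (Complex.cos (z + Real.pi/6))^(k+2) ≠ 0 := pow_ne_zero _ hC
    have h3 : (Complex.cos (z + Real.pi/6))^(k+3) ≠ 0 := pow_ne_zero _ hC
    generalize Complex.cos (z + Real.pi/6) = C at *
    generalize Complex.sin (z + Real.pi/6) = S at *
    field_simp
    ring

theorem erec_dV (k : ℕ) (z : ℂ) (hD : Complex.cos (z - Real.pi/6) ≠ 0) :
    HasDerivAt (erecV k) (erecV' k z) z := by
  have hc := erec_dcp z (Real.pi/6)
  have hd := erec_dcm z (Real.pi/6)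
  have h := (hc.pow k).div (hd.pow (k+1)) (pow_ne_zero _ hD)
  have hfun : erecV k = (fun z : ℂ => Complex.cos (z + Real.pi/6))^k / (fun z : ℂ => Complex.cos (z - Real.pi/6))^(k+1) := by
    funext y
    simp only [erecV, Pi.div_apply, Pi.pow_apply]
  rw [hfun]
  refine h.congr_deriv ?_
  cases k with
  | zero =>
    simp only [erecV', Nat.cast_zero, zero_add, pow_one, pow_zero, zero_mul, Nat.cast_one]
    simp
  | succ k =>
    clear h
    simp only [erecV', Nat.add_sub_cancel, Nat.cast_add, Nat.cast_one, Pi.pow_apply]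
    have h1 : (Complex.cos (z - Real.pi/6))^(k+1+1) ≠ 0 := pow_ne_zero _ hD
    have h2 : (Complex.cos (z - Real.pi/6))^(k+2) ≠ 0 := pow_ne_zero _ hD
    have h3 : (Complex.cos (z - Real.pi/6))^(k+3) ≠ 0 := pow_ne_zero _ hD
    generalize Complex.cos (z - Real.pi/6) = D at *
    generalize Complex.sin (z - Real.pi/6) = S at *
    field_simp
    ring

theorem erec_pi6c : Complex.cos ((Real.pi:ℂ)/6) = (Real.sqrt 3 : ℂ)/2 := by
  have h : ((Real.pi:ℂ)/6) = ((Real.pi/6 : ℝ) : ℂ) := by push_cast; ring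
  rw [h, ← Complex.ofReal_cos, Real.cos_pi_div_six]; push_cast; ring

theorem erec_pi6s : Complex.sin ((Real.pi:ℂ)/6) = 1/2 := by
  have h : ((Real.pi:ℂ)/6) = ((Real.pi/6 : ℝ) : ℂ) := by push_cast; ring
  rw [h, ← Complex.ofReal_sin, Real.sin_pi_div_six]; push_cast; ring

theorem erec_r3 : (Real.sqrt 3 : ℂ)^2 = 3 := by
  rw [← Complex.ofReal_pow, Real.sq_sqrt (by norm_num)]; norm_num

theorem erec_cp (z : ℂ) : Complex.cos (z + Real.pi/6) = (Real.sqrt 3 : ℂ)/2 * Complex.cos z - Complex.sin z / 2 := by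
  rw [Complex.cos_add, erec_pi6c, erec_pi6s]; ring
theorem erec_sp (z : ℂ) : Complex.sin (z + Real.pi/6) = (Real.sqrt 3 : ℂ)/2 * Complex.sin z + Complex.cos z / 2 := by
  rw [Complex.sin_add, erec_pi6c, erec_pi6s]; ring
theorem erec_cm (z : ℂ) : Complex.cos (z - Real.pi/6) = (Real.sqrt 3 : ℂ)/2 * Complex.cos z + Complex.sin z / 2 := by
  rw [Complex.cos_sub, erec_pi6c, erec_pi6s]; ring
theorem erec_sm (z : ℂ) : Complex.sin (z - Real.pi/6) = (Real.sqrt 3 : ℂ)/2 * Complex.sin z - Complex.cos z / 2 := by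
  rw [Complex.sin_sub, erec_pi6c, erec_pi6s]; ring

theorem erec_Us (k : ℕ) (z : ℂ) (hC : Complex.cos (z + Real.pi/6) ≠ 0) :
    ((k:ℂ)+2) * erecU (k+2) z = -((Real.sqrt 3 : ℂ)/2) * erecU' (k+1) z + ((k:ℂ)+1+1/2) * erecU (k+1) z
      - ((k:ℂ)+1) * erecU k z := by
  have h := erec_algU k (Complex.cos z) (Complex.sin z) (Real.sqrt 3 : ℂ) _ erec_r3 hC (erec_cp z)
  simp only [erecU, erecU']
  rw [erec_sp]
  exact h

theorem erec_Vs (k : ℕ) (z : ℂ) (hD : Complex.cos (z - Real.pi/6) ≠ 0) :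
    ((k:ℂ)+2) * erecV (k+2) z = -((Real.sqrt 3 : ℂ)/2) * erecV' (k+1) z + ((k:ℂ)+1+1/2) * erecV (k+1) z
      - ((k:ℂ)+1) * erecV k z := by
  have h := erec_algV k (Complex.cos z) (Complex.sin z) (Real.sqrt 3 : ℂ) _ _ erec_r3 hD (erec_cp z) (erec_cm z)
  simp only [erecV, erecV']
  rw [erec_sp, erec_sm]
  exact h

theorem erec_U1 (z : ℂ) (hC : Complex.cos (z + Real.pi/6) ≠ 0) :
    erecU 1 z = -((Real.sqrt 3 : ℂ)/2) * erecU' 0 z + 1/2 * erecU 0 z := by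
  have hd := erec_cp z
  simp only [erecU, erecU', erec_sp, pow_one, pow_zero, zero_add]
  generalize Complex.cos (z + Real.pi/6) = C at *
  have hr := erec_r3
  generalize (Real.sqrt 3 : ℂ) = r at *
  generalize Complex.sin z = b at *
  generalize Complex.cos z = a at *
  field_simp
  rw [hd]
  linear_combination (b * r^2 * a^2 / 4 - b^2 * r * a / 2 + b^3 / 4) * hr

theorem erec_V1 (z : ℂ) (hD : Complex.cos (z - Real.pi/6) ≠ 0) :
    erecV 1 z = -((Real.sqrt 3 : ℂ)/2) * erecV' 0 z + 1/2 * erecV 0 z := by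
  have hc := erec_cp z
  have hd := erec_cm z
  simp only [erecV, erecV', erec_sm, pow_one, pow_zero, zero_add]
  generalize Complex.cos (z + Real.pi/6) = C at *
  generalize Complex.cos (z - Real.pi/6) = D at *
  have hr := erec_r3
  generalize (Real.sqrt 3 : ℂ) = r at *
  generalize Complex.sin z = b at *
  generalize Complex.cos z = a at *
  field_simp
  rw [hc, hd]
  linear_combination (b * r^2 * a^2 / 4 + b^2 * r * a / 2 + b^3 / 4) * hr

noncomputable def erecE (β : ℝ) (v : ℝ) : ℂ := cexp (-2 * v * β / (3 * Real.pi))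

noncomputable def erecF (β : ℝ) (k : ℕ) (v : ℝ) : ℂ :=
  2/3 * erecE β v * (cexp (-2 * I * β / 3) * erecU k (I * v / 3) + cexp (2 * I * β / 3) * erecV k (I * v / 3))

noncomputable def erecF' (β : ℝ) (k : ℕ) (v : ℝ) : ℂ :=
  2/3 * erecE β v * (-2 * β / (3 * Real.pi) * (cexp (-2 * I * β / 3) * erecU k (I * v / 3) + cexp (2 * I * β / 3) * erecV k (I * v / 3))
    + I / 3 * (cexp (-2 * I * β / 3) * erecU' k (I * v / 3) + cexp (2 * I * β / 3) * erecV' k (I * v / 3)))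

theorem erec_Cne (v : ℝ) : Complex.cos (I * v / 3 + Real.pi/6) ≠ 0 := by
  intro h
  rw [Complex.cos_eq_zero_iff] at h
  obtain ⟨k, hk⟩ := h
  have h1 := congrArg Complex.re hk
  have h2 := congrArg Complex.im hk
  have e1 : (I * (v:ℂ) / 3 + (Real.pi:ℂ)/6).re = Real.pi/6 := by simp
  have e3 : ((2 * (k:ℂ) + 1) * (Real.pi:ℂ) / 2).re = (2 * (k:ℝ) + 1) * Real.pi / 2 := by
    have : ((2 * (k:ℂ) + 1) * (Real.pi:ℂ) / 2) = (((2 * (k:ℝ) + 1) * Real.pi / 2 : ℝ) : ℂ) := by push_cast; ring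
    rw [this, Complex.ofReal_re]
  rw [e1, e3] at h1
  have hp := Real.pi_pos
  have h4 : (3:ℝ) * (2 * (k:ℝ) + 1) = 1 := by
    have : Real.pi * (3 * (2 * (k:ℝ) + 1) - 1) = 0 := by linarith
    rcases mul_eq_zero.mp this with h | h
    · exact absurd h hp.ne'
    · linarith
  have h5 : (3:ℤ) * (2 * k + 1) = 1 := by exact_mod_cast h4
  omega

theorem erec_Dne (v : ℝ) : Complex.cos (I * v / 3 - Real.pi/6) ≠ 0 := by
  intro h
  rw [Complex.cos_eq_zero_iff] at h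
  obtain ⟨k, hk⟩ := h
  have h1 := congrArg Complex.re hk
  have e1 : (I * (v:ℂ) / 3 - (Real.pi:ℂ)/6).re = -(Real.pi/6) := by simp
  have e3 : ((2 * (k:ℂ) + 1) * (Real.pi:ℂ) / 2).re = (2 * (k:ℝ) + 1) * Real.pi / 2 := by
    have : ((2 * (k:ℂ) + 1) * (Real.pi:ℂ) / 2) = (((2 * (k:ℝ) + 1) * Real.pi / 2 : ℝ) : ℂ) := by push_cast; ring
    rw [this, Complex.ofReal_re]
  rw [e1, e3] at h1
  have hp := Real.pi_pos
  have h4 : (3:ℝ) * (2 * (k:ℝ) + 1) = -1 := by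
    have : Real.pi * (3 * (2 * (k:ℝ) + 1) + 1) = 0 := by linarith
    rcases mul_eq_zero.mp this with h | h
    · exact absurd h hp.ne'
    · linarith
  have h5 : (3:ℤ) * (2 * k + 1) = -1 := by exact_mod_cast h4
  omega

theorem erec_dF (β : ℝ) (k : ℕ) (v : ℝ) : HasDerivAt (erecF β k) (erecF' β k v) v := by
  have hl : HasDerivAt (fun z : ℂ => I * z / 3) (I / 3) (v:ℂ) := by
    have := ((hasDerivAt_id (v:ℂ)).const_mul I).div_const 3
    simpa using this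
  have he : HasDerivAt (fun z : ℂ => cexp (-2 * z * β / (3 * Real.pi))) (cexp (-2 * (v:ℂ) * β / (3 * Real.pi)) * (-2 * β / (3 * Real.pi))) (v:ℂ) := by
    have h1 : HasDerivAt (fun z : ℂ => -2 * z * β / (3 * Real.pi)) (-2 * β / (3 * Real.pi)) (v:ℂ) := by
      have := (((hasDerivAt_id (v:ℂ)).const_mul (-2)).mul_const (β:ℂ)).div_const (3 * (Real.pi:ℂ))
      simpa using this
    exact h1.cexp
  have hU := (erec_dU k (I * v / 3) (erec_Cne v)).comp (v:ℂ) hl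
  have hV := (erec_dV k (I * v / 3) (erec_Dne v)).comp (v:ℂ) hl
  have h := (he.const_mul (2/3)).mul ((hU.const_mul (cexp (-2 * I * β / 3))).add (hV.const_mul (cexp (2 * I * β / 3))))
  have h2 := h.comp_ofReal
  have hfun : erecF β k = fun y : ℝ => ((fun y : ℂ => 2 / 3 * cexp (-2 * y * β / (3 * Real.pi))) *
      ((fun y : ℂ => cexp (-2 * I * β / 3) * (erecU k ∘ fun z : ℂ => I * z / 3) y) + fun y : ℂ => cexp (2 * I * β / 3) * (erecV k ∘ fun z : ℂ => I * z / 3) y)) (y:ℂ) := by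
    funext y
    simp only [erecF, erecE, Pi.mul_apply, Pi.add_apply, Function.comp]
  rw [hfun]
  refine h2.congr_deriv ?_
  simp only [erecF', erecE, Pi.add_apply, Function.comp]
  ring

noncomputable def alE (k : ℕ) : ℂ := -(3 * (Real.sqrt 3 : ℂ) / 2) / ((k:ℂ)+1)
noncomputable def beE (β : ℝ) (k : ℕ) : ℂ := ((Real.sqrt 3 : ℂ) * I * β / Real.pi + k + 1/2) / ((k:ℂ)+1)
noncomputable def polE (β : ℝ) (k : ℕ) : Polynomial ℂ := pol alE (beE β) gaP k

theorem erec {β : ℝ} (h0 : 0 < β) (h : β < Real.pi / 2) (k : ℕ) :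
    Mo (fun y => Qb β y * ((sw y : ℝ) : ℂ)) (polE β k) 0
      = 4 / (3 * (Real.sqrt 3 : ℂ)) * cexp (-2 * I * β / 3)
        * ((if k = 0 then 1 else 0) + cexp (4 * I * β / 3)) := by
  have hpi : (Real.pi : ℂ) ≠ 0 := by exact_mod_cast Real.pi_pos.ne'
  have main := frec (edec_Q h0 h) alE (beE β) gaP (erecF β) (erecF' β) ?_ (erec_dF β) ?_ ?_ k 0
  · rw [polE, main]
    simp only [erecF, erecU, erecV, erecE]
    have z0 : (I * ((0:ℝ):ℂ) / 3 : ℂ) = 0 := by simp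
    rw [z0]
    have c1 : Complex.cos (0 + Real.pi/6) = (Real.sqrt 3 : ℂ)/2 := by rw [zero_add, erec_pi6c]
    have c2 : Complex.cos (0 - Real.pi/6) = (Real.sqrt 3 : ℂ)/2 := by rw [erec_cm]; simp
    rw [c1, c2]
    have hr : (Real.sqrt 3 : ℂ) ≠ 0 := by
      have : Real.sqrt 3 ≠ 0 := (Real.sqrt_pos.mpr (by norm_num)).ne'
      exact_mod_cast this
    have e0 : cexp (-2 * ((0:ℝ):ℂ) * β / (3 * Real.pi)) = 1 := by simp
    have e2 : cexp (2 * I * β / 3) = cexp (-2 * I * β / 3) * cexp (4 * I * β / 3) := by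
      rw [← Complex.exp_add]; ring_nf
    have e3 : ∀ k : ℕ, ((Real.sqrt 3 : ℂ)/2)^k / ((Real.sqrt 3 : ℂ)/2)^(k+1) = 2 / (Real.sqrt 3 : ℂ) := by
      intro k
      rw [pow_succ]
      have : ((Real.sqrt 3 : ℂ)/2)^k ≠ 0 := pow_ne_zero _ (div_ne_zero hr two_ne_zero)
      field_simp
    rw [e0, e2, e3, Complex.sin_zero, neg_zero]
    rcases Nat.eq_zero_or_pos k with hk | hk
    · subst hk
      simp only [if_true, pow_zero, zero_add, pow_one]
      field_simp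
      ring
    · rw [if_neg hk.ne', zero_pow hk.ne']
      field_simp
      ring
  · intro v
    rw [eg0 h0 h v]
    simp only [erecF, erecU, erecV, erecE, pow_zero, zero_add, pow_one]
    ring
  · intro v
    have hU := erec_U1 (I * v / 3) (erec_Cne v)
    have hV := erec_V1 (I * v / 3) (erec_Dne v)
    simp only [erecF, erecF', alE, beE, hU, hV]
    push_cast
    generalize erecU 0 (I * v / 3) = u1
    generalize erecU' 0 (I * v / 3) = u2
    generalize erecV 0 (I * v / 3) = v1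
    generalize erecV' 0 (I * v / 3) = v2
    generalize cexp (-2 * I * β / 3) = A
    generalize cexp (2 * I * β / 3) = B
    generalize erecE β v = E
    generalize (Real.sqrt 3 : ℂ) = r
    linear_combination (-(r/3) * (A * u2 + B * v2) * E) * (Complex.I_sq)
  · intro k v
    have hU := erec_Us k (I * v / 3) (erec_Cne v)
    have hV := erec_Vs k (I * v / 3) (erec_Dne v)
    have hk : ((k:ℂ)+2) ≠ 0 := by exact_mod_cast (Nat.succ_ne_zero (k+1))
    have hU2 : erecU (k+2) (I * v / 3) = (-((Real.sqrt 3 : ℂ)/2) * erecU' (k+1) (I * v / 3) + ((k:ℂ)+1+1/2) * erecU (k+1) (I * v / 3)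
      - ((k:ℂ)+1) * erecU k (I * v / 3)) / ((k:ℂ)+2) := by rw [← hU]; field_simp
    have hV2 : erecV (k+2) (I * v / 3) = (-((Real.sqrt 3 : ℂ)/2) * erecV' (k+1) (I * v / 3) + ((k:ℂ)+1+1/2) * erecV (k+1) (I * v / 3)
      - ((k:ℂ)+1) * erecV k (I * v / 3)) / ((k:ℂ)+2) := by rw [← hV]; field_simp
    simp only [erecF, erecF', alE, beE, gaP, hU2, hV2]
    push_cast
    have e1 : ((k:ℂ)+1+1) = (k:ℂ)+2 := by ring
    rw [e1]
    generalize erecU k (I * v / 3) = u0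
    generalize erecU (k+1) (I * v / 3) = u1
    generalize erecU' (k+1) (I * v / 3) = u2
    generalize erecV k (I * v / 3) = v0
    generalize erecV (k+1) (I * v / 3) = v1
    generalize erecV' (k+1) (I * v / 3) = v2
    generalize cexp (-2 * I * β / 3) = A
    generalize cexp (2 * I * β / 3) = B
    generalize erecE β v = E
    generalize (Real.sqrt 3 : ℂ) = r
    linear_combination (-(r/3) * (A * u2 + B * v2) * E / ((k:ℂ)+2)) * (Complex.I_sq)

end PAS
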