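import Pool.Agent.Lib.MP_216314_pr.AS.ADef

/-!
F1. The Fourier/Laplace transform of `sech`:  for `|Re z| < π`,
`∫ e^{z y} / cosh (π y) dy = 1 / cos (z/2)`.

PROOF. (a) `fbeta_int`: `1/cosh(π y) ≤ 2 exp(-π|y|)` and `‖exp (z y)‖ = exp (z.re * y) ≤ exp (|z.re| |y|)`, so the
integrand is continuous and bounded by `2 exp(-(π-|z.re|) |y|)`; integrability of `exp (-c |y|)` on `ℝ`: use
`integrable_exp_neg_abs`-like lemmas if present, or split ℝ in `Iic 0` and `Ioi 0`
(`integrableOn_exp_mul_Iic`/`integrableOn_Ioi...`, `exp_neg_integrableOn_Ioi`), `MeasureTheory.IntegrableOn.union`,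
`Iic_union_Ioi`. Prove the auxiliary lemma `int_exp_abs` first, it is used everywhere else.
(b) value. Put `u = 1/2 + z/(2π)`, `0 < u.re < 1`. Change variables in the Beta integral
`betaIntegral u (1-u) = ∫ x in 0..1, x^(u-1) * (1-x)^(-u)` by `x = s(y) = 1/(1+exp(-2π y))`, `s' = 2π s (1-s)`,
`s : ℝ → ℝ` injective (strictly monotone) with range `Ioo 0 1`
(`MeasureTheory.integral_image_eq_integral_abs_deriv_smul` with `Set.univ`, and `intervalIntegral.integral_of_le`,
`integral_Ioc_eq_integral_Ioo`). With `s = exp(π y)/(2 cosh(π y))`, `1-s = exp(-π y)/(2 cosh (π y))` (both positive) and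
`Complex.ofReal_cpow`-style identities (`(a:ℂ)^u = cexp (u * Real.log a)` for `a > 0`,
`log s = π y - log(2 cosh)`, `log(1-s) = -π y - log(2 cosh)`):
`s^(u-1) (1-s)^(-u) * 2π s(1-s) = 2π s^u (1-s)^(1-u) = 2π exp(π y (2u-1)) / (2 cosh(π y)) = π exp(z y)/cosh(π y)`.
So `betaIntegral u (1-u) = π ∫ exp(z y)/cosh(π y)`. And `Complex.Gamma_mul_Gamma_eq_betaIntegral`, `Complex.Gamma_one`,
`Complex.Gamma_mul_Gamma_one_sub`: `betaIntegral u (1-u) = Γ(u)Γ(1-u) = π / sin (π u) = π/cos(z/2)`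
(`π u = π/2 + z/2`, `Complex.sin_pi_div_two_add`-type lemma).
-/

open MeasureTheory Complex

namespace PAS

theorem int_exp_abs {c : ℝ} (hc : 0 < c) : Integrable (fun y : ℝ => Real.exp (-c * |y|)) := by
  rw [← integrableOn_univ, ← Set.Iic_union_Ioi (a := (0 : ℝ))]
  apply IntegrableOn.union
  · have h1 : IntegrableOn (fun x : ℝ => Real.exp (c * x)) (Set.Iic 0) := integrableOn_exp_mul_Iic hc 0
    refine h1.congr_fun (fun x hx => ?_) measurableSet_Iic
    have h2 : |x| = -x := abs_of_nonpos hx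
    show Real.exp (c * x) = Real.exp (-c * |x|)
    rw [h2]
    congr 1
    ring
  · have h1 : IntegrableOn (fun x : ℝ => Real.exp (-c * x)) (Set.Ioi 0) :=
      integrableOn_exp_mul_Ioi (by linarith) 0
    refine h1.congr_fun (fun x hx => ?_) measurableSet_Ioi
    have h2 : |x| = x := abs_of_pos hx
    show Real.exp (-c * x) = Real.exp (-c * |x|)
    rw [h2]

theorem cosh_ge (y : ℝ) : Real.exp |y| / 2 ≤ Real.cosh y := by
  rw [← Real.cosh_abs, Real.cosh_eq]
  have := Real.exp_pos (-|y|)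
  linarith

theorem FBeta_cosh (y : ℝ) : Complex.cosh (Real.pi * y) = ((Real.cosh (Real.pi * y) : ℝ) : ℂ) := by
  rw [Complex.ofReal_cosh]
  push_cast
  rfl

theorem FBeta_ne (y : ℝ) : Complex.cosh (Real.pi * y) ≠ 0 := by
  rw [FBeta_cosh]
  exact_mod_cast (Real.cosh_pos _).ne'

theorem fbeta_int {z : ℂ} (hz : |z.re| < Real.pi) :
    Integrable (fun y : ℝ => cexp (z * y) / Complex.cosh (Real.pi * y)) := by
  have hc : 0 < Real.pi - |z.re| := by linarith
  have hb := (int_exp_abs hc).const_mul 2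
  refine hb.mono' ?_ (Filter.Eventually.of_forall fun y => ?_)
  · apply Continuous.aestronglyMeasurable
    apply Continuous.div
    · fun_prop
    · fun_prop
    · exact FBeta_ne
  · rw [norm_div, FBeta_cosh, Complex.norm_real, Complex.norm_exp, Real.norm_of_nonneg (Real.cosh_pos _).le]
    have h1 : (z * (y : ℂ)).re = z.re * y := by simp
    rw [h1]
    have h2 := cosh_ge (Real.pi * y)
    rw [abs_mul, abs_of_pos Real.pi_pos] at h2
    have h3 : z.re * y ≤ |z.re| * |y| := by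
      rw [← abs_mul]
      exact le_abs_self _
    rw [div_le_iff₀ (Real.cosh_pos _)]
    calc Real.exp (z.re * y) ≤ Real.exp (|z.re| * |y|) := Real.exp_le_exp.2 h3
      _ = 2 * Real.exp (-(Real.pi - |z.re|) * |y|) * (Real.exp (Real.pi * |y|) / 2) := by
          have h4 : Real.exp (|z.re| * |y|) =
              Real.exp (-(Real.pi - |z.re|) * |y|) * Real.exp (Real.pi * |y|) := by
            rw [← Real.exp_add]
            congr 1
            ring
          rw [h4]
          ring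
      _ ≤ 2 * Real.exp (-(Real.pi - |z.re|) * |y|) * Real.cosh (Real.pi * y) :=
          mul_le_mul_of_nonneg_left h2 (by positivity)

/-- the logistic function -/
noncomputable def FBeta_s (y : ℝ) : ℝ := (1 + Real.exp (-(2 * Real.pi * y)))⁻¹

theorem FBeta_deriv (y : ℝ) : HasDerivAt FBeta_s
    (2 * Real.pi * Real.exp (-(2 * Real.pi * y)) / (1 + Real.exp (-(2 * Real.pi * y))) ^ 2) y := by
  have h1 : HasDerivAt (fun y : ℝ => -(2 * Real.pi * y)) (-(2 * Real.pi)) y := by
    have h2 := (hasDerivAt_id y).const_mul (-(2 * Real.pi))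
    rw [mul_one] at h2
    have h3 : (fun y : ℝ => -(2 * Real.pi * y)) = fun y => (-(2 * Real.pi)) * id y := by
      funext y
      rw [neg_mul]
      rfl
    rw [h3]
    exact h2
  have h3 : HasDerivAt (fun y : ℝ => 1 + Real.exp (-(2 * Real.pi * y)))
      (Real.exp (-(2 * Real.pi * y)) * (-(2 * Real.pi))) y := h1.exp.const_add 1
  have h4 := h3.inv (by positivity)
  have h5 : -(Real.exp (-(2 * Real.pi * y)) * (-(2 * Real.pi))) / (1 + Real.exp (-(2 * Real.pi * y))) ^ 2 =
      2 * Real.pi * Real.exp (-(2 * Real.pi * y)) / (1 + Real.exp (-(2 * Real.pi * y))) ^ 2 := by ring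
  rw [h5] at h4
  exact h4

theorem FBeta_inj : Set.InjOn FBeta_s Set.univ := by
  intro a _ b _ h
  unfold FBeta_s at h
  have h1 := inv_injective h
  have h2 : Real.exp (-(2 * Real.pi * a)) = Real.exp (-(2 * Real.pi * b)) := by linarith
  have h3 := Real.exp_injective h2
  have h4 : 2 * Real.pi * a = 2 * Real.pi * b := by linarith
  exact mul_left_cancel₀ (by positivity) h4

theorem FBeta_range : FBeta_s '' Set.univ = Set.Ioo 0 1 := by
  ext x
  constructor
  · rintro ⟨y, _, rfl⟩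
    unfold FBeta_s
    have h1 := Real.exp_pos (-(2 * Real.pi * y))
    refine ⟨by positivity, ?_⟩
    exact inv_lt_one_of_one_lt₀ (by linarith)
  · rintro ⟨h0, h1⟩
    refine ⟨-(Real.log (x⁻¹ - 1) / (2 * Real.pi)), Set.mem_univ _, ?_⟩
    unfold FBeta_s
    have h2 : 1 < x⁻¹ := (one_lt_inv₀ h0).2 h1
    have h3 : -(2 * Real.pi * -(Real.log (x⁻¹ - 1) / (2 * Real.pi))) = Real.log (x⁻¹ - 1) := by
      have := Real.pi_ne_zero
      field_simp
    rw [h3, Real.exp_log (by linarith)]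
    rw [show 1 + (x⁻¹ - 1) = x⁻¹ by ring, inv_inv]

theorem FBeta_cpow {a : ℝ} (ha : 0 < a) (w : ℂ) : (a : ℂ) ^ w = cexp (w * (Real.log a : ℝ)) := by
  rw [Complex.cpow_def_of_ne_zero (by exact_mod_cast ha.ne'), Complex.ofReal_log ha.le, mul_comm]

theorem FBeta_val (z : ℂ) (y : ℝ) :
    |2 * Real.pi * Real.exp (-(2 * Real.pi * y)) / (1 + Real.exp (-(2 * Real.pi * y))) ^ 2| •
      (((FBeta_s y : ℝ) : ℂ) ^ ((1 / 2 + z / (2 * Real.pi)) - 1) *
        (1 - ((FBeta_s y : ℝ) : ℂ)) ^ ((1 - (1 / 2 + z / (2 * Real.pi))) - 1)) =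
      Real.pi * (cexp (z * y) / Complex.cosh (Real.pi * y)) := by
  set X : ℝ := Real.exp (-(2 * Real.pi * y)) with hX
  have hX0 : 0 < X := Real.exp_pos _
  have h1 : 0 < 1 + X := by positivity
  have hs : FBeta_s y = (1 + X)⁻¹ := rfl
  have hs0 : 0 < (1 + X)⁻¹ := by positivity
  have h1s : (1 : ℂ) - (((1 + X)⁻¹ : ℝ) : ℂ) = ((X * (1 + X)⁻¹ : ℝ) : ℂ) := by
    have h2 : 1 - (1 + X)⁻¹ = X * (1 + X)⁻¹ := by field_simp; ring
    rw [← h2]
    push_cast
    rfl
  have hl1 : Real.log (1 + X)⁻¹ = -Real.log (1 + X) := Real.log_inv _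
  have hl2 : Real.log (X * (1 + X)⁻¹) = -(2 * Real.pi * y) - Real.log (1 + X) := by
    rw [Real.log_mul hX0.ne' hs0.ne', hl1, hX, Real.log_exp]
    ring
  have habs : |2 * Real.pi * X / (1 + X) ^ 2| = 2 * Real.pi * X / (1 + X) ^ 2 :=
    abs_of_pos (by positivity)
  rw [habs, hs, h1s, FBeta_cpow hs0, FBeta_cpow (by positivity), hl1, hl2, ← Complex.exp_add]
  have hpi : (Real.pi : ℂ) ≠ 0 := by exact_mod_cast Real.pi_ne_zero
  have he : (1 / 2 + z / (2 * Real.pi) - 1) * ((-Real.log (1 + X) : ℝ) : ℂ) +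
      (1 - (1 / 2 + z / (2 * Real.pi)) - 1) * ((-(2 * Real.pi * y) - Real.log (1 + X) : ℝ) : ℂ) =
      z * y + Real.pi * y + (Real.log (1 + X) : ℝ) := by
    push_cast
    field_simp
    ring
  rw [he, Complex.exp_add, Complex.exp_add, ← Complex.ofReal_exp (Real.log (1 + X)), Real.exp_log h1]
  have hcosh : Complex.cosh (Real.pi * y) = (cexp (Real.pi * y) + cexp (-(Real.pi * y))) / 2 := rfl
  have hXc : ((X : ℝ) : ℂ) = cexp (-(Real.pi * y)) * cexp (-(Real.pi * y)) := by
    rw [hX, Complex.ofReal_exp, ← Complex.exp_add]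
    congr 1
    push_cast
    ring
  have hEE : cexp (Real.pi * y) * cexp (-(Real.pi * y)) = 1 := by
    rw [← Complex.exp_add, add_neg_cancel, Complex.exp_zero]
  have hne : cexp (Real.pi * y) + cexp (-(Real.pi * y)) ≠ 0 := by
    intro h0
    apply FBeta_ne y
    rw [hcosh, h0, zero_div]
  have hne1 : (1 : ℂ) + cexp (-(Real.pi * y)) * cexp (-(Real.pi * y)) ≠ 0 := by
    rw [← hXc]
    exact_mod_cast h1.ne'
  rw [hcosh, Complex.real_smul]
  push_cast
  rw [hXc]
  have hM0 : cexp (-(Real.pi * y)) ≠ 0 := Complex.exp_ne_zero _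
  set P := cexp (Real.pi * y)
  set M := cexp (-(Real.pi * y))
  have h1M : (1 : ℂ) + M * M = M * (P + M) := by
    rw [← hEE]
    ring
  rw [h1M]
  have hfin : 2 * (Real.pi : ℂ) * (M * M) / (M * (P + M)) ^ 2 * (cexp (z * y) * P * (M * (P + M))) =
      2 * Real.pi * cexp (z * y) * (P * M) / (P + M) := by
    field_simp
  rw [hfin, hEE]
  field_simp

theorem fbeta {z : ℂ} (hz : |z.re| < Real.pi) :
    ∫ y : ℝ, cexp (z * y) / Complex.cosh (Real.pi * y) = 1 / Complex.cos (z / 2) := by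
  have hpi : (Real.pi : ℂ) ≠ 0 := by exact_mod_cast Real.pi_ne_zero
  have hre : (1 / 2 + z / (2 * Real.pi) : ℂ).re = 1 / 2 + z.re / (2 * Real.pi) := by
    have h1 : z / (2 * Real.pi) = z * (((2 * Real.pi)⁻¹ : ℝ) : ℂ) := by
      push_cast
      ring
    rw [Complex.add_re, h1, Complex.re_mul_ofReal]
    norm_num
    ring
  rw [abs_lt] at hz
  have hp := Real.pi_pos
  have hu0 : 0 < (1 / 2 + z / (2 * Real.pi) : ℂ).re := by
    rw [hre]
    have h2 : -(1 / 2) < z.re / (2 * Real.pi) := by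
      rw [lt_div_iff₀ (by positivity)]
      linarith [hz.1]
    linarith
  have hu1 : 0 < (1 - (1 / 2 + z / (2 * Real.pi)) : ℂ).re := by
    rw [Complex.sub_re, hre, Complex.one_re]
    have h2 : z.re / (2 * Real.pi) < 1 / 2 := by
      rw [div_lt_iff₀ (by positivity)]
      linarith [hz.2]
    linarith
  have h1 := Complex.Gamma_mul_Gamma_eq_betaIntegral hu0 hu1
  rw [add_sub_cancel, Complex.Gamma_one, one_mul, Complex.Gamma_mul_Gamma_one_sub] at h1
  have hsin : Complex.sin (Real.pi * (1 / 2 + z / (2 * Real.pi))) = Complex.cos (z / 2) := by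
    rw [← Complex.sin_add_pi_div_two]
    congr 1
    field_simp
    ring
  rw [hsin] at h1
  have h2 : Complex.betaIntegral (1 / 2 + z / (2 * Real.pi)) (1 - (1 / 2 + z / (2 * Real.pi))) =
      Real.pi * ∫ y : ℝ, cexp (z * y) / Complex.cosh (Real.pi * y) := by
    unfold Complex.betaIntegral
    rw [intervalIntegral.integral_of_le zero_le_one, integral_Ioc_eq_integral_Ioo, ← FBeta_range,
      integral_image_eq_integral_abs_deriv_smul MeasurableSet.univ
        (fun x _ => (FBeta_deriv x).hasDerivWithinAt) FBeta_inj, setIntegral_univ]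
    rw [← integral_const_mul]
    apply integral_congr_ae
    exact Filter.Eventually.of_forall fun y => FBeta_val z y
  rw [h2] at h1
  have h3 : (Real.pi : ℂ) * (1 / Complex.cos (z / 2)) =
      Real.pi * ∫ y : ℝ, cexp (z * y) / Complex.cosh (Real.pi * y) := by
    rw [← h1]
    ring
  exact (mul_left_cancel₀ hpi h3).symm

end PAS
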