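import Pool.Agent.Lib.MP_216314_pr.AS.ADef

/-!
F4. Twisted moments `Mo W p v = ∫ p(y) e^{i v y} W(y) dy` of an exponentially decaying continuous weight:
integrability, linearity in `p`, derivative in `v`.

PROOF. `mo_int`: enough for monomials (`Polynomial.induction_on'` or `Polynomial.eval_eq_sum_range` and
`MeasureTheory.integrable_finset_sum`): `|y|^k exp(-c|y|)` is integrable on ℝ: `|y|^k ≤ (k! / (c/2)^k) exp((c/2)|y|)`
(from `Real.pow_div_factorial_le_exp` : `x^n / n! ≤ exp x` for `0 ≤ x`), so it is bounded by a constant times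
`exp(-(c/2)|y|)`, integrable (split in `Iic 0`, `Ioi 0`; `integrableOn_Ioi..exp_neg`/`exp_neg_integrableOn_Ioi`). The norm of
`cexp (I v y)` is 1 (`Complex.norm_exp_ofReal_mul_I` after rewriting).
`mo_deriv`: `hasDerivAt_integral_of_dominated_loc_of_deriv_le` on the whole line (`Metric.ball v 1`), the derivative of
`v ↦ p(y) cexp (I v y) W y` is `I y p(y) cexp(I v y) W y`, with norm `= ‖y p(y) W y‖` independent of `v` and integrable
(`mo_int` for `X * p` and norm). Then `(X*p).eval y = y * p.eval y`.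
-/

open MeasureTheory Complex

namespace PAS

private theorem FMo_exp_abs {c : ℝ} (hc : 0 < c) : Integrable (fun y : ℝ => Real.exp (-c * |y|)) := by
  rw [← integrableOn_univ, ← Set.Iic_union_Ioi (a := (0:ℝ))]
  refine IntegrableOn.union ?_ ?_
  · refine (integrableOn_exp_mul_Iic hc 0).congr_fun ?_ measurableSet_Iic
    intro y hy
    have h : |y| = -y := abs_of_nonpos hy
    show Real.exp (c * y) = Real.exp (-c * |y|)
    rw [h]; ring_nf
  · refine (exp_neg_integrableOn_Ioi 0 hc).congr_fun ?_ measurableSet_Ioi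
    intro y hy
    have h : |y| = y := abs_of_pos hy
    show Real.exp (-c * y) = Real.exp (-c * |y|)
    rw [h]

private theorem FMo_norm (v y : ℝ) : ‖cexp (I * v * y)‖ = 1 := by
  have h : I * (v:ℂ) * (y:ℂ) = ((v * y : ℝ) : ℂ) * I := by push_cast; ring
  rw [h, Complex.norm_exp_ofReal_mul_I]

private theorem FMo_mono_bound {c : ℝ} (hc : 0 < c) (n : ℕ) (y : ℝ) :
    |y| ^ n * Real.exp (-c * |y|) ≤ ((n.factorial : ℝ) / (c / 2) ^ n) * Real.exp (-(c / 2) * |y|) := by
  have h1 : (c / 2 * |y|) ^ n / (n.factorial : ℝ) ≤ Real.exp (c / 2 * |y|) :=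
    Real.pow_div_factorial_le_exp _ (by positivity) n
  have hf : (0:ℝ) < n.factorial := by exact_mod_cast n.factorial_pos
  have hcn : 0 < (c / 2) ^ n := by positivity
  have h2 : |y| ^ n ≤ ((n.factorial : ℝ) / (c / 2) ^ n) * Real.exp (c / 2 * |y|) := by
    rw [mul_pow, div_le_iff₀ hf] at h1
    rw [div_mul_eq_mul_div, le_div_iff₀ hcn]
    linarith
  calc |y| ^ n * Real.exp (-c * |y|)
      ≤ (((n.factorial : ℝ) / (c / 2) ^ n) * Real.exp (c / 2 * |y|)) * Real.exp (-c * |y|) :=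
        mul_le_mul_of_nonneg_right h2 (Real.exp_pos _).le
    _ = ((n.factorial : ℝ) / (c / 2) ^ n) * Real.exp (-(c / 2) * |y|) := by
        rw [mul_assoc, ← Real.exp_add]
        congr 2
        ring

private theorem FMo_cont {W : ℝ → ℂ} (hW : Continuous W) (p : Polynomial ℂ) (v : ℝ) :
    Continuous (fun y : ℝ => p.eval (y:ℂ) * cexp (I * v * y) * W y) := by
  have h1 : Continuous (fun y : ℝ => p.eval (y:ℂ)) := p.continuous.comp Complex.continuous_ofReal
  have h2 : Continuous (fun y : ℝ => cexp (I * v * y)) := by fun_prop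
  exact (h1.mul h2).mul hW

theorem mo_int {W : ℝ → ℂ} (hW : EDec W) (p : Polynomial ℂ) (v : ℝ) :
    Integrable (fun y : ℝ => p.eval (y:ℂ) * cexp (I * v * y) * W y) := by
  obtain ⟨hc, C, c, hc0, hb⟩ := hW
  have hC : 0 ≤ C := by
    have h := (norm_nonneg _).trans (hb 0)
    simpa using h
  induction p using Polynomial.induction_on' with
  | add p q hp hq =>
    refine (hp.add hq).congr (Filter.Eventually.of_forall fun y => ?_)
    simp only [Pi.add_apply, Polynomial.eval_add]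
    ring
  | monomial n a =>
    have hI := (FMo_exp_abs (c := c / 2) (by positivity)).const_mul
      (‖a‖ * (C * ((n.factorial : ℝ) / (c / 2) ^ n)))
    refine hI.mono' (FMo_cont hc _ v).aestronglyMeasurable (Filter.Eventually.of_forall fun y => ?_)
    rw [norm_mul, norm_mul, FMo_norm, mul_one, Polynomial.eval_monomial, norm_mul, norm_pow,
      Complex.norm_real, Real.norm_eq_abs]
    have h1 := hb y
    have h2 := FMo_mono_bound hc0 n y
    calc ‖a‖ * |y| ^ n * ‖W y‖ ≤ ‖a‖ * |y| ^ n * (C * Real.exp (-c * |y|)) :=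
          mul_le_mul_of_nonneg_left h1 (by positivity)
      _ = ‖a‖ * (C * (|y| ^ n * Real.exp (-c * |y|))) := by ring
      _ ≤ ‖a‖ * (C * (((n.factorial : ℝ) / (c / 2) ^ n) * Real.exp (-(c / 2) * |y|))) :=
          mul_le_mul_of_nonneg_left (mul_le_mul_of_nonneg_left h2 hC) (norm_nonneg _)
      _ = ‖a‖ * (C * ((n.factorial : ℝ) / (c / 2) ^ n)) * Real.exp (-(c / 2) * |y|) := by ring

theorem mo_add {W : ℝ → ℂ} (hW : EDec W) (p q : Polynomial ℂ) (v : ℝ) :
    Mo W (p + q) v = Mo W p v + Mo W q v := by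
  unfold Mo
  rw [← integral_add (mo_int hW p v) (mo_int hW q v)]
  refine integral_congr_ae (Filter.Eventually.of_forall fun y => ?_)
  simp only [Polynomial.eval_add]
  ring

theorem mo_sub {W : ℝ → ℂ} (hW : EDec W) (p q : Polynomial ℂ) (v : ℝ) :
    Mo W (p - q) v = Mo W p v - Mo W q v := by
  unfold Mo
  rw [← integral_sub (mo_int hW p v) (mo_int hW q v)]
  refine integral_congr_ae (Filter.Eventually.of_forall fun y => ?_)
  simp only [Polynomial.eval_sub]
  ring

theorem mo_C_mul {W : ℝ → ℂ} (a : ℂ) (p : Polynomial ℂ) (v : ℝ) :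
    Mo W (Polynomial.C a * p) v = a * Mo W p v := by
  unfold Mo
  rw [← integral_const_mul]
  refine integral_congr_ae (Filter.Eventually.of_forall fun y => ?_)
  simp only [Polynomial.eval_mul, Polynomial.eval_C]
  ring

theorem mo_zero {W : ℝ → ℂ} (p : Polynomial ℂ) : Mo W p 0 = ∫ y : ℝ, p.eval (y:ℂ) * W y := by
  unfold Mo
  refine integral_congr_ae (Filter.Eventually.of_forall fun y => ?_)
  simp

private theorem FMo_meas {W : ℝ → ℂ} (hW : Continuous W) (p : Polynomial ℂ) (v : ℝ) :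
    AEStronglyMeasurable (fun y : ℝ => p.eval (y:ℂ) * (cexp (I * v * y) * (I * y)) * W y) volume := by
  have h1 : Continuous (fun y : ℝ => p.eval (y:ℂ)) := p.continuous.comp Complex.continuous_ofReal
  have h2 : Continuous (fun y : ℝ => cexp (I * v * y) * (I * y)) := by fun_prop
  exact ((h1.mul h2).mul hW).aestronglyMeasurable

private theorem FMo_bd {W : ℝ → ℂ} (p : Polynomial ℂ) (x y : ℝ) :
    ‖p.eval (y:ℂ) * (cexp (I * x * y) * (I * y)) * W y‖ ≤
      ‖(Polynomial.X * p).eval (y:ℂ) * cexp (I * (0:ℝ) * y) * W y‖ := by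
  have e : p.eval (y:ℂ) * (cexp (I * x * y) * (I * y)) * W y =
      cexp (I * x * y) * (I * ((Polynomial.X * p).eval (y:ℂ) * W y)) := by
    rw [Polynomial.eval_mul, Polynomial.eval_X]
    ring
  have e2 : ‖cexp (I * x * y) * (I * ((Polynomial.X * p).eval (y:ℂ) * W y))‖ =
      ‖(Polynomial.X * p).eval (y:ℂ)‖ * ‖W y‖ := by
    rw [norm_mul, norm_mul, FMo_norm, Complex.norm_I, one_mul, one_mul, norm_mul]
  have e3 : ‖(Polynomial.X * p).eval (y:ℂ) * cexp (I * (0:ℝ) * y) * W y‖ =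
      ‖(Polynomial.X * p).eval (y:ℂ)‖ * ‖W y‖ := by
    rw [norm_mul, norm_mul, FMo_norm, mul_one]
  rw [e, e2, e3]

private theorem FMo_hd (a b : ℂ) (x y : ℝ) :
    HasDerivAt (fun v : ℝ => a * cexp (I * v * y) * b) (a * (cexp (I * x * y) * (I * y)) * b) x := by
  have h1 : HasDerivAt (fun v : ℝ => I * (v:ℂ) * (y:ℂ)) (I * ((1:ℝ):ℂ) * (y:ℂ)) x :=
    (((hasDerivAt_id x).ofReal_comp).const_mul I).mul_const (y:ℂ)
  have h2 := ((h1.cexp).const_mul a).mul_const b
  rw [Complex.ofReal_one, mul_one] at h2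
  exact h2

private theorem FMo_eq {W : ℝ → ℂ} (p : Polynomial ℂ) (v : ℝ) :
    (∫ y : ℝ, p.eval (y:ℂ) * (cexp (I * v * y) * (I * y)) * W y) = I * Mo W (Polynomial.X * p) v := by
  unfold Mo
  rw [← integral_const_mul]
  refine integral_congr_ae (Filter.Eventually.of_forall fun y => ?_)
  simp only [Polynomial.eval_mul, Polynomial.eval_X]
  ring

theorem mo_deriv {W : ℝ → ℂ} (hW : EDec W) (p : Polynomial ℂ) (v : ℝ) :
    HasDerivAt (fun v : ℝ => Mo W p v) (I * Mo W (Polynomial.X * p) v) v := by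
  have hbi : Integrable (fun y : ℝ =>
      ‖(Polynomial.X * p).eval (y:ℂ) * cexp (I * (0:ℝ) * y) * W y‖) volume :=
    (mo_int hW (Polynomial.X * p) 0).norm
  have hm : ∀ᶠ x in nhds v, AEStronglyMeasurable
      (fun y : ℝ => p.eval (y:ℂ) * cexp (I * (x:ℝ) * y) * W y) (volume : Measure ℝ) :=
    Filter.Eventually.of_forall fun x => (FMo_cont hW.1 p x).aestronglyMeasurable
  have hbd : ∀ᵐ (y : ℝ) ∂(volume : Measure ℝ), ∀ x ∈ (Set.univ : Set ℝ),
      ‖p.eval (y:ℂ) * (cexp (I * x * y) * (I * y)) * W y‖ ≤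
        ‖(Polynomial.X * p).eval (y:ℂ) * cexp (I * (0:ℝ) * y) * W y‖ :=
    Filter.Eventually.of_forall fun y x _ => FMo_bd p x y
  have hd : ∀ᵐ (y : ℝ) ∂(volume : Measure ℝ), ∀ x ∈ (Set.univ : Set ℝ),
      HasDerivAt (fun v : ℝ => p.eval (y:ℂ) * cexp (I * v * y) * W y)
        (p.eval (y:ℂ) * (cexp (I * x * y) * (I * y)) * W y) x :=
    Filter.Eventually.of_forall fun y x _ => FMo_hd (p.eval (y:ℂ)) (W y) x y
  have key := hasDerivAt_integral_of_dominated_loc_of_deriv_le (μ := (volume : Measure ℝ))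
    (F := fun (v : ℝ) (y : ℝ) => p.eval (y:ℂ) * cexp (I * v * y) * W y)
    (F' := fun (v : ℝ) (y : ℝ) => p.eval (y:ℂ) * (cexp (I * v * y) * (I * y)) * W y)
    (x₀ := v) Filter.univ_mem hm (mo_int hW p v) (FMo_meas hW.1 p v) hbd hbi hd
  have h := key.2
  rw [FMo_eq] at h
  exact h

/-- the moment functional at `v = 0` as a linear map -/
noncomputable def MoL (W : ℝ → ℂ) (hW : EDec W) : Polynomial ℂ →ₗ[ℂ] ℂ where
  toFun p := Mo W p 0
  map_add' p q := mo_add hW p q 0
  map_smul' a p := by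
    rw [Polynomial.smul_eq_C_mul, mo_C_mul]; rfl

end PAS
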