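import Pool.Agent.Lib.MP_216314_pr.AS.ADef

/-!
F2. Contour shift. `g` holomorphic on `|Im z| < r`, `|g z| ≤ C exp(-c |Re z|)` for `|Im z| ≤ |d| < r`.
Then `∫ g (x + d i) dx = ∫ g x dx`.

PROOF. Rectangle with corners `-T` and `T + d i`: `Complex.integral_boundary_rect_eq_zero_of_differentiableOn`
(`g` is differentiable on the closed rectangle, which lies in the strip; `Set.uIcc` conventions, both signs of `d`).
Vertical sides: norm ≤ |d| * C exp(-c T) → 0 (`intervalIntegral.norm_integral_le_of_norm_le_const`).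
Horizontal sides: `MeasureTheory.intervalIntegral_tendsto_integral` (with `a = -T → atBot`, `b = T → atTop`),
integrability of `x ↦ g (x + d i)` on ℝ: continuous (differentiable on the strip, composition) and bounded by
`C exp (-c|x|)`, integrable because `∫ exp(-c|x|)` converges (prove it here: split in `Iic 0` and `Ioi 0`).
Template: Mathlib `Mathlib/Analysis/SpecialFunctions/Gaussian/FourierTransform.lean` (`GaussianFourier.verticalIntegral`,
`integral_cexp_neg_mul_sq_add_real_mul_I`).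
-/

open MeasureTheory Complex

namespace PAS

open Filter Topology Set

private theorem FShift_exp {c : ℝ} (hc : 0 < c) : Integrable (fun x : ℝ => Real.exp (-c * |x|)) := by
  have h1 : IntegrableOn (fun x : ℝ => Real.exp (-c * |x|)) (Iic 0) := by
    have h := integrableOn_exp_mul_Iic hc 0
    refine h.congr_fun (fun x hx => ?_) measurableSet_Iic
    have hx' : x ≤ 0 := hx
    simp only [abs_of_nonpos hx']
    congr 1
    ring
  have h2 : IntegrableOn (fun x : ℝ => Real.exp (-c * |x|)) (Ioi 0) := by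
    have h := integrableOn_exp_mul_Ioi (neg_lt_zero.2 hc) 0
    refine h.congr_fun (fun x hx => ?_) measurableSet_Ioi
    have hx' : 0 < x := hx
    simp only [abs_of_pos hx']
  have h3 := h1.union h2
  rwa [Iic_union_Ioi, integrableOn_univ] at h3

private theorem FShift_int (g : ℂ → ℂ) {r C c d : ℝ} (hd : |d| < r) (hc : 0 < c)
    (hg : DifferentiableOn ℂ g {z : ℂ | |z.im| < r})
    (hb : ∀ z : ℂ, |z.im| ≤ |d| → ‖g z‖ ≤ C * Real.exp (-c * |z.re|)) (y : ℝ) (hy : |y| ≤ |d|) :
    Integrable (fun x : ℝ => g (x + y * I)) := by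
  have him : ∀ x : ℝ, ((x : ℂ) + y * I).im = y := by
    intro x
    simp
  have hre : ∀ x : ℝ, ((x : ℂ) + y * I).re = x := by
    intro x
    simp
  have hcont : Continuous (fun x : ℝ => g (x + y * I)) := by
    have h1 : ContinuousOn g {z : ℂ | |z.im| < r} := hg.continuousOn
    have h2 : Continuous (fun x : ℝ => (x : ℂ) + y * I) := by fun_prop
    refine h1.comp_continuous h2 fun x => ?_
    show |((x : ℂ) + y * I).im| < r
    rw [him]
    exact lt_of_le_of_lt hy hd
  refine ((FShift_exp hc).const_mul C).mono' hcont.aestronglyMeasurable ?_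
  refine Eventually.of_forall fun x => ?_
  have h3 := hb ((x : ℂ) + y * I) (by rw [him]; exact hy)
  rw [hre] at h3
  exact h3

private theorem FShift_side (g : ℂ → ℂ) {C c d : ℝ} (hc : 0 < c)
    (hb : ∀ z : ℂ, |z.im| ≤ |d| → ‖g z‖ ≤ C * Real.exp (-c * |z.re|)) (σ : ℝ) (hσ : |σ| = 1) :
    Tendsto (fun T : ℝ => ∫ y : ℝ in (0 : ℝ)..d, g (((σ * T : ℝ) : ℂ) + y * I)) atTop (𝓝 0) := by
  rw [tendsto_zero_iff_norm_tendsto_zero]
  have h1 : Tendsto (fun T : ℝ => C * Real.exp (-c * T) * |d - 0|) atTop (𝓝 0) := by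
    have h2 : Tendsto (fun T : ℝ => Real.exp (-c * T)) atTop (𝓝 0) := by
      apply Real.tendsto_exp_atBot.comp
      exact tendsto_id.const_mul_atTop_of_neg (neg_lt_zero.2 hc)
    have h3 := (h2.const_mul C).mul_const (|d - 0|)
    rwa [mul_zero, zero_mul] at h3
  refine squeeze_zero' (Eventually.of_forall fun T => norm_nonneg _) ?_ h1
  filter_upwards [eventually_ge_atTop (0 : ℝ)] with T hT
  refine intervalIntegral.norm_integral_le_of_norm_le_const fun y hy => ?_
  have hy' : |y| ≤ |d| := by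
    have h4 : y ∈ uIcc 0 d := uIoc_subset_uIcc hy
    have h5 := abs_sub_left_of_mem_uIcc h4
    rwa [sub_zero, sub_zero] at h5
  have h6 := hb (((σ * T : ℝ) : ℂ) + y * I) (by simpa using hy')
  have h7 : (((σ * T : ℝ) : ℂ) + y * I).re = σ * T := by simp
  rw [h7, abs_mul, hσ, one_mul, abs_of_nonneg hT] at h6
  exact h6

theorem shift (g : ℂ → ℂ) {r C c d : ℝ} (hd : |d| < r) (hc : 0 < c)
    (hg : DifferentiableOn ℂ g {z : ℂ | |z.im| < r})
    (hb : ∀ z : ℂ, |z.im| ≤ |d| → ‖g z‖ ≤ C * Real.exp (-c * |z.re|)) :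
    ∫ x : ℝ, g (x + d * I) = ∫ x : ℝ, g x := by
  have hint0 := FShift_int g hd hc hg hb 0 (by simp)
  have hintd := FShift_int g hd hc hg hb d le_rfl
  have hs1 := FShift_side g hc hb 1 (by simp)
  have hs2 := FShift_side g hc hb (-1) (by simp)
  have hrect : ∀ T : ℝ, (∫ x : ℝ in (-T)..T, g (x + (0 : ℝ) * I)) - (∫ x : ℝ in (-T)..T, g (x + d * I)) +
      I • (∫ y : ℝ in (0 : ℝ)..d, g (((1 * T : ℝ) : ℂ) + y * I)) -
      I • (∫ y : ℝ in (0 : ℝ)..d, g (((-1 * T : ℝ) : ℂ) + y * I)) = 0 := by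
    intro T
    have h1 := Complex.integral_boundary_rect_eq_zero_of_differentiableOn g
      ((-T : ℝ) : ℂ) ((T : ℂ) + d * I) (hg.mono (by
        intro z hz
        rw [Complex.mem_reProdIm] at hz
        have h2 := hz.2
        have e1 : ((T : ℂ) + d * I).im = d := by simp
        have e2 : (((-T : ℝ) : ℂ)).im = 0 := Complex.ofReal_im _
        rw [e1, e2] at h2
        have h5 := abs_sub_left_of_mem_uIcc h2
        rw [sub_zero, sub_zero] at h5
        exact lt_of_le_of_lt h5 hd))
    have e1 : ((T : ℂ) + d * I).im = d := by simp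
    have e2 : (((-T : ℝ) : ℂ)).im = 0 := Complex.ofReal_im _
    have e3 : ((T : ℂ) + d * I).re = T := by simp
    have e4 : (((-T : ℝ) : ℂ)).re = -T := Complex.ofReal_re _
    rw [e1, e2, e3, e4] at h1
    have e5 : (1 * T : ℝ) = T := one_mul T
    have e6 : (-1 * T : ℝ) = -T := neg_one_mul T
    rw [e5, e6]
    exact h1
  have t1 : Tendsto (fun T : ℝ => ∫ x : ℝ in (-T)..T, g (x + (0 : ℝ) * I)) atTop
      (𝓝 (∫ x : ℝ, g (x + (0 : ℝ) * I))) :=
    intervalIntegral_tendsto_integral hint0 tendsto_neg_atTop_atBot tendsto_id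
  have t2 : Tendsto (fun T : ℝ => ∫ x : ℝ in (-T)..T, g (x + d * I)) atTop
      (𝓝 (∫ x : ℝ, g (x + d * I))) :=
    intervalIntegral_tendsto_integral hintd tendsto_neg_atTop_atBot tendsto_id
  have t3 := ((t1.sub t2).add (hs1.const_smul I)).sub (hs2.const_smul I)
  have t4 : Tendsto (fun _ : ℝ => (0 : ℂ)) atTop (𝓝 0) := tendsto_const_nhds
  have t5 := tendsto_nhds_unique (t3.congr (fun T => hrect T)) t4
  rw [smul_zero, add_zero, sub_zero, sub_eq_zero] at t5
  rw [← t5]
  congr 1
  funext x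
  rw [Complex.ofReal_zero, zero_mul, add_zero]

end PAS
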