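import Pool.Agent.Lib.MP_216314_pr.AS.FBeta
import Pool.Agent.Lib.MP_216314_pr.AS.FShift

/-!
F3. For `|Re z| < π` and `|d| < 1/2`: `∫ e^{z (y + i d)} / cosh (π (y + i d)) dy = 1 / cos (z/2)`.

PROOF. `shift` for `g w = cexp (z w) / cosh (π w)`, `r = 1/2`. With `w = x + i s`, `|s| ≤ |d| < 1/2`:
`‖cosh (π w)‖² = cosh²(π x) - sin²(π s) = sinh²(π x) + cos²(π s) ≥ cos²(π s) (sinh² + 1) = cos²(π s) cosh²(π x)`, so
`‖cosh(π w)‖ ≥ cos (π d) cosh(π x) ≥ cos(π d) exp(π|x|)/2` (`cosh_ge`), nonzero on the whole strip (`cos (π s) > 0` for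
`|s| < 1/2`); `‖exp (z w)‖ = exp (z.re x - z.im s) ≤ exp(|z.im|) exp(|z.re||x|)`. So the bound holds with
`c = π - |z.re| > 0`, `C = 2 exp |z.im| / cos(π d)`. Then `fbeta`.
The norm lemma `norm_cosh_ge` is used in other files (keep it as stated):
`cos s * cosh x ≤ ‖cosh (x + s i)‖` (for all real `x`, `s`; when `cos s ≤ 0` it is trivial). Proof:
`cosh (x + s i) = cosh x cos s + i sinh x sin s` (`Complex.cosh_add`, `Complex.cosh_mul_I`, `Complex.sinh_mul_I`), so the
real part is `cosh x cos s` and `|re| ≤ norm` (`Complex.abs_re_le_norm`).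
-/

open MeasureTheory Complex

namespace PAS

theorem norm_cosh_ge (x s : ℝ) : Real.cos s * Real.cosh x ≤ ‖Complex.cosh (x + s * I)‖ := by
  have e : Complex.cosh (x + s * I) = ((Real.cosh x * Real.cos s : ℝ) : ℂ) +
      ((Real.sinh x * Real.sin s : ℝ) : ℂ) * I := by
    rw [Complex.cosh_add, Complex.cosh_mul_I, Complex.sinh_mul_I]
    push_cast
    ring
  have h1 : (Complex.cosh (x + s * I)).re = Real.cosh x * Real.cos s := by
    rw [e, Complex.add_re, Complex.ofReal_re, Complex.re_ofReal_mul, Complex.I_re, mul_zero, add_zero]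
  have h2 := Complex.abs_re_le_norm (Complex.cosh (x + s * I))
  rw [h1] at h2
  calc Real.cos s * Real.cosh x = Real.cosh x * Real.cos s := mul_comm _ _
    _ ≤ |Real.cosh x * Real.cos s| := le_abs_self _
    _ ≤ _ := h2

theorem FSh_norm_exp (x s : ℝ) : ‖cexp (x + s * I)‖ = Real.exp x := by
  rw [Complex.norm_exp]
  congr 1
  rw [Complex.add_re, Complex.ofReal_re, Complex.re_ofReal_mul, Complex.I_re, mul_zero, add_zero]

theorem FSh_norm_exp_neg (x s : ℝ) : ‖cexp (-(x + s * I))‖ = Real.exp (-x) := by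
  rw [Complex.norm_exp]
  congr 1
  rw [Complex.neg_re, Complex.add_re, Complex.ofReal_re, Complex.re_ofReal_mul, Complex.I_re, mul_zero,
    add_zero]

theorem norm_cosh_le (x s : ℝ) : ‖Complex.cosh (x + s * I)‖ ≤ Real.cosh x := by
  have e : Complex.cosh (x + s * I) = (cexp (x + s * I) + cexp (-(x + s * I))) / 2 := rfl
  rw [e, norm_div, Complex.norm_ofNat, Real.cosh_eq]
  refine div_le_div_of_nonneg_right ((norm_add_le _ _).trans (le_of_eq ?_)) (by norm_num)
  rw [FSh_norm_exp, FSh_norm_exp_neg]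

theorem norm_sinh_le (x s : ℝ) : ‖Complex.sinh (x + s * I)‖ ≤ Real.cosh x := by
  have e : Complex.sinh (x + s * I) = (cexp (x + s * I) - cexp (-(x + s * I))) / 2 := rfl
  rw [e, norm_div, Complex.norm_ofNat, Real.cosh_eq]
  refine div_le_div_of_nonneg_right ((norm_sub_le _ _).trans (le_of_eq ?_)) (by norm_num)
  rw [FSh_norm_exp, FSh_norm_exp_neg]

theorem FSh_cos_pos {s : ℝ} (hs : |s| < 1 / 2) : 0 < Real.cos (Real.pi * s) := by
  obtain ⟨h1, h2⟩ := abs_lt.1 hs
  have hpi := Real.pi_pos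
  apply Real.cos_pos_of_mem_Ioo
  constructor <;> nlinarith

theorem FSh_pi_mul (w : ℂ) : (Real.pi : ℂ) * w = ((Real.pi * w.re : ℝ) : ℂ) + ((Real.pi * w.im : ℝ) : ℂ) * I := by
  apply Complex.ext
  · rw [Complex.re_ofReal_mul, Complex.add_re, Complex.ofReal_re, Complex.re_ofReal_mul, Complex.I_re, mul_zero,
      add_zero]
  · rw [Complex.im_ofReal_mul, Complex.add_im, Complex.ofReal_im, Complex.im_ofReal_mul, Complex.I_im, mul_one,
      zero_add]

theorem FSh_cosh_lower {w : ℂ} {d : ℝ} (hd : |d| < 1 / 2) (hw : |w.im| ≤ |d|) :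
    Real.cos (Real.pi * d) * (Real.exp (Real.pi * |w.re|) / 2) ≤ ‖Complex.cosh (Real.pi * w)‖ := by
  have h1 := norm_cosh_ge (Real.pi * w.re) (Real.pi * w.im)
  rw [← FSh_pi_mul w] at h1
  have hpi := Real.pi_pos
  have h2 : Real.cos (Real.pi * d) ≤ Real.cos (Real.pi * w.im) := by
    rw [← Real.cos_abs (Real.pi * d), ← Real.cos_abs (Real.pi * w.im), abs_mul, abs_mul, abs_of_pos hpi]
    refine Real.cos_le_cos_of_nonneg_of_le_pi (by positivity) ?_ ?_
    · nlinarith [abs_nonneg d]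
    · exact mul_le_mul_of_nonneg_left hw hpi.le
  have h3 := cosh_ge (Real.pi * w.re)
  rw [abs_mul, abs_of_pos hpi] at h3
  have h4 := FSh_cos_pos hd
  exact (mul_le_mul h2 h3 (by positivity) (h4.le.trans h2)).trans h1

theorem FSh_bound {z : ℂ} {d : ℝ} (hd : |d| < 1 / 2) {w : ℂ} (hw : |w.im| ≤ |d|) :
    ‖cexp (z * w) / Complex.cosh (Real.pi * w)‖ ≤
      (2 * Real.exp |z.im| / Real.cos (Real.pi * d)) * Real.exp (-(Real.pi - |z.re|) * |w.re|) := by
  have h1 := FSh_cosh_lower hd hw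
  have hc := FSh_cos_pos hd
  have h2 : ‖cexp (z * w)‖ ≤ Real.exp |z.im| * Real.exp (|z.re| * |w.re|) := by
    rw [Complex.norm_exp, ← Real.exp_add]
    apply Real.exp_le_exp.2
    rw [Complex.mul_re]
    have h3 : z.re * w.re ≤ |z.re| * |w.re| := by
      rw [← abs_mul]
      exact le_abs_self _
    have h4 : -(z.im * w.im) ≤ |z.im| := by
      have h5 : |z.im * w.im| ≤ |z.im| := by
        rw [abs_mul]
        exact mul_le_of_le_one_right (abs_nonneg _) (by linarith)
      exact (neg_le_abs _).trans h5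
    linarith
  have hpos : 0 < Real.cos (Real.pi * d) * (Real.exp (Real.pi * |w.re|) / 2) := by positivity
  rw [norm_div]
  calc ‖cexp (z * w)‖ / ‖Complex.cosh (Real.pi * w)‖ ≤
        (Real.exp |z.im| * Real.exp (|z.re| * |w.re|)) /
          (Real.cos (Real.pi * d) * (Real.exp (Real.pi * |w.re|) / 2)) :=
        div_le_div₀ (by positivity) h2 hpos h1
    _ = (2 * Real.exp |z.im| / Real.cos (Real.pi * d)) * Real.exp (-(Real.pi - |z.re|) * |w.re|) := by
        have e1 : -(Real.pi - |z.re|) * |w.re| = |z.re| * |w.re| - Real.pi * |w.re| := by ring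
        rw [e1, Real.exp_sub]
        have h6 : Real.exp (Real.pi * |w.re|) ≠ 0 := (Real.exp_pos _).ne'
        field_simp

theorem FSh_ne {w : ℂ} (hw : |w.im| < 1 / 2) : Complex.cosh (Real.pi * w) ≠ 0 := by
  have h1 := norm_cosh_ge (Real.pi * w.re) (Real.pi * w.im)
  rw [← FSh_pi_mul w] at h1
  have h2 : 0 < Real.cos (Real.pi * w.im) * Real.cosh (Real.pi * w.re) :=
    mul_pos (FSh_cos_pos hw) (Real.cosh_pos _)
  rw [← norm_pos_iff]
  exact lt_of_lt_of_le h2 h1

theorem FSh_re_im (y d : ℝ) : ((y : ℂ) + d * I).re = y ∧ ((y : ℂ) + d * I).im = d := by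
  constructor
  · rw [Complex.add_re, Complex.ofReal_re, Complex.re_ofReal_mul, Complex.I_re, mul_zero, add_zero]
  · rw [Complex.add_im, Complex.ofReal_im, Complex.im_ofReal_mul, Complex.I_im, mul_one, zero_add]

theorem fsh_int {z : ℂ} (hz : |z.re| < Real.pi) {d : ℝ} (hd : |d| < 1/2) :
    Integrable (fun y : ℝ => cexp (z * (y + d * I)) / Complex.cosh (Real.pi * (y + d * I))) := by
  have hc : 0 < Real.pi - |z.re| := by linarith
  refine Integrable.mono' ((int_exp_abs hc).const_mul (2 * Real.exp |z.im| / Real.cos (Real.pi * d))) ?_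
    (Filter.Eventually.of_forall fun y => ?_)
  · apply Continuous.aestronglyMeasurable
    refine Continuous.div ?_ ?_ fun y => ?_
    · fun_prop
    · exact Complex.continuous_cosh.comp (by fun_prop)
    · apply FSh_ne
      rw [(FSh_re_im y d).2]
      exact hd
  · have h := FSh_bound (z := z) hd (w := (y : ℂ) + d * I) (by rw [(FSh_re_im y d).2])
    rw [(FSh_re_im y d).1] at h
    exact h

theorem fsh {z : ℂ} (hz : |z.re| < Real.pi) {d : ℝ} (hd : |d| < 1/2) :
    ∫ y : ℝ, cexp (z * (y + d * I)) / Complex.cosh (Real.pi * (y + d * I)) = 1 / Complex.cos (z / 2) := by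
  have hc : 0 < Real.pi - |z.re| := by linarith
  have h := shift (fun w : ℂ => cexp (z * w) / Complex.cosh (Real.pi * w)) (r := 1 / 2)
    (C := 2 * Real.exp |z.im| / Real.cos (Real.pi * d)) (c := Real.pi - |z.re|) hd hc ?_ ?_
  · rw [← fbeta hz]
    exact h
  · intro w hw
    have hw' : |w.im| < 1 / 2 := hw
    refine DifferentiableAt.differentiableWithinAt ?_
    refine DifferentiableAt.div ?_ ?_ (FSh_ne hw')
    · exact (differentiable_id.const_mul z).cexp w
    · exact (differentiable_id.const_mul (Real.pi : ℂ)).ccosh w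
  · intro w hw
    exact FSh_bound hd hw

end PAS
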