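import Pool.Agent.Lib.MP_216314_pr.AS.GPol

/-!
G3, G4. Christoffel-Darboux and the value at `i`.

`gcd_cd`: induction on `n`. `n = 0`: `(x-y) * 1 = (1/2)(2x - 2y)`. Step: with `D n = PP (n+1) x PP n y - PP n x PP (n+1) y`:
`(n+2) D (n+1) = (2x PP(n+1) x - (n+1) PP n x) PP (n+1) y - PP (n+1) x (2y PP (n+1) y - (n+1) PP n y)
= 2(x-y) PP (n+1) x PP (n+1) y + (n+1) D n` (`PP_rec`, `linear_combination`).
`rr`: the real sequence `r_0 = 1, r_1 = 2, (k+2) r_{k+2} = 2 r_{k+1} + (k+1) r_k`; `(polP k).eval I = I^k r_k`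
(two step induction, unfold `polP`, `pol`, `alP`, `gaP`; `I^(k+2) = -I^k`).
`rr_sq`: `0 ≤ r_k`, `r_k² ≤ 4k+1`: two step induction; `(k+2)² r_{k+2}² = (2 r_{k+1} + (k+1) r_k)² ≤ (k+3)(2 r_{k+1}² + (k+1) r_k²)`
(difference `= 2 (k+1)(r_{k+1}-r_k)² ≥ 0`) `≤ (k+3)(2(4k+5) + (k+1)(4k+1)) ≤ (k+2)²(4k+9)`
(`(k+3)(4k²+13k+11) = 4k³+25k²+50k+33`, `(k²+4k+4)(4k+9) = 4k³+25k²+52k+36`).
-/

open MeasureTheory Complex

namespace PAS

theorem gcd_cd (n : ℕ) (x y : ℝ) : (x - y) * ∑ m ∈ Finset.range (n+1), PP m x * PP m y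
        = ((n:ℝ)+1)/2 * (PP (n+1) x * PP n y - PP n x * PP (n+1) y) := by
  induction n with
  | zero =>
    simp only [zero_add, Finset.sum_range_one, Nat.cast_zero, PP]
    ring
  | succ n ih =>
    have hx := PP_rec n x
    have hy := PP_rec n y
    rw [Finset.sum_range_succ]
    push_cast
    have e : n + 1 + 1 = n + 2 := rfl
    rw [e]
    linear_combination ih - (1/2) * PP (n+1) y * hx + (1/2) * PP (n+1) x * hy

/-- modulus of `PP_k(i)` -/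
noncomputable def rr : ℕ → ℝ
  | 0 => 1
  | 1 => 2
  | (k+2) => (2 * rr (k+1) + ((k:ℝ)+1) * rr k) / ((k:ℝ)+2)

theorem GCD_rr_rec (k : ℕ) : ((k:ℝ)+2) * rr (k+2) = 2 * rr (k+1) + ((k:ℝ)+1) * rr k := by
  have h : (k:ℝ) + 2 ≠ 0 := by positivity
  have e : rr (k+2) = (2 * rr (k+1) + ((k:ℝ)+1) * rr k) / ((k:ℝ)+2) := rfl
  rw [e]
  field_simp

theorem GCD_rr_rec_c (k : ℕ) : ((k:ℂ)+2) * (rr (k+2) : ℂ) = 2 * (rr (k+1) : ℂ) + ((k:ℂ)+1) * (rr k : ℂ) := by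
  have h := congrArg (fun z : ℝ => (z : ℂ)) (GCD_rr_rec k)
  push_cast at h
  exact h

theorem GCD_step (k : ℕ) (h0 : (polP k).eval I = I^k * (rr k : ℂ))
    (h1 : (polP (k+1)).eval I = I^(k+1) * (rr (k+1) : ℂ)) :
    (polP (k+2)).eval I = I^(k+2) * (rr (k+2) : ℂ) := by
  have hr := GCD_rr_rec_c k
  have hk : (k:ℂ) + 2 ≠ 0 := by
    have : ((k:ℂ) + 2) = ((k + 2 : ℕ) : ℂ) := by push_cast; ring
    rw [this]
    exact_mod_cast Nat.succ_ne_zero (k+1)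
  have e : polP (k+2) = (Polynomial.C (alP (k+1)) * Polynomial.X + Polynomial.C (0:ℂ)) * polP (k+1)
      - Polynomial.C (gaP (k+1)) * polP k := pol_rec alP (fun _ => 0) gaP k
  rw [e]
  simp only [Polynomial.eval_sub, Polynomial.eval_mul, Polynomial.eval_add, Polynomial.eval_C, Polynomial.eval_X,
    h0, h1]
  have a1 : alP (k+1) = 2 / ((k:ℂ) + 2) := by
    simp only [alP]; push_cast; ring_nf
  have g1 : gaP (k+1) = ((k:ℂ) + 1) / ((k:ℂ) + 2) := by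
    simp only [gaP]; push_cast; ring_nf
  rw [a1, g1]
  have hr2 : (rr (k+2) : ℂ) = (2 * (rr (k+1) : ℂ) + ((k:ℂ)+1) * (rr k : ℂ)) / ((k:ℂ) + 2) := by
    rw [← hr]; field_simp
  rw [hr2]
  have hI : I^(k+2) = - I^k := by rw [pow_add, I_sq]; ring
  have hI2 : I * I^(k+1) = - I^k := by rw [← hI]; ring
  have h3 : (2 / ((k:ℂ) + 2) * I + 0) * (I^(k+1) * (rr (k+1) : ℂ)) = (2 / ((k:ℂ) + 2)) * (rr (k+1) : ℂ) * (I * I^(k+1)) := by ring
  rw [h3, hI2, hI]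
  field_simp
  ring

theorem rr_eval (k : ℕ) : (polP k).eval I = I^k * (rr k : ℂ) := by
  have key : ∀ k : ℕ, (polP k).eval I = I^k * (rr k : ℂ) ∧ (polP (k+1)).eval I = I^(k+1) * (rr (k+1) : ℂ) := by
    intro k
    induction k with
    | zero =>
      constructor
      · simp [polP, pol, rr]
      · simp [polP, pol, rr, alP]
        ring
    | succ k ih => exact ⟨ih.2, GCD_step k ih.1 ih.2⟩
  exact (key k).1

theorem rr_sq (k : ℕ) : 0 ≤ rr k ∧ rr k ^ 2 ≤ 4 * (k:ℝ) + 1 := by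
  have key : ∀ k : ℕ, (0 ≤ rr k ∧ rr k ^ 2 ≤ 4 * (k:ℝ) + 1) ∧
      (0 ≤ rr (k+1) ∧ rr (k+1) ^ 2 ≤ 4 * ((k:ℝ)+1) + 1) := by
    intro k
    induction k with
    | zero =>
      refine ⟨⟨?_, ?_⟩, ?_, ?_⟩
      · simp [rr]
      · simp [rr]
      · simp [rr]
      · simp [rr]
        norm_num
    | succ k ih =>
      obtain ⟨⟨a0, a1⟩, b0, b1⟩ := ih
      refine ⟨⟨b0, ?_⟩, ?_, ?_⟩
      · push_cast; linarith
      · have hk : (0:ℝ) < (k:ℝ) + 2 := by positivity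
        have e : rr (k+1+1) = (2 * rr (k+1) + ((k:ℝ)+1) * rr k) / ((k:ℝ)+2) := rfl
        rw [e]
        apply div_nonneg _ hk.le
        have : (0:ℝ) ≤ (k:ℝ) := Nat.cast_nonneg k
        nlinarith [mul_nonneg (by linarith : (0:ℝ) ≤ (k:ℝ) + 1) a0]
      · have hk0 : (0:ℝ) ≤ (k:ℝ) := Nat.cast_nonneg k
        have hk : (0:ℝ) < (k:ℝ) + 2 := by positivity
        have hr := GCD_rr_rec k
        have e : rr (k+1+1) = rr (k+2) := rfl
        rw [e]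
        push_cast
        set u := rr (k+1)
        set v := rr k
        set w := rr (k+2)
        have h1 : ((k:ℝ)+2)^2 * w^2 = (2 * u + ((k:ℝ)+1) * v)^2 := by rw [← hr]; ring
        have h2 : (2 * u + ((k:ℝ)+1) * v)^2 ≤ ((k:ℝ)+3) * (2 * u^2 + ((k:ℝ)+1) * v^2) := by
          have : ((k:ℝ)+3) * (2 * u^2 + ((k:ℝ)+1) * v^2) - (2 * u + ((k:ℝ)+1) * v)^2
              = 2 * ((k:ℝ)+1) * (u - v)^2 := by ring
          have h5 : 0 ≤ 2 * ((k:ℝ)+1) * (u - v)^2 := by positivity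
          linarith
        have h3 : ((k:ℝ)+3) * (2 * u^2 + ((k:ℝ)+1) * v^2)
            ≤ ((k:ℝ)+3) * (2 * (4 * ((k:ℝ)+1) + 1) + ((k:ℝ)+1) * (4 * (k:ℝ) + 1)) := by
          apply mul_le_mul_of_nonneg_left _ (by linarith)
          have h6 : ((k:ℝ)+1) * v^2 ≤ ((k:ℝ)+1) * (4 * (k:ℝ) + 1) :=
            mul_le_mul_of_nonneg_left a1 (by linarith)
          linarith
        have h4 : ((k:ℝ)+3) * (2 * (4 * ((k:ℝ)+1) + 1) + ((k:ℝ)+1) * (4 * (k:ℝ) + 1))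
            ≤ ((k:ℝ)+2)^2 * (4 * ((k:ℝ)+1+1) + 1) := by nlinarith
        have h5 : ((k:ℝ)+2)^2 * w^2 ≤ ((k:ℝ)+2)^2 * (4 * ((k:ℝ)+1+1) + 1) := by
          rw [h1]; linarith
        exact le_of_mul_le_mul_left h5 (by positivity)
  exact (key k).1

end PAS
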