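import Pool.Agent.Lib.MP_216314_pr.AS.GJ

/-!
G5. `|∫ PP_n(y) sech(π y)/(y-i) dy| ≤ 2/((n+1) sqrt(n+2))`.

PROOF. For real `y`: `1/(y - i) = i ∫_{v>0} exp(-v (1+iy)) dv` (`i (y-i) = 1 + i y`; `integral_exp_mul_complex_Ioi`, `c = 0`,
`a = -(1+iy)`, `a.re = -1 < 0`). Fubini (`MeasureTheory.integral_integral_swap`) on `volume × (volume.restrict (Ioi 0))`, the
integrand `exp(-v) exp(-i v y) PP_n(y) sw(y)` has norm `exp(-v) |PP_n(y)| sw(y)`, a product of integrable functions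
(`Integrable.mul_prod` and continuity): gives
`∫ PP_n sw/(y-i) dy = i ∫_{v>0} exp(-v) J(v) dv`, `J(v) = ∫ PP_n exp(-ivy) sw dy = Mo sw (polP n) (-v)`, which by `gj` has norm
`(sinh(v/2)/cosh(v/2))^n / cosh(v/2)` for `v > 0`. Bound, with `s = exp(-v) ∈ (0,1)`:
`sinh(v/2)/cosh(v/2) = (1-s)/(1+s) ≤ 1-s`, `1/cosh(v/2) = 2 exp(-v/2)/(1+s) ≤ 2 exp(-v/2)`, and for `l = sqrt(n+2)`:
`2 exp(-v/2) ≤ l s + 1/l` (AM-GM: `s = (exp(-v/2))²`). So the norm of the integral is at most
`∫_{v>0} exp(-v) (l exp(-v) + 1/l) (1-exp(-v))^n dv = l/((n+1)(n+2)) + 1/(l (n+1)) = 2/((n+1) l)`: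
antiderivative of `exp(-v)(1-exp(-v))^n` is `(1-exp(-v))^(n+1)/(n+1)` (value 0 at 0, `1/(n+1)` at infinity), and
`exp(-2v)(1-exp(-v))^n = exp(-v)(1-exp(-v))^n - exp(-v)(1-exp(-v))^(n+1)`; use
`MeasureTheory.integral_Ioi_of_hasDerivAt_of_nonneg'` / `integral_Ioi_of_hasDerivAt_of_tendsto` (and
`integrableOn_Ioi_deriv_of_nonneg'`). Then `MeasureTheory.norm_integral_le_of_norm_le`/`integral_mono`.
-/

open MeasureTheory Complex

namespace PAS

private noncomputable def GE_a (y : ℝ) : ℂ := -(1 + I * (y : ℂ))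

private theorem GE_a_re (y : ℝ) : (GE_a y).re = -1 := by
  simp [GE_a]

private theorem GE_a_mul_re (y v : ℝ) : (GE_a y * (v : ℂ)).re = -v := by
  rw [Complex.re_mul_ofReal, GE_a_re]
  ring

private theorem GE_inv (y : ℝ) :
    (1 : ℂ) / ((y : ℂ) - I) = I * ∫ v : ℝ in Set.Ioi 0, cexp (GE_a y * (v : ℂ)) := by
  rw [integral_exp_mul_complex_Ioi (by rw [GE_a_re]; norm_num) 0]
  have h1 : (y : ℂ) - I ≠ 0 := by
    intro h
    have := congrArg Complex.im h
    simp at this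
  have h2 : GE_a y ≠ 0 := by
    intro h
    have := congrArg Complex.re h
    rw [GE_a_re] at this
    simp at this
  rw [Complex.ofReal_zero, mul_zero, Complex.exp_zero]
  rw [div_eq_iff h1, mul_div_assoc', div_mul_eq_mul_div, eq_div_iff h2]
  unfold GE_a
  linear_combination (-(1 : ℂ)) * Complex.I_mul_I

private theorem GE_G_int (n : ℕ) : Integrable (fun y : ℝ => ((PP n y * sw y : ℝ) : ℂ)) := by
  have h := mo_int edec_sw (polP n) 0
  refine h.congr (Filter.Eventually.of_forall fun y => ?_)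
  simp only [Complex.ofReal_zero, mul_zero, zero_mul, Complex.exp_zero, mul_one]
  rw [polP_eval]
  push_cast
  ring

private theorem GE_exp_int : Integrable (fun v : ℝ => Real.exp (-v)) (volume.restrict (Set.Ioi 0)) := by
  have h := exp_neg_integrableOn_Ioi 0 (b := 1) one_pos
  refine h.congr (Filter.Eventually.of_forall fun v => ?_)
  simp

private theorem GE_prod_int (n : ℕ) : Integrable
    (Function.uncurry fun (y v : ℝ) => ((PP n y * sw y : ℝ) : ℂ) * cexp (GE_a y * (v : ℂ)))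
    ((volume : Measure ℝ).prod (volume.restrict (Set.Ioi 0))) := by
  have h := (GE_G_int n).norm.mul_prod GE_exp_int
  refine h.mono' ?_ ?_
  · refine Continuous.aestronglyMeasurable ?_
    unfold GE_a
    have h1 : Continuous (PP n) := PP_cont n
    have h2 : Continuous sw := sw_cont
    have h3 : Continuous fun q : ℝ × ℝ => ((PP n q.1 * sw q.1 : ℝ) : ℂ) :=
      Complex.continuous_ofReal.comp ((h1.comp continuous_fst).mul (h2.comp continuous_fst))
    have h4 : Continuous fun q : ℝ × ℝ => cexp (-(1 + I * (q.1 : ℂ)) * (q.2 : ℂ)) := by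
      fun_prop
    exact h3.mul h4
  · refine Filter.Eventually.of_forall fun q => ?_
    rcases q with ⟨y, v⟩
    simp only [Function.uncurry_apply_pair]
    rw [norm_mul, Complex.norm_exp, GE_a_mul_re]

private theorem GE_inner (n : ℕ) (v : ℝ) :
    ∫ y : ℝ, ((PP n y * sw y : ℝ) : ℂ) * cexp (GE_a y * (v : ℂ))
      = cexp (-(v : ℂ)) * Mo (fun y => ((sw y : ℝ) : ℂ)) (polP n) (-v) := by
  unfold Mo
  rw [← integral_const_mul]
  refine integral_congr_ae (Filter.Eventually.of_forall fun y => ?_)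
  simp only
  rw [polP_eval]
  have h : cexp (GE_a y * (v : ℂ)) = cexp (-(v : ℂ)) * cexp (I * ((-v : ℝ) : ℂ) * (y : ℂ)) := by
    rw [← Complex.exp_add]
    unfold GE_a
    push_cast
    ring_nf
  rw [h]
  push_cast
  ring

private theorem GE_swap (n : ℕ) : ∫ y : ℝ, ((PP n y * sw y : ℝ) : ℂ) / ((y : ℂ) - I)
    = I * ∫ v : ℝ in Set.Ioi 0, cexp (-(v : ℂ)) * Mo (fun y => ((sw y : ℝ) : ℂ)) (polP n) (-v) := by
  have h1 : ∀ y : ℝ, ((PP n y * sw y : ℝ) : ℂ) / ((y : ℂ) - I)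
      = I * ∫ v : ℝ in Set.Ioi 0, ((PP n y * sw y : ℝ) : ℂ) * cexp (GE_a y * (v : ℂ)) := by
    intro y
    rw [integral_const_mul, div_eq_mul_one_div, GE_inv]
    ring
  simp_rw [h1]
  rw [integral_const_mul]
  congr 1
  rw [integral_integral_swap (GE_prod_int n)]
  refine integral_congr_ae (Filter.Eventually.of_forall fun v => ?_)
  exact GE_inner n v

private theorem GE_pt (n : ℕ) (l v : ℝ) (hl : 0 < l) (hv : 0 < v) :
    ‖cexp (-(v : ℂ)) * Mo (fun y => ((sw y : ℝ) : ℂ)) (polP n) (-v)‖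
      ≤ Real.exp (-v) * (1 - Real.exp (-v))^n * (l * Real.exp (-v) + 1 / l) := by
  set s := Real.exp (-v) with hs
  have hs0 : 0 < s := Real.exp_pos _
  have hs1 : s < 1 := by
    rw [hs, Real.exp_lt_one_iff]
    linarith
  set w := Real.exp (-(v / 2)) with hw
  have hw0 : 0 < w := Real.exp_pos _
  have hws : s = w ^ 2 := by
    rw [hs, hw, ← Real.exp_nat_mul]
    congr 1
    push_cast
    ring
  have hwi : Real.exp (v / 2) = 1 / w := by
    rw [hw, Real.exp_neg, one_div, inv_inv]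
  have hch : Real.cosh (v / 2) = (1 + s) / (2 * w) := by
    rw [Real.cosh_eq, ← hw, hwi, hws]
    field_simp
  have hsh : Real.sinh (v / 2) = (1 - s) / (2 * w) := by
    rw [Real.sinh_eq, ← hw, hwi, hws]
    field_simp
  have hc0 : 0 < Real.cosh (v / 2) := Real.cosh_pos _
  rw [norm_mul, gj n (-v), norm_div, norm_pow, norm_mul, Complex.norm_I, one_mul,
    Complex.norm_real, Complex.norm_real, Complex.norm_exp]
  have h1 : (-v) / 2 = -(v / 2) := by ring
  rw [h1, Real.sinh_neg, Real.cosh_neg, neg_div, norm_neg]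
  have h2 : (-(v : ℂ)).re = -v := by simp
  rw [h2, ← hs]
  have h3 : ‖Real.sinh (v / 2) / Real.cosh (v / 2)‖ = (1 - s) / (1 + s) := by
    rw [hch, hsh]
    have : (1 - s) / (2 * w) / ((1 + s) / (2 * w)) = (1 - s) / (1 + s) := by
      field_simp
    rw [this, Real.norm_of_nonneg]
    exact div_nonneg (by linarith) (by linarith)
  have h4 : ‖Real.cosh (v / 2)‖ = (1 + s) / (2 * w) := by
    rw [Real.norm_of_nonneg hc0.le, hch]
  rw [h3, h4]
  have h5 : (1 - s) / (1 + s) ≤ 1 - s := by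
    rw [div_le_iff₀ (by linarith)]
    nlinarith
  have h5' : 0 ≤ (1 - s) / (1 + s) := div_nonneg (by linarith) (by linarith)
  have h6 : ((1 - s) / (1 + s))^n ≤ (1 - s)^n := pow_le_pow_left₀ h5' h5 n
  have h7 : 1 / ((1 + s) / (2 * w)) ≤ l * s + 1 / l := by
    have h8 : 1 / ((1 + s) / (2 * w)) ≤ 2 * w := by
      rw [one_div_div, div_le_iff₀ (by linarith)]
      nlinarith
    refine h8.trans ?_
    have h9 : 2 * w * l ≤ (l * s + 1 / l) * l := by
      have : (l * s + 1 / l) * l = (l * w)^2 + 1 := by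
        rw [hws]
        field_simp
      rw [this]
      nlinarith [sq_nonneg (l * w - 1)]
    exact le_of_mul_le_mul_right h9 hl
  have h10 : 0 ≤ 1 / ((1 + s) / (2 * w)) := by positivity
  calc s * (((1 - s) / (1 + s))^n / ((1 + s) / (2 * w)))
      = s * (((1 - s) / (1 + s))^n * (1 / ((1 + s) / (2 * w)))) := by rw [mul_one_div]
    _ ≤ s * ((1 - s)^n * (l * s + 1 / l)) := by
        refine mul_le_mul_of_nonneg_left ?_ hs0.le
        exact mul_le_mul h6 h7 h10 (pow_nonneg (by linarith) n)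
    _ = s * (1 - s)^n * (l * s + 1 / l) := by ring

private noncomputable def GE_H (n : ℕ) (l v : ℝ) : ℝ :=
  (l + 1 / l) * (1 - Real.exp (-v))^(n + 1) / ((n : ℝ) + 1) - l * (1 - Real.exp (-v))^(n + 2) / ((n : ℝ) + 2)

private theorem GE_H_deriv (n : ℕ) (l v : ℝ) : HasDerivAt (GE_H n l)
    (Real.exp (-v) * (1 - Real.exp (-v))^n * (l * Real.exp (-v) + 1 / l)) v := by
  have h1 : HasDerivAt (fun v : ℝ => 1 - Real.exp (-v)) (Real.exp (-v)) v := by
    have h := ((hasDerivAt_id v).neg.exp).const_sub 1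
    simpa using h
  have h2 := ((h1.pow (n + 1)).const_mul (l + 1 / l)).div_const ((n : ℝ) + 1)
  have h3 := ((h1.pow (n + 2)).const_mul l).div_const ((n : ℝ) + 2)
  have h4 := h2.sub h3
  have hn1 : (n : ℝ) + 1 ≠ 0 := by positivity
  have hn2 : (n : ℝ) + 2 ≠ 0 := by positivity
  refine HasDerivAt.congr_deriv (f := GE_H n l) h4 ?_
  have e1 : n + 1 - 1 = n := by omega
  have e2 : n + 2 - 1 = n + 1 := by omega
  rw [e1, e2]
  push_cast
  field_simp
  ring

private theorem GE_H_lim (n : ℕ) (l : ℝ) : Filter.Tendsto (GE_H n l) Filter.atTop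
    (nhds ((l + 1 / l) / ((n : ℝ) + 1) - l / ((n : ℝ) + 2))) := by
  have h1 : Filter.Tendsto (fun v : ℝ => Real.exp (-v)) Filter.atTop (nhds 0) :=
    Real.tendsto_exp_neg_atTop_nhds_zero
  have h2 : Filter.Tendsto (fun v : ℝ => 1 - Real.exp (-v)) Filter.atTop (nhds 1) := by
    simpa using h1.const_sub 1
  have h3 := ((h2.pow (n + 1)).const_mul (l + 1 / l)).div_const ((n : ℝ) + 1)
  have h4 := ((h2.pow (n + 2)).const_mul l).div_const ((n : ℝ) + 2)
  have h5 := h3.sub h4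
  simp only [one_pow, mul_one] at h5
  exact h5

theorem ge_bound (n : ℕ) :
    ‖∫ y : ℝ, ((PP n y * sw y : ℝ) : ℂ) / ((y:ℂ) - I)‖ ≤ 2 / (((n:ℝ)+1) * Real.sqrt ((n:ℝ)+2)) := by
  set l := Real.sqrt ((n : ℝ) + 2) with hl
  have hl0 : 0 < l := Real.sqrt_pos.2 (by positivity)
  have hl2 : l ^ 2 = (n : ℝ) + 2 := Real.sq_sqrt (by positivity)
  rw [GE_swap, norm_mul, Complex.norm_I, one_mul]
  have hd : ∀ v ∈ Set.Ici (0 : ℝ), HasDerivAt (GE_H n l)
      (Real.exp (-v) * (1 - Real.exp (-v))^n * (l * Real.exp (-v) + 1 / l)) v :=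
    fun v _ => GE_H_deriv n l v
  have hp : ∀ v ∈ Set.Ioi (0 : ℝ),
      0 ≤ Real.exp (-v) * (1 - Real.exp (-v))^n * (l * Real.exp (-v) + 1 / l) := by
    intro v hv
    have h1 : Real.exp (-v) ≤ 1 := by
      rw [Real.exp_le_one_iff]
      have : (0 : ℝ) < v := hv
      linarith
    have h2 : 0 ≤ 1 - Real.exp (-v) := by linarith
    positivity
  have hint := integrableOn_Ioi_deriv_of_nonneg' hd hp (GE_H_lim n l)
  have hval := integral_Ioi_of_hasDerivAt_of_nonneg' hd hp (GE_H_lim n l)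
  have hb := norm_integral_le_of_norm_le (μ := volume.restrict (Set.Ioi (0 : ℝ)))
    (f := fun v : ℝ => cexp (-(v : ℂ)) * Mo (fun y => ((sw y : ℝ) : ℂ)) (polP n) (-v)) hint
    ((ae_restrict_iff' measurableSet_Ioi).2 (Filter.Eventually.of_forall fun v hv =>
      GE_pt n l v hl0 hv))
  refine hb.trans (le_of_eq ?_)
  rw [hval]
  have h0 : GE_H n l 0 = 0 := by
    simp [GE_H]
  rw [h0]
  have hn1 : (n : ℝ) + 1 ≠ 0 := by positivity
  rw [← hl2]
  have hl' : l ≠ 0 := hl0.ne'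
  field_simp
  nlinarith [hl2]

end PAS
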