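import Pool.Agent.Lib.MP_216314_pr.AS.ADef

/-!
Favard's lemma for a linear functional `L` on `ℂ[X]` and the recursion with `be = 0`, all `al k ≠ 0`:
if `L (p_k) = 0` for `k ≥ 1` then `L (p_i p_j) = 0` for `i ≠ j` and `L (p_i²) = h i`, where `h 0 = L 1` and
`h (j+1) = h j * al j * ga (j+1) / al (j+1)`.

PROOF. `X p_i = (1/al i) p_{i+1} + (ga i/al i) p_{i-1}` (for `i = 0`: `X p_0 = (1/al 0) p_1`). Put `μ i j = L (p_i p_j)`.
For `j ≥ 1`: `p_{j+1} = al j X p_j - ga j p_{j-1}` so
`μ i (j+1) = al j * L((X p_i) p_j) - ga j μ i (j-1) = al j * ((1/al i) μ (i+1) j + (ga i/al i) μ (i-1) j) - ga j μ i (j-1)`,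
(for `i = 0` without the middle term; for `j = 0` without the last term: `μ i 1 = al 0 * (...)`).
Induction: claim(j): `∀ i, μ i j = if i = j then h j else 0`. claim(0) is the hypothesis (`p_0 = 1`).
claim(1) from claim(0): `μ i 1 = al 0 ((1/al i) μ (i+1) 0 + (ga i/al i) μ (i-1) 0)`: zero unless `i = 1`, where it is
`al 0 * ga 1/al 1 * h 0 = h 1`; for `i = 0`: `al 0/al 0 * μ 1 0 = 0`.
claim(j+2) from claim(j+1), claim(j): value at `i`: `al (j+1) ((1/al i)[i+1 = j+1] h(j+1) + (ga i/al i)[i-1 = j+1] h(j+1))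
- ga (j+1) [i = j] h j`: at `i = j`: `(al (j+1)/al j) h (j+1) - ga (j+1) h j = 0` by the recursion of `h`; at `i = j+2`:
`al (j+1) ga (j+2)/al (j+2) h (j+1) = h (j+2)`; otherwise 0.
Do the case distinction on `i` by `rcases i with _ | i` and `by_cases`/`omega`.
-/

open MeasureTheory Complex

namespace PAS

private theorem gfav_C (L : Polynomial ℂ →ₗ[ℂ] ℂ) (a : ℂ) (p : Polynomial ℂ) :
    L (Polynomial.C a * p) = a * L p := by
  rw [← Polynomial.smul_eq_C_mul, map_smul, smul_eq_mul]

private theorem gfav_one (L : Polynomial ℂ →ₗ[ℂ] ℂ) (al ga : ℕ → ℂ) (p : Polynomial ℂ) :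
    al 0 * L (Polynomial.X * p) = L (pol al (fun _ => 0) ga 1 * p) := by
  have h : pol al (fun _ => 0) ga 1 * p = Polynomial.C (al 0) * (Polynomial.X * p) := by
    show (Polynomial.C (al 0) * Polynomial.X + Polynomial.C 0) * p = _
    rw [Polynomial.C_0]; ring
  rw [h, gfav_C]

private theorem gfav_rec (L : Polynomial ℂ →ₗ[ℂ] ℂ) (al ga : ℕ → ℂ) (k : ℕ) (p : Polynomial ℂ) :
    al (k+1) * L (Polynomial.X * (pol al (fun _ => 0) ga (k+1) * p))
      = L (pol al (fun _ => 0) ga (k+2) * p) + ga (k+1) * L (pol al (fun _ => 0) ga k * p) := by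
  have h : pol al (fun _ => 0) ga (k+2) * p
      = Polynomial.C (al (k+1)) * (Polynomial.X * (pol al (fun _ => 0) ga (k+1) * p))
        - Polynomial.C (ga (k+1)) * (pol al (fun _ => 0) ga k * p) := by
    show ((Polynomial.C (al (k+1)) * Polynomial.X + Polynomial.C 0) * pol al (fun _ => 0) ga (k+1)
      - Polynomial.C (ga (k+1)) * pol al (fun _ => 0) ga k) * p = _
    rw [Polynomial.C_0]; ring
  rw [h, map_sub, gfav_C, gfav_C]; ring

theorem favard (L : Polynomial ℂ →ₗ[ℂ] ℂ) (al ga h : ℕ → ℂ) (hal : ∀ k, al k ≠ 0)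
    (h0 : L 1 = h 0) (hL : ∀ k, L (pol al (fun _ => 0) ga (k+1)) = 0)
    (hh : ∀ j, h (j+1) = h j * al j * ga (j+1) / al (j+1)) (i j : ℕ) :
    L (pol al (fun _ => 0) ga i * pol al (fun _ => 0) ga j) = if i = j then h j else 0 := by
  set P : ℕ → Polynomial ℂ := fun k => pol al (fun _ => 0) ga k with hP
  have hP0 : P 0 = 1 := rfl
  have hone : ∀ p : Polynomial ℂ, al 0 * L (Polynomial.X * p) = L (P 1 * p) :=
    fun p => gfav_one L al ga p
  have hrec : ∀ (k : ℕ) (p : Polynomial ℂ), al (k+1) * L (Polynomial.X * (P (k+1) * p))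
      = L (P (k+2) * p) + ga (k+1) * L (P k * p) := fun k p => gfav_rec L al ga k p
  have hPL : ∀ k, L (P (k+1)) = 0 := hL
  have c0 : ∀ i, L (P i * P 0) = if i = 0 then h 0 else 0 := by
    intro i
    rw [hP0, mul_one]
    rcases i with _ | i
    · rw [if_pos rfl, hP0, h0]
    · rw [if_neg (Nat.succ_ne_zero i), hPL]
  have hhj : ∀ j, h (j+1) * al (j+1) = h j * al j * ga (j+1) := by
    intro j
    rw [hh j, div_mul_cancel₀ _ (hal (j+1))]
  have c1 : ∀ i, L (P i * P 1) = if i = 1 then h 1 else 0 := by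
    intro i
    have e1 : al 0 * L (Polynomial.X * P i) = L (P i * P 1) := by
      rw [hone (P i), mul_comm]
    rcases i with _ | i
    · rw [mul_comm (P 0) (P 1), c0 1, if_neg (by norm_num), if_neg (by norm_num)]
    · have e2 := hrec i 1
      have e3 := c0 (i+2)
      have e4 := c0 i
      rw [hP0] at e3 e4
      rw [e3, e4, mul_one, if_neg (by omega)] at e2
      rw [← e1]
      apply mul_left_cancel₀ (hal (i+1))
      rw [← mul_assoc, mul_comm (al (i+1)) (al 0), mul_assoc, e2]
      by_cases hi : i = 0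
      · subst hi
        rw [if_pos rfl, if_pos rfl]
        have := hhj 0
        simp only [zero_add] at this ⊢
        rw [mul_comm (al 1) (h 1), this]; ring
      · rw [if_neg hi, if_neg (by omega)]; ring
  have key : ∀ j, (∀ i, L (P i * P j) = if i = j then h j else 0) ∧
      (∀ i, L (P i * P (j+1)) = if i = j+1 then h (j+1) else 0) := by
    intro j
    induction j with
    | zero => exact ⟨c0, c1⟩
    | succ j ih =>
      obtain ⟨ihj, ihj1⟩ := ih
      refine ⟨ihj1, ?_⟩
      intro i
      have e1 : al (j+1) * L (Polynomial.X * (P (j+1) * P i))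
          = L (P i * P (j+2)) + ga (j+1) * L (P i * P j) := by
        rw [hrec j (P i), mul_comm (P (j+2)) (P i), mul_comm (P j) (P i)]
      rw [ihj i] at e1
      show L (P i * P (j+2)) = if i = j+2 then h (j+2) else 0
      have e1' : L (P i * P (j+2)) = al (j+1) * L (Polynomial.X * (P (j+1) * P i))
          - ga (j+1) * (if i = j then h j else 0) := by
        rw [e1]; ring
      rw [e1']
      rcases i with _ | i
      · have e2 := hone (P (j+1))
        rw [ihj1 1] at e2
        rw [hP0, mul_one, if_neg (by omega : ¬ (0 = j+2))]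
        apply mul_left_cancel₀ (hal 0)
        rw [mul_sub, ← mul_assoc, mul_comm (al 0) (al (j+1)), mul_assoc, e2]
        by_cases hj : j = 0
        · subst hj
          rw [if_pos rfl, if_pos rfl]
          have := hhj 0
          simp only [zero_add] at this ⊢
          rw [mul_comm (al 1) (h 1), this]; ring
        · rw [if_neg (by omega), if_neg (by omega)]; ring
      · have e2 := hrec i (P (j+1))
        rw [ihj1 (i+2), ihj1 i] at e2
        have e3 : Polynomial.X * (P (j+1) * P (i+1)) = Polynomial.X * (P (i+1) * P (j+1)) := by ring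
        rw [e3]
        apply mul_left_cancel₀ (hal (i+1))
        rw [mul_sub, ← mul_assoc, mul_comm (al (i+1)) (al (j+1)), mul_assoc, e2]
        by_cases h1 : i + 1 = j
        · subst h1
          rw [if_pos (by omega), if_neg (by omega), if_pos rfl, if_neg (by omega)]
          have := hhj (i+1)
          have e4 : al (i+1+1) * (h (i+1+1) + ga (i+1) * 0) = h (i+1+1) * al (i+1+1) := by ring
          rw [e4, this]; ring
        · by_cases h2 : i = j + 1
          · subst h2
            rw [if_neg (by omega), if_pos rfl, if_neg (by omega), if_pos (by omega)]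
            have := hhj (j+1)
            have e4 : al (j+1+1) * h (j+2) = h (j+1+1) * al (j+1+1) := by ring
            rw [e4, this]; ring
          · rw [if_neg (by omega), if_neg h2, if_neg (by omega), if_neg (by omega)]; ring
  exact (key j).1 i

end PAS
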