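import Pool.Agent.Lib.MP_216314_pr.AS.GE
import Pool.Agent.Lib.MP_216314_pr.AS.GCD

/-!
G6, G7. `I_n = ∫ PP_n² sech(π y)/(1+y²) dy ≤ 4/(n+1)`.

PROOF. `gi_low`: `∫ p PP_n sw = 0` if `natDegree p < n`. The polynomials `polP k` have degree ≤ k and nonzero coefficient
`2^k/k!` at `X^k` (`pol_deg`, `pol_coeff`, `polP_lead`), so by induction on `m ≤ n`: every `p` with `natDegree p < m`
satisfies `Mo sw (p * polP n) 0 = 0` (subtract `C (p.coeff (m-1) / lead) * polP (m-1)`, degree drops, `gorth`).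
`gi_id`: `∫ PP_n² sw/(y-i) = PP_n(i) ∫ PP_n sw/(y-i)`: `polP n - C ((polP n).eval I) = (X - C I) * q`
(`Polynomial.mul_divByMonic_eq_iff_isRoot` / `Polynomial.dvd_iff_isRoot`), `natDegree q < n` if `n ≥ 1` (if `n = 0` both sides
agree since `PP_0 = 1`), and for real `y`: `PP_n(y)² sw/(y-i) = PP_n(i) PP_n(y) sw/(y-i) + q(y) PP_n(y) sw`, integrate with
`gi_low` (integrability: `1/(y-i)` is bounded by 1 and continuous, polynomials times sw are integrable by `mo_int`, `v = 0`).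
`gi`: `1/(1+y²) = Im (1/(y-i))`, so `I_n = Im ∫ PP_n² sw/(y-i) ≤ ‖PP_n(i)‖ ‖∫ PP_n sw/(y-i)‖ ≤ sqrt(4n+1) * 2/((n+1)sqrt(n+2))
≤ 4/(n+1)` (`rr_eval`, `rr_sq`, `ge_bound`, `sqrt(4n+1) ≤ 2 sqrt(n+2)`; `integral_im`/`Complex.imCLM` commutes with the integral).
-/

open MeasureTheory Complex

namespace PAS

theorem gi_low (n : ℕ) (p : Polynomial ℂ) (hp : p.natDegree < n) :
    Mo (fun y => ((sw y : ℝ) : ℂ)) (p * polP n) 0 = 0 := by
  have key : ∀ m : ℕ, m ≤ n → ∀ p : Polynomial ℂ, (∀ k, m ≤ k → p.coeff k = 0) →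
      Mo (fun y => ((sw y : ℝ) : ℂ)) (p * polP n) 0 = 0 := by
    intro m
    induction m with
    | zero =>
      intro _ p hp0
      have h0 : p = 0 := by
        ext k
        rw [hp0 k (Nat.zero_le k), Polynomial.coeff_zero]
      rw [h0, zero_mul]
      simp [Mo]
    | succ m ih =>
      intro hm p hp1
      have hlead : (polP m).coeff m ≠ 0 := by
        have h1 : (polP m).coeff m = ∏ j ∈ Finset.range m, alP j := pol_coeff _ _ _ m
        rw [h1, polP_lead]
        have h2 : (m.factorial : ℂ) ≠ 0 := by exact_mod_cast Nat.factorial_ne_zero m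
        exact div_ne_zero (pow_ne_zero _ two_ne_zero) h2
      have hq : ∀ k, m ≤ k →
          (p - Polynomial.C (p.coeff m / (polP m).coeff m) * polP m).coeff k = 0 := by
        intro k hk
        rw [Polynomial.coeff_sub, Polynomial.coeff_C_mul]
        rcases Nat.eq_or_lt_of_le hk with h | h
        · subst h
          rw [div_mul_cancel₀ _ hlead, sub_self]
        · have h3 : (polP m).coeff k = 0 :=
            Polynomial.coeff_eq_zero_of_natDegree_lt (lt_of_le_of_lt (pol_deg _ _ _ m) h)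
          rw [hp1 k h, h3, mul_zero, sub_zero]
      have h4 := ih (by omega) _ hq
      have h5 : p * polP n = (p - Polynomial.C (p.coeff m / (polP m).coeff m) * polP m) * polP n
          + Polynomial.C (p.coeff m / (polP m).coeff m) * (polP m * polP n) := by ring
      rw [h5, mo_add edec_sw, h4, mo_C_mul, gorth m n, if_neg (by omega), mul_zero, add_zero]
  refine key n le_rfl p ?_
  intro k hk
  exact Polynomial.coeff_eq_zero_of_natDegree_lt (lt_of_lt_of_le hp hk)

private theorem gi_ne (y : ℝ) : (y:ℂ) - I ≠ 0 := by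
  intro h
  have h1 := congrArg Complex.im h
  simp at h1

private theorem gi_norm (y : ℝ) : (1:ℝ) ≤ ‖(y:ℂ) - I‖ := by
  have h1 : |((y:ℂ) - I).im| ≤ ‖(y:ℂ) - I‖ := Complex.abs_im_le_norm _
  simpa using h1

private theorem gi_intg (p : Polynomial ℂ) :
    Integrable (fun y : ℝ => (p.eval (y:ℂ) * ((sw y : ℝ) : ℂ)) / ((y:ℂ) - I)) := by
  have h0 : Integrable (fun y : ℝ => p.eval (y:ℂ) * ((sw y : ℝ) : ℂ)) := by
    have h1 := mo_int edec_sw p 0
    simpa using h1
  refine h0.mono ?_ ?_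
  · refine Continuous.aestronglyMeasurable ?_
    have hsw : Continuous (fun y : ℝ => ((sw y : ℝ) : ℂ)) := Complex.continuous_ofReal.comp sw_cont
    have hp : Continuous (fun y : ℝ => p.eval (y:ℂ)) := p.continuous.comp Complex.continuous_ofReal
    exact (hp.mul hsw).div (Complex.continuous_ofReal.sub continuous_const) gi_ne
  · refine Filter.Eventually.of_forall ?_
    intro y
    rw [norm_div]
    exact div_le_self (norm_nonneg _) (gi_norm y)

theorem gi_id (n : ℕ) : ∫ y : ℝ, ((PP n y ^ 2 * sw y : ℝ) : ℂ) / ((y:ℂ) - I)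
    = (polP n).eval I * ∫ y : ℝ, ((PP n y * sw y : ℝ) : ℂ) / ((y:ℂ) - I) := by
  rcases Nat.eq_zero_or_pos n with hn | hn
  · subst hn
    have h1 : (polP 0).eval I = 1 := by
      simp [polP, pol]
    rw [h1, one_mul]
    simp [PP]
  · obtain ⟨q, hq⟩ := Polynomial.X_sub_C_dvd_sub_C_eval (a := I) (p := polP n)
    have hdeg : q.natDegree < n := by
      by_cases hq0 : q = 0
      · rw [hq0, Polynomial.natDegree_zero]
        exact hn
      · have h1 : ((Polynomial.X - Polynomial.C I) * q).natDegree = 1 + q.natDegree := by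
          rw [Polynomial.natDegree_mul (Polynomial.X_sub_C_ne_zero I) hq0,
            Polynomial.natDegree_X_sub_C]
        have h2 : (polP n - Polynomial.C ((polP n).eval I)).natDegree ≤ n := by
          rw [Polynomial.natDegree_sub_C]
          exact pol_deg _ _ _ n
        rw [hq, h1] at h2
        omega
    have hlow := gi_low n q hdeg
    rw [mo_zero] at hlow
    have hI1 : Integrable (fun y : ℝ => (polP n).eval I *
        (((PP n y * sw y : ℝ) : ℂ) / ((y:ℂ) - I))) := by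
      refine Integrable.const_mul ?_ _
      have h := gi_intg (polP n)
      refine h.congr (Filter.Eventually.of_forall ?_)
      intro y
      simp only [polP_eval, Complex.ofReal_mul]
    have hI2 : Integrable (fun y : ℝ => (q * polP n).eval (y:ℂ) * ((sw y : ℝ) : ℂ)) := by
      have h1 := mo_int edec_sw (q * polP n) 0
      simpa using h1
    have hpt : ∀ y : ℝ, ((PP n y ^ 2 * sw y : ℝ) : ℂ) / ((y:ℂ) - I)
        = (polP n).eval I * (((PP n y * sw y : ℝ) : ℂ) / ((y:ℂ) - I))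
          + (q * polP n).eval (y:ℂ) * ((sw y : ℝ) : ℂ) := by
      intro y
      have h1 := congrArg (Polynomial.eval (y:ℂ)) hq
      rw [Polynomial.eval_sub, Polynomial.eval_C, Polynomial.eval_mul, Polynomial.eval_sub,
        Polynomial.eval_X, Polynomial.eval_C, polP_eval] at h1
      have h2 : ((PP n y : ℝ) : ℂ) = (polP n).eval I + ((y:ℂ) - I) * q.eval (y:ℂ) := by
        rw [← h1]; ring
      have h3 := gi_ne y
      rw [Polynomial.eval_mul, polP_eval]
      push_cast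
      rw [div_eq_iff h3]
      have h4 : ((polP n).eval I * (((PP n y : ℝ) : ℂ) * ((sw y : ℝ) : ℂ) / ((y:ℂ) - I))
          + q.eval (y:ℂ) * ((PP n y : ℝ) : ℂ) * ((sw y : ℝ) : ℂ)) * ((y:ℂ) - I)
          = ((polP n).eval I + ((y:ℂ) - I) * q.eval (y:ℂ)) * ((PP n y : ℝ) : ℂ) * ((sw y : ℝ) : ℂ) := by
        field_simp
      rw [h4, ← h2]
      ring
    rw [integral_congr_ae (Filter.Eventually.of_forall hpt), integral_add hI1 hI2, hlow, add_zero,
      integral_const_mul]

theorem gi (n : ℕ) : ∫ y : ℝ, PP n y ^ 2 / (1 + y^2) * sw y ≤ 4 / ((n:ℝ)+1) := by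
  have hI : Integrable (fun y : ℝ => ((PP n y ^ 2 * sw y : ℝ) : ℂ) / ((y:ℂ) - I)) := by
    have h := gi_intg (polP n * polP n)
    refine h.congr (Filter.Eventually.of_forall ?_)
    intro y
    simp only [Polynomial.eval_mul, polP_eval]
    push_cast
    ring
  have hpt : ∀ y : ℝ, PP n y ^ 2 / (1 + y^2) * sw y
      = (((PP n y ^ 2 * sw y : ℝ) : ℂ) / ((y:ℂ) - I)).im := by
    intro y
    have h1 : ((PP n y ^ 2 * sw y : ℝ) : ℂ) / ((y:ℂ) - I)
        = ((PP n y ^ 2 * sw y / (1 + y^2) : ℝ) : ℂ) * ((y:ℂ) + I) := by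
      rw [div_eq_iff (gi_ne y)]
      have h2 : ((y:ℂ) + I) * ((y:ℂ) - I) = ((1 + y^2 : ℝ) : ℂ) := by
        have h3 : I * I = -1 := Complex.I_mul_I
        push_cast
        linear_combination -h3
      rw [mul_assoc, h2, ← Complex.ofReal_mul, div_mul_cancel₀]
      positivity
    rw [h1, Complex.im_ofReal_mul, Complex.add_im, Complex.ofReal_im, Complex.I_im]
    ring
  have him : ∫ y : ℝ, PP n y ^ 2 / (1 + y^2) * sw y
      = (∫ y : ℝ, ((PP n y ^ 2 * sw y : ℝ) : ℂ) / ((y:ℂ) - I)).im := by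
    rw [integral_congr_ae (Filter.Eventually.of_forall hpt)]
    exact Complex.imCLM.integral_comp_comm hI
  have hr := rr_sq n
  have hle : ‖(polP n).eval I‖ ≤ 2 * Real.sqrt ((n:ℝ)+2) := by
    rw [rr_eval, norm_mul, norm_pow, Complex.norm_I, one_pow, one_mul, Complex.norm_real,
      Real.norm_eq_abs, abs_of_nonneg hr.1]
    have h1 : rr n ≤ Real.sqrt (4 * (n:ℝ) + 8) := by
      refine Real.le_sqrt_of_sq_le ?_
      linarith [hr.2]
    have h2 : Real.sqrt (4 * (n:ℝ) + 8) = 2 * Real.sqrt ((n:ℝ)+2) := by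
      have h3 : 4 * (n:ℝ) + 8 = 2^2 * ((n:ℝ)+2) := by ring
      rw [h3, Real.sqrt_mul (by norm_num), Real.sqrt_sq (by norm_num)]
    rw [← h2]
    exact h1
  have hge := ge_bound n
  have hn1 : (0:ℝ) < (n:ℝ) + 1 := by positivity
  have hn2 : (0:ℝ) < Real.sqrt ((n:ℝ)+2) := Real.sqrt_pos.mpr (by positivity)
  calc ∫ y : ℝ, PP n y ^ 2 / (1 + y^2) * sw y
      = (∫ y : ℝ, ((PP n y ^ 2 * sw y : ℝ) : ℂ) / ((y:ℂ) - I)).im := him
    _ ≤ |(∫ y : ℝ, ((PP n y ^ 2 * sw y : ℝ) : ℂ) / ((y:ℂ) - I)).im| := le_abs_self _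
    _ ≤ ‖∫ y : ℝ, ((PP n y ^ 2 * sw y : ℝ) : ℂ) / ((y:ℂ) - I)‖ := Complex.abs_im_le_norm _
    _ = ‖(polP n).eval I‖ * ‖∫ y : ℝ, ((PP n y * sw y : ℝ) : ℂ) / ((y:ℂ) - I)‖ := by
        rw [gi_id, norm_mul]
    _ ≤ (2 * Real.sqrt ((n:ℝ)+2)) * (2 / (((n:ℝ)+1) * Real.sqrt ((n:ℝ)+2))) :=
        mul_le_mul hle hge (norm_nonneg _) (by positivity)
    _ = 4 / ((n:ℝ)+1) := by
        field_simp
        norm_num

end PAS
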