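import Pool.Agent.Lib.MP_216314_pr.AS.FBeta
import Pool.Agent.Lib.MP_216314_pr.AS.FRec
import Pool.Agent.Lib.MP_216314_pr.AS.GPol
import Pool.Agent.Lib.MP_216314_pr.AS.GFav

/-!
G1, G2. `∫ PP_k(y) e^{ivy} sech(π y) dy = (i tanh (v/2))^k / cosh(v/2)` and orthonormality.

PROOF G1. `frec` with `W = sw` (`edec_sw`), `al = alP`, `be = 0`, `ga = gaP`, `T v = sinh (v/2)/cosh (v/2)`,
`F k v = (I * T v)^k / cosh(v/2)` (complex casts of real functions),
`F' k v = I^k * (1/2) * (k T^(k-1) - (k+1) T^(k+1)) / cosh(v/2)` (for `k = 0`: `-(1/2) T / cosh`).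
`h0`: `Mo sw 1 v = ∫ cexp (I v y) * sw y = 1/cos (I v/2) = 1/cosh(v/2)` by `fbeta` with `z = I v`
(`z.re = 0`), `Complex.cos_mul_I`-type lemma. Derivatives: `T' = (1 - T²)/2`, `(1/cosh(v/2))' = -(1/2) T/cosh(v/2)`
(`cosh² - sinh² = 1`). `h1`: `F 1 = I T/cosh`, `-I * alP 0 * F' 0 = -I * 2 * (-(1/2) T / cosh) = I T/cosh`. `hs`: multiply by
`k+2`: `(k+2) F(k+2) = -2 I F'(k+1) - (k+1) F k`: `-2 I F'(k+1) = -I^(k+2) ((k+1) T^k - (k+2) T^(k+2))/cosh`, `-I^(k+2) = I^k`.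
PROOF G2. `favard` for `L = MoL sw`, `h = 1`: `L (polP (k+1)) = F (k+1) 0 = 0` (`T 0 = 0`), `L 1 = F 0 0 = 1`,
`alP j * gaP (j+1)/alP (j+1) = (2/(j+1)) ((j+1)/(j+2)) ((j+2)/2) = 1`. Then `(polP m * polP k).eval y = PP m y * PP k y` (cast).
-/

open MeasureTheory Complex

namespace PAS

private theorem gj_dT (v : ℝ) : HasDerivAt (fun v : ℝ => Real.sinh (v/2) / Real.cosh (v/2))
    ((1 - (Real.sinh (v/2) / Real.cosh (v/2))^2) / 2) v := by
  have hc : Real.cosh (v/2) ≠ 0 := ne_of_gt (Real.cosh_pos _)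
  have h1 : HasDerivAt (fun v : ℝ => v/2) (1/2) v := (hasDerivAt_id v).div_const 2
  have h2 : HasDerivAt (fun v : ℝ => Real.sinh (v/2)) (Real.cosh (v/2) * (1/2)) v :=
    h1.sinh
  have h3 : HasDerivAt (fun v : ℝ => Real.cosh (v/2)) (Real.sinh (v/2) * (1/2)) v :=
    h1.cosh
  have h4 := h2.div h3 hc
  refine h4.congr_deriv ?_
  have h5 := Real.cosh_sq (v/2)
  field_simp

private theorem gj_dS (v : ℝ) : HasDerivAt (fun v : ℝ => (Real.cosh (v/2))⁻¹)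
    (-(1/2) * (Real.sinh (v/2) / Real.cosh (v/2)) * (Real.cosh (v/2))⁻¹) v := by
  have hc : Real.cosh (v/2) ≠ 0 := ne_of_gt (Real.cosh_pos _)
  have h1 : HasDerivAt (fun v : ℝ => v/2) (1/2) v := (hasDerivAt_id v).div_const 2
  have h3 : HasDerivAt (fun v : ℝ => Real.cosh (v/2)) (Real.sinh (v/2) * (1/2)) v :=
    h1.cosh
  have h4 := h3.inv hc
  refine h4.congr_deriv ?_
  field_simp

theorem gj (k : ℕ) (v : ℝ) : Mo (fun y => ((sw y : ℝ) : ℂ)) (polP k) v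
    = (I * ((Real.sinh (v/2) / Real.cosh (v/2) : ℝ) : ℂ))^k / ((Real.cosh (v/2) : ℝ) : ℂ) := by
  set T : ℝ → ℂ := fun v => ((Real.sinh (v/2) / Real.cosh (v/2) : ℝ) : ℂ) with hT
  set S : ℝ → ℂ := fun v => (((Real.cosh (v/2))⁻¹ : ℝ) : ℂ) with hS
  have hdT : ∀ v, HasDerivAt T ((1 - (T v)^2) / 2) v := by
    intro v
    have h := (gj_dT v).ofReal_comp
    refine h.congr_deriv ?_
    rw [hT]; push_cast; ring
  have hdS : ∀ v, HasDerivAt S (-(1/2) * T v * S v) v := by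
    intro v
    have h := (gj_dS v).ofReal_comp
    refine h.congr_deriv ?_
    rw [hT, hS]; push_cast; ring
  have hgoal : (I * ((Real.sinh (v/2) / Real.cosh (v/2) : ℝ) : ℂ))^k / ((Real.cosh (v/2) : ℝ) : ℂ)
      = (fun (k : ℕ) (v : ℝ) => (I * T v)^k * S v) k v := by
    show _ = (I * T v)^k * S v
    rw [hT, hS]; push_cast; rw [div_eq_mul_inv]
  rw [hgoal]
  refine frec edec_sw alP (fun _ => 0) gaP (fun (k : ℕ) (v : ℝ) => (I * T v)^k * S v)
    (fun (k : ℕ) (v : ℝ) => ((k:ℂ) * (I * T v)^(k-1) * (I * ((1 - (T v)^2) / 2))) * S v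
      + (I * T v)^k * (-(1/2) * T v * S v)) ?_ ?_ ?_ ?_ k v
  · intro v
    show Mo (fun y => ((sw y : ℝ) : ℂ)) 1 v = (I * T v)^0 * S v
    have h := fbeta (z := I * (v:ℂ)) (by
      have : (I * (v:ℂ)).re = 0 := by simp
      rw [this, abs_zero]; exact Real.pi_pos)
    have h2 : Complex.cos (I * (v:ℂ) / 2) = ((Real.cosh (v/2) : ℝ) : ℂ) := by
      have : I * (v:ℂ) / 2 = ((v/2 : ℝ) : ℂ) * I := by push_cast; ring
      rw [this, Complex.cos_mul_I, Complex.ofReal_cosh]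
    rw [h2] at h
    rw [pow_zero, one_mul, hS]
    show (∫ y : ℝ, (1 : Polynomial ℂ).eval (y:ℂ) * cexp (I * v * y) * ((sw y : ℝ) : ℂ))
      = (((Real.cosh (v/2))⁻¹ : ℝ) : ℂ)
    rw [Complex.ofReal_inv, ← one_div, ← h]
    refine integral_congr_ae (Filter.Eventually.of_forall fun y => ?_)
    show (1 : Polynomial ℂ).eval (y:ℂ) * cexp (I * v * y) * ((sw y : ℝ) : ℂ)
      = cexp (I * v * y) / Complex.cosh (Real.pi * y)
    rw [Polynomial.eval_one, one_mul, sw, Complex.ofReal_div, Complex.ofReal_one, Complex.ofReal_cosh,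
      Complex.ofReal_mul]
    ring
  · intro k v
    have h1 : HasDerivAt (fun v => I * T v) (I * ((1 - (T v)^2) / 2)) v := (hdT v).const_mul I
    exact (h1.pow k).mul (hdS v)
  · intro v
    show (I * T v)^1 * S v = -I * alP 0 * ((((0:ℕ):ℂ) * (I * T v)^(0-1) * (I * ((1 - (T v)^2) / 2))) * S v
      + (I * T v)^0 * (-(1/2) * T v * S v)) + 0 * ((I * T v)^0 * S v)
    have : alP 0 = 2 := by rw [alP]; norm_num
    rw [this]; push_cast; ring
  · intro k v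
    show (I * T v)^(k+2) * S v = -I * alP (k+1) * ((((k+1 : ℕ):ℂ) * (I * T v)^(k+1-1)
      * (I * ((1 - (T v)^2) / 2))) * S v + (I * T v)^(k+1) * (-(1/2) * T v * S v))
      + 0 * ((I * T v)^(k+1) * S v) - gaP (k+1) * ((I * T v)^k * S v)
    have hk : ((k:ℂ) + 1 + 1) ≠ 0 := by
      have : ((k + 1 + 1 : ℕ) : ℂ) ≠ 0 := Nat.cast_ne_zero.mpr (by omega)
      push_cast at this; exact this
    have h1 : alP (k+1) = 2 / ((k:ℂ) + 1 + 1) := by rw [alP]; push_cast; rfl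
    have h2 : gaP (k+1) = ((k:ℂ) + 1) / ((k:ℂ) + 1 + 1) := by rw [gaP]; push_cast; rfl
    have h3 : (T v)^2 = -(I * T v)^2 := by rw [mul_pow, Complex.I_sq]; ring
    rw [h1, h2, Nat.add_sub_cancel]
    apply mul_left_cancel₀ hk
    have e : ((k:ℂ) + 1 + 1) * (-I * (2 / ((k:ℂ) + 1 + 1)) * ((((k+1 : ℕ):ℂ) * (I * T v)^k
      * (I * ((1 - (T v)^2) / 2))) * S v + (I * T v)^(k+1) * (-(1/2) * T v * S v))
      + 0 * ((I * T v)^(k+1) * S v) - ((k:ℂ) + 1) / ((k:ℂ) + 1 + 1) * ((I * T v)^k * S v))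
      = -I * 2 * ((((k:ℂ)+1) * (I * T v)^k
      * (I * ((1 - (T v)^2) / 2))) * S v + (I * T v)^(k+1) * (-(1/2) * T v * S v))
      - ((k:ℂ) + 1) * ((I * T v)^k * S v) := by
      push_cast
      field_simp
      ring
    rw [e]
    have h4 : (I * T v)^(k+2) = (I * T v)^k * (I * T v)^2 := by rw [pow_add]
    have h5 : (I * T v)^(k+1) = (I * T v)^k * (I * T v) := by rw [pow_succ]
    have h6 : (I * T v)^2 = -(T v)^2 := by rw [mul_pow, Complex.I_sq]; ring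
    rw [h4, h5, h6]
    have h7 : I * I = -1 := Complex.I_mul_I
    linear_combination (((k:ℂ)+1) * (I * T v)^k * S v * (1 - (T v)^2) - (I * T v)^k * (T v)^2 * S v) * h7

theorem gorth (m k : ℕ) : Mo (fun y => ((sw y : ℝ) : ℂ)) (polP m * polP k) 0 = if m = k then 1 else 0 := by
  have hF0 : ∀ j : ℕ, Mo (fun y => ((sw y : ℝ) : ℂ)) (polP (j+1)) 0 = 0 := by
    intro j
    rw [gj (j+1) 0]
    simp
  have hL0 : Mo (fun y => ((sw y : ℝ) : ℂ)) 1 0 = 1 := by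
    have h := gj 0 0
    have e : polP 0 = 1 := rfl
    rw [e] at h
    rw [h]; simp
  have hal : ∀ k, alP k ≠ 0 := by
    intro k
    rw [alP]
    have : ((k:ℂ) + 1) ≠ 0 := by
      have : ((k + 1 : ℕ) : ℂ) ≠ 0 := Nat.cast_ne_zero.mpr (by omega)
      push_cast at this; exact this
    exact div_ne_zero two_ne_zero this
  have h := favard (MoL (fun y => ((sw y : ℝ) : ℂ)) edec_sw) alP gaP (fun _ => 1) hal hL0
    (fun j => hF0 j) (fun j => ?_) m k
  · exact h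
  · show (1:ℂ) = 1 * alP j * gaP (j+1) / alP (j+1)
    rw [alP, alP, gaP]
    have h1 : ((j:ℂ) + 1) ≠ 0 := by
      have : ((j + 1 : ℕ) : ℂ) ≠ 0 := Nat.cast_ne_zero.mpr (by omega)
      push_cast at this; exact this
    have h2 : ((j:ℂ) + 1 + 1) ≠ 0 := by
      have : ((j + 1 + 1 : ℕ) : ℂ) ≠ 0 := Nat.cast_ne_zero.mpr (by omega)
      push_cast at this; exact this
    push_cast
    field_simp

end PAS
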