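import Pool.Agent.Lib.MP_216314_pr.AS.HOrth
import Pool.Agent.Lib.MP_216314_pr.AS.EHan
import Pool.Agent.Lib.MP_216314_pr.AS.GOPS

/-!
H4. `det T_n(q_γ) = ∏_{k<n} e_k(ν)`, `e_k(ν) = (2ν/sin(πν)) ∏_{1≤j≤k} (j²-ν²)/(j²-1/4)`, `ν = γ/π`.

PROOF. `TA_mw` and `qg γ y * sw y = wg γ y` (`field_simp`): `TA mw PP n (qg γ) m k = ∫ (polP m * polP k).eval y * wg γ y = Mo w_γ (polP m * polP k) 0` (`mo_zero`).
`ehan` with `L = MoL w_γ`, `p = polP`, `a k = 2^k/k!` (`pol_deg`, `pol_coeff`, `polP_lead`) and `ehan` with `p = polW ν`, `a k = 1`: Gram matrix of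
`polW` is diagonal (`horth`, `Matrix.det_diagonal`). So `det T_n = ∏_k (2^k/k!)² h_k`, `h_k = (2γ/(π sin γ)) ∏_{l<k} bsq ν (l+1)`,
`(2^k/k!)² = ∏_{l<k} 4/(l+1)²`, and `4/(l+1)² * bsq ν (l+1) = ((l+1)²-ν²)/((l+1)²-1/4)`.
-/

open MeasureTheory Complex

namespace PAS

/-- the ratio of consecutive determinants -/
noncomputable def ek (ν : ℝ) (k : ℕ) : ℝ :=
  2 * ν / Real.sin (Real.pi * ν) * ∏ j ∈ Finset.range k, (((j:ℝ)+1)^2 - ν^2) / (((j:ℝ)+1)^2 - 1/4)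

theorem HDet_ratio (ν : ℝ) (k : ℕ) :
    4 / ((k:ℝ)+1)^2 * bsq ν (k+1) = (((k:ℝ)+1)^2 - ν^2) / (((k:ℝ)+1)^2 - 1/4) := by
  unfold bsq
  push_cast
  have hk : (0:ℝ) < (k:ℝ)+1 := by positivity
  have h1 : (1:ℝ) ≤ (k:ℝ)+1 := by
    have : (0:ℝ) ≤ (k:ℝ) := Nat.cast_nonneg k
    linarith
  have h2 : (4 * ((k:ℝ)+1)^2 - 1) ≠ 0 := by nlinarith
  have h3 : (((k:ℝ)+1)^2 - 1/4) ≠ 0 := by nlinarith
  rw [div_mul_div_comm, div_eq_div_iff (by positivity) h3]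
  ring

theorem HDet_ek (γ : ℝ) (k : ℕ) :
    (2^k / (k.factorial : ℝ))^2 * (2 * γ / (Real.pi * Real.sin γ) *
      ∏ l ∈ Finset.range k, bsq (γ / Real.pi) (l+1)) = ek (γ / Real.pi) k := by
  have e0 : Real.pi * (γ / Real.pi) = γ := by
    field_simp
  have e1 : 2 * (γ / Real.pi) / Real.sin γ = 2 * γ / (Real.pi * Real.sin γ) := by
    rw [← mul_div_assoc, div_div]
  induction k with
  | zero => simp [ek, e0, e1]
  | succ k ih =>
    have h : ek (γ / Real.pi) (k+1) = ek (γ / Real.pi) k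
        * ((((k:ℝ)+1)^2 - (γ / Real.pi)^2) / (((k:ℝ)+1)^2 - 1/4)) := by
      unfold ek
      rw [Finset.prod_range_succ]
      ring
    rw [h, ← ih, ← HDet_ratio, Finset.prod_range_succ, Nat.factorial_succ, pow_succ]
    push_cast
    have hf : ((k.factorial : ℕ) : ℝ) ≠ 0 := by
      exact_mod_cast k.factorial_ne_zero
    have hk : ((k:ℝ)+1) ≠ 0 := by positivity
    field_simp
    ring

theorem HDet_gram {γ : ℝ} (h0 : 0 < γ) (h1 : γ < Real.pi) (n : ℕ) :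
    (Matrix.of fun i j : Fin n => MoL (fun y => ((wg γ y : ℝ) : ℂ)) (wg_edec h0 h1)
        (polW (γ / Real.pi) i * polW (γ / Real.pi) j)).det
      = ∏ k ∈ Finset.range n, ((2 * γ / (Real.pi * Real.sin γ) *
        ∏ l ∈ Finset.range k, bsq (γ / Real.pi) (l+1) : ℝ) : ℂ) := by
  have e : (Matrix.of fun i j : Fin n => MoL (fun y => ((wg γ y : ℝ) : ℂ)) (wg_edec h0 h1)
        (polW (γ / Real.pi) i * polW (γ / Real.pi) j))
      = Matrix.diagonal (fun k : Fin n => ((2 * γ / (Real.pi * Real.sin γ) *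
        ∏ l ∈ Finset.range (k:ℕ), bsq (γ / Real.pi) (l+1) : ℝ) : ℂ)) := by
    ext i j
    rw [Matrix.of_apply, Matrix.diagonal_apply]
    show Mo (fun y => ((wg γ y : ℝ) : ℂ)) (polW (γ / Real.pi) i * polW (γ / Real.pi) j) 0 = _
    rw [horth h0 h1]
    by_cases hij : i = j
    · subst hij
      simp
    · have : (i:ℕ) ≠ (j:ℕ) := fun h => hij (Fin.ext h)
      rw [if_neg this, if_neg hij]
  rw [e, Matrix.det_diagonal]
  exact Fin.prod_univ_eq_prod_range (fun k : ℕ => ((2 * γ / (Real.pi * Real.sin γ) *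
        ∏ l ∈ Finset.range k, bsq (γ / Real.pi) (l+1) : ℝ) : ℂ)) n

theorem HDet_TA {γ : ℝ} (h0 : 0 < γ) (h1 : γ < Real.pi) (n : ℕ) :
    TA mw PP n (fun y => ((qg γ y : ℝ) : ℂ))
      = Matrix.of fun i j : Fin n => MoL (fun y => ((wg γ y : ℝ) : ℂ)) (wg_edec h0 h1)
        (polP i * polP j) := by
  ext i j
  rw [TA_mw, Matrix.of_apply]
  show _ = Mo (fun y => ((wg γ y : ℝ) : ℂ)) (polP i * polP j) 0
  rw [mo_zero]
  refine integral_congr_ae (Filter.Eventually.of_forall fun y => ?_)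
  have hc : Real.cosh (Real.pi * y) ≠ 0 := (Real.cosh_pos _).ne'
  have e : qg γ y * sw y = wg γ y := by
    unfold qg sw wg
    rw [div_mul_div_comm, mul_one, mul_comm (Real.cosh (Real.pi * y) + Real.cos γ),
      ← div_div, div_self hc]
  show (polP i * polP j).eval (y:ℂ) * (((qg γ y : ℝ) : ℂ) * ((sw y : ℝ) : ℂ))
    = (polP i * polP j).eval (y:ℂ) * ((wg γ y : ℝ) : ℂ)
  rw [← Complex.ofReal_mul, e]

theorem hdet {γ : ℝ} (h0 : 0 < γ) (h1 : γ < Real.pi) (n : ℕ) :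
    (TA mw PP n (fun y => ((qg γ y : ℝ) : ℂ))).det = ((∏ k ∈ Finset.range n, ek (γ / Real.pi) k : ℝ) : ℂ) := by
  rw [HDet_TA h0 h1]
  rw [ehan (MoL (fun y => ((wg γ y : ℝ) : ℂ)) (wg_edec h0 h1)) polP (fun k => 2^k / (k.factorial : ℂ))
    (fun k => pol_deg _ _ _ k) (fun k => by
      show (pol alP (fun _ => 0) gaP k).coeff k = _
      rw [pol_coeff, polP_lead]) n]
  have h2 := ehan (MoL (fun y => ((wg γ y : ℝ) : ℂ)) (wg_edec h0 h1)) (polW (γ / Real.pi)) (fun _ => 1)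
    (fun k => pol_deg _ _ _ k) (fun k => by
      show (pol (fun _ => 1) (fun _ => 0) (fun k => ((bsq (γ / Real.pi) k : ℝ) : ℂ)) k).coeff k = _
      rw [pol_coeff]
      simp) n
  rw [Finset.prod_const_one, one_pow, one_mul, HDet_gram h0 h1] at h2
  rw [← h2, ← Finset.prod_pow, ← Finset.prod_mul_distrib, Complex.ofReal_prod]
  refine Finset.prod_congr rfl fun k _ => ?_
  rw [← HDet_ek]
  push_cast
  rfl

end PAS
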