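import Pool.Agent.Lib.MP_216314_pr.AS.FSh
import Pool.Agent.Lib.MP_216314_pr.AS.GPol

/-!
H1, first part: for `-π < Re z < 0`, `0 < γ < π`: `sin γ sin z ∫ e^{zy} w_γ dy = 2 sin (γ z/π)`.

PROOF. `A = (πy + iγ)/2`, `B = (πy - iγ)/2`: `cosh A cosh B = (cosh πy + cos γ)/2`, `e^A cosh B - e^B cosh A = sinh (A-B) = sinh(iγ) = i sin γ`. So
`2 i sin γ w_γ(y) = e^A/cosh A - e^B/cosh B`. For the first term substitute `y = 2Y` (`MeasureTheory.Measure.integral_comp_mul_left`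
/ `integral_comp_mul_right`): `∫ e^{zy} e^{A}/cosh A dy = 2 ∫ e^{2zY} e^{πY + iγ/2}/cosh(πY + iγ/2) dY`. With `d = γ/(2π)` (`|d| < 1/2`), `π(Y + i d) = πY + iγ/2`
and `e^{2zY} e^{π(Y+id)} = e^{(2z+π)(Y+id)} e^{-2z i d}`, `2 z i d = i γ z/π`. So it equals `2 e^{-iγz/π} ∫ e^{(2z+π)(Y+id)}/cosh(π(Y+id)) dY = 2 e^{-iγz/π}/cos(z + π/2)
= -2 e^{-iγ z/π}/sin z` by `fsh` with parameter `2z+π` (`|Re(2z+π)| < π` ✓.). The second term is the same with `d = -γ/(2π)`:
`-2 e^{iγz/π}/sin z`. Difference: `-2 (e^{-iγz/π} - e^{iγz/π})/sin z = 4 i sin(γz/π)/sin z`. Divide by `2i`. (`sin z ≠ 0`: follows from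
`-π < Re z < 0`: `Complex.sin_eq_zero_iff`.) Integrability of both terms: `fsh_int` after the substitution.
-/

open MeasureTheory Complex

namespace PAS

theorem HFTa_cos {γ : ℝ} (h0 : 0 < γ) (h1 : γ < Real.pi) : |Real.cos γ| < 1 := by
  have hs : 0 < Real.sin γ := Real.sin_pos_of_pos_of_lt_pi h0 h1
  have h2 := Real.sin_sq_add_cos_sq γ
  have h3 : Real.cos γ ^ 2 < 1 := by nlinarith
  exact (sq_lt_one_iff_abs_lt_one _).1 h3

theorem HFTa_den {γ : ℝ} (h0 : 0 < γ) (h1 : γ < Real.pi) (y : ℝ) :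
    (1 - |Real.cos γ|) * Real.cosh (Real.pi * y) ≤ Real.cosh (Real.pi * y) + Real.cos γ := by
  have h2 := Real.one_le_cosh (Real.pi * y)
  have h3 := neg_abs_le (Real.cos γ)
  have h4 := abs_nonneg (Real.cos γ)
  nlinarith [mul_nonneg h4 (sub_nonneg.2 h2)]

theorem wg_pos {γ : ℝ} (h0 : 0 < γ) (h1 : γ < Real.pi) (y : ℝ) : 0 < wg γ y := by
  have h2 := HFTa_den h0 h1 y
  have h3 := HFTa_cos h0 h1
  have h4 := Real.cosh_pos (Real.pi * y)
  have h5 : 0 < (1 - |Real.cos γ|) * Real.cosh (Real.pi * y) := mul_pos (by linarith) h4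
  unfold wg
  exact one_div_pos.2 (lt_of_lt_of_le h5 h2)

/-- explicit decay used for the limit -/
theorem wg_le {γ : ℝ} (h0 : 0 < γ) (h1 : γ < Real.pi) (y : ℝ) :
    wg γ y ≤ 2 / (1 - |Real.cos γ|) * Real.exp (-Real.pi * |y|) := by
  have h2 := HFTa_den h0 h1 y
  have h3 := HFTa_cos h0 h1
  have h4 := Real.cosh_pos (Real.pi * y)
  have h6 : 0 < 1 - |Real.cos γ| := by linarith
  have h5 : 0 < (1 - |Real.cos γ|) * Real.cosh (Real.pi * y) := mul_pos h6 h4
  have h7 : wg γ y ≤ 1 / ((1 - |Real.cos γ|) * Real.cosh (Real.pi * y)) := by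
    unfold wg
    exact one_div_le_one_div_of_le h5 h2
  have h8 : 1 / ((1 - |Real.cos γ|) * Real.cosh (Real.pi * y)) = 1 / (1 - |Real.cos γ|) * sw y := by
    unfold sw
    rw [one_div_mul_one_div]
  have h9 := sw_le y
  calc wg γ y ≤ 1 / (1 - |Real.cos γ|) * sw y := by rw [← h8]; exact h7
    _ ≤ 1 / (1 - |Real.cos γ|) * (2 * Real.exp (-Real.pi * |y|)) :=
        mul_le_mul_of_nonneg_left h9 (one_div_pos.2 h6).le
    _ = 2 / (1 - |Real.cos γ|) * Real.exp (-Real.pi * |y|) := by ring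

theorem wg_edec {γ : ℝ} (h0 : 0 < γ) (h1 : γ < Real.pi) : EDec (fun y => ((wg γ y : ℝ) : ℂ)) := by
  constructor
  · apply Complex.continuous_ofReal.comp
    unfold wg
    apply Continuous.div continuous_const
    · exact (Real.continuous_cosh.comp (continuous_const.mul continuous_id)).add continuous_const
    · intro y
      have h2 := wg_pos h0 h1 y
      unfold wg at h2
      exact (one_div_pos.1 h2).ne'
  · refine ⟨2 / (1 - |Real.cos γ|), Real.pi, Real.pi_pos, fun y => ?_⟩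
    rw [Complex.norm_real, Real.norm_eq_abs, abs_of_pos (wg_pos h0 h1 y)]
    exact wg_le h0 h1 y

/-- the shifted integrand -/
noncomputable def HFTa_F (z : ℂ) (d : ℝ) (y : ℝ) : ℂ :=
  cexp ((2 * z + Real.pi) * (y + d * I)) / Complex.cosh (Real.pi * (y + d * I))

theorem HFTa_exp {γ : ℝ} (z : ℂ) (y : ℝ) (e : ℂ) (d : ℝ) (hd : (Real.pi : ℂ) * d = e * γ / 2) :
    cexp (-(e * I * γ * z / Real.pi)) * HFTa_F z d (y / 2)
      = cexp (z * y) * (cexp (Real.pi * y / 2 + e * γ / 2 * I) /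
        Complex.cosh (Real.pi * y / 2 + e * γ / 2 * I)) := by
  have hpi : (Real.pi : ℂ) ≠ 0 := Complex.ofReal_ne_zero.2 Real.pi_pos.ne'
  have hA : (Real.pi : ℂ) * (((y / 2 : ℝ) : ℂ) + d * I) = Real.pi * y / 2 + e * γ / 2 * I := by
    rw [mul_add, ← mul_assoc, hd]
    push_cast
    ring
  have hd' : (d : ℂ) = e * γ / 2 / Real.pi := by
    rw [eq_div_iff hpi, ← hd]
    ring
  have hB : (2 * z + Real.pi) * (((y / 2 : ℝ) : ℂ) + d * I)
      = e * I * γ * z / Real.pi + (z * y + (Real.pi * y / 2 + e * γ / 2 * I)) := by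
    rw [add_mul, hA, hd']
    push_cast
    field_simp
    ring
  unfold HFTa_F
  rw [hA, hB, Complex.exp_add, Complex.exp_add (z * y), Complex.exp_neg]
  have h3 := Complex.exp_ne_zero (e * I * γ * z / Real.pi)
  field_simp

theorem HFTa_pt {γ : ℝ} (h0 : 0 < γ) (h1 : γ < Real.pi) (z : ℂ) (y : ℝ) :
    2 * I * (Real.sin γ : ℂ) * (cexp (z * y) * ((wg γ y : ℝ) : ℂ))
      = cexp (-(I * γ * z / Real.pi)) * HFTa_F z (γ / (2 * Real.pi)) (y / 2)
        - cexp (I * γ * z / Real.pi) * HFTa_F z (-(γ / (2 * Real.pi))) (y / 2) := by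
  have hpi : (Real.pi : ℂ) ≠ 0 := Complex.ofReal_ne_zero.2 Real.pi_pos.ne'
  have e1 := HFTa_exp (γ := γ) z y 1 (γ / (2 * Real.pi)) (by push_cast; field_simp)
  have e2 := HFTa_exp (γ := γ) z y (-1) (-(γ / (2 * Real.pi))) (by push_cast; field_simp)
  have h3 : -(1 * I * γ * z / Real.pi) = -(I * γ * z / Real.pi) := by ring
  have h4 : -(-1 * I * γ * z / Real.pi) = I * γ * z / Real.pi := by ring
  rw [h3] at e1
  rw [h4] at e2
  rw [e1, e2]
  obtain ⟨A, hA⟩ : ∃ A : ℂ, A = Real.pi * y / 2 + 1 * γ / 2 * I := ⟨_, rfl⟩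
  obtain ⟨B, hB⟩ : ∃ B : ℂ, B = Real.pi * y / 2 + -1 * γ / 2 * I := ⟨_, rfl⟩
  rw [← hA, ← hB]
  have hc : 0 < Real.cos (γ / 2) := Real.cos_pos_of_mem_Ioo ⟨by linarith, by linarith⟩
  have hcA : Complex.cosh A ≠ 0 := by
    have h5 := norm_cosh_ge (Real.pi * y / 2) (γ / 2)
    have h6 : 0 < Real.cos (γ / 2) * Real.cosh (Real.pi * y / 2) := mul_pos hc (Real.cosh_pos _)
    have h7 : A = ((Real.pi * y / 2 : ℝ) : ℂ) + ((γ / 2 : ℝ) : ℂ) * I := by
      rw [hA]
      push_cast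
      ring
    rw [h7]
    intro h8
    rw [h8, norm_zero] at h5
    linarith
  have hcB : Complex.cosh B ≠ 0 := by
    have h5 := norm_cosh_ge (Real.pi * y / 2) (-(γ / 2))
    rw [Real.cos_neg] at h5
    have h6 : 0 < Real.cos (γ / 2) * Real.cosh (Real.pi * y / 2) := mul_pos hc (Real.cosh_pos _)
    have h7 : B = ((Real.pi * y / 2 : ℝ) : ℂ) + ((-(γ / 2) : ℝ) : ℂ) * I := by
      rw [hB]
      push_cast
      ring
    rw [h7]
    intro h8
    rw [h8, norm_zero] at h5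
    linarith
  have hsum : A + B = ((Real.pi * y : ℝ) : ℂ) := by
    rw [hA, hB]
    push_cast
    ring
  have hdiff : A - B = (γ : ℂ) * I := by
    rw [hA, hB]
    ring
  have hnum : cexp A * Complex.cosh B - cexp B * Complex.cosh A = I * (Real.sin γ : ℂ) := by
    have h5 : cexp A * Complex.cosh B - cexp B * Complex.cosh A = Complex.sinh (A - B) := by
      rw [Complex.sinh_sub, ← Complex.cosh_add_sinh A, ← Complex.cosh_add_sinh B]
      ring
    rw [h5, hdiff, Complex.sinh_mul_I, Complex.ofReal_sin]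
    ring
  have hden : Complex.cosh A * Complex.cosh B
      = (((Real.cosh (Real.pi * y) + Real.cos γ : ℝ) : ℂ)) / 2 := by
    have h5 : Complex.cosh A * Complex.cosh B = (Complex.cosh (A + B) + Complex.cosh (A - B)) / 2 := by
      rw [Complex.cosh_add, Complex.cosh_sub]
      ring
    rw [h5, hsum, hdiff, Complex.cosh_mul_I]
    push_cast
    ring
  have hD : (((Real.cosh (Real.pi * y) + Real.cos γ : ℝ) : ℂ)) ≠ 0 := by
    have h5 := wg_pos h0 h1 y
    unfold wg at h5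
    exact Complex.ofReal_ne_zero.2 (one_div_pos.1 h5).ne'
  have hfr : cexp A / Complex.cosh A - cexp B / Complex.cosh B
      = 2 * I * (Real.sin γ : ℂ) * ((wg γ y : ℝ) : ℂ) := by
    rw [div_sub_div _ _ hcA hcB, hden]
    have h6 : cexp A * Complex.cosh B - Complex.cosh A * cexp B = I * (Real.sin γ : ℂ) := by
      rw [← hnum]
      ring
    rw [h6]
    unfold wg
    rw [Complex.ofReal_div, Complex.ofReal_one]
    field_simp
  rw [← mul_sub, hfr]
  ring

theorem hfta {γ : ℝ} (h0 : 0 < γ) (h1 : γ < Real.pi) {z : ℂ} (hz0 : -Real.pi < z.re) (hz1 : z.re < 0) :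
    (Real.sin γ : ℂ) * Complex.sin z * ∫ y : ℝ, cexp (z * y) * ((wg γ y : ℝ) : ℂ)
      = 2 * Complex.sin (γ * z / Real.pi) := by
  have hpi := Real.pi_pos
  have hpiC : (Real.pi : ℂ) ≠ 0 := Complex.ofReal_ne_zero.2 Real.pi_pos.ne'
  have hz' : |(2 * z + (Real.pi : ℂ)).re| < Real.pi := by
    have h2 : (2 * z + (Real.pi : ℂ)).re = 2 * z.re + Real.pi := by
      rw [Complex.add_re, Complex.ofReal_re, Complex.mul_re]
      norm_num
    rw [h2, abs_lt]
    constructor <;> linarith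
  have hd0 : 0 < γ / (2 * Real.pi) := by positivity
  have hd1 : γ / (2 * Real.pi) < 1 / 2 := by
    rw [div_lt_div_iff₀ (by positivity) (by norm_num)]
    linarith
  have hdp : |γ / (2 * Real.pi)| < 1 / 2 := by rw [abs_of_pos hd0]; exact hd1
  have hdm : |-(γ / (2 * Real.pi))| < 1 / 2 := by rw [abs_neg]; exact hdp
  have hsin : Complex.sin z ≠ 0 := by
    intro h2
    obtain ⟨k, hk⟩ := Complex.sin_eq_zero_iff.1 h2
    have h3 : z.re = k * Real.pi := by
      rw [hk]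
      have h4 : ((k : ℂ) * (Real.pi : ℂ)) = (((k : ℝ) * Real.pi : ℝ) : ℂ) := by push_cast; ring
      rw [h4, Complex.ofReal_re]
    rw [h3] at hz0 hz1
    have h5 : (k : ℝ) < 0 := by
      by_contra h6
      have := mul_nonneg (not_lt.1 h6) hpi.le
      linarith
    have h6 : (-1 : ℝ) < k := by
      by_contra h7
      have := mul_le_mul_of_nonneg_right (not_lt.1 h7) hpi.le
      linarith
    have h7 : k < 0 := by exact_mod_cast h5
    have h8 : -1 < k := by exact_mod_cast h6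
    omega
  have hcos : Complex.cos ((2 * z + Real.pi) / 2) = -Complex.sin z := by
    have h2 : (2 * z + Real.pi) / 2 = z + Real.pi / 2 := by ring
    rw [h2, Complex.cos_add_pi_div_two]
  have hint : ∀ d : ℝ, |d| < 1 / 2 →
      ∫ y : ℝ, HFTa_F z d (y / 2) = 2 * (1 / -Complex.sin z) := by
    intro d hd
    rw [Measure.integral_comp_div (HFTa_F z d) 2]
    unfold HFTa_F
    rw [fsh hz' hd, hcos, abs_of_pos (by norm_num : (0 : ℝ) < 2), Complex.real_smul]
    push_cast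
    ring
  have hintb : ∀ d : ℝ, |d| < 1 / 2 → Integrable (fun y : ℝ => HFTa_F z d (y / 2)) := by
    intro d hd
    have h2 : Integrable (HFTa_F z d) := fsh_int hz' hd
    exact h2.comp_div (by norm_num)
  have hI : 2 * I * (Real.sin γ : ℂ) * ∫ y : ℝ, cexp (z * y) * ((wg γ y : ℝ) : ℂ)
      = cexp (-(I * γ * z / Real.pi)) * (2 * (1 / -Complex.sin z))
        - cexp (I * γ * z / Real.pi) * (2 * (1 / -Complex.sin z)) := by
    rw [← integral_const_mul]
    have h2 : (fun y : ℝ => 2 * I * (Real.sin γ : ℂ) * (cexp (z * y) * ((wg γ y : ℝ) : ℂ)))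
        = fun y : ℝ => cexp (-(I * γ * z / Real.pi)) * HFTa_F z (γ / (2 * Real.pi)) (y / 2)
        - cexp (I * γ * z / Real.pi) * HFTa_F z (-(γ / (2 * Real.pi))) (y / 2) := by
      funext y
      exact HFTa_pt h0 h1 z y
    rw [h2, integral_sub ((hintb _ hdp).const_mul _) ((hintb _ hdm).const_mul _),
      integral_const_mul, integral_const_mul, hint _ hdp, hint _ hdm]
  have hs2 : Complex.sin (γ * z / Real.pi)
      = (cexp (-(I * γ * z / Real.pi)) - cexp (I * γ * z / Real.pi)) * I / 2 := by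
    rw [Complex.sin]
    have h3 : -(γ * z / Real.pi) * I = -(I * γ * z / Real.pi) := by ring
    have h4 : γ * z / Real.pi * I = I * γ * z / Real.pi := by ring
    rw [h3, h4]
  rw [hs2]
  obtain ⟨J, hJ⟩ : ∃ J : ℂ, J = ∫ y : ℝ, cexp (z * y) * ((wg γ y : ℝ) : ℂ) := ⟨_, rfl⟩
  rw [← hJ] at hI ⊢
  obtain ⟨e1, he1⟩ : ∃ e1 : ℂ, e1 = cexp (-(I * γ * z / Real.pi)) := ⟨_, rfl⟩
  obtain ⟨e2, he2⟩ : ∃ e2 : ℂ, e2 = cexp (I * γ * z / Real.pi) := ⟨_, rfl⟩
  rw [← he1, ← he2] at hI ⊢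
  have h5 : 2 * I * ((Real.sin γ : ℂ) * Complex.sin z * J) = 2 * I * (2 * ((e1 - e2) * I / 2)) := by
    have h6 : 2 * I * ((Real.sin γ : ℂ) * Complex.sin z * J)
        = (2 * I * (Real.sin γ : ℂ) * J) * Complex.sin z := by ring
    rw [h6, hI]
    field_simp
    ring_nf
    rw [Complex.I_sq]
    ring
  exact mul_left_cancel₀ (mul_ne_zero two_ne_zero Complex.I_ne_zero) h5

end PAS
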