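import Pool.Agent.Lib.MP_216314_pr.AS.HFTa
import Pool.Agent.Lib.MP_216314_pr.AS.FMo

/-!
H1, second part: `sin γ sinh v ∫ e^{ivy} w_γ dy = 2 sinh (γ v/π)` for all real `v`, and `∫ w_γ = 2γ/(π sin γ)`.

PROOF. `hfta` for `z = -ε + i v`, `ε → 0+` (e.g. `ε = 1/(n+1)`): the integral converges by dominated convergence
(`tendsto_integral_of_dominated_convergence`, `|e^{zy}| ≤ e^{ε|y|} ≤ e^{|y|}`, `wg_le`, `∫ e^{|y|} e^{-π|y|} < ∞`), both other sides are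
continuous. At `z = i v`: `sin (i v) = i sinh v`, `sin(γ i v/π) = i sinh(γ v/π)`; divide by `i`. (`Mo W 1 v = ∫ cexp (I v y) W y`, `eval 1 = 1`.)
`hft_zero`: differentiate the identity at `v = 0` (`mo_deriv` for the left factor, value of `sinh` at 0 is 0, derivative 1):
`sin γ * Mo W 1 0 = 2 γ/π` (`HasDerivAt.unique`).
-/

open MeasureTheory Complex

namespace PAS

/-- dominating function -/
theorem HFTb_int (C : ℝ) : Integrable (fun y : ℝ => Real.exp |y| * (C * Real.exp (-Real.pi * |y|))) := by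
  have hW : EDec (fun y : ℝ => ((Real.exp |y| * (C * Real.exp (-Real.pi * |y|)) : ℝ) : ℂ)) := by
    refine ⟨by fun_prop, |C|, Real.pi - 1, by linarith [Real.pi_gt_three], fun y => ?_⟩
    rw [Complex.norm_real, Real.norm_eq_abs, abs_mul, abs_mul, Real.abs_exp, Real.abs_exp]
    have h1 : Real.exp |y| * (|C| * Real.exp (-Real.pi * |y|)) = |C| * Real.exp (-(Real.pi - 1) * |y|) := by
      rw [mul_left_comm, ← Real.exp_add]
      congr 2
      ring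
    rw [h1]
  have h1 := (mo_int hW 1 0).re
  refine h1.congr (Filter.Eventually.of_forall fun y => ?_)
  simp only [Polynomial.eval_one, Complex.ofReal_zero, mul_zero, zero_mul, Complex.exp_zero, one_mul]
  rfl

theorem HFTb_re (e v : ℝ) : ((e : ℂ) + I * v).re = e := by
  simp [Complex.add_re, Complex.mul_re]

theorem HFTb_re2 (e v y : ℝ) : (((e : ℂ) + I * v) * y).re = e * y := by
  simp [Complex.add_re, Complex.mul_re, Complex.mul_im]

theorem HFTb_lim {γ : ℝ} (h0 : 0 < γ) (h1 : γ < Real.pi) (v : ℝ) :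
    Filter.Tendsto (fun n : ℕ => ∫ y : ℝ, cexp ((((-(1 / ((n:ℝ) + 1)) : ℝ) : ℂ) + I * v) * y) * ((wg γ y : ℝ) : ℂ))
      Filter.atTop (nhds (Mo (fun y => ((wg γ y : ℝ) : ℂ)) 1 v)) := by
  have hMo : Mo (fun y => ((wg γ y : ℝ) : ℂ)) 1 v = ∫ y : ℝ, cexp ((((0 : ℝ) : ℂ) + I * v) * y) * ((wg γ y : ℝ) : ℂ) := by
    unfold Mo
    refine integral_congr_ae (Filter.Eventually.of_forall fun y => ?_)
    simp only [Polynomial.eval_one, one_mul, Complex.ofReal_zero, zero_add]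
  rw [hMo]
  have hcont : Continuous (fun y => ((wg γ y : ℝ) : ℂ)) := (wg_edec h0 h1).1
  refine tendsto_integral_of_dominated_convergence
    (fun y : ℝ => Real.exp |y| * (2 / (1 - |Real.cos γ|) * Real.exp (-Real.pi * |y|))) ?_ (HFTb_int _) ?_ ?_
  · intro n
    exact (by fun_prop : Continuous (fun y : ℝ => cexp ((((-(1 / ((n:ℝ) + 1)) : ℝ) : ℂ) + I * v) * y) *
      ((wg γ y : ℝ) : ℂ))).aestronglyMeasurable
  · intro n
    refine Filter.Eventually.of_forall fun y => ?_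
    have hw := wg_pos h0 h1 y
    rw [norm_mul, Complex.norm_exp, Complex.norm_real, Real.norm_eq_abs, abs_of_pos hw]
    have hre : ((((-(1 / ((n:ℝ) + 1)) : ℝ) : ℂ) + I * v) * y).re = -(1 / ((n:ℝ) + 1)) * y :=
      HFTb_re2 _ v y
    rw [hre]
    have hn : 1 / ((n:ℝ) + 1) ≤ 1 := by
      rw [div_le_one (by positivity)]
      have : (0:ℝ) ≤ n := Nat.cast_nonneg n
      linarith
    have hn0 : 0 ≤ 1 / ((n:ℝ) + 1) := by positivity
    have h2 : -(1 / ((n:ℝ) + 1)) * y ≤ |y| := by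
      calc -(1 / ((n:ℝ) + 1)) * y = (1 / ((n:ℝ) + 1)) * (-y) := by ring
        _ ≤ (1 / ((n:ℝ) + 1)) * |y| := mul_le_mul_of_nonneg_left (neg_le_abs y) hn0
        _ ≤ 1 * |y| := mul_le_mul_of_nonneg_right hn (abs_nonneg y)
        _ = |y| := one_mul _
    exact mul_le_mul (Real.exp_le_exp.2 h2) (wg_le h0 h1 y) hw.le (Real.exp_pos _).le
  · refine Filter.Eventually.of_forall fun y => ?_
    have h2 : Filter.Tendsto (fun n : ℕ => -(1 / ((n:ℝ) + 1))) Filter.atTop (nhds (0 : ℝ)) := by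
      have h3 := (tendsto_one_div_add_atTop_nhds_zero_nat (𝕜 := ℝ)).neg
      rw [neg_zero] at h3
      exact h3
    have h4 : Continuous (fun e : ℝ => cexp (((e : ℂ) + I * v) * y) * ((wg γ y : ℝ) : ℂ)) := by fun_prop
    exact (h4.tendsto 0).comp h2

theorem hftb {γ : ℝ} (h0 : 0 < γ) (h1 : γ < Real.pi) (v : ℝ) :
    (Real.sin γ : ℂ) * (Real.sinh v : ℂ) * Mo (fun y => ((wg γ y : ℝ) : ℂ)) 1 v
      = 2 * ((Real.sinh (γ / Real.pi * v) : ℝ) : ℂ) := by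
  have h2 : Filter.Tendsto (fun n : ℕ => -(1 / ((n:ℝ) + 1))) Filter.atTop (nhds (0 : ℝ)) := by
    have h3 := (tendsto_one_div_add_atTop_nhds_zero_nat (𝕜 := ℝ)).neg
    rw [neg_zero] at h3
    exact h3
  have hc1 : Continuous (fun e : ℝ => Complex.sin ((e : ℂ) + I * v)) := by fun_prop
  have hc2 : Continuous (fun e : ℝ => 2 * Complex.sin (γ * ((e : ℂ) + I * v) / Real.pi)) := by fun_prop
  have hL : Filter.Tendsto (fun n : ℕ => (Real.sin γ : ℂ) * Complex.sin (((-(1 / ((n:ℝ) + 1)) : ℝ) : ℂ) + I * v) *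
      ∫ y : ℝ, cexp ((((-(1 / ((n:ℝ) + 1)) : ℝ) : ℂ) + I * v) * y) * ((wg γ y : ℝ) : ℂ)) Filter.atTop
      (nhds ((Real.sin γ : ℂ) * Complex.sin (((0 : ℝ) : ℂ) + I * v) * Mo (fun y => ((wg γ y : ℝ) : ℂ)) 1 v)) :=
    (((hc1.tendsto 0).comp h2).const_mul _).mul (HFTb_lim h0 h1 v)
  have hR : Filter.Tendsto (fun n : ℕ => 2 * Complex.sin (γ * (((-(1 / ((n:ℝ) + 1)) : ℝ) : ℂ) + I * v) / Real.pi))
      Filter.atTop (nhds (2 * Complex.sin (γ * (((0 : ℝ) : ℂ) + I * v) / Real.pi))) := (hc2.tendsto 0).comp h2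
  have heq : ∀ n : ℕ, (Real.sin γ : ℂ) * Complex.sin (((-(1 / ((n:ℝ) + 1)) : ℝ) : ℂ) + I * v) *
      ∫ y : ℝ, cexp ((((-(1 / ((n:ℝ) + 1)) : ℝ) : ℂ) + I * v) * y) * ((wg γ y : ℝ) : ℂ) =
      2 * Complex.sin (γ * (((-(1 / ((n:ℝ) + 1)) : ℝ) : ℂ) + I * v) / Real.pi) := by
    intro n
    have hre : (((-(1 / ((n:ℝ) + 1)) : ℝ) : ℂ) + I * v).re = -(1 / ((n:ℝ) + 1)) :=
      HFTb_re _ v
    have hn : 1 / ((n:ℝ) + 1) ≤ 1 := by
      rw [div_le_one (by positivity)]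
      have : (0:ℝ) ≤ n := Nat.cast_nonneg n
      linarith
    have hn0 : 0 < 1 / ((n:ℝ) + 1) := by positivity
    refine hfta h0 h1 ?_ ?_
    · rw [hre]
      linarith [Real.pi_gt_three]
    · rw [hre]
      linarith
  have hfin := tendsto_nhds_unique hL (hR.congr fun n => (heq n).symm)
  have e1 : Complex.sin (((0 : ℝ) : ℂ) + I * v) = (Real.sinh v : ℂ) * I := by
    rw [Complex.ofReal_zero, zero_add, mul_comm, Complex.sin_mul_I, Complex.ofReal_sinh]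
  have e2 : Complex.sin (γ * (((0 : ℝ) : ℂ) + I * v) / Real.pi) = ((Real.sinh (γ / Real.pi * v) : ℝ) : ℂ) * I := by
    have e3 : (γ : ℂ) * (((0 : ℝ) : ℂ) + I * v) / Real.pi = ((γ / Real.pi * v : ℝ) : ℂ) * I := by
      push_cast
      ring
    rw [e3, Complex.sin_mul_I, Complex.ofReal_sinh]
  rw [e1, e2] at hfin
  have hI : (I : ℂ) ≠ 0 := Complex.I_ne_zero
  apply mul_right_cancel₀ hI
  linear_combination hfin

theorem hft_zero {γ : ℝ} (h0 : 0 < γ) (h1 : γ < Real.pi) :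
    Mo (fun y => ((wg γ y : ℝ) : ℂ)) 1 0 = ((2 * γ / (Real.pi * Real.sin γ) : ℝ) : ℂ) := by
  have hs : 0 < Real.sin γ := Real.sin_pos_of_pos_of_lt_pi h0 h1
  have hW := wg_edec h0 h1
  have hd1 : HasDerivAt (fun v : ℝ => ((Real.sinh v : ℝ) : ℂ)) ((Real.cosh 0 : ℝ) : ℂ) 0 :=
    (Real.hasDerivAt_sinh 0).ofReal_comp
  have hd2 := mo_deriv hW 1 0
  have hd3 : HasDerivAt (fun v : ℝ => (Real.sin γ : ℂ) * (Real.sinh v : ℂ) * Mo (fun y => ((wg γ y : ℝ) : ℂ)) 1 v)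
      ((Real.sin γ : ℂ) * ((Real.cosh 0 : ℝ) : ℂ) * Mo (fun y => ((wg γ y : ℝ) : ℂ)) 1 0 +
        (Real.sin γ : ℂ) * (Real.sinh 0 : ℂ) * (I * Mo (fun y => ((wg γ y : ℝ) : ℂ)) (Polynomial.X * 1) 0)) 0 :=
    (hd1.const_mul _).mul hd2
  have hd4 : HasDerivAt (fun v : ℝ => 2 * ((Real.sinh (γ / Real.pi * v) : ℝ) : ℂ))
      (2 * ((Real.cosh (γ / Real.pi * 0) * (γ / Real.pi * 1) : ℝ) : ℂ)) 0 := by
    have h5 : HasDerivAt (fun v : ℝ => γ / Real.pi * v) (γ / Real.pi * 1) 0 := (hasDerivAt_id 0).const_mul _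
    exact (h5.sinh.ofReal_comp).const_mul _
  have hfun : (fun v : ℝ => (Real.sin γ : ℂ) * (Real.sinh v : ℂ) * Mo (fun y => ((wg γ y : ℝ) : ℂ)) 1 v) =
      fun v : ℝ => 2 * ((Real.sinh (γ / Real.pi * v) : ℝ) : ℂ) := by
    funext v
    exact hftb h0 h1 v
  rw [hfun] at hd3
  have h6 := hd3.unique hd4
  rw [Real.sinh_zero, Real.cosh_zero, Complex.ofReal_zero, Complex.ofReal_one, mul_one, mul_zero, zero_mul, add_zero,
    mul_zero, Real.cosh_zero, one_mul, mul_one] at h6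
  have hs' : (Real.sin γ : ℂ) ≠ 0 := by
    rw [Complex.ofReal_ne_zero]
    exact hs.ne'
  have hp' : (Real.pi : ℂ) ≠ 0 := by
    rw [Complex.ofReal_ne_zero]
    exact Real.pi_ne_zero
  apply mul_left_cancel₀ hs'
  rw [h6]
  push_cast
  rw [Complex.ofReal_sin] at hs'
  field_simp

end PAS
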