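import Pool.Agent.Lib.MP_216314_pr.AS.ADef

/-!
H2. If `sinh v E_0(v) = K sinh(ν v)` and `E_0' = i E_1`, `E_{k+1}' = i (E_{k+2} + b_{k+1}² E_k)` with
`b_k² = k²(k²-ν²)/(4k²-1)`, then `E_k(0) = 0` for all `k ≥ 1`.

PROOF. For `k ≥ 1` put `R_k(v) = (i/(k+1)) sinh v E_{k+1} + cosh v E_k - (i/k) b_k² sinh v E_{k-1}`.
(1) `R_1 = 0`: differentiate the hypothesis twice: `(sinh E_0)' = cosh E_0 + i sinh E_1 = K ν cosh(νv)`;
`(sinh E_0)'' = sinh E_0 + 2 i cosh E_1 - sinh (E_2 + b_1² E_0) = K ν² sinh(νv) = ν² sinh E_0` (use `HasDerivAt.unique` for the functions equal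
everywhere). So `2i cosh E_1 - sinh E_2 + (1 - ν² - b_1²) sinh E_0 = 0`, and `b_1² = (1-ν²)/3`, so
`2i cosh E_1 - sinh E_2 + 2 b_1² sinh E_0 = 0`; `R_1 = (i/2) sinh E_2 + cosh E_1 - i b_1² sinh E_0 = (-i/2) * (2i cosh E_1 - sinh E_2 + 2 b_1² sinh E_0) = 0`.
(2) derivative identity for `k ≥ 1`: `R_k' = i [ (k+2)/(k+1) R_{k+1} + ((k-1)/k) b_k² R_{k-1} ]` (for `k = 1` the last term is `0`). Check:
`R_k' = (i/(k+1)) (cosh E_{k+1} + i sinh (E_{k+2} + b_{k+1}² E_k)) + sinh E_k + i cosh (E_{k+1} + b_k² E_{k-1})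
 - (i/k) b_k² (cosh E_{k-1} + i sinh (E_k + b_{k-1}² E_{k-2}))` (for `k = 1` the term with `E_{k-2}` is absent, consistent with `b_0² = 0`).
Coefficient of `sinh E_k`: `-b_{k+1}²/(k+1) + 1 + b_k²/k` versus `i (k+2)/(k+1) * (-(i/(k+1)) b_{k+1}²) + i ((k-1)/k) b_k² * (i/k)
= (k+2) b_{k+1}²/(k+1)² - (k-1) b_k²/k²`; difference `1 + b_k²(2k-1)/k² - b_{k+1}² (2k+3)/(k+1)² = 1 + (k²-ν²)/(2k+1) - ((k+1)²-ν²)/(2k+1) = 0`.
All other coefficients agree at once (`cosh E_{k+1}`: `i/(k+1) + i = i (k+2)/(k+1)`; `cosh E_{k-1}`: `i b_k² - (i/k) b_k² = i ((k-1)/k) b_k²`).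
(3) Induction: `R_k ≡ 0` and `R_{k-1} ≡ 0` (or `k = 1`) imply `R_k' ≡ 0`, hence `R_{k+1} ≡ 0`. At `v = 0`: `R_k(0) = E_k(0)`.
In Lean index with `k+1` to avoid subtraction: `R (k+1) v = (I/(k+2)) sinh v * E (k+2) v + cosh v * E (k+1) v - (I/(k+1)) * bsq ν (k+1) * sinh v * E k v`.
-/

open Complex

namespace PAS

private theorem HRk_alg (n u0 u1 u2 um b0 b1 bm s c E2 E1 E0 Em Emm : ℂ) (h0 : n * u0 = 1)
    (h1 : (n + 1) * u1 = 1) (h2 : (n + 2) * u2 = 1) (hm : ((n - 1) * um - 1) * bm = 0)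
    (hb : 1 + b0 * (2 * n - 1) * u0 ^ 2 - b1 * (2 * n + 3) * u1 ^ 2 = 0) :
    I * u1 * (c * E1 + s * (I * (E2 + b1 * E0))) + (s * E0 + c * (I * (E1 + b0 * Em))) -
      I * u0 * b0 * (c * Em + s * (I * (E0 + bm * Emm))) =
    I * ((n + 2) * u1 * (I * u2 * (s * E2) + c * E1 - I * u1 * b1 * (s * E0)) +
      (n - 1) * u0 * b0 * (I * u0 * (s * E0) + c * Em - I * um * bm * (s * Emm))) := by
  linear_combination (-(I * c * E1) + s * E0 * b1 * u1) * h1 + (s * E2 * u1) * h2 +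
    (s * E0) * hb + (-(s * E0 * b0 * u0) - I * b0 * c * Em) * h0 - (u0 * b0 * s * Emm) * hm +
    (u1 * s * (E2 + b1 * E0) - u0 * b0 * s * (E0 + bm * Emm) -
      ((n + 2) * u1 * u2 * s * E2 - (n + 2) * u1 ^ 2 * b1 * s * E0 +
        (n - 1) * u0 ^ 2 * b0 * s * E0 - (n - 1) * u0 * um * b0 * bm * s * Emm)) * Complex.I_sq

private theorem HRk_b (ν : ℝ) (k : ℕ) :
    1 + (bsq ν (k + 1) : ℂ) * (2 * ((k : ℂ) + 1) - 1) * (((k : ℂ) + 1)⁻¹) ^ 2 -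
      (bsq ν (k + 2) : ℂ) * (2 * ((k : ℂ) + 1) + 3) * ((((k : ℂ) + 1) + 1)⁻¹) ^ 2 = 0 := by
  have h : 1 + bsq ν (k + 1) * (2 * ((k : ℝ) + 1) - 1) * (((k : ℝ) + 1)⁻¹) ^ 2 -
      bsq ν (k + 2) * (2 * ((k : ℝ) + 1) + 3) * ((((k : ℝ) + 1) + 1)⁻¹) ^ 2 = 0 := by
    unfold bsq
    push_cast
    have hk : (0 : ℝ) ≤ k := Nat.cast_nonneg k
    have e1 : (k : ℝ) + 1 ≠ 0 := by positivity
    have e2 : (k : ℝ) + 1 + 1 ≠ 0 := by positivity
    have e2' : (k : ℝ) + 2 ≠ 0 := by positivity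
    have e3 : 2 * (k : ℝ) + 1 ≠ 0 := by positivity
    have e4 : 2 * (k : ℝ) + 3 ≠ 0 := by positivity
    have e5 : 2 * (k : ℝ) + 5 ≠ 0 := by positivity
    have f1 : 4 * ((k : ℝ) + 1) ^ 2 - 1 = (2 * k + 1) * (2 * k + 3) := by ring
    have f2 : 4 * ((k : ℝ) + 2) ^ 2 - 1 = (2 * k + 3) * (2 * k + 5) := by ring
    have f3 : (k : ℝ) + 1 + 1 = k + 2 := by ring
    rw [f1, f2, f3]
    field_simp
    ring
  have h2 := congrArg Complex.ofReal h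
  push_cast at h2
  exact h2

private noncomputable def HRk_R (ν : ℝ) (E : ℕ → ℝ → ℂ) (k : ℕ) (v : ℝ) : ℂ :=
  I * (((k : ℂ) + 1) + 1)⁻¹ * (((Real.sinh v : ℝ) : ℂ) * E (k + 2) v) +
    ((Real.cosh v : ℝ) : ℂ) * E (k + 1) v -
    I * ((k : ℂ) + 1)⁻¹ * (bsq ν (k + 1) : ℂ) * (((Real.sinh v : ℝ) : ℂ) * E k v)

private theorem HRk_sinh (v : ℝ) :
    HasDerivAt (fun x : ℝ => ((Real.sinh x : ℝ) : ℂ)) ((Real.cosh v : ℝ) : ℂ) v :=
  (Real.hasDerivAt_sinh v).ofReal_comp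

private theorem HRk_cosh (v : ℝ) :
    HasDerivAt (fun x : ℝ => ((Real.cosh x : ℝ) : ℂ)) ((Real.sinh v : ℝ) : ℂ) v :=
  (Real.hasDerivAt_cosh v).ofReal_comp

private theorem HRk_der (ν : ℝ) (E : ℕ → ℝ → ℂ)
    (hk : ∀ k v, HasDerivAt (E (k+1)) (I * (E (k+2) v + (bsq ν (k+1) : ℂ) * E k v)) v)
    (k : ℕ) (v : ℝ) (e : ℂ) (he : HasDerivAt (E k) e v) :
    HasDerivAt (HRk_R ν E k)
      (I * (((k : ℂ) + 1) + 1)⁻¹ * (((Real.cosh v : ℝ) : ℂ) * E (k + 2) v +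
        ((Real.sinh v : ℝ) : ℂ) * (I * (E (k + 3) v + (bsq ν (k + 2) : ℂ) * E (k + 1) v))) +
      (((Real.sinh v : ℝ) : ℂ) * E (k + 1) v +
        ((Real.cosh v : ℝ) : ℂ) * (I * (E (k + 2) v + (bsq ν (k + 1) : ℂ) * E k v))) -
      I * ((k : ℂ) + 1)⁻¹ * (bsq ν (k + 1) : ℂ) * (((Real.cosh v : ℝ) : ℂ) * E k v +
        ((Real.sinh v : ℝ) : ℂ) * e)) v := by
  have d1 := ((HRk_sinh v).mul (hk (k + 1) v)).const_mul (I * (((k : ℂ) + 1) + 1)⁻¹)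
  have d2 := (HRk_cosh v).mul (hk k v)
  have d3 := ((HRk_sinh v).mul he).const_mul (I * ((k : ℂ) + 1)⁻¹ * (bsq ν (k + 1) : ℂ))
  exact (d1.add d2).sub d3

private theorem HRk_zero (ν : ℝ) (K : ℂ) (E : ℕ → ℝ → ℂ)
    (h0 : ∀ v, HasDerivAt (E 0) (I * E 1 v) v)
    (hk : ∀ k v, HasDerivAt (E (k+1)) (I * (E (k+2) v + (bsq ν (k+1) : ℂ) * E k v)) v)
    (hs : ∀ v : ℝ, ((Real.sinh v : ℝ) : ℂ) * E 0 v = K * ((Real.sinh (ν * v) : ℝ) : ℂ)) (v : ℝ) :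
    HRk_R ν E 0 v = 0 := by
  have hS : ∀ v : ℝ, HasDerivAt (fun x : ℝ => ((Real.sinh (ν * x) : ℝ) : ℂ))
      (((Real.cosh (ν * v) * ν : ℝ)) : ℂ) v := by
    intro v
    have h1 : HasDerivAt (fun x : ℝ => ν * x) ν v := by
      have := (hasDerivAt_id v).const_mul ν
      rw [mul_one] at this
      exact this
    exact ((Real.hasDerivAt_sinh (ν * v)).comp v h1).ofReal_comp
  have hC : ∀ v : ℝ, HasDerivAt (fun x : ℝ => ((Real.cosh (ν * x) * ν : ℝ) : ℂ))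
      (((Real.sinh (ν * v) * ν * ν : ℝ)) : ℂ) v := by
    intro v
    have h1 : HasDerivAt (fun x : ℝ => ν * x) ν v := by
      have := (hasDerivAt_id v).const_mul ν
      rw [mul_one] at this
      exact this
    exact (((Real.hasDerivAt_cosh (ν * v)).comp v h1).mul_const ν).ofReal_comp
  have hd1 : ∀ v : ℝ, ((Real.cosh v : ℝ) : ℂ) * E 0 v + ((Real.sinh v : ℝ) : ℂ) * (I * E 1 v) =
      K * (((Real.cosh (ν * v) * ν : ℝ)) : ℂ) := by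
    intro v
    have d1 := (HRk_sinh v).mul (h0 v)
    have d2 := (hS v).const_mul K
    have e1 : (fun x : ℝ => ((Real.sinh x : ℝ) : ℂ)) * E 0 =
        fun x : ℝ => K * ((Real.sinh (ν * x) : ℝ) : ℂ) := by
      funext x
      exact hs x
    rw [e1] at d1
    exact d1.unique d2
  have hd2 : (((Real.sinh v : ℝ) : ℂ) * E 0 v + ((Real.cosh v : ℝ) : ℂ) * (I * E 1 v)) +
      (((Real.cosh v : ℝ) : ℂ) * (I * E 1 v) + ((Real.sinh v : ℝ) : ℂ) *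
        (I * (I * (E 2 v + (bsq ν 1 : ℂ) * E 0 v)))) =
      K * (((Real.sinh (ν * v) * ν * ν : ℝ)) : ℂ) := by
    have d1 := ((HRk_cosh v).mul (h0 v)).add ((HRk_sinh v).mul ((hk 0 v).const_mul I))
    have d2 := (hC v).const_mul K
    have e1 : (fun x : ℝ => ((Real.cosh x : ℝ) : ℂ)) * E 0 +
        (fun x : ℝ => ((Real.sinh x : ℝ) : ℂ)) * (fun x => I * E (0 + 1) x) =
        fun x : ℝ => K * (((Real.cosh (ν * x) * ν : ℝ)) : ℂ) := by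
      funext x
      exact hd1 x
    rw [e1] at d1
    exact d1.unique d2
  have hb : (bsq ν 1 : ℂ) * 3 = 1 - (ν : ℂ) ^ 2 := by
    have h1 : bsq ν 1 * 3 = 1 - ν ^ 2 := by
      unfold bsq
      norm_num
    exact_mod_cast congrArg (fun x : ℝ => (x : ℂ)) h1
  have h3 := hs v
  unfold HRk_R
  push_cast at hd2 h3 ⊢
  rw [zero_add]
  have hI : I * I = -1 := Complex.I_mul_I
  linear_combination (-(I / 2)) * hd2 + (I / 2 * (ν : ℂ) ^ 2) * h3 +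
    (-(I / 2) * (Complex.sinh v * E 0 v)) * hb + (I / 2 * (Complex.sinh v) * (E 2 v + (bsq ν 1 : ℂ) * E 0 v) +
      Complex.cosh v * E 1 v) * hI

theorem hrk (ν : ℝ) (K : ℂ) (E : ℕ → ℝ → ℂ)
    (h0 : ∀ v, HasDerivAt (E 0) (I * E 1 v) v)
    (hk : ∀ k v, HasDerivAt (E (k+1)) (I * (E (k+2) v + (bsq ν (k+1) : ℂ) * E k v)) v)
    (hs : ∀ v : ℝ, ((Real.sinh v : ℝ) : ℂ) * E 0 v = K * ((Real.sinh (ν * v) : ℝ) : ℂ)) (k : ℕ) :
    E (k+1) 0 = 0 := by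
  have hne : ∀ m : ℕ, (m : ℂ) + 1 ≠ 0 := fun m => by exact_mod_cast Nat.succ_ne_zero m
  have key : ∀ m : ℕ, (∀ v, HRk_R ν E m v = 0) ∧ (∀ v, HRk_R ν E (m + 1) v = 0) := by
    intro m
    induction m with
    | zero =>
      have hz := HRk_zero ν K E h0 hk hs
      refine ⟨hz, fun v => ?_⟩
      have d1 := HRk_der ν E hk 0 v _ (h0 v)
      have e0 : HRk_R ν E 0 = fun _ => 0 := by
        funext x
        exact hz x
      rw [e0] at d1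
      have d2 := d1.unique (hasDerivAt_const v (0 : ℂ))
      have d3 := HRk_alg 1 ((0 : ℂ) + 1)⁻¹ (((0 : ℂ) + 1) + 1)⁻¹ (((1 : ℂ) + 1) + 1)⁻¹ 0
        (bsq ν 1) (bsq ν 2) 0 ((Real.sinh v : ℝ) : ℂ) ((Real.cosh v : ℝ) : ℂ) (E 3 v) (E 2 v)
        (E 1 v) (E 0 v) 0 (by norm_num) (by norm_num) (by norm_num) (by norm_num)
        (by
          have := HRk_b ν 0
          simp only [Nat.cast_zero, zero_add] at this ⊢
          exact this)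
      simp only [Nat.cast_zero, zero_add, mul_zero, add_zero, sub_zero, sub_self, zero_mul] at d2 d3
      rw [d2] at d3
      have e3 : HRk_R ν E (0 + 1) v = I * (((1 : ℂ) + 1) + 1)⁻¹ * (((Real.sinh v : ℝ) : ℂ) * E 3 v) +
          ((Real.cosh v : ℝ) : ℂ) * E 2 v -
          I * ((1 : ℂ) + 1)⁻¹ * (bsq ν 2 : ℂ) * (((Real.sinh v : ℝ) : ℂ) * E 1 v) := by
        unfold HRk_R
        rw [zero_add, Nat.cast_one]
      rw [e3]
      have hc : I * (((1 : ℂ) + 2) * ((1 : ℂ) + 1)⁻¹) ≠ 0 := by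
        refine mul_ne_zero Complex.I_ne_zero (mul_ne_zero (by norm_num) (by norm_num))
      refine (mul_eq_zero.1 ?_).resolve_left hc
      rw [d3]
      ring
    | succ m ih =>
      refine ⟨ih.2, fun v => ?_⟩
      have d1 := HRk_der ν E hk (m + 1) v _ (hk m v)
      have e0 : HRk_R ν E (m + 1) = fun _ => 0 := by
        funext x
        exact ih.2 x
      rw [e0] at d1
      have d2 := d1.unique (hasDerivAt_const v (0 : ℂ))
      have hc1 : ((m + 1 : ℕ) : ℂ) + 1 ≠ 0 := hne (m + 1)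
      have hc2 : (((m + 1 : ℕ) : ℂ) + 1) + 1 ≠ 0 := by
        have := hne (m + 1 + 1)
        rwa [Nat.cast_succ (m + 1)] at this
      have hc3 : ((((m + 1 : ℕ) : ℂ) + 1) + 1) + 1 ≠ 0 := by
        have := hne (m + 1 + 1 + 1)
        rwa [Nat.cast_succ (m + 1 + 1), Nat.cast_succ (m + 1)] at this
      have hc0 : (m : ℂ) + 1 ≠ 0 := hne m
      have d3 := HRk_alg (((m + 1 : ℕ) : ℂ) + 1) (((m + 1 : ℕ) : ℂ) + 1)⁻¹
        ((((m + 1 : ℕ) : ℂ) + 1) + 1)⁻¹ (((((m + 1 : ℕ) : ℂ) + 1) + 1) + 1)⁻¹ ((m : ℂ) + 1)⁻¹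
        (bsq ν (m + 2)) (bsq ν (m + 3)) (bsq ν (m + 1)) ((Real.sinh v : ℝ) : ℂ)
        ((Real.cosh v : ℝ) : ℂ) (E (m + 4) v) (E (m + 3) v)
        (E (m + 2) v) (E (m + 1) v) (E m v) (mul_inv_cancel₀ hc1) (mul_inv_cancel₀ hc2)
        (by
          have : (((m + 1 : ℕ) : ℂ) + 1) + 2 = ((((m + 1 : ℕ) : ℂ) + 1) + 1) + 1 := by ring
          rw [this]
          exact mul_inv_cancel₀ hc3)
        (by
          have : (((m + 1 : ℕ) : ℂ) + 1) - 1 = (m : ℂ) + 1 := by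
            rw [Nat.cast_succ]
            ring
          rw [this, mul_inv_cancel₀ hc0, sub_self, zero_mul])
        (HRk_b ν (m + 1))
      rw [d2] at d3
      have e4 := ih.1 v
      have e5 : I * (((m + 1 : ℕ) : ℂ) + 1)⁻¹ * (((Real.sinh v : ℝ) : ℂ) * E (m + 2) v) +
          ((Real.cosh v : ℝ) : ℂ) * E (m + 1) v -
          I * ((m : ℂ) + 1)⁻¹ * (bsq ν (m + 1) : ℂ) * (((Real.sinh v : ℝ) : ℂ) * E m v) = 0 := by
        unfold HRk_R at e4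
        rw [Nat.cast_succ]
        exact e4
      rw [e5, mul_zero, add_zero] at d3
      have hc : I * (((((m + 1 : ℕ) : ℂ) + 1) + 2) * ((((m + 1 : ℕ) : ℂ) + 1) + 1)⁻¹) ≠ 0 := by
        refine mul_ne_zero Complex.I_ne_zero (mul_ne_zero ?_ (inv_ne_zero hc2))
        have : (((m + 1 : ℕ) : ℂ) + 1) + 2 = ((((m + 1 : ℕ) : ℂ) + 1) + 1) + 1 := by ring
        rw [this]
        exact hc3
      refine (mul_eq_zero.1 ?_).resolve_left hc
      rw [d3]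
      unfold HRk_R
      rw [Nat.cast_succ (m + 1)]
      ring
  have h1 := (key k).1 0
  unfold HRk_R at h1
  rw [Real.sinh_zero, Real.cosh_zero] at h1
  simpa using h1

end PAS
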