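import Pool.Agent.Lib.MP_216314_pr.AS.HFTb
import Pool.Agent.Lib.MP_216314_pr.AS.HRk
import Pool.Agent.Lib.MP_216314_pr.AS.GFav

/-!
H3. Orthogonality for `w_γ`, `ν = γ/π`: `∫ p_i p_j w_γ = δ_ij h_j`, `h_j = 2γ/(π sin γ) ∏_{1≤l≤j} b_l²`.

PROOF. `E k v = Mo w_γ (polW ν k) v`. `mo_deriv`: derivative `I * Mo (X * p_k)`, `X * p_0 = p_1` and `X * p_{k+1} = p_{k+2} + C (bsq ν (k+1)) * p_k`
(definition of `pol` with `al = 1`, `be = 0`), linearity (`mo_add`, `mo_C_mul`). `hs` from `hftb` with `K = 2/sin γ` (`sin γ ≠ 0`).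
`hrk` gives `Mo w_γ (polW ν (k+1)) 0 = 0`. Then `favard` with `L = MoL`, `al = 1`, `ga k = bsq ν k`, `h j = h_0 ∏_{l<j} bsq ν (l+1)`,
`h 0 = hft_zero`.
-/

open MeasureTheory Complex

namespace PAS

theorem HOrth_X0 (ν : ℝ) : Polynomial.X * polW ν 0 = polW ν 1 := by
  simp only [polW, pol, Polynomial.C_1, Polynomial.C_0]
  ring

theorem HOrth_X1 (ν : ℝ) (k : ℕ) : Polynomial.X * polW ν (k+1)
    = polW ν (k+2) + Polynomial.C ((bsq ν (k+1) : ℝ) : ℂ) * polW ν k := by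
  simp only [polW, pol, Polynomial.C_1, Polynomial.C_0]
  ring

theorem HOrth_zero {γ : ℝ} (h0 : 0 < γ) (h1 : γ < Real.pi) (k : ℕ) :
    Mo (fun y => ((wg γ y : ℝ) : ℂ)) (polW (γ / Real.pi) (k+1)) 0 = 0 := by
  have hW := wg_edec h0 h1
  have hs0 : (Real.sin γ : ℂ) ≠ 0 := by
    have := Real.sin_pos_of_pos_of_lt_pi h0 h1
    exact_mod_cast this.ne'
  refine hrk (γ / Real.pi) (2 / (Real.sin γ : ℂ))
    (fun k v => Mo (fun y => ((wg γ y : ℝ) : ℂ)) (polW (γ / Real.pi) k) v) ?_ ?_ ?_ k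
  · intro v
    have := mo_deriv hW (polW (γ / Real.pi) 0) v
    rw [HOrth_X0] at this
    exact this
  · intro k v
    have := mo_deriv hW (polW (γ / Real.pi) (k+1)) v
    rw [HOrth_X1, mo_add hW, mo_C_mul] at this
    exact this
  · intro v
    have h := hftb h0 h1 v
    have e : Mo (fun y => ((wg γ y : ℝ) : ℂ)) (polW (γ / Real.pi) 0) v
        = Mo (fun y => ((wg γ y : ℝ) : ℂ)) 1 v := rfl
    show ((Real.sinh v : ℝ) : ℂ) * Mo (fun y => ((wg γ y : ℝ) : ℂ)) (polW (γ / Real.pi) 0) v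
      = 2 / (Real.sin γ : ℂ) * ((Real.sinh (γ / Real.pi * v) : ℝ) : ℂ)
    rw [e, div_mul_eq_mul_div, eq_div_iff hs0]
    linear_combination h

theorem horth {γ : ℝ} (h0 : 0 < γ) (h1 : γ < Real.pi) (i j : ℕ) :
    Mo (fun y => ((wg γ y : ℝ) : ℂ)) (polW (γ / Real.pi) i * polW (γ / Real.pi) j) 0
      = if i = j then ((2 * γ / (Real.pi * Real.sin γ) * ∏ l ∈ Finset.range j, bsq (γ / Real.pi) (l+1) : ℝ) : ℂ)
        else 0 := by
  have hW := wg_edec h0 h1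
  refine favard (MoL (fun y => ((wg γ y : ℝ) : ℂ)) hW) (fun _ => 1) (fun k => ((bsq (γ / Real.pi) k : ℝ) : ℂ))
    (fun j => ((2 * γ / (Real.pi * Real.sin γ) * ∏ l ∈ Finset.range j, bsq (γ / Real.pi) (l+1) : ℝ) : ℂ))
    (fun _ => one_ne_zero) ?_ ?_ ?_ i j
  · show Mo (fun y => ((wg γ y : ℝ) : ℂ)) 1 0 = _
    rw [hft_zero h0 h1]
    simp
  · intro k
    exact HOrth_zero h0 h1 k
  · intro j
    simp only [Finset.prod_range_succ]
    push_cast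
    ring

end PAS
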